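import Pool.Agent.Lib.MP_0775d3_lc.Ox.FacDefs

/-! Project OX: groups with small or cyclic composition factors. -/

set_option linter.unusedSectionVars false
set_option linter.unusedVariables false

namespace MP0775d3.Ox

/-- All composition factors are cyclic or of order at most `b`. -/
inductive Fac0 (b : ℝ) : ∀ (G : Type) [Group G], Prop
  | one (G : Type) [Group G] : Subsingleton G → Fac0 b G
  | ext (G : Type) [Group G] (N : Subgroup G) : N.Normal → Fac0 b N →
      ((N.index : ℝ) ≤ b ∨ N.index.Prime) → Fac0 b G

theorem Fac0.fac {b : ℝ} {G : Type} [Group G] (h : Fac0 b G) : Fac b G := by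
  induction h with
  | one G hs => exact Fac.one G hs
  | ext G N hN _ h3 ih =>
    refine Fac.ext G N hN ih ?_
    rcases h3 with h3 | h3
    · exact Or.inl h3
    · exact Or.inr (Or.inl h3)

private theorem gfac_congr {b : ℝ} {G : Type} [Group G] (h : Fac0 b G) :
    ∀ (G' : Type) [Group G'] (e : G ≃* G'), Fac0 b G' := by
  induction h with
  | one G hs =>
    intro G' _ e
    exact Fac0.one G' e.symm.toEquiv.subsingleton
  | ext G N hN _ h3 ih =>
    intro G' _ e
    have h1 : Fac0 b (N.map e.toMonoidHom) := ih _ (e.subgroupMap N)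
    refine Fac0.ext G' (N.map e.toMonoidHom) (hN.map e.toMonoidHom e.surjective) h1 ?_
    have hi : (N.map e.toMonoidHom).index = N.index := by
      exact Subgroup.index_map_of_bijective e.bijective N
    rw [hi]
    exact h3

private theorem gfac_top {b : ℝ} {G : Type} [Group G] {H : Subgroup G} (hH : H = ⊤)
    (h : Fac0 b H) : Fac0 b G := by
  rw [hH] at h
  exact gfac_congr h G Subgroup.topEquiv

private theorem gfac_step {b : ℝ} {G : Type} [Group G] {H : Subgroup G} (hN : H.Normal)
    (h : Fac0 b H) {n : ℕ} (hn : n ≠ 0) (hd : H.index ∣ n) (h3 : (n : ℝ) ≤ b ∨ n.Prime) :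
    Fac0 b G := by
  rcases h3 with h3 | h3
  · refine Fac0.ext G H hN h (Or.inl (le_trans ?_ h3))
    exact_mod_cast Nat.le_of_dvd (Nat.pos_of_ne_zero hn) hd
  · rcases (Nat.dvd_prime h3).1 hd with h4 | h4
    · exact gfac_top (Subgroup.index_eq_one.1 h4) h
    · refine Fac0.ext G H hN h (Or.inr ?_)
      rw [h4]
      exact h3

private theorem gfac_inj {b : ℝ} {G' : Type} [Group G'] (h : Fac0 b G') :
    Finite G' → ∀ (G : Type) [Group G] (ι : G →* G'), Function.Injective ι → Fac0 b G := by
  induction h with
  | one G' hs =>
    intro _ G _ ι hι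
    exact Fac0.one G (hι.subsingleton)
  | ext G' N hN _ h3 ih =>
    intro hf G _ ι hι
    have h1 : Fac0 b (N.comap ι) := by
      refine ih inferInstance _ (ι.subgroupComap N) ?_
      intro x y hxy
      apply Subtype.ext
      apply hι
      exact congrArg Subtype.val hxy
    refine gfac_step (hN.comap ι) h1 (n := N.index) Subgroup.index_ne_zero_of_finite ?_ h3
    rw [Subgroup.index_comap]
    exact Subgroup.relIndex_dvd_index_of_normal N ι.range

private theorem gfac_quot {b : ℝ} {G : Type} [Group G] (h : Fac0 b G) :
    Finite G → ∀ (Q : Type) [Group Q] (φ : G →* Q), Function.Surjective φ → Fac0 b Q := by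
  induction h with
  | one G hs =>
    intro _ Q _ φ hφ
    exact Fac0.one Q (hφ.subsingleton)
  | ext G N hN _ h3 ih =>
    intro hf Q _ φ hφ
    have h1 : Fac0 b (N.map φ) :=
      ih inferInstance _ (φ.subgroupMap N) (φ.subgroupMap_surjective N)
    exact gfac_step (hN.map φ hφ) h1 (n := N.index) Subgroup.index_ne_zero_of_finite
      (Subgroup.index_map_dvd N hφ) h3

private theorem gfac_extend {b : ℝ} {Q : Type} [Group Q] (h' : Fac0 b Q) :
    ∀ (G : Type) [Group G] (φ : G →* Q), Function.Surjective φ → Fac0 b φ.ker → Fac0 b G := by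
  induction h' with
  | one Q hs =>
    intro G _ φ hφ h
    refine gfac_top (H := φ.ker) ?_ h
    ext x
    simp [MonoidHom.mem_ker, Subsingleton.elim (φ x) 1]
  | ext Q N hN _ h3 ih =>
    intro G _ φ hφ h
    have hM : Fac0 b (N.comap φ) := by
      refine ih (N.comap φ) (φ.subgroupComap N) ?_ ?_
      · intro y
        obtain ⟨x, hx⟩ := hφ y
        refine ⟨⟨x, ?_⟩, ?_⟩
        · rw [Subgroup.mem_comap, hx]
          exact y.2
        · exact Subtype.ext hx
      · have hle : φ.ker ≤ N.comap φ := Subgroup.ker_le_comap φ N
        have hk : (φ.subgroupComap N).ker = φ.ker.subgroupOf (N.comap φ) := by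
          ext x
          rw [MonoidHom.mem_ker, Subgroup.mem_subgroupOf, MonoidHom.mem_ker, Subtype.ext_iff]
          rfl
        rw [hk]
        exact gfac_congr h _ (Subgroup.subgroupOfEquivOfLe hle).symm
    refine Fac0.ext G (N.comap φ) (hN.comap φ) hM ?_
    rw [Subgroup.index_comap_of_surjective N hφ]
    exact h3

/-- PROOF. Induction on `Fac0` for `G'`: the preimage of `N` is normal in `G`, of index at most that of `N`; if the index of `N` is a
prime, the index of the preimage is this prime or `1` (it divides, `G' ⧸ N` cyclic). -/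
theorem Fac0.inj {b : ℝ} {G G' : Type} [Group G] [Group G'] [Finite G'] (ι : G →* G')
    (hι : Function.Injective ι) (h : Fac0 b G') : Fac0 b G := by
  exact gfac_inj h inferInstance G ι hι

/-- PROOF. Induction on `Fac0` for `G`: the image of `N` is normal in `Q`, its index divides that of `N`. If it is `1`, then `N`
itself maps onto `Q`. -/
theorem Fac0.quot {b : ℝ} {G Q : Type} [Group G] [Group Q] [Finite G] (φ : G →* Q)
    (hφ : Function.Surjective φ) (h : Fac0 b G) : Fac0 b Q := by
  exact gfac_quot h inferInstance Q φ hφ

/-- PROOF. Induction on `Fac0 b Q`: preimages of the normal subgroups. -/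
theorem Fac0.extend {b : ℝ} {G Q : Type} [Group G] [Group Q] [Finite G] (φ : G →* Q)
    (hφ : Function.Surjective φ) (h : Fac0 b φ.ker) (h' : Fac0 b Q) : Fac0 b G := by
  exact gfac_extend h' G φ hφ h

/-- PROOF. Strong induction on the order: a normal subgroup of prime index (as `fac_solvable`). -/
theorem fac0_solvable (b : ℝ) (G : Type) [Group G] [Finite G] [Group.IsSolvable G] : Fac0 b G := by
  suffices H : ∀ n : ℕ, ∀ (G : Type) [Group G] [Finite G] [Group.IsSolvable G], Nat.card G = n →
      Fac0 b G from H _ G rfl
  intro n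
  induction n using Nat.strong_induction_on with
  | _ n ih =>
    intro G _ _ _ hn
    rcases subsingleton_or_nontrivial G with hs | hs
    · exact Fac0.one G hs
    · obtain ⟨N, ⟨hN1, hN2⟩, hmax⟩ := Set.exists_max_image
        {N : Subgroup G | N.Normal ∧ N ≠ ⊤} (fun N => Nat.card N) (Set.toFinite _)
        ⟨⊥, inferInstance, bot_ne_top⟩
      have := hN1
      have hss : IsSimpleGroup (G ⧸ N) := by
        have hnt : Nontrivial (G ⧸ N) := by
          by_contra hcon
          rw [not_nontrivial_iff_subsingleton] at hcon
          exact hN2 (QuotientGroup.subgroup_eq_top_of_subsingleton N hcon)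
        refine ⟨fun H hH => ?_⟩
        have hle : N ≤ H.comap (QuotientGroup.mk' N) := by
          intro x hx
          rw [Subgroup.mem_comap]
          have : QuotientGroup.mk' N x = 1 := by
            rw [← MonoidHom.mem_ker, QuotientGroup.ker_mk']
            exact hx
          rw [this]
          exact H.one_mem
        by_cases htop : H.comap (QuotientGroup.mk' N) = ⊤
        · right
          rw [← Subgroup.map_comap_eq_self_of_surjective (QuotientGroup.mk'_surjective N) H, htop]
          exact Subgroup.map_top_of_surjective _ (QuotientGroup.mk'_surjective N)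
        · left
          have h1 := hmax (H.comap (QuotientGroup.mk' N)) ⟨hH.comap _, htop⟩
          have h2 : N = H.comap (QuotientGroup.mk' N) :=
            Subgroup.eq_of_le_of_card_ge hle h1
          rw [← Subgroup.map_comap_eq_self_of_surjective (QuotientGroup.mk'_surjective N) H, ← h2]
          rw [Subgroup.map_eq_bot_iff, QuotientGroup.ker_mk']
      have hcomm := (IsSimpleGroup.comm_iff_isSolvable (G := G ⧸ N)).2 inferInstance
      have hp : (Nat.card (G ⧸ N)).Prime := by
        letI : CommGroup (G ⧸ N) := { (inferInstance : Group (G ⧸ N)) with mul_comm := hcomm }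
        exact IsSimpleGroup.prime_card
      have hlt : Nat.card N < n := by
        rw [← hn]
        have h1 := N.card_mul_index
        have h2 : N.index = Nat.card (G ⧸ N) := rfl
        have h3 := hp.two_le
        have h4 : 0 < Nat.card N := Nat.card_pos
        rw [h2] at h1
        nlinarith
      exact Fac0.ext G N hN1 (ih _ hlt N rfl) (Or.inr hp)

/-- PROOF. `Fac0.extend` to the range of `ψ`; the range has at most `b` elements, or is commutative: `fac0_solvable`. -/
theorem Fac0.ker {b : ℝ} {G P : Type} [Group G] [Group P] [Finite G] [Finite P] (ψ : G →* P)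
    (hP : (Nat.card P : ℝ) ≤ b ∨ ∀ x y : P, x * y = y * x) (h : Fac0 b ψ.ker) : Fac0 b G := by
  have h1 : Fac0 b ψ.range := by
    rcases hP with hP | hP
    · refine Fac0.ext _ ⊥ inferInstance (Fac0.one _ inferInstance) (Or.inl (le_trans ?_ hP))
      rw [Subgroup.index_bot]
      exact_mod_cast Nat.card_le_card_of_injective (fun x : ψ.range => (x : P))
        Subtype.val_injective
    · have : Group.IsSolvable ψ.range := Group.isSolvable_of_comm fun x y =>
        Subtype.ext (hP x y)
      exact fac0_solvable b _
  refine gfac_extend h1 G ψ.rangeRestrict ψ.rangeRestrict_surjective ?_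
  rw [MonoidHom.ker_rangeRestrict]
  exact h

end MP0775d3.Ox
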