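import Pool.Agent.Lib.MP_0775d3_lc.Ox.AdaptB

/-! Project OX: subgroups of small index. -/

set_option linter.unusedSectionVars false
set_option linter.unusedVariables false

namespace MP0775d3.Ox

open Matrix MP0775d3.Cf

variable {G H : Type} [Group G] [Group H] {ι : H →* G} {S : Sys H} (A : Ad ι S)

/-- PROOF. `A.mul`, `A.res`, entries of `rep`. -/
theorem index_fac (h : H) (g : G) (l : A.I) (i : S.I) (a : S.D i) (p : A.P l i)
    (z : Σ j, S.D j × A.P l j) :
    A.ρ l (ι h * g) ⟨i, (a, p)⟩ z = ∑ a', S.π i h a a' * A.ρ l g ⟨i, (a', p)⟩ z := by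
  rw [A.mul, A.res, Matrix.mul_apply, Fintype.sum_sigma, Finset.sum_eq_single i,
    Fintype.sum_prod_type]
  · refine Finset.sum_congr rfl fun e _ => ?_
    rw [Finset.sum_eq_single p, S.rep_same, if_pos rfl]
    · intro q _ hq
      rw [S.rep_same, if_neg (Ne.symm hq), zero_mul]
    · intro hb
      exact absurd (Finset.mem_univ p) hb
  · intro j _ hj
    refine Finset.sum_eq_zero fun x _ => ?_
    rw [S.rep_ne _ _ (Ne.symm hj), zero_mul]
  · intro hb
    exact absurd (Finset.mem_univ i) hb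

private def index_row (i : S.I) (a : S.D i) (x : Σ l, A.P l i × (Σ j, S.D j × A.P l j)) :
    Σ l : A.sys.I, A.sys.D l × A.sys.D l :=
  @Sigma.mk A.I (fun l => (Σ j, S.D j × A.P l j) × (Σ j, S.D j × A.P l j)) x.1
    (⟨i, (a, x.2.1)⟩, x.2.2)

private theorem index_row_inj (i : S.I) (a : S.D i) : Function.Injective (index_row A i a) := by
  rintro ⟨l, p, z⟩ ⟨l', p', z'⟩ h
  have h0 : (@Sigma.mk A.I (fun l => (Σ j, S.D j × A.P l j) × (Σ j, S.D j × A.P l j)) l
      (⟨i, (a, p)⟩, z)) = ⟨l', (⟨i, (a, p')⟩, z')⟩ := h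
  obtain ⟨rfl, h1⟩ := Sigma.mk.inj_iff.1 h0
  have h2 := eq_of_heq h1
  obtain ⟨h3, rfl⟩ := Prod.mk.inj h2
  have h4 := eq_of_heq (Sigma.mk.inj_iff.1 h3).2
  obtain ⟨-, rfl⟩ := Prod.mk.inj h4
  rfl

/-- PROOF. The rows of the matrix `(⟨l, (p, z)⟩, (a', q)) ↦ A.ρ l (r q) ⟨i, (a', p)⟩ z` are independent: fix `a₀`; a
relation `v` gives, by `index_fac` and surjectivity, a relation of the rows `⟨l, (⟨i, (a₀, p)⟩, z)⟩` of `A.sys.F`,
which are independent (`Sys.F_mul_F'`). More rows than columns would give a relation. -/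
theorem index_card [Finite G] {R : Type} [Fintype R] (r : R → G)
    (hr : Function.Surjective fun p : H × R => ι p.1 * r p.2) (i : S.I) :
    Fintype.card (Σ l, A.P l i × (Σ j, S.D j × A.P l j)) ≤ Fintype.card (S.D i × R) := by
  classical
  let _ : Fintype G := Fintype.ofFinite G
  obtain ⟨a₀⟩ := S.ne i
  obtain ⟨N, hN⟩ : ∃ N : Matrix (Σ l, A.P l i × (Σ j, S.D j × A.P l j)) (S.D i × R) ℂ,
      N = Matrix.of fun x y => A.ρ x.1 (r y.2) ⟨i, (y.1, x.2.1)⟩ x.2.2 := ⟨_, rfl⟩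
  have hinj : Function.Injective (Matrix.vecMulLinear N) := by
    refine (injective_iff_map_eq_zero _).2 fun v hv => ?_
    have hv1 : ∀ a' q, ∑ x, v x * A.ρ x.1 (r q) ⟨i, (a', x.2.1)⟩ x.2.2 = 0 := by
      intro a' q
      have h1 := congrFun hv (a', q)
      rw [Matrix.vecMulLinear_apply, hN] at h1
      exact h1
    have hv2 : ∀ g, ∑ x, v x * A.ρ x.1 g ⟨i, (a₀, x.2.1)⟩ x.2.2 = 0 := by
      intro g
      obtain ⟨⟨h, q⟩, rfl⟩ := hr g
      have h1 : ∀ x : (Σ l, A.P l i × (Σ j, S.D j × A.P l j)),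
          v x * A.ρ x.1 (ι h * r q) ⟨i, (a₀, x.2.1)⟩ x.2.2 =
          ∑ a', S.π i h a₀ a' * (v x * A.ρ x.1 (r q) ⟨i, (a', x.2.1)⟩ x.2.2) := by
        intro x
        rw [index_fac, Finset.mul_sum]
        exact Finset.sum_congr rfl fun a' _ => by ring
      refine (Finset.sum_congr rfl fun x _ => h1 x).trans ?_
      rw [Finset.sum_comm]
      refine Finset.sum_eq_zero fun a' _ => ?_
      rw [← Finset.mul_sum, hv1, mul_zero]
    funext x₀
    have h1 : ∀ x, (∑ g, A.sys.F (index_row A i a₀ x) g * A.sys.F' g (index_row A i a₀ x₀)) =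
        if x = x₀ then 1 else 0 := by
      intro x
      have h2 := congrFun (congrFun A.sys.F_mul_F' (index_row A i a₀ x)) (index_row A i a₀ x₀)
      rw [Matrix.mul_apply, Matrix.one_apply] at h2
      rw [h2]
      by_cases hx : x = x₀
      · rw [if_pos hx, if_pos (congrArg _ hx)]
      · rw [if_neg hx, if_neg fun h3 => hx (index_row_inj A i a₀ h3)]
    have h2 : v x₀ = ∑ x, v x * (if x = x₀ then 1 else 0) := by
      rw [Finset.sum_eq_single x₀]
      · rw [if_pos rfl, mul_one]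
      · intro x _ hx
        rw [if_neg hx, mul_zero]
      · intro hb
        exact absurd (Finset.mem_univ x₀) hb
    have h3 : ∑ x, v x * (if x = x₀ then (1 : ℂ) else 0) =
        ∑ g, (∑ x, v x * A.ρ x.1 g ⟨i, (a₀, x.2.1)⟩ x.2.2) *
          A.sys.F' g (index_row A i a₀ x₀) := by
      have h4 : ∀ x, v x * (if x = x₀ then (1 : ℂ) else 0) = ∑ g, v x *
          A.ρ x.1 g ⟨i, (a₀, x.2.1)⟩ x.2.2 * A.sys.F' g (index_row A i a₀ x₀) := by
        intro x
        rw [← h1 x, Finset.mul_sum]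
        refine Finset.sum_congr rfl fun g _ => ?_
        rw [← mul_assoc]
        rfl
      refine (Finset.sum_congr rfl fun x _ => h4 x).trans ?_
      rw [Finset.sum_comm]
      exact Finset.sum_congr rfl fun g _ => by rw [Finset.sum_mul]
    rw [h2, h3]
    refine Finset.sum_eq_zero fun g _ => ?_
    rw [hv2, zero_mul]
  have h5 := LinearMap.finrank_le_finrank_of_injective hinj
  rwa [Module.finrank_fintype_fun_eq_card, Module.finrank_fintype_fun_eq_card] at h5

private def index_rb (y : Σ l : A.sys.I, A.sys.D l × A.sys.D l) :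
    Σ i, ((Σ l, A.P l i × (Σ j, S.D j × A.P l j)) × S.D i) :=
  let y' : Σ l : A.I, (Σ j, S.D j × A.P l j) × (Σ j, S.D j × A.P l j) := y
  ⟨y'.2.1.1, (⟨y'.1, (y'.2.1.2.2, y'.2.2)⟩, y'.2.1.2.1)⟩

private theorem index_rb_inj : Function.Injective (index_rb A) := by
  intro y y' h
  obtain ⟨l, ⟨i, a, p⟩, z⟩ : Σ l : A.I, (Σ j, S.D j × A.P l j) × (Σ j, S.D j × A.P l j) := y
  obtain ⟨l', ⟨i', a', p'⟩, z'⟩ : Σ l : A.I, (Σ j, S.D j × A.P l j) × (Σ j, S.D j × A.P l j) := y'
  have h0 : (⟨i, (⟨l, (p, z)⟩, a)⟩ : Σ i, ((Σ l, A.P l i × (Σ j, S.D j × A.P l j)) × S.D i)) =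
      ⟨i', (⟨l', (p', z')⟩, a')⟩ := h
  obtain ⟨rfl, h1⟩ := Sigma.mk.inj_iff.1 h0
  obtain ⟨h2, rfl⟩ := Prod.mk.inj (eq_of_heq h1)
  obtain ⟨rfl, h3⟩ := Sigma.mk.inj_iff.1 h2
  obtain ⟨rfl, rfl⟩ := Prod.mk.inj (eq_of_heq h3)
  rfl

private def index_cb {R : Type} (w : (Σ i, S.D i × S.D i) × R) : Σ i, (S.D i × R) × S.D i :=
  ⟨w.1.1, ((w.1.2.2, w.2), w.1.2.1)⟩

private theorem index_cb_inj {R : Type} : Function.Injective (index_cb (S := S) (R := R)) := by
  rintro ⟨⟨i, a, b⟩, q⟩ ⟨⟨i', a', b'⟩, q'⟩ h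
  have h0 : (⟨i, ((b, q), a)⟩ : Σ i, (S.D i × R) × S.D i) = ⟨i', ((b', q'), a')⟩ := h
  obtain ⟨rfl, h1⟩ := Sigma.mk.inj_iff.1 h0
  obtain ⟨h2, rfl⟩ := Prod.mk.inj (eq_of_heq h1)
  obtain ⟨rfl, rfl⟩ := Prod.mk.inj h2
  rfl

/-- PROOF. `A.sys.F`, with columns numbered by `H × R`, is `Mid * (S.F ⊗ 1_R)`, `Mid` the matrix
`blockDiagonal' fun i => M i ⊗ 1_(S.D i)`, `M i` as in `index_card`, rows read at
`⟨l, (⟨i, (a, p)⟩, z)⟩ ↦ ⟨i, (⟨l, (p, z)⟩, a)⟩`, columns at `(⟨i, (a, a')⟩, q) ↦ ⟨i, ((a', q), a)⟩`: `index_fac`. Block `i`: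
`MM` with `c = |S.D i| * |R| ≤ b * |S.D i|`; the sum of the widths is `K * |R| * ∑ |S.D i| ^ 2 = K * |G|`. -/
theorem index_bx [Finite G] [Finite H] {K b N s : ℝ} {t t₀ : ℕ} (hK : 1 ≤ K) (hs : 1 ≤ s) (ht : 1 ≤ t)
    (hMM : MM K b N s t₀) (hG : (Nat.card G : ℝ) ≤ N) {R : Type} [Fintype R] [DecidableEq R]
    (r : R → G) (hr : Function.Bijective fun p : H × R => ι p.1 * r p.2)
    (hb : (Fintype.card R : ℝ) ≤ b) (hF : Bx (K * Nat.card H) s t S.F) :
    Bx (K * Nat.card G) s (t₀ + t + 1) A.sys.F := by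
  classical
  let _ : Fintype G := Fintype.ofFinite G
  let _ : Fintype H := Fintype.ofFinite H
  have hGH : (Nat.card G : ℝ) = Nat.card H * Fintype.card R := by
    have h1 := Nat.card_congr (Equiv.ofBijective _ hr)
    rw [Nat.card_prod, Nat.card_eq_fintype_card (α := R)] at h1
    rw [← h1]
    push_cast
    rfl
  have hsq : ∑ i, (Fintype.card (S.D i) : ℝ) * Fintype.card (S.D i) = Nat.card H := by
    rw [← S.sq]
    push_cast
    rfl
  obtain ⟨M, hM⟩ : ∃ M : ∀ i, Matrix (Σ l, A.P l i × (Σ j, S.D j × A.P l j)) (S.D i × R) ℂ,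
      M = fun i => Matrix.of fun x y => A.ρ x.1 (r y.2) ⟨i, (y.1, x.2.1)⟩ x.2.2 := ⟨_, rfl⟩
  -- the blocks
  have hblk : ∀ i, Bx (K * (Fintype.card (S.D i) * Fintype.card R * Fintype.card (S.D i))) s t₀
      (Matrix.kroneckerMap (· * ·) (M i) (1 : Matrix (S.D i) (S.D i) ℂ)) := by
    intro i
    refine hMM _ _ (S.D i) (Fintype.card (S.D i) * Fintype.card R) ?_ ?_ ?_ ?_ (M i)
    · have h1 := index_card A r hr.surjective i
      rw [Fintype.card_prod (S.D i) R] at h1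
      exact_mod_cast h1
    · rw [Fintype.card_prod (S.D i) R]
      push_cast
      exact le_rfl
    · rw [mul_comm]
      exact mul_le_mul_of_nonneg_right hb (Nat.cast_nonneg _)
    · refine le_trans ?_ hG
      rw [hGH, mul_right_comm]
      refine mul_le_mul_of_nonneg_right ?_ (Nat.cast_nonneg _)
      rw [← hsq]
      exact Finset.single_le_sum (f := fun i => (Fintype.card (S.D i) : ℝ) *
        Fintype.card (S.D i)) (fun j _ => mul_nonneg (Nat.cast_nonneg _) (Nat.cast_nonneg _))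
        (Finset.mem_univ i)
  have hw : ∑ i, K * ((Fintype.card (S.D i) : ℝ) * Fintype.card R * Fintype.card (S.D i)) =
      K * Nat.card G := by
    rw [← Finset.mul_sum, hGH, ← hsq, Finset.sum_mul]
    exact congrArg _ (Finset.sum_congr rfl fun i _ => by ring)
  have hmid := (bx_sigma hblk).submatrix (index_rb_inj A) (index_cb_inj (S := S) (R := R))
  rw [hw] at hmid
  have hten := hF.tensor_one (Y := R) ht
  have hw2 : (Fintype.card R : ℝ) * (K * Nat.card H) = K * Nat.card G := by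
    rw [hGH]
    ring
  rw [hw2] at hten
  have hprod := (hmid.mul hten hs).submatrix (f := id)
    (g := fun g : G => (Equiv.ofBijective _ hr).symm g) Function.injective_id
    (Equiv.ofBijective _ hr).symm.injective
  have hE : A.sys.F = ((Matrix.blockDiagonal' fun i => Matrix.kroneckerMap (· * ·) (M i)
      (1 : Matrix (S.D i) (S.D i) ℂ)).submatrix (index_rb A) (index_cb (S := S) (R := R)) *
      Matrix.of fun (p : (Σ i, S.D i × S.D i) × R) (q : H × R) =>
        if p.2 = q.2 then S.F p.1 q.1 else 0).submatrix id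
      (fun g : G => (Equiv.ofBijective _ hr).symm g) := by
    ext y g
    obtain ⟨⟨h, q⟩, rfl⟩ := (Equiv.ofBijective _ hr).surjective g
    rw [Matrix.submatrix_apply, Equiv.symm_apply_apply, Matrix.mul_apply,
      Fintype.sum_prod_type]
    obtain ⟨l, ⟨i, a, p⟩, z⟩ : Σ l : A.I, (Σ j, S.D j × A.P l j) × (Σ j, S.D j × A.P l j) := y
    have hL : A.sys.F ⟨l, (⟨i, (a, p)⟩, z)⟩ ((Equiv.ofBijective _ hr) (h, q)) =
        ∑ a', S.π i h a a' * A.ρ l (r q) ⟨i, (a', p)⟩ z := index_fac A h (r q) l i a p z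
    refine hL.trans ?_
    have h1 : ∀ w : (Σ i, S.D i × S.D i), (∑ q', (Matrix.blockDiagonal' fun i =>
        Matrix.kroneckerMap (· * ·) (M i) (1 : Matrix (S.D i) (S.D i) ℂ)).submatrix (index_rb A)
        (index_cb (S := S) (R := R)) (id ⟨l, (⟨i, (a, p)⟩, z)⟩) (w, q') *
        (Matrix.of fun (p : (Σ i, S.D i × S.D i) × R) (q : H × R) =>
          if p.2 = q.2 then S.F p.1 q.1 else 0) (w, q') (h, q)) =
        (Matrix.blockDiagonal' fun i => Matrix.kroneckerMap (· * ·) (M i)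
          (1 : Matrix (S.D i) (S.D i) ℂ)) ⟨i, (⟨l, (p, z)⟩, a)⟩ ⟨w.1, ((w.2.2, q), w.2.1)⟩ *
          S.π w.1 h w.2.1 w.2.2 := by
      intro w
      rw [Finset.sum_eq_single q]
      · rw [Matrix.of_apply, if_pos rfl]
        rfl
      · intro q' _ hq
        rw [Matrix.of_apply, if_neg hq, mul_zero]
      · intro hb
        exact absurd (Finset.mem_univ q) hb
    refine Eq.trans ?_ (Finset.sum_congr rfl fun w _ => h1 w).symm
    have h2 : ∑ w : (Σ i, S.D i × S.D i), (Matrix.blockDiagonal' fun i =>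
        Matrix.kroneckerMap (· * ·) (M i) (1 : Matrix (S.D i) (S.D i) ℂ))
          ⟨i, (⟨l, (p, z)⟩, a)⟩ ⟨w.1, ((w.2.2, q), w.2.1)⟩ * S.π w.1 h w.2.1 w.2.2 =
        ∑ a', S.π i h a a' * A.ρ l (r q) ⟨i, (a', p)⟩ z := by
      rw [Fintype.sum_sigma, Finset.sum_eq_single i, Fintype.sum_prod_type,
        Finset.sum_eq_single a]
      · refine Finset.sum_congr rfl fun a' _ => ?_
        have e : M i ⟨l, (p, z)⟩ (a', q) = A.ρ l (r q) ⟨i, (a', p)⟩ z := by
          rw [hM]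
          rfl
        rw [Matrix.blockDiagonal'_apply_eq, Matrix.kroneckerMap_apply, Matrix.one_apply_eq,
          mul_one]
        exact (congrArg (fun c : ℂ => c * S.π i h a a') e).trans (mul_comm _ _)
      · intro a1 _ ha
        refine Finset.sum_eq_zero fun a' _ => ?_
        rw [Matrix.blockDiagonal'_apply_eq, Matrix.kroneckerMap_apply,
          Matrix.one_apply_ne (Ne.symm ha), mul_zero, zero_mul]
      · intro hb
        exact absurd (Finset.mem_univ a) hb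
      · intro j _ hj
        refine Finset.sum_eq_zero fun x _ => ?_
        rw [Matrix.blockDiagonal'_apply_ne _ _ _ (Ne.symm hj), zero_mul]
      · intro hb
        exact absurd (Finset.mem_univ i) hb
    exact h2.symm
  rw [hE]
  exact hprod

/-- PROOF. `R = G ⧸ H`, `r q = (Quotient.out q)⁻¹`; `exists_ad` for `H.subtype`, `index_bx`. -/
theorem step_index {K b N s : ℝ} {t t₀ : ℕ} (hK : 1 ≤ K) (hs : 1 ≤ s) (ht : 1 ≤ t)
    (hMM : MM K b N s t₀) {G : Type} [Group G] [Finite G] (hG : (Nat.card G : ℝ) ≤ N)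
    (H : Subgroup G) (hH : (H.index : ℝ) ≤ b) (hF : FS (K * Nat.card H) s t H) :
    FS (K * Nat.card G) s (t₀ + t + 1) G := by
  classical
  obtain ⟨S, hS⟩ := hF
  obtain ⟨A⟩ := exists_ad H.subtype S
  let _ : Fintype (G ⧸ H) := Fintype.ofFinite _
  have hr : Function.Bijective fun p : H × (G ⧸ H) =>
      H.subtype p.1 * (Quotient.out p.2)⁻¹ := by
    constructor
    · rintro ⟨h, q⟩ ⟨h', q'⟩ he
      have he' : (h : G) * (Quotient.out q)⁻¹ = (h' : G) * (Quotient.out q')⁻¹ := he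
      have h1 : (Quotient.out q) * (h : G)⁻¹ = (Quotient.out q') * (h' : G)⁻¹ := by
        have h2 := congrArg (fun x : G => x⁻¹) he'
        simp only [_root_.mul_inv_rev, inv_inv] at h2
        exact h2
      have h3 : q = q' := by
        have h4 : ((Quotient.out q * (h : G)⁻¹ : G) : G ⧸ H) = q := by
          rw [QuotientGroup.mk_mul_of_mem _ (H.inv_mem h.2)]
          exact QuotientGroup.out_eq' q
        have h5 : ((Quotient.out q' * (h' : G)⁻¹ : G) : G ⧸ H) = q' := by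
          rw [QuotientGroup.mk_mul_of_mem _ (H.inv_mem h'.2)]
          exact QuotientGroup.out_eq' q'
        rw [← h4, h1, h5]
      subst h3
      have h6 : (h : G) = h' := mul_right_cancel he'
      rw [Subtype.ext h6]
    · intro g
      have h1 : (Quotient.out ((g⁻¹ : G) : G ⧸ H))⁻¹ * g⁻¹ ∈ H :=
        QuotientGroup.eq.1 (QuotientGroup.out_eq' _)
      refine ⟨(⟨g * Quotient.out ((g⁻¹ : G) : G ⧸ H), ?_⟩, ((g⁻¹ : G) : G ⧸ H)), ?_⟩
      · have h2 := H.inv_mem h1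
        rw [_root_.mul_inv_rev, inv_inv, inv_inv] at h2
        exact h2
      · change g * Quotient.out ((g⁻¹ : G) : G ⧸ H) * (Quotient.out ((g⁻¹ : G) : G ⧸ H))⁻¹ = g
        rw [mul_inv_cancel_right]
  have hb : (Fintype.card (G ⧸ H) : ℝ) ≤ b := by
    have h1 : Fintype.card (G ⧸ H) = H.index := by
      rw [← Nat.card_eq_fintype_card]
      rfl
    rw [h1]
    exact hH
  exact ⟨A.sys, index_bx A hK hs ht hMM hG (fun q : G ⧸ H => (Quotient.out q)⁻¹) hr hb hS⟩

end MP0775d3.Ox
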