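import Pool.Agent.Lib.MP_0775d3_lc.Ox.LDefs
import Pool.Agent.Lib.MP_0775d3_lc.Ox.Index

/-! Project OX: low part, subgroups of small index. -/

set_option linter.unusedSectionVars false
set_option linter.unusedVariables false

namespace MP0775d3.Ox

open Matrix MP0775d3.Cf

section aux

variable {G H : Type} [Group G] [Group H] {ι : H →* G} {S : Sys H} (A : Ad ι S)

private def lindex_rb (y : Σ l : A.sys.I, A.sys.D l × A.sys.D l) :
    Σ i, ((Σ l, A.P l i × (Σ j, S.D j × A.P l j)) × S.D i) :=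
  let y' : Σ l : A.I, (Σ j, S.D j × A.P l j) × (Σ j, S.D j × A.P l j) := y
  ⟨y'.2.1.1, (⟨y'.1, (y'.2.1.2.2, y'.2.2)⟩, y'.2.1.2.1)⟩

private theorem lindex_rb_inj : Function.Injective (lindex_rb A) := by
  intro y y' h
  obtain ⟨l, ⟨i, a, p⟩, z⟩ : Σ l : A.I, (Σ j, S.D j × A.P l j) × (Σ j, S.D j × A.P l j) := y
  obtain ⟨l', ⟨i', a', p'⟩, z'⟩ : Σ l : A.I, (Σ j, S.D j × A.P l j) × (Σ j, S.D j × A.P l j) := y'
  have h0 : (⟨i, (⟨l, (p, z)⟩, a)⟩ : Σ i, ((Σ l, A.P l i × (Σ j, S.D j × A.P l j)) × S.D i)) =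
      ⟨i', (⟨l', (p', z')⟩, a')⟩ := h
  obtain ⟨rfl, h1⟩ := Sigma.mk.inj_iff.1 h0
  obtain ⟨h2, rfl⟩ := Prod.mk.inj (eq_of_heq h1)
  obtain ⟨rfl, h3⟩ := Sigma.mk.inj_iff.1 h2
  obtain ⟨rfl, rfl⟩ := Prod.mk.inj (eq_of_heq h3)
  rfl

private def lindex_cb {R : Type} (w : (Σ i, S.D i × S.D i) × R) : Σ i, (S.D i × R) × S.D i :=
  ⟨w.1.1, ((w.1.2.2, w.2), w.1.2.1)⟩

private theorem lindex_cb_inj {R : Type} : Function.Injective (lindex_cb (S := S) (R := R)) := by
  rintro ⟨⟨i, a, b⟩, q⟩ ⟨⟨i', a', b'⟩, q'⟩ h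
  have h0 : (⟨i, ((b, q), a)⟩ : Σ i, (S.D i × R) × S.D i) = ⟨i', ((b', q'), a')⟩ := h
  obtain ⟨rfl, h1⟩ := Sigma.mk.inj_iff.1 h0
  obtain ⟨h2, rfl⟩ := Prod.mk.inj (eq_of_heq h1)
  obtain ⟨rfl, rfl⟩ := Prod.mk.inj h2
  rfl

/-- The low part, with columns numbered by `H × R`. -/
private theorem lindex_bx [Finite G] [Finite H] {K b s L : ℝ} {t : ℕ} (hK : 1 ≤ K) (hs : 1 ≤ s)
    (hbL : b * L ≤ s) (ht : 1 ≤ t) {R : Type} [Fintype R] [DecidableEq R]
    (r : R → G) (hr : Function.Bijective fun p : H × R => ι p.1 * r p.2)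
    (hb : (Fintype.card R : ℝ) ≤ b) (F : Matrix (Σ i, S.D i × S.D i) H ℂ)
    (hF : Bx (K * Nat.card H) s t F) (hL : S.Low L F) :
    ∃ F₁ : Matrix (Σ i, A.sys.D i × A.sys.D i) G ℂ,
      Bx (K * Nat.card G) s (1 + t + 1) F₁ ∧ A.sys.Low L F₁ := by
  classical
  let _ : Fintype G := Fintype.ofFinite G
  let _ : Fintype H := Fintype.ofFinite H
  have hGH : (Nat.card G : ℝ) = Nat.card H * Fintype.card R := by
    have h1 := Nat.card_congr (Equiv.ofBijective _ hr)
    rw [Nat.card_prod, Nat.card_eq_fintype_card (α := R)] at h1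
    rw [← h1]
    push_cast
    rfl
  have hsq : ∑ i, (Fintype.card (S.D i) : ℝ) * Fintype.card (S.D i) = Nat.card H := by
    rw [← S.sq]
    push_cast
    rfl
  obtain ⟨M, hM⟩ : ∃ M : ∀ i, Matrix (Σ l, A.P l i × (Σ j, S.D j × A.P l j)) (S.D i × R) ℂ,
      M = fun i => Matrix.of fun x y => A.ρ x.1 (r y.2) ⟨i, (y.1, x.2.1)⟩ x.2.2 := ⟨_, rfl⟩
  have hcard : ∀ i, (Fintype.card (Σ l, A.P l i × (Σ j, S.D j × A.P l j)) : ℝ) ≤
      Fintype.card (S.D i) * Fintype.card R := by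
    intro i
    have h1 := index_card A r hr.surjective i
    rw [Fintype.card_prod (S.D i) R] at h1
    exact_mod_cast h1
  have hw : ∑ i, ((Fintype.card (S.D i) : ℝ) * Fintype.card R * Fintype.card (S.D i)) =
      Nat.card G := by
    rw [hGH, ← hsq, Finset.sum_mul]
    exact Finset.sum_congr rfl fun i _ => by ring
  have hKG : (Nat.card G : ℝ) ≤ K * Nat.card G := by
    have h1 := mul_le_mul_of_nonneg_right hK (Nat.cast_nonneg (α := ℝ) (Nat.card G))
    rwa [one_mul] at h1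
  have hsmall : ∀ i, (Fintype.card (S.D i) : ℝ) ≤ L →
      (Fintype.card (S.D i) : ℝ) * Fintype.card R ≤ s := by
    intro i hi
    refine le_trans ?_ hbL
    rw [mul_comm b L]
    exact mul_le_mul hi hb (Nat.cast_nonneg _) ((Nat.cast_nonneg _).trans hi)
  have hlay := bx_layer (w := K * Nat.card G) (E := S.D) hs M
    (fun i => (Fintype.card (S.D i) : ℝ) ≤ L)
    (fun i hi => (hcard i).trans (hsmall i hi))
    (fun i hi => by
      rw [Fintype.card_prod (S.D i) R]
      push_cast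
      exact hsmall i hi)
    (by
      refine le_trans ?_ hKG
      rw [← hw]
      exact Finset.sum_le_sum fun i _ =>
        mul_le_mul_of_nonneg_right (hcard i) (Nat.cast_nonneg _))
    (by
      refine le_trans (le_of_eq ?_) hKG
      rw [← hw]
      refine Finset.sum_congr rfl fun i _ => ?_
      rw [Fintype.card_prod (S.D i) R]
      push_cast
      rfl)
  have hmid := hlay.submatrix (lindex_rb_inj A) (lindex_cb_inj (S := S) (R := R))
  have hten := hF.tensor_one (Y := R) ht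
  have hw2 : (Fintype.card R : ℝ) * (K * Nat.card H) = K * Nat.card G := by
    rw [hGH]
    ring
  rw [hw2] at hten
  have hprod := (hmid.mul hten hs).submatrix (f := id)
    (g := fun g : G => (Equiv.ofBijective _ hr).symm g) Function.injective_id
    (Equiv.ofBijective _ hr).symm.injective
  refine ⟨_, hprod, ?_⟩
  intro y g hy
  obtain ⟨⟨h, q⟩, rfl⟩ := (Equiv.ofBijective _ hr).surjective g
  rw [Matrix.submatrix_apply, Equiv.symm_apply_apply, Matrix.mul_apply,
    Fintype.sum_prod_type]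
  obtain ⟨l, ⟨i, a, p⟩, z⟩ : Σ l : A.I, (Σ j, S.D j × A.P l j) × (Σ j, S.D j × A.P l j) := y
  have hi : (Fintype.card (S.D i) : ℝ) ≤ L := by
    refine le_trans ?_ hy
    have h1 : Fintype.card (S.D i) ≤ Fintype.card (Σ j, S.D j × A.P l j) :=
      Fintype.card_le_of_injective (fun a : S.D i => ⟨i, (a, p)⟩) fun a a' h => by
        have h2 := eq_of_heq (Sigma.mk.inj_iff.1 h).2
        exact (Prod.mk.inj h2).1
    exact_mod_cast h1
  have hLf : A.sys.F ⟨l, (⟨i, (a, p)⟩, z)⟩ ((Equiv.ofBijective _ hr) (h, q)) =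
      ∑ a', S.π i h a a' * A.ρ l (r q) ⟨i, (a', p)⟩ z := index_fac A h (r q) l i a p z
  refine Eq.trans ?_ hLf.symm
  have h1 : ∀ w : (Σ i, S.D i × S.D i), (∑ q', (Matrix.blockDiagonal' fun i =>
      if (Fintype.card (S.D i) : ℝ) ≤ L then
      Matrix.kroneckerMap (· * ·) (M i) (1 : Matrix (S.D i) (S.D i) ℂ) else 0).submatrix
      (lindex_rb A) (lindex_cb (S := S) (R := R)) (id ⟨l, (⟨i, (a, p)⟩, z)⟩) (w, q') *
      (Matrix.of fun (p : (Σ i, S.D i × S.D i) × R) (q : H × R) =>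
        if p.2 = q.2 then F p.1 q.1 else 0) (w, q') (h, q)) =
      (Matrix.blockDiagonal' fun i => if (Fintype.card (S.D i) : ℝ) ≤ L then
        Matrix.kroneckerMap (· * ·) (M i) (1 : Matrix (S.D i) (S.D i) ℂ) else 0)
          ⟨i, (⟨l, (p, z)⟩, a)⟩ ⟨w.1, ((w.2.2, q), w.2.1)⟩ * F w h := by
    intro w
    rw [Finset.sum_eq_single q]
    · rw [Matrix.of_apply, if_pos rfl]
      rfl
    · intro q' _ hq
      rw [Matrix.of_apply, if_neg hq, mul_zero]
    · intro hb
      exact absurd (Finset.mem_univ q) hb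
  refine (Finset.sum_congr rfl fun w _ => h1 w).trans ?_
  rw [Fintype.sum_sigma, Finset.sum_eq_single i, Fintype.sum_prod_type,
    Finset.sum_eq_single a]
  · refine Finset.sum_congr rfl fun a' _ => ?_
    have e : M i ⟨l, (p, z)⟩ (a', q) = A.ρ l (r q) ⟨i, (a', p)⟩ z := by
      rw [hM]
      rfl
    have e2 : F ⟨i, (a, a')⟩ h = S.π i h a a' := hL ⟨i, (a, a')⟩ h hi
    rw [Matrix.blockDiagonal'_apply_eq, if_pos hi, Matrix.kroneckerMap_apply,
      Matrix.one_apply_eq, mul_one, e2]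
    exact (congrArg (fun c : ℂ => c * S.π i h a a') e).trans (mul_comm _ _)
  · intro a1 _ ha
    refine Finset.sum_eq_zero fun a' _ => ?_
    rw [Matrix.blockDiagonal'_apply_eq, if_pos hi, Matrix.kroneckerMap_apply,
      Matrix.one_apply_ne (Ne.symm ha), mul_zero, zero_mul]
  · intro hb
    exact absurd (Finset.mem_univ a) hb
  · intro j _ hj
    refine Finset.sum_eq_zero fun x _ => ?_
    rw [Matrix.blockDiagonal'_apply_ne _ _ _ (Ne.symm hj), zero_mul]
  · intro hb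
    exact absurd (Finset.mem_univ i) hb

end aux

/-- PROOF. As `step_index`, `index_bx`: the middle matrix is zero in the blocks `i` with `|S.D i| > L`, else one layer
(`bx_layer`): `|S.D i| * |R| ≤ L * b ≤ s` columns, at most as many rows (`index_card`). A representation `l` of dimension at most `L`
only contains `i` with `|S.D i| ≤ L`. -/
theorem step_index_low {K b s L : ℝ} {t : ℕ} (hK : 1 ≤ K) (hs : 1 ≤ s) (hbL : b * L ≤ s) (ht : 1 ≤ t)
    {G : Type} [Group G] [Finite G] (H : Subgroup G) (hH : (H.index : ℝ) ≤ b)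
    (hF : FL (K * Nat.card H) s t L H) : FL (K * Nat.card G) s (1 + t + 1) L G := by
  classical
  obtain ⟨S, F, hS, hL⟩ := hF
  obtain ⟨A⟩ := exists_ad H.subtype S
  let _ : Fintype (G ⧸ H) := Fintype.ofFinite _
  have hr : Function.Bijective fun p : H × (G ⧸ H) =>
      H.subtype p.1 * (Quotient.out p.2)⁻¹ := by
    constructor
    · rintro ⟨h, q⟩ ⟨h', q'⟩ he
      have he' : (h : G) * (Quotient.out q)⁻¹ = (h' : G) * (Quotient.out q')⁻¹ := he
      have h1 : (Quotient.out q) * (h : G)⁻¹ = (Quotient.out q') * (h' : G)⁻¹ := by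
        have h2 := congrArg (fun x : G => x⁻¹) he'
        simp only [_root_.mul_inv_rev, inv_inv] at h2
        exact h2
      have h3 : q = q' := by
        have h4 : ((Quotient.out q * (h : G)⁻¹ : G) : G ⧸ H) = q := by
          rw [QuotientGroup.mk_mul_of_mem _ (H.inv_mem h.2)]
          exact QuotientGroup.out_eq' q
        have h5 : ((Quotient.out q' * (h' : G)⁻¹ : G) : G ⧸ H) = q' := by
          rw [QuotientGroup.mk_mul_of_mem _ (H.inv_mem h'.2)]
          exact QuotientGroup.out_eq' q'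
        rw [← h4, h1, h5]
      subst h3
      have h6 : (h : G) = h' := mul_right_cancel he'
      rw [Subtype.ext h6]
    · intro g
      have h1 : (Quotient.out ((g⁻¹ : G) : G ⧸ H))⁻¹ * g⁻¹ ∈ H :=
        QuotientGroup.eq.1 (QuotientGroup.out_eq' _)
      refine ⟨(⟨g * Quotient.out ((g⁻¹ : G) : G ⧸ H), ?_⟩, ((g⁻¹ : G) : G ⧸ H)), ?_⟩
      · have h2 := H.inv_mem h1
        rw [_root_.mul_inv_rev, inv_inv, inv_inv] at h2
        exact h2
      · change g * Quotient.out ((g⁻¹ : G) : G ⧸ H) * (Quotient.out ((g⁻¹ : G) : G ⧸ H))⁻¹ = g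
        rw [mul_inv_cancel_right]
  have hb : (Fintype.card (G ⧸ H) : ℝ) ≤ b := by
    have h1 : Fintype.card (G ⧸ H) = H.index := by
      rw [← Nat.card_eq_fintype_card]
      rfl
    rw [h1]
    exact hH
  obtain ⟨F₁, h1, h2⟩ := lindex_bx A hK hs hbL ht
    (fun q : G ⧸ H => (Quotient.out q)⁻¹) hr hb F hS hL
  exact ⟨A.sys, F₁, h1, h2⟩

end MP0775d3.Ox
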