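import Pool.Agent.Lib.MP_0775d3_lc.Ox.PrC

/-! Project OX: normal subgroups of prime index. The circuit. -/

set_option linter.unusedSectionVars false
set_option linter.unusedVariables false

namespace MP0775d3.Ox

open Matrix MP0775d3.Cf

variable {G H : Type} [Group G] [Group H] {ι : H →* G} {p : ℕ} (d : Pd ι p) {S : Sys H}
  (V : ∀ z : S.I × S.I, PK d z → Matrix (S.D z.1) (S.D z.2) ℂ)

/-- PROOF. For given `j` and `e` at most one `i` (`Eqv.unique`), and `|D i| = |D j|` (`Eqv.card`): the sum is at most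
`p * ∑ j, |D j| ^ 2 = p * |H|` (`bij`). -/
theorem pK_sum [Finite G] [Finite H] [∀ z, Fintype (PK d (S := S) z)] :
    ∑ z : S.I × S.I, Fintype.card (PK d z) * (Fintype.card (S.D z.1) * Fintype.card (S.D z.2)) ≤
      Nat.card G := by
  classical
  have hG : Nat.card G = p * Nat.card H := by
    rw [← Nat.card_congr (Equiv.ofBijective _ d.bij), Nat.card_prod, Nat.card_fin, mul_comm]
  have h1 : ∀ z : S.I × S.I,
      Fintype.card (PK d z) * (Fintype.card (S.D z.1) * Fintype.card (S.D z.2)) =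
      ∑ e : Fin p, if Eqv S (fun h => (d.α ^ (e : ℕ)) h) z.1 z.2 then
        Fintype.card (S.D z.1) * Fintype.card (S.D z.2) else 0 := by
    intro z
    rw [← Finset.sum_filter, Finset.sum_const, smul_eq_mul]
    congr 1
    rw [Fintype.card_subtype]
  have h2 : ∀ (e : Fin p) (j : S.I),
      (∑ i : S.I, if Eqv S (fun h => (d.α ^ (e : ℕ)) h) i j then
        Fintype.card (S.D i) * Fintype.card (S.D j) else 0) ≤
      Fintype.card (S.D j) * Fintype.card (S.D j) := by
    intro e j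
    by_cases hx : ∃ i, Eqv S (fun h => (d.α ^ (e : ℕ)) h) i j
    · obtain ⟨i, hi⟩ := hx
      rw [Finset.sum_eq_single i, if_pos hi, hi.card]
      · intro i' _ hne
        rw [if_neg]
        intro hi'
        exact hne (hi'.unique hi)
      · intro hn
        exact absurd (Finset.mem_univ i) hn
    · refine le_trans (le_of_eq (Finset.sum_eq_zero fun i _ => ?_)) (Nat.zero_le _)
      rw [if_neg]
      intro hi
      exact hx ⟨i, hi⟩
  calc ∑ z : S.I × S.I, Fintype.card (PK d z) *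
        (Fintype.card (S.D z.1) * Fintype.card (S.D z.2))
      = ∑ z : S.I × S.I, ∑ e : Fin p, (if Eqv S (fun h => (d.α ^ (e : ℕ)) h) z.1 z.2 then
        Fintype.card (S.D z.1) * Fintype.card (S.D z.2) else 0) :=
        Finset.sum_congr rfl fun z _ => h1 z
    _ = ∑ e : Fin p, ∑ j : S.I, ∑ i : S.I, (if Eqv S (fun h => (d.α ^ (e : ℕ)) h) i j then
        Fintype.card (S.D i) * Fintype.card (S.D j) else 0) := by
        rw [Finset.sum_comm]
        refine Finset.sum_congr rfl fun e _ => ?_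
        rw [Fintype.sum_prod_type_right]
    _ ≤ ∑ e : Fin p, ∑ j : S.I, Fintype.card (S.D j) * Fintype.card (S.D j) :=
        Finset.sum_le_sum fun e _ => Finset.sum_le_sum fun j _ => h2 e j
    _ = Nat.card G := by
        rw [S.sq, Finset.sum_const, Finset.card_univ, Fintype.card_fin, smul_eq_mul, hG]

/-- PROOF. Two layers. (1) `S.F ⊗ 1` on `H × Fin p`, rows read at `⟨z, ((a, a'), e)⟩ ↦ (⟨z.1, (a, a')⟩, e)` (injective:
`Eqv.symm`, `Eqv.unique` give `z.2`), columns at `G` (`bij`): width `p * K * |H| = K * |G|`. (2) for every `z` and `e : PK d z`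
the base change `(V z e)ᵀ ⊗ 1` on the second index: `MM` with `c = |D z.2|`, `E = S.D z.1` (`Eqv.card`; `1 ≤ b`), sum of the widths
by `pK_sum`. -/
theorem pW_bx [Finite G] [Finite H] {K b N s : ℝ} {t t₀ : ℕ} (hK : 1 ≤ K) (hb : 1 ≤ b) (hs : 1 ≤ s)
    (ht : 1 ≤ t) (hMM : MM K b N s t₀) (hN : (Nat.card G : ℝ) ≤ N)
    (hF : Bx (K * Nat.card H) s t S.F) : Bx (K * Nat.card G) s (t₀ + t + 1) (pW d V) := by
  classical
  have : ∀ z, Fintype (PK d (S := S) z) := fun z => Fintype.ofFinite _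
  have : Fintype H := Fintype.ofFinite H
  have hK0 : 0 ≤ K := zero_le_one.trans hK
  have hG : Nat.card G = p * Nat.card H := by
    rw [← Nat.card_congr (Equiv.ofBijective _ d.bij), Nat.card_prod, Nat.card_fin, mul_comm]
  have hsum := pK_sum (S := S) d
  -- the first layer
  have hF1 : Bx (K * Nat.card G) s t (Matrix.of fun (q : (Σ i, S.D i × S.D i) × Fin p)
      (r : H × Fin p) => if q.2 = r.2 then S.F q.1 r.1 else 0) := by
    have h1 := hF.tensor_one (Y := Fin p) ht
    rw [Fintype.card_fin] at h1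
    rw [hG]
    have h2 : (p : ℝ) * (K * Nat.card H) = K * ((p * Nat.card H : ℕ) : ℝ) := by
      push_cast
      ring
    rw [← h2]
    exact h1
  obtain ⟨f1, hf1⟩ : ∃ f : (Σ j : (Σ z : S.I × S.I, PK d z), S.D j.1.1 × S.D j.1.1) →
      (Σ i, S.D i × S.D i) × Fin p, f = fun q =>
        (⟨q.1.1.1, (q.2.2, q.2.1)⟩, (q.1.2 : Fin p)) := ⟨_, rfl⟩
  have hf1i : Function.Injective f1 := by
    rintro ⟨⟨⟨i, j⟩, e, he⟩, a', a⟩ ⟨⟨⟨i2, j2⟩, e2, he2⟩, a2', a2⟩ hq
    rw [hf1] at hq
    have h1 := congrArg Prod.fst hq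
    have h2 : e = e2 := congrArg Prod.snd hq
    obtain ⟨h3, h4⟩ := Sigma.mk.inj_iff.mp h1
    have h3' : i = i2 := h3
    subst h3'
    subst h2
    have h5 := eq_of_heq h4
    have h6 : a = a2 := congrArg Prod.fst h5
    have h7 : a' = a2' := congrArg Prod.snd h5
    subst h6
    subst h7
    have h8 : j = j2 := by
      have h9 : Eqv S (fun h => (d.α ^ (e : ℕ)) h) i j := he
      have h10 : Eqv S (fun h => (d.α ^ (e : ℕ)) h) i j2 := he2
      exact (Eqv.symm (α := d.α ^ (e : ℕ)) h9).unique (Eqv.symm (α := d.α ^ (e : ℕ)) h10)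
    subst h8
    rfl
  have hF2 := hF1.submatrix hf1i (Equiv.ofBijective _ d.bij).symm.injective
  -- the second layer
  have hB : ∀ j : (Σ z : S.I × S.I, PK d z),
      Bx (K * ((Fintype.card (S.D j.1.2) : ℝ) * Fintype.card (S.D j.1.1))) s t₀
        (Matrix.kroneckerMap (· * ·) (V j.1 j.2)ᵀ (1 : Matrix (S.D j.1.1) (S.D j.1.1) ℂ)) := by
    rintro ⟨⟨i, j⟩, e⟩
    have hc : Fintype.card (S.D i) = Fintype.card (S.D j) := e.2.card
    refine hMM (S.D j) (S.D i) (S.D i) (Fintype.card (S.D j)) le_rfl (by rw [hc]) ?_ ?_ _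
    · show (Fintype.card (S.D j) : ℝ) ≤ b * Fintype.card (S.D i)
      rw [hc]
      nlinarith [(Nat.cast_nonneg (Fintype.card (S.D j)) : (0 : ℝ) ≤ _)]
    · refine le_trans ?_ hN
      have h1 : Fintype.card (PK d (i, j)) * (Fintype.card (S.D i) * Fintype.card (S.D j)) ≤
          Nat.card G := le_trans (Finset.single_le_sum
            (f := fun z : S.I × S.I => Fintype.card (PK d z) *
              (Fintype.card (S.D z.1) * Fintype.card (S.D z.2)))
            (fun z _ => Nat.zero_le _) (Finset.mem_univ (i, j))) hsum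
      have h2 : 1 ≤ Fintype.card (PK d (i, j)) := Fintype.card_pos_iff.mpr ⟨e⟩
      have h3 : Fintype.card (S.D j) * Fintype.card (S.D i) ≤ Nat.card G := by
        calc Fintype.card (S.D j) * Fintype.card (S.D i)
            = 1 * (Fintype.card (S.D i) * Fintype.card (S.D j)) := by ring
          _ ≤ Fintype.card (PK d (i, j)) * (Fintype.card (S.D i) * Fintype.card (S.D j)) :=
            Nat.mul_le_mul_right _ h2
          _ ≤ Nat.card G := h1
      exact_mod_cast h3
  have hC1 := bx_sigma hB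
  have hw : ∑ j : (Σ z : S.I × S.I, PK d z),
      K * ((Fintype.card (S.D j.1.2) : ℝ) * Fintype.card (S.D j.1.1)) ≤ K * Nat.card G := by
    rw [← Finset.mul_sum]
    refine mul_le_mul_of_nonneg_left ?_ hK0
    rw [Fintype.sum_sigma]
    refine le_trans (le_of_eq ?_) (Nat.cast_le.mpr hsum)
    rw [Nat.cast_sum]
    refine Finset.sum_congr rfl fun z _ => ?_
    change ∑ _e : PK d z, ((Fintype.card (S.D z.2) : ℝ) * Fintype.card (S.D z.1)) = _
    rw [Finset.sum_const, Finset.card_univ, nsmul_eq_mul]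
    push_cast
    ring
  obtain ⟨f2, hf2⟩ : ∃ f : (Σ z : S.I × S.I, (S.D z.1 × S.D z.2) × PK d z) →
      (Σ j : (Σ z : S.I × S.I, PK d z), S.D j.1.2 × S.D j.1.1), f = fun q =>
        ⟨⟨q.1, q.2.2⟩, (q.2.1.2, q.2.1.1)⟩ := ⟨_, rfl⟩
  have hf2i : Function.Injective f2 := by
    rintro ⟨z, ⟨a, b'⟩, e⟩ ⟨z2, ⟨a2, b2⟩, e2⟩ hq
    rw [hf2] at hq
    obtain ⟨h1, h2⟩ := Sigma.mk.inj_iff.mp hq
    obtain ⟨h3, h4⟩ := Sigma.mk.inj_iff.mp h1
    have h3' : z = z2 := h3
    subst h3'
    have h5 : e = e2 := eq_of_heq h4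
    subst h5
    have h6 := eq_of_heq h2
    have h7 : b' = b2 := congrArg Prod.fst h6
    have h8 : a = a2 := congrArg Prod.snd h6
    subst h7
    subst h8
    rfl
  have hC2 := (hC1.submatrix hf2i (g := id) Function.injective_id).mono hw le_rfl le_rfl hs
  have hfin := hC2.mul hF2 hs
  refine (congrArg (Bx (K * Nat.card G) s (t₀ + t + 1)) ?_).mp hfin
  ext ⟨z, ⟨a, b'⟩, e⟩ x
  rw [Matrix.mul_apply, Fintype.sum_sigma, Finset.sum_eq_single (⟨z, e⟩ : Σ z : S.I × S.I, PK d z)]
  · rw [Fintype.sum_prod_type]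
    have h1 : ∀ a' a1 : S.D z.1, (Matrix.blockDiagonal' fun j : (Σ z : S.I × S.I, PK d z) =>
        Matrix.kroneckerMap (· * ·) (V j.1 j.2)ᵀ (1 : Matrix (S.D j.1.1) (S.D j.1.1) ℂ)).submatrix
          f2 id ⟨z, ((a, b'), e)⟩ ⟨⟨z, e⟩, (a', a1)⟩ =
        V z e a' b' * (1 : Matrix (S.D z.1) (S.D z.1) ℂ) a a1 := by
      intro a' a1
      rw [hf2, Matrix.submatrix_apply]
      exact Matrix.blockDiagonal'_apply_eq _ _ _ _
    simp only [h1]
    have h2 : ∀ a' : S.D z.1, ∑ a1 : S.D z.1,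
        V z e a' b' * (1 : Matrix (S.D z.1) (S.D z.1) ℂ) a a1 *
          (Matrix.of fun (q : (Σ i, S.D i × S.D i) × Fin p)
            (r : H × Fin p) => if q.2 = r.2 then S.F q.1 r.1 else 0).submatrix f1
              (Equiv.ofBijective _ d.bij).symm ⟨⟨z, e⟩, (a', a1)⟩ x =
        if (e : Fin p) = ((Equiv.ofBijective _ d.bij).symm x).2 then
          S.π z.1 ((Equiv.ofBijective _ d.bij).symm x).1 a a' * V z e a' b' else 0 := by
      intro a'
      rw [Finset.sum_eq_single a]
      · rw [Matrix.one_apply_eq, mul_one, hf1, Matrix.submatrix_apply, Matrix.of_apply]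
        by_cases he : (e : Fin p) = ((Equiv.ofBijective _ d.bij).symm x).2
        · rw [if_pos he, if_pos he, mul_comm]
          rfl
        · rw [if_neg he, if_neg he, mul_zero]
      · intro a1 _ hne
        rw [Matrix.one_apply_ne hne.symm, mul_zero, zero_mul]
      · intro hn
        exact absurd (Finset.mem_univ a) hn
    rw [Finset.sum_congr rfl fun a' _ => h2 a']
    unfold pW
    rw [Matrix.of_apply]
    by_cases he : (e : Fin p) = ((Equiv.ofBijective _ d.bij).symm x).2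
    · simp only [if_pos he]
      rw [Matrix.mul_apply]
    · simp only [if_neg he]
      exact Finset.sum_const_zero
  · intro j _ hne
    refine Finset.sum_eq_zero fun y _ => ?_
    have h1 : (Matrix.blockDiagonal' fun j : (Σ z : S.I × S.I, PK d z) =>
        Matrix.kroneckerMap (· * ·) (V j.1 j.2)ᵀ (1 : Matrix (S.D j.1.1) (S.D j.1.1) ℂ)).submatrix
          f2 id ⟨z, ((a, b'), e)⟩ ⟨j, y⟩ = 0 := by
      rw [hf2, Matrix.submatrix_apply]
      exact Matrix.blockDiagonal'_apply_ne _ _ _ hne.symm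
    rw [h1, zero_mul]
  · intro hn
    exact absurd (Finset.mem_univ _) hn

end MP0775d3.Ox
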