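import Pool.Agent.Lib.MP_0775d3_lc.Ox.PrE
import Pool.Agent.Lib.MP_0775d3_lc.Ox.PrC2

/-! Project OX: normal subgroups of prime index. The step. -/

set_option linter.unusedSectionVars false
set_option linter.unusedVariables false

namespace MP0775d3.Ox

open Matrix MP0775d3.Cf

variable {G H : Type} [Group G] [Group H] {ι : H →* G} {p : ℕ} (d : Pd ι p) {S : Sys H}

/-- PROOF. If `Eqv S d.α j j` then `Eqv S (d.α ^ e) j j` for all `e` (`Eqv.trans`). -/
theorem pK_full (hp : 0 < p) [∀ z, Fintype (PK d (S := S) z)] (j : S.I) (hj : Eqv S d.α j j) :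
    Fintype.card (PK d (S := S) (j, j)) = p := by
  have h1 : ∀ n : ℕ, Eqv S (fun h => (d.α ^ n) h) j j := by
    intro n
    induction n with
    | zero =>
      exact ⟨1, 1, one_mul 1, one_mul 1, fun h => by rw [Matrix.mul_one, Matrix.one_mul]; rfl⟩
    | succ n ih =>
      have h2 := hj.trans ih
      exact h2
  have e : PK d (S := S) (j, j) ≃ Fin p := Equiv.subtypeUnivEquiv (fun e : Fin p => h1 e)
  exact (Fintype.card_congr e).trans (Fintype.card_fin p)

/-- PROOF. `exists_pd`, `S` from `hF`, `V`, `V'` by choice from `PK`, `exists_ad`, `pW_two`, `pW_bx`, `Two.bx` with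
`wz z = K * (|K z| * |S.D z.1 × S.D z.2|)`. Blocks: if `|PK d z| ≤ 1`, `MM` with `c = |PK d z|` (`Two.card`); else `pK_two`,
`pY_stable` with `hFP` (`H.index ≤ |G| ≤ N`) and `Bx.tensor_one`, `pK_full`. Sum: `pK_sum`. -/
theorem step_prime {K b N s : ℝ} {t t₀ t₁ : ℕ} (hK : 1 ≤ K) (hb : 1 ≤ b) (hs : 1 ≤ s) (ht : 1 ≤ t)
    (ht₁ : 1 ≤ t₁) (hMM : MM K b N s t₀) (hFP : FP K N s t₁) {G : Type} [Group G] [Finite G]
    (hG : (Nat.card G : ℝ) ≤ N) (H : Subgroup G) (hN : H.Normal) (hp : H.index.Prime)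
    (hF : FS (K * Nat.card H) s t H) :
    FS (K * Nat.card G) s (2 * t₀ + t₁ + t + 2) G := by
  classical
  obtain ⟨S, hS⟩ := hF
  obtain ⟨d⟩ := exists_pd H hN hp
  obtain ⟨A⟩ := exists_ad H.subtype S
  let _ : ∀ z, Fintype (PK d (S := S) z) := fun z => Fintype.ofFinite _
  choose V V' h1 h2 hV using fun (z : S.I × S.I) (e : PK d z) => e.2
  obtain ⟨Y, hT, hY⟩ := pW_two d V A V' h1 h2 hV
  have hW := pW_bx d V hK hb hs ht hMM hG hS
  have hK0 : 0 ≤ K := zero_le_one.trans hK
  have hsum : ∑ z : S.I × S.I, K * ((Fintype.card (PK d z) : ℝ) *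
      Fintype.card (S.D z.1 × S.D z.2)) ≤ K * Nat.card G := by
    rw [← Finset.mul_sum]
    refine mul_le_mul_of_nonneg_left ?_ hK0
    have h3 := pK_sum d (S := S)
    have h4 : ∑ z : S.I × S.I, ((Fintype.card (PK d z) : ℝ) *
        Fintype.card (S.D z.1 × S.D z.2)) = ((∑ z : S.I × S.I, Fintype.card (PK d z) *
          (Fintype.card (S.D z.1) * Fintype.card (S.D z.2)) : ℕ) : ℝ) := by
      push_cast
      refine Finset.sum_congr rfl fun z _ => ?_
      rw [Fintype.card_prod, Nat.cast_mul]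
    rw [h4]
    exact_mod_cast h3
  have hblock : ∀ z : S.I × S.I, Bx (K * ((Fintype.card (PK d z) : ℝ) *
      Fintype.card (S.D z.1 × S.D z.2))) s (t₀ + t₁) (Matrix.kroneckerMap (· * ·) (Y z)
      (1 : Matrix (S.D z.1 × S.D z.2) (S.D z.1 × S.D z.2) ℂ)) := by
    intro z
    by_cases hc : Fintype.card (PK d z) ≤ 1
    · have h3 : (Fintype.card (Σ l, A.P l z.1 × A.P l z.2) : ℝ) ≤ Fintype.card (PK d z) := by
        exact_mod_cast Two.card A (pW d V) Y hT z
      have h4 : (1 : ℝ) ≤ Fintype.card (S.D z.1 × S.D z.2) := by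
        exact_mod_cast (Fintype.card_pos : 0 < Fintype.card (S.D z.1 × S.D z.2))
      have h5 : (Fintype.card (PK d z) : ℝ) ≤ b * Fintype.card (S.D z.1 × S.D z.2) := by
        have h6 : (Fintype.card (PK d z) : ℝ) ≤ 1 := by exact_mod_cast hc
        nlinarith
      have h7 : (Fintype.card (PK d z) : ℝ) * Fintype.card (S.D z.1 × S.D z.2) ≤ N := by
        refine le_trans ?_ hG
        have h8 := (Finset.single_le_sum (f := fun z : S.I × S.I => Fintype.card (PK d z) *
          (Fintype.card (S.D z.1) * Fintype.card (S.D z.2))) (fun _ _ => Nat.zero_le _)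
          (Finset.mem_univ z)).trans (pK_sum d (S := S))
        rw [← Fintype.card_prod] at h8
        exact_mod_cast h8
      exact (hMM _ _ _ _ h3 le_rfl h5 h7 (Y z)).mono le_rfl le_rfl (Nat.le_add_right _ _) hs
    · obtain ⟨e, e', he⟩ := Fintype.one_lt_card_iff.1 (not_le.1 hc)
      obtain ⟨i, j⟩ := z
      obtain ⟨h3, h4⟩ := pK_two d H.subtype_injective hp (i, j) e e' he
      change i = j at h3
      subst h3
      change Eqv S d.α i i at h4
      have h5 : (H.index : ℝ) ≤ N := by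
        refine le_trans ?_ hG
        exact_mod_cast Nat.le_of_dvd Nat.card_pos H.index_dvd_card
      have h6 := pY_stable d H.subtype_injective hp A V V' h1 h2 hV Y hT hY ht₁
        (hFP _ hp h5) i h4
      have h7 := h6.tensor_one (Y := S.D i × S.D i) ht₁
      have h8 := pK_full d hp.pos i h4
      refine (Bx.mono (A := Matrix.kroneckerMap (· * ·) (Y (i, i))
        (1 : Matrix (S.D i × S.D i) (S.D i × S.D i) ℂ)) (w := Fintype.card (S.D i × S.D i) *
          (K * H.index)) (t := t₁) (s := s) ?_ ?_ le_rfl (Nat.le_add_left _ _) hs)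
      · have h9 : Matrix.kroneckerMap (· * ·) (Y (i, i))
            (1 : Matrix (S.D i × S.D i) (S.D i × S.D i) ℂ) =
            Matrix.of fun (p : (Σ l, A.P l i × A.P l i) × (S.D i × S.D i))
              (q : PK d (S := S) (i, i) × (S.D i × S.D i)) =>
              if p.2 = q.2 then Y (i, i) p.1 q.1 else 0 := by
          ext p q
          rw [Matrix.kroneckerMap_apply, Matrix.of_apply, Matrix.one_apply, mul_ite, mul_one,
            mul_zero]
        rw [h9]
        exact h7
      · rw [h8]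
        apply le_of_eq
        ring
  have h9 := Two.bx A (pW d V) Y hT hs hW _ hsum hblock
  refine ⟨A.sys, h9.mono le_rfl le_rfl ?_ hs⟩
  omega

end MP0775d3.Ox
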