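import Pool.Agent.Lib.MP_0775d3_lc.Ox.LTs
import Pool.Agent.Lib.MP_0775d3_lc.Ox.PrF

/-! Project OX: low part, normal subgroups of prime index. -/

set_option linter.unusedSectionVars false
set_option linter.unusedVariables false

namespace MP0775d3.Ox

open Matrix MP0775d3.Cf

/-- PROOF. As `pW_bx`, with `F` in place of `S.F` and the base change of the blocks with `|S.D z.2| > L` replaced by zero, one layer
(`bx_layer`). -/
theorem pW_low {G H : Type} [Group G] [Group H] {ι : H →* G} {p : ℕ} (d : Pd ι p) {S : Sys H}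
    (V : ∀ z : S.I × S.I, PK d z → Matrix (S.D z.1) (S.D z.2) ℂ) [Finite G] [Finite H]
    {K s L : ℝ} {t : ℕ} (hK : 1 ≤ K) (hs : 1 ≤ s) (hL : L ≤ s) (ht : 1 ≤ t)
    (F : Matrix (Σ i, S.D i × S.D i) H ℂ) (hF : Bx (K * Nat.card H) s t F) (hFL : S.Low L F) :
    ∃ W' : Matrix (Σ z : S.I × S.I, (S.D z.1 × S.D z.2) × PK d z) G ℂ,
      Bx (K * Nat.card G) s (1 + t + 1) W' ∧
      ∀ z g, (Fintype.card (S.D z.1.1) : ℝ) ≤ L → (Fintype.card (S.D z.1.2) : ℝ) ≤ L →
        W' z g = pW d V z g := by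
  classical
  have : ∀ z, Fintype (PK d (S := S) z) := fun z => Fintype.ofFinite _
  have : Fintype H := Fintype.ofFinite H
  have hK0 : 0 ≤ K := zero_le_one.trans hK
  have hG : Nat.card G = p * Nat.card H := by
    rw [← Nat.card_congr (Equiv.ofBijective _ d.bij), Nat.card_prod, Nat.card_fin, mul_comm]
  have hsum := pK_sum (S := S) d
  -- the first layer
  have hF1 : Bx (K * Nat.card G) s t (Matrix.of fun (q : (Σ i, S.D i × S.D i) × Fin p)
      (r : H × Fin p) => if q.2 = r.2 then F q.1 r.1 else 0) := by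
    have h1 := hF.tensor_one (Y := Fin p) ht
    rw [Fintype.card_fin] at h1
    rw [hG]
    have h2 : (p : ℝ) * (K * Nat.card H) = K * ((p * Nat.card H : ℕ) : ℝ) := by
      push_cast
      ring
    rw [← h2]
    exact h1
  obtain ⟨f1, hf1⟩ : ∃ f : (Σ j : (Σ z : S.I × S.I, PK d z), S.D j.1.1 × S.D j.1.1) →
      (Σ i, S.D i × S.D i) × Fin p, f = fun q =>
        (⟨q.1.1.1, (q.2.2, q.2.1)⟩, (q.1.2 : Fin p)) := ⟨_, rfl⟩
  have hf1i : Function.Injective f1 := by
    rintro ⟨⟨⟨i, j⟩, e, he⟩, a', a⟩ ⟨⟨⟨i2, j2⟩, e2, he2⟩, a2', a2⟩ hq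
    rw [hf1] at hq
    have h1 := congrArg Prod.fst hq
    have h2 : e = e2 := congrArg Prod.snd hq
    obtain ⟨h3, h4⟩ := Sigma.mk.inj_iff.mp h1
    have h3' : i = i2 := h3
    subst h3'
    subst h2
    have h5 := eq_of_heq h4
    have h6 : a = a2 := congrArg Prod.fst h5
    have h7 : a' = a2' := congrArg Prod.snd h5
    subst h6
    subst h7
    have h8 : j = j2 := by
      have h9 : Eqv S (fun h => (d.α ^ (e : ℕ)) h) i j := he
      have h10 : Eqv S (fun h => (d.α ^ (e : ℕ)) h) i j2 := he2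
      exact (Eqv.symm (α := d.α ^ (e : ℕ)) h9).unique (Eqv.symm (α := d.α ^ (e : ℕ)) h10)
    subst h8
    rfl
  have hF2 := hF1.submatrix hf1i (Equiv.ofBijective _ d.bij).symm.injective
  -- the second layer
  have hGK : ((Nat.card G : ℕ) : ℝ) ≤ K * Nat.card G := by
    have h0 : (0 : ℝ) ≤ (Nat.card G : ℝ) := Nat.cast_nonneg _
    nlinarith
  have hw1 : ∑ j : (Σ z : S.I × S.I, PK d z),
      ((Fintype.card (S.D j.1.2) : ℝ) * Fintype.card (S.D j.1.1)) ≤ K * Nat.card G := by
    refine le_trans ?_ hGK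
    rw [Fintype.sum_sigma]
    refine le_trans (le_of_eq ?_) (Nat.cast_le.mpr hsum)
    rw [Nat.cast_sum]
    refine Finset.sum_congr rfl fun z _ => ?_
    change ∑ _e : PK d z, ((Fintype.card (S.D z.2) : ℝ) * Fintype.card (S.D z.1)) = _
    rw [Finset.sum_const, Finset.card_univ, nsmul_eq_mul]
    push_cast
    ring
  have hce : ∀ j : (Σ z : S.I × S.I, PK d z),
      Fintype.card (S.D j.1.1) = Fintype.card (S.D j.1.2) := fun j => j.2.2.card
  have hw2 : ∑ j : (Σ z : S.I × S.I, PK d z),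
      ((Fintype.card (S.D j.1.1) : ℝ) * Fintype.card (S.D j.1.1)) ≤ K * Nat.card G := by
    refine le_trans (le_of_eq (Finset.sum_congr rfl fun j _ => ?_)) hw1
    rw [← hce j]
  have hC1 := bx_layer (I := (Σ z : S.I × S.I, PK d z)) (X := fun j => S.D j.1.2)
    (Y := fun j => S.D j.1.1) (E := fun j => S.D j.1.1) (w := K * Nat.card G) hs
    (fun j => (V j.1 j.2)ᵀ) (fun j => (Fintype.card (S.D j.1.2) : ℝ) ≤ L)
    (fun j hj => hj.trans hL) (fun j hj => by rw [hce j]; exact hj.trans hL) hw1 hw2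
  obtain ⟨f2, hf2⟩ : ∃ f : (Σ z : S.I × S.I, (S.D z.1 × S.D z.2) × PK d z) →
      (Σ j : (Σ z : S.I × S.I, PK d z), S.D j.1.2 × S.D j.1.1), f = fun q =>
        ⟨⟨q.1, q.2.2⟩, (q.2.1.2, q.2.1.1)⟩ := ⟨_, rfl⟩
  have hf2i : Function.Injective f2 := by
    rintro ⟨z, ⟨a, b'⟩, e⟩ ⟨z2, ⟨a2, b2⟩, e2⟩ hq
    rw [hf2] at hq
    obtain ⟨h1, h2⟩ := Sigma.mk.inj_iff.mp hq
    obtain ⟨h3, h4⟩ := Sigma.mk.inj_iff.mp h1
    have h3' : z = z2 := h3
    subst h3'
    have h5 : e = e2 := eq_of_heq h4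
    subst h5
    have h6 := eq_of_heq h2
    have h7 : b' = b2 := congrArg Prod.fst h6
    have h8 : a = a2 := congrArg Prod.snd h6
    subst h7
    subst h8
    rfl
  have hC2 := hC1.submatrix hf2i (g := id) Function.injective_id
  have hfin := hC2.mul hF2 hs
  refine ⟨_, hfin, ?_⟩
  rintro ⟨z, ⟨a, b'⟩, e⟩ x hz1 hz2
  change (Fintype.card (S.D z.1) : ℝ) ≤ L at hz1
  change (Fintype.card (S.D z.2) : ℝ) ≤ L at hz2
  rw [Matrix.mul_apply, Fintype.sum_sigma, Finset.sum_eq_single (⟨z, e⟩ : Σ z : S.I × S.I, PK d z)]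
  · rw [Fintype.sum_prod_type]
    have h1 : ∀ a' a1 : S.D z.1, (Matrix.blockDiagonal' fun j : (Σ z : S.I × S.I, PK d z) =>
        if (Fintype.card (S.D j.1.2) : ℝ) ≤ L then
        Matrix.kroneckerMap (· * ·) (V j.1 j.2)ᵀ (1 : Matrix (S.D j.1.1) (S.D j.1.1) ℂ)
        else 0).submatrix
          f2 id ⟨z, ((a, b'), e)⟩ ⟨⟨z, e⟩, (a', a1)⟩ =
        V z e a' b' * (1 : Matrix (S.D z.1) (S.D z.1) ℂ) a a1 := by
      intro a' a1
      rw [hf2, Matrix.submatrix_apply]
      refine (Matrix.blockDiagonal'_apply_eq _ _ _ _).trans ?_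
      rw [if_pos hz2]
      rfl
    simp only [h1]
    have h2 : ∀ a' : S.D z.1, ∑ a1 : S.D z.1,
        V z e a' b' * (1 : Matrix (S.D z.1) (S.D z.1) ℂ) a a1 *
          (Matrix.of fun (q : (Σ i, S.D i × S.D i) × Fin p)
            (r : H × Fin p) => if q.2 = r.2 then F q.1 r.1 else 0).submatrix f1
              (Equiv.ofBijective _ d.bij).symm ⟨⟨z, e⟩, (a', a1)⟩ x =
        if (e : Fin p) = ((Equiv.ofBijective _ d.bij).symm x).2 then
          S.π z.1 ((Equiv.ofBijective _ d.bij).symm x).1 a a' * V z e a' b' else 0 := by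
      intro a'
      rw [Finset.sum_eq_single a]
      · rw [Matrix.one_apply_eq, mul_one, hf1, Matrix.submatrix_apply, Matrix.of_apply]
        by_cases he : (e : Fin p) = ((Equiv.ofBijective _ d.bij).symm x).2
        · rw [if_pos he, if_pos he, mul_comm]
          congr 1
          exact hFL ⟨z.1, (a, a')⟩ _ hz1
        · rw [if_neg he, if_neg he, mul_zero]
      · intro a1 _ hne
        rw [Matrix.one_apply_ne hne.symm, mul_zero, zero_mul]
      · intro hn
        exact absurd (Finset.mem_univ a) hn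
    rw [Finset.sum_congr rfl fun a' _ => h2 a']
    unfold pW
    rw [Matrix.of_apply]
    by_cases he : (e : Fin p) = ((Equiv.ofBijective _ d.bij).symm x).2
    · simp only [if_pos he]
      rw [Matrix.mul_apply]
    · simp only [if_neg he]
      exact Finset.sum_const_zero
  · intro j _ hne
    refine Finset.sum_eq_zero fun y _ => ?_
    have h1 : (Matrix.blockDiagonal' fun j : (Σ z : S.I × S.I, PK d z) =>
        if (Fintype.card (S.D j.1.2) : ℝ) ≤ L then
        Matrix.kroneckerMap (· * ·) (V j.1 j.2)ᵀ (1 : Matrix (S.D j.1.1) (S.D j.1.1) ℂ)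
        else 0).submatrix
          f2 id ⟨z, ((a, b'), e)⟩ ⟨j, y⟩ = 0 := by
      rw [hf2, Matrix.submatrix_apply]
      exact Matrix.blockDiagonal'_apply_ne _ _ _ hne.symm
    rw [h1, zero_mul]
  · intro hn
    exact absurd (Finset.mem_univ _) hn

/-- PROOF. As `step_prime`, with `pW_low`, `Two.low'` (`M = K`): a block with `|PK d z| ≤ 1` is one layer; else `pK_two`,
`pY_stable`, `Bx.tensor_one`. -/
theorem step_prime_low {K N s L : ℝ} {t t₁ : ℕ} (hK : 1 ≤ K) (hL : 1 ≤ L) (hLs : L ≤ s)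
    (ht : 1 ≤ t) (ht₁ : 1 ≤ t₁) (hFP : FP K N s t₁) {G : Type} [Group G] [Finite G]
    (hG : (Nat.card G : ℝ) ≤ N) (H : Subgroup G) (hN : H.Normal) (hp : H.index.Prime)
    (hF : FL (K * Nat.card H) s t L H) :
    FL (K * Nat.card G) s (t₁ + (1 + t + 1) + 1) L G := by
  classical
  have hs : 1 ≤ s := hL.trans hLs
  have hK0 : 0 ≤ K := zero_le_one.trans hK
  obtain ⟨S, F, hB, hFL⟩ := hF
  obtain ⟨d⟩ := exists_pd H hN hp
  have hPK : ∀ z, Fintype (PK d (S := S) z) := fun z => Fintype.ofFinite _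
  choose V V' h1 h2 hV using fun (z : S.I × S.I) (e : PK d z) => e.2
  obtain ⟨A⟩ := exists_ad H.subtype S
  obtain ⟨Y, hT, hY⟩ := pW_two d V A V' h1 h2 hV
  obtain ⟨W', hW', hWl⟩ := pW_low d V hK hs hLs ht F hB hFL
  have hsum := pK_sum (S := S) d
  have hi : (H.index : ℝ) ≤ N := by
    refine le_trans ?_ hG
    exact_mod_cast Nat.le_of_dvd Nat.card_pos H.index_dvd_card
  have hYb : ∀ z : S.I × S.I, (Fintype.card (S.D z.1) : ℝ) ≤ L →
      (Fintype.card (S.D z.2) : ℝ) ≤ L →
      Bx (K * (Fintype.card (PK d z) * (Fintype.card (S.D z.1) * Fintype.card (S.D z.2)))) s t₁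
        (Matrix.kroneckerMap (· * ·) (Y z) (1 : Matrix (S.D z.1 × S.D z.2) (S.D z.1 × S.D z.2) ℂ)) := by
    intro z _ _
    by_cases hc : Fintype.card (PK d z) ≤ 1
    · have hrow := hT.card A (pW d V) Y z
      have hsub1 : Subsingleton (PK d z) := Fintype.card_le_one_iff_subsingleton.mp hc
      have hsub2 : Subsingleton (Σ l, A.P l z.1 × A.P l z.2) :=
        Fintype.card_le_one_iff_subsingleton.mp (hrow.trans hc)
      have hne : ∀ (i : (Σ l, A.P l z.1 × A.P l z.2) × (S.D z.1 × S.D z.2))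
          (j : PK d z × (S.D z.1 × S.D z.2)),
          Matrix.kroneckerMap (· * ·) (Y z)
            (1 : Matrix (S.D z.1 × S.D z.2) (S.D z.1 × S.D z.2) ℂ) i j ≠ 0 → i.2 = j.2 := by
        intro i j hij
        by_contra hne
        refine hij ?_
        rw [Matrix.kroneckerMap_apply, Matrix.one_apply_ne hne, mul_zero]
      have hblk : Blk s (Matrix.kroneckerMap (· * ·) (Y z)
          (1 : Matrix (S.D z.1 × S.D z.2) (S.D z.1 × S.D z.2) ℂ)) :=
        blk_partial hs
          (fun i j j' hj hj' => Prod.ext (Subsingleton.elim _ _) ((hne i j hj).symm.trans (hne i j' hj')))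
          (fun i i' j hj hj' => Prod.ext (Subsingleton.elim _ _) ((hne i j hj).trans (hne i' j hj').symm))
      have hD0 : (0 : ℝ) ≤ (Fintype.card (S.D z.1) : ℝ) * Fintype.card (S.D z.2) := by positivity
      have hP0 : (0 : ℝ) ≤ (Fintype.card (PK d z) : ℝ) := Nat.cast_nonneg _
      have hb1 : ((Fintype.card (PK d z) : ℝ) * (Fintype.card (S.D z.1) * Fintype.card (S.D z.2))) ≤
          K * (Fintype.card (PK d z) * (Fintype.card (S.D z.1) * Fintype.card (S.D z.2))) := by
        nlinarith [mul_nonneg hP0 hD0]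
      have hb := bx_of_blk hblk hs (w := K * (Fintype.card (PK d z) *
        (Fintype.card (S.D z.1) * Fintype.card (S.D z.2)))) (by
          refine le_trans ?_ hb1
          rw [Fintype.card_prod, Fintype.card_prod]
          push_cast
          refine mul_le_mul_of_nonneg_right ?_ hD0
          exact_mod_cast hrow) (by
          refine le_trans ?_ hb1
          rw [Fintype.card_prod, Fintype.card_prod]
          push_cast
          exact le_rfl)
      exact hb.mono le_rfl le_rfl ht₁ hs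
    · obtain ⟨e, e', hee⟩ := Fintype.one_lt_card_iff.mp (not_le.mp hc)
      obtain ⟨hz, hj⟩ := pK_two d H.subtype_injective hp z e e' hee
      obtain ⟨i, j⟩ := z
      change i = j at hz
      change Eqv S d.α j j at hj
      subst hz
      have hfb := hFP H.index hp hi
      have hst := pY_stable d H.subtype_injective hp A V V' h1 h2 hV Y hT hY ht₁ hfb i hj
      have hten := hst.tensor_one (Y := S.D i × S.D i) ht₁
      have hfull := pK_full d hp.pos i hj
      have hw : (Fintype.card (S.D i × S.D i) : ℝ) * (K * H.index) =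
          K * (Fintype.card (PK d (S := S) (i, i)) * (Fintype.card (S.D i) * Fintype.card (S.D i))) := by
        rw [Fintype.card_prod, hfull]
        push_cast
        ring
      rw [hw] at hten
      refine (congrArg (Bx (K * (Fintype.card (PK d (S := S) (i, i)) *
        (Fintype.card (S.D i) * Fintype.card (S.D i)))) s t₁) ?_).mp hten
      ext x y
      rw [Matrix.of_apply, Matrix.kroneckerMap_apply, Matrix.one_apply, mul_ite, mul_one, mul_zero]
  have hw : K * (∑ z : S.I × S.I, (Fintype.card (PK d z) *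
      (Fintype.card (S.D z.1) * Fintype.card (S.D z.2)) : ℝ)) ≤ K * Nat.card G := by
    refine mul_le_mul_of_nonneg_left ?_ hK0
    exact_mod_cast hsum
  obtain ⟨F', hF', hFL'⟩ := Two.low' A (pW d V) Y hT hs ht₁ W' hW' hWl hK hYb hw
  exact ⟨A.sys, F', hF', hFL'⟩

end MP0775d3.Ox
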