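import Pool.Agent.Lib.MP_0775d3_lc.Ox.AdaptB
import Pool.Agent.Lib.MP_0775d3_lc.Cf.CalcC

/-! Project OX: the part of the Fourier transform that belongs to representations of small dimension. -/

set_option linter.unusedSectionVars false
set_option linter.unusedVariables false

namespace MP0775d3.Ox

open Matrix MP0775d3.Cf

variable {G H : Type} [Group G] [Group H]

/-- `F` agrees with the Fourier matrix in the rows of the representations of dimension at most `L`. -/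
def Sys.Low (S : Sys G) (L : ℝ) (F : Matrix (Σ i, S.D i × S.D i) G ℂ) : Prop :=
  ∀ z g, (Fintype.card (S.D z.1) : ℝ) ≤ L → F z g = S.F z g

/-- The low part of the Fourier transform of `G` is a box circuit. -/
def FL (w s : ℝ) (t : ℕ) (L : ℝ) (G : Type) [Group G] : Prop :=
  ∃ (S : Sys G) (F : Matrix (Σ i, S.D i × S.D i) G ℂ), Bx w s t F ∧ S.Low L F

theorem FL.mono {w s w' s' L : ℝ} {t t' : ℕ} (h : FL w s t L G) (hw : w ≤ w') (hs : s ≤ s')
    (ht : t ≤ t') (hs' : 1 ≤ s') : FL w' s' t' L G := by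
  obtain ⟨S, F, hB, hF⟩ := h
  exact ⟨S, F, hB.mono hw hs ht hs', hF⟩

private def LDefs_cg (e : G ≃* H) (S : Sys G) : Sys H where
  I := S.I
  D := S.D
  π i x := S.π i (e.symm x)
  one i := by rw [map_one, S.one]
  mul i g h := by rw [map_mul, S.mul]
  sq := by
    rw [S.sq]
    exact Nat.card_congr e.toEquiv
  tr g hg := S.tr _ fun h1 => hg (by rw [← e.apply_symm_apply g, h1, map_one])

/-- PROOF. As `FS.congr`. -/
theorem FL.congr {w s L : ℝ} {t : ℕ} (e : G ≃* H) (h : FL w s t L G) : FL w s t L H := by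
  obtain ⟨S, F, hB, hF⟩ := h
  exact ⟨LDefs_cg e S, F.submatrix id (fun x : H => e.symm x),
    hB.submatrix (f := id) (g := fun x : H => e.symm x) Function.injective_id e.symm.injective,
    fun z g hz => hF z (e.symm g) hz⟩

theorem FS.low {w s : ℝ} {t : ℕ} (L : ℝ) (h : FS w s t G) : FL w s t L G := by
  obtain ⟨S, hS⟩ := h
  exact ⟨S, S.F, hS, fun _ _ _ => rfl⟩

/-- PROOF. The transposed, scaled and permuted matrix, as in `Sys.bx'`. -/
theorem Sys.low' (S : Sys G) {w s L : ℝ} {t : ℕ} (ht : 1 ≤ t)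
    (F : Matrix (Σ i, S.D i × S.D i) G ℂ) (hB : Bx w s t F) (hF : S.Low L F) :
    ∃ F' : Matrix G (Σ i, S.D i × S.D i) ℂ, Bx w s t F' ∧
      ∀ g z, (Fintype.card (S.D z.1) : ℝ) ≤ L → F' g z = S.F' g z := by
  have h1 := (hB.transpose.submatrix (f := fun g : G => g⁻¹)
    (g := fun z : (Σ i, S.D i × S.D i) => (⟨z.1, z.2.2, z.2.1⟩ : Σ i, S.D i × S.D i))
    inv_injective (by
      rintro ⟨i, a, b⟩ ⟨j, c, d⟩ h
      simp only [Sigma.mk.injEq] at h
      obtain ⟨rfl, h⟩ := h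
      simp only [heq_eq_eq, Prod.mk.injEq] at h
      obtain ⟨rfl, rfl⟩ := h
      rfl)).scale ht (fun _ => 1) (fun z => ((Fintype.card (S.D z.1) : ℂ) / Nat.card G))
  refine ⟨_, h1, fun g z hz => ?_⟩
  change (1 : ℂ) * F ⟨z.1, z.2.2, z.2.1⟩ g⁻¹ * ((Fintype.card (S.D z.1) : ℂ) / Nat.card G) =
    ((Fintype.card (S.D z.1) : ℂ) / Nat.card G) * S.π z.1 g⁻¹ z.2.2 z.2.1
  rw [hF ⟨z.1, z.2.2, z.2.1⟩ g⁻¹ hz]
  change (1 : ℂ) * S.π z.1 g⁻¹ z.2.2 z.2.1 * ((Fintype.card (S.D z.1) : ℂ) / Nat.card G) =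
    ((Fintype.card (S.D z.1) : ℂ) / Nat.card G) * S.π z.1 g⁻¹ z.2.2 z.2.1
  ring

/-- The fibres of the labels. -/
private theorem LDefs_lab {I M : Type} {X E : I → Type} [∀ i, Fintype (X i)]
    {s : ℝ} (hs : 1 ≤ s) (p : I → Prop) [DecidablePred p]
    (h1 : ∀ i, p i → (Fintype.card (X i) : ℝ) ≤ s) (j : (Σ i, X i × E i) → M)
    (hj : Function.Injective j) (l : (Σ i, E i) ⊕ M) :
    (({z | (if p z.1 then Sum.inl ⟨z.1, z.2.2⟩ else Sum.inr (j z) : (Σ i, E i) ⊕ M) = l} :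
      Set (Σ i, X i × E i)).ncard : ℝ) ≤ s := by
  rcases l with ⟨i, e⟩ | m
  · by_cases hi : p i
    · have h2 : ({z | (if p z.1 then Sum.inl ⟨z.1, z.2.2⟩ else Sum.inr (j z) :
          (Σ i, E i) ⊕ M) = Sum.inl ⟨i, e⟩} : Set (Σ i, X i × E i)) ⊆
          (fun x : X i => (⟨i, x, e⟩ : Σ i, X i × E i)) '' Set.univ := by
        rintro ⟨i', x, e'⟩ hz
        have hz1 : (if p i' then Sum.inl ⟨i', e'⟩ else Sum.inr (j ⟨i', x, e'⟩) :
          (Σ i, E i) ⊕ M) = Sum.inl ⟨i, e⟩ := hz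
        by_cases hp : p i'
        · rw [if_pos hp] at hz1
          obtain ⟨h3, h4⟩ := Sigma.mk.inj_iff.1 (Sum.inl_injective hz1)
          subst h3
          obtain rfl := eq_of_heq h4
          exact ⟨x, Set.mem_univ _, rfl⟩
        · rw [if_neg hp] at hz1
          exact absurd hz1 Sum.inr_ne_inl
      have h3 : ({z | (if p z.1 then Sum.inl ⟨z.1, z.2.2⟩ else Sum.inr (j z) :
          (Σ i, E i) ⊕ M) = Sum.inl ⟨i, e⟩} : Set (Σ i, X i × E i)).ncard ≤ Fintype.card (X i) := by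
        refine ((Set.ncard_le_ncard h2 (Set.toFinite _)).trans
          (Set.ncard_image_le (Set.toFinite _))).trans ?_
        rw [Set.ncard_univ, Nat.card_eq_fintype_card]
      exact le_trans (by exact_mod_cast h3) (h1 i hi)
    · have h2 : ({z | (if p z.1 then Sum.inl ⟨z.1, z.2.2⟩ else Sum.inr (j z) :
          (Σ i, E i) ⊕ M) = Sum.inl ⟨i, e⟩} : Set (Σ i, X i × E i)) = ∅ := by
        refine Set.eq_empty_of_forall_notMem ?_
        rintro ⟨i', x, e'⟩ hz
        have hz1 : (if p i' then Sum.inl ⟨i', e'⟩ else Sum.inr (j ⟨i', x, e'⟩) :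
          (Σ i, E i) ⊕ M) = Sum.inl ⟨i, e⟩ := hz
        by_cases hp : p i'
        · rw [if_pos hp] at hz1
          obtain ⟨h3, h4⟩ := Sigma.mk.inj_iff.1 (Sum.inl_injective hz1)
          exact hi (h3 ▸ hp)
        · rw [if_neg hp] at hz1
          exact absurd hz1 Sum.inr_ne_inl
      rw [h2, Set.ncard_empty, Nat.cast_zero]
      exact zero_le_one.trans hs
  · have h2 : ∀ z ∈ ({z | (if p z.1 then Sum.inl ⟨z.1, z.2.2⟩ else Sum.inr (j z) :
          (Σ i, E i) ⊕ M) = Sum.inr m} : Set (Σ i, X i × E i)), j z = m := by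
      intro z hz
      have hz1 : (if p z.1 then Sum.inl ⟨z.1, z.2.2⟩ else Sum.inr (j z) :
          (Σ i, E i) ⊕ M) = Sum.inr m := hz
      by_cases hp : p z.1
      · rw [if_pos hp] at hz1
        exact absurd hz1 Sum.inl_ne_inr
      · rw [if_neg hp] at hz1
        exact Sum.inr_injective hz1
    have h3 : ∀ a ∈ ({z | (if p z.1 then Sum.inl ⟨z.1, z.2.2⟩ else Sum.inr (j z) :
          (Σ i, E i) ⊕ M) = Sum.inr m} : Set (Σ i, X i × E i)),
        ∀ b ∈ ({z | (if p z.1 then Sum.inl ⟨z.1, z.2.2⟩ else Sum.inr (j z) :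
          (Σ i, E i) ⊕ M) = Sum.inr m} : Set (Σ i, X i × E i)), a = b :=
      fun a ha b hb => hj ((h2 a ha).trans (h2 b hb).symm)
    have h4 : Set.Subsingleton ({z | (if p z.1 then Sum.inl ⟨z.1, z.2.2⟩ else Sum.inr (j z) :
          (Σ i, E i) ⊕ M) = Sum.inr m} : Set (Σ i, X i × E i)) := fun a ha b hb => h3 a ha b hb
    have h5 := (Set.ncard_le_one h4.finite).2 h3
    exact le_trans (by exact_mod_cast h5) hs

/-- One layer. PROOF. `blk_of_labels` or the definition of `Blk`, with the label `⟨i, e⟩`; `bx_of_blk`. -/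
theorem bx_layer {I : Type} [Fintype I] [DecidableEq I] {X Y E : I → Type} [∀ i, Fintype (X i)]
    [∀ i, Fintype (Y i)] [∀ i, Fintype (E i)] [∀ i, DecidableEq (E i)] {w s : ℝ} (hs : 1 ≤ s)
    (A : ∀ i, Matrix (X i) (Y i) ℂ) (p : I → Prop) [DecidablePred p]
    (h1 : ∀ i, p i → (Fintype.card (X i) : ℝ) ≤ s) (h2 : ∀ i, p i → (Fintype.card (Y i) : ℝ) ≤ s)
    (h3 : (∑ i, (Fintype.card (X i) * Fintype.card (E i) : ℝ)) ≤ w)
    (h4 : (∑ i, (Fintype.card (Y i) * Fintype.card (E i) : ℝ)) ≤ w) :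
    Bx w s 1 (Matrix.blockDiagonal' fun i => if p i then
      Matrix.kroneckerMap (· * ·) (A i) (1 : Matrix (E i) (E i) ℂ) else 0) := by
  refine bx_of_blk (blk_of_labels
    (L := (Σ i, E i) ⊕ ((Σ i, X i × E i) ⊕ (Σ i, Y i × E i)))
    (fun z => if p z.1 then Sum.inl ⟨z.1, z.2.2⟩ else Sum.inr (Sum.inl z))
    (fun z => if p z.1 then Sum.inl ⟨z.1, z.2.2⟩ else Sum.inr (Sum.inr z))
    (fun l => LDefs_lab hs p h1 _ Sum.inl_injective l)
    (fun l => LDefs_lab hs p h2 _ Sum.inr_injective l) ?_) hs ?_ ?_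
  · rintro ⟨i, x, e⟩ ⟨i', y, e'⟩ hne
    rw [Matrix.blockDiagonal'_apply] at hne
    by_cases hi : i = i'
    · subst hi
      by_cases hp : p i
      · rw [dif_pos rfl, if_pos hp] at hne
        have h5 : (1 : Matrix (E i) (E i) ℂ) e e' ≠ 0 := fun h6 => hne (by
          change A i x y * (1 : Matrix (E i) (E i) ℂ) e e' = 0
          rw [h6, mul_zero])
        have h6 : e = e' := by
          by_contra h7
          exact h5 (Matrix.one_apply_ne h7)
        subst h6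
        change (if p i then Sum.inl ⟨i, e⟩ else _ : (Σ i, E i) ⊕ _) =
          (if p i then Sum.inl ⟨i, e⟩ else _ : (Σ i, E i) ⊕ _)
        rw [if_pos hp, if_pos hp]
      · rw [dif_pos rfl, if_neg hp] at hne
        exact absurd rfl hne
    · rw [dif_neg hi] at hne
      exact absurd rfl hne
  · rw [Fintype.card_sigma]
    push_cast [Fintype.card_prod]
    exact h3
  · rw [Fintype.card_sigma]
    push_cast [Fintype.card_prod]
    exact h4

end MP0775d3.Ox
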