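import Pool.Agent.Lib.MP_0775d3_lc.Ox.SysR

/-! Project OX: the mass of the representations of large dimension. -/

set_option linter.unusedSectionVars false
set_option linter.unusedVariables false

namespace MP0775d3.Ox

open Matrix MP0775d3.Cf

/-- `MonoidAlgebra ℂ G` is a product of matrix algebras in which those of size at least `e` have dimension at least
`m` in total. -/
def Mass (G : Type) [Group G] (e m : ℝ) : Prop :=
  ∃ (n : ℕ) (d : Fin n → ℕ) (_ : MonoidAlgebra ℂ G ≃ₐ[ℂ] ∀ i, Matrix (Fin (d i)) (Fin (d i)) ℂ),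
    m ≤ ∑ i, if e ≤ (d i : ℝ) then ((d i : ℝ)) ^ 2 else 0

/-- PROOF. The map `x ↦ (∑ g, x g • π i g)_i` is an algebra homomorphism, bijective by `F'_mul_F`, `F_mul_F'`; reindex
`S.I` by `Fin n` and `S.D i` by `Fin (d i)`. -/
theorem Sys.mass {G : Type} [Group G] [Finite G] (S : Sys G) (e : ℝ) :
    Mass G e (∑ i, if e ≤ (Fintype.card (S.D i) : ℝ) then ((Fintype.card (S.D i) : ℝ)) ^ 2 else 0) := by
  classical
  have hfin : Fintype G := Fintype.ofFinite G
  obtain ⟨ε⟩ : Nonempty (Fin (Fintype.card S.I) ≃ S.I) := ⟨(Fintype.equivFin S.I).symm⟩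
  let d : Fin (Fintype.card S.I) → ℕ := fun i => Fintype.card (S.D (ε i))
  let f : ∀ i, Fin (d i) ≃ S.D (ε i) := fun i => (Fintype.equivFin (S.D (ε i))).symm
  let ψ : ∀ i, G →* Matrix (Fin (d i)) (Fin (d i)) ℂ := fun i =>
    { toFun := fun g => (S.π (ε i) g).submatrix (f i) (f i)
      map_one' := by
        rw [S.one]
        exact Matrix.submatrix_one_equiv (f i)
      map_mul' := fun g h => by
        rw [S.mul]
        exact (Matrix.submatrix_mul_equiv (S.π (ε i) g) (S.π (ε i) h) (f i) (f i) (f i)).symm }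
  let Φ : MonoidAlgebra ℂ G →ₐ[ℂ] ∀ i, Matrix (Fin (d i)) (Fin (d i)) ℂ :=
    AlgHom.pi fun i => MonoidAlgebra.lift ℂ _ G (ψ i)
  have hΦ : ∀ x i a b, Φ x i a b = ∑ g, x.coeff g * S.π (ε i) g (f i a) (f i b) := by
    intro x i a b
    have h1 : Φ x i = ∑ g, x.coeff g • ψ i g := by
      refine Eq.trans (MonoidAlgebra.lift_apply (ψ i) x) ?_
      exact Finsupp.sum_fintype x.coeff (fun g c => c • ψ i g) (fun g => zero_smul ℂ _)
    have h2 : Φ x i a b = (∑ g, x.coeff g • ψ i g) a b := by rw [h1]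
    rw [h2, Matrix.sum_apply]
    rfl
  have hinj : Function.Injective Φ := by
    refine (injective_iff_map_eq_zero Φ).2 fun x hx => ?_
    have h1 : S.F *ᵥ (fun g => x.coeff g) = 0 := by
      funext z
      obtain ⟨i, a, b⟩ := z
      obtain ⟨i, rfl⟩ := ε.surjective i
      have h2 := hΦ x i ((f i).symm a) ((f i).symm b)
      rw [hx, Equiv.apply_symm_apply, Equiv.apply_symm_apply] at h2
      rw [Matrix.mulVec, dotProduct]
      refine Eq.trans ?_ h2.symm
      exact Finset.sum_congr rfl fun g _ => mul_comm _ _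
    have h3 : (S.F' * S.F) *ᵥ (fun g => x.coeff g) = 0 := by
      rw [← Matrix.mulVec_mulVec, h1, Matrix.mulVec_zero]
    rw [S.F'_mul_F, Matrix.one_mulVec] at h3
    exact MonoidAlgebra.ext (Finsupp.ext fun g => congrFun h3 g)
  have hdim : Module.finrank ℂ (MonoidAlgebra ℂ G) =
      Module.finrank ℂ (∀ i, Matrix (Fin (d i)) (Fin (d i)) ℂ) := by
    rw [Module.finrank_eq_card_basis (MonoidAlgebra.basis G ℂ), Module.finrank_pi_fintype]
    have h1 : ∀ i, Module.finrank ℂ (Matrix (Fin (d i)) (Fin (d i)) ℂ) =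
        Fintype.card (S.D (ε i)) * Fintype.card (S.D (ε i)) := by
      intro i
      rw [Module.finrank_matrix, Module.finrank_self, mul_one, Fintype.card_fin]
    rw [Finset.sum_congr rfl fun i _ => h1 i,
      Equiv.sum_comp ε (fun i => Fintype.card (S.D i) * Fintype.card (S.D i)), S.sq,
      Nat.card_eq_fintype_card]
  have hsurj : Function.Surjective Φ :=
    (LinearMap.injective_iff_surjective_of_finrank_eq_finrank hdim (f := Φ.toLinearMap)).1 hinj
  refine ⟨_, d, AlgEquiv.ofBijective Φ ⟨hinj, hsurj⟩, le_of_eq ?_⟩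
  exact (Equiv.sum_comp ε (fun i => if e ≤ (Fintype.card (S.D i) : ℝ) then
    ((Fintype.card (S.D i) : ℝ)) ^ 2 else 0)).symm

theorem Mass.mono {G : Type} [Group G] {e e' m m' : ℝ} (h : Mass G e m) (he : e' ≤ e)
    (hm : m' ≤ m) : Mass G e' m' := by
  obtain ⟨n, d, Φ, h⟩ := h
  refine ⟨n, d, Φ, (hm.trans h).trans (Finset.sum_le_sum fun i _ => ?_)⟩
  by_cases h1 : e ≤ (d i : ℝ)
  · rw [if_pos h1, if_pos (he.trans h1)]
  · rw [if_neg h1]
    split_ifs
    · positivity
    · exact le_rfl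

end MP0775d3.Ox
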