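import Pool.Agent.Lib.MP_0775d3_lc.Ox.FacC

/-! Project OX: chains in alternating groups. -/

set_option linter.unusedSectionVars false
set_option linter.unusedVariables false

namespace MP0775d3.Ox

private theorem fd_fac {a : ℕ} (ha : 4 ≤ a) : 2 * (a + 1) ≤ a.factorial := by
  induction a, ha using Nat.le_induction with
  | base => decide
  | succ a ha ih =>
    rw [Nat.factorial_succ]
    nlinarith

private theorem fd_two {x k : ℕ} (hk : 1 ≤ k) : 2 * x ^ k ≤ (2 * x) ^ k := by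
  rw [mul_pow]
  refine Nat.mul_le_mul_right _ ?_
  calc 2 = 2 ^ 1 := rfl
    _ ≤ 2 ^ k := Nat.pow_le_pow_right (by norm_num) hk

private theorem fd_pow (a r : ℕ) : a.factorial ^ r ≤ (r * a).factorial := by
  have h := Nat.prod_factorial_dvd_factorial_sum (Finset.range r) (fun _ => a)
  rw [Finset.prod_const, Finset.sum_const, Finset.card_range, smul_eq_mul] at h
  exact Nat.le_of_dvd (Nat.factorial_pos _) h

/-- PROOF. `r = 2 * k`. With `a = m / r`, `m ! ≥ (r a)! ≥ (a !) ^ r` and `2 * (a + 1) ≤ a !` for `a ≥ 4`;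
`c ^ m / m ! → 0` for `c = r ^ k` (`FloorSemiring.tendsto_pow_div_factorial_atTop`). -/
theorem alt_num (k : ℕ) (hk : 1 ≤ k) : ∃ r m₀ : ℕ, 0 < r ∧ ∀ m, m₀ ≤ m →
    2 * (r ^ m) ^ k ≤ m.factorial ∧ 2 * ((m / r + 1).factorial) ^ k ≤ m.factorial := by
  obtain ⟨m₁, hm₁⟩ : ∃ m₁ : ℕ, ∀ m, m₁ ≤ m → (((2 * k) ^ k : ℕ) : ℝ) ^ m / m.factorial < 1 / 2 := by
    have h := (FloorSemiring.tendsto_pow_div_factorial_atTop
      ((((2 * k) ^ k : ℕ) : ℝ))).eventually_lt_const (show (0 : ℝ) < 1 / 2 by norm_num)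
    exact Filter.eventually_atTop.1 h
  refine ⟨2 * k, max m₁ (4 * (2 * k)), by omega, fun m hm => ⟨?_, ?_⟩⟩
  · have h1 := hm₁ m ((le_max_left _ _).trans hm)
    have h2 : (0 : ℝ) < m.factorial := by exact_mod_cast Nat.factorial_pos m
    rw [div_lt_iff₀ h2] at h1
    have h3 : (2 : ℝ) * (((2 * k) ^ k : ℕ) : ℝ) ^ m ≤ m.factorial := by linarith
    have h4 : 2 * ((2 * k) ^ k) ^ m ≤ m.factorial := by exact_mod_cast h3
    rwa [← pow_mul, mul_comm k m, pow_mul] at h4
  · obtain ⟨a, ha⟩ : ∃ a, a = m / (2 * k) := ⟨_, rfl⟩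
    have ha4 : 4 ≤ a := by
      rw [ha, Nat.le_div_iff_mul_le (by omega)]
      exact (le_max_right _ _).trans hm
    rw [← ha]
    calc 2 * ((a + 1).factorial) ^ k ≤ (2 * (a + 1).factorial) ^ k := fd_two hk
      _ ≤ (a.factorial ^ 2) ^ k := by
        refine Nat.pow_le_pow_left ?_ k
        rw [Nat.factorial_succ, ← mul_assoc, sq]
        exact Nat.mul_le_mul_right _ (fd_fac ha4)
      _ = a.factorial ^ (2 * k) := by rw [pow_mul]
      _ ≤ (2 * k * a).factorial := fd_pow a (2 * k)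
      _ ≤ m.factorial := by
        refine Nat.factorial_le ?_
        rw [ha]
        exact Nat.mul_div_le m (2 * k)

private theorem fd_succ {b : ℝ} (hb : 1 ≤ b) {r : ℕ} {Q : Type} [Group Q] [Finite Q]
    (h : Chain b r Q) : Chain b (r + 1) Q := by
  refine ⟨⊤, ?_, Chain.inj (Subgroup.subtype ⊤) (Subgroup.subtype_injective ⊤) h⟩
  rw [Subgroup.index_top, Nat.cast_one]
  exact hb

private theorem fd_small {b : ℝ} (hb : 1 ≤ b) {Q : Type} [Group Q] [Finite Q]
    (h : (Nat.card Q : ℝ) ≤ b) (r : ℕ) : Chain b (r + 1) Q := by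
  induction r with
  | zero =>
    refine ⟨⊥, ?_, ?_⟩
    · rw [Subgroup.index_bot]
      exact h
    · show Subsingleton (⊥ : Subgroup Q)
      infer_instance
  | succ r ih => exact fd_succ hb ih

private theorem fd_card (m : ℕ) : m.factorial ≤ 2 * Nat.card (alternatingGroup (Fin m)) := by
  by_cases hm : 2 ≤ m
  · have : Nontrivial (Fin m) := Fin.nontrivial_iff_two_le.2 hm
    have h := two_mul_nat_card_alternatingGroup (α := Fin m)
    rw [Nat.card_perm, Nat.card_fin] at h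
    exact h.ge
  · have h1 : m.factorial = 1 := by
      have h2 : m = 0 ∨ m = 1 := by omega
      rcases h2 with rfl | rfl <;> rfl
    have h3 : 0 < Nat.card (alternatingGroup (Fin m)) := Nat.card_pos
    omega

private theorem fd_root {b : ℝ} {x k : ℕ} (hb : 0 ≤ b) (hk : 1 ≤ k) (h : ((x ^ k : ℕ) : ℝ) ≤ b ^ k) :
    (x : ℝ) ≤ b := by
  rw [Nat.cast_pow] at h
  exact le_of_pow_le_pow_left₀ (by omega) hb h

/-- PROOF. `alt_num`; `B₀ = max 1 (m₀ !)`. If `m < m₀`: `Y = ⊥`, then constant chains up to length `r + 1` (`Chain` is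
monotone in the length: take `Y = ⊤`). Else `2 * |A_m| ≥ m !` (`nat_card_alternatingGroup` or `card_alternatingGroup`), so
`(r ^ m) ^ k ≤ |A_m| ≤ b ^ k`, and the same for the factorial: `chain_alt`. -/
theorem alt_chain (k : ℕ) : ∃ (r : ℕ) (B₀ : ℝ), 1 ≤ B₀ ∧ ∀ b : ℝ, B₀ ≤ b → ∀ m : ℕ,
    (Nat.card (alternatingGroup (Fin m)) : ℝ) ≤ b ^ k → Chain b r (alternatingGroup (Fin m)) := by
  obtain ⟨r, m₀, hr, hm₀⟩ := alt_num (max k 1) (le_max_right _ _)
  refine ⟨r + 1, max 1 (m₀.factorial : ℝ), le_max_left _ _, fun b hb m hm => ?_⟩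
  have hb1 : (1 : ℝ) ≤ b := (le_max_left _ _).trans hb
  have hm' : (Nat.card (alternatingGroup (Fin m)) : ℝ) ≤ b ^ max k 1 :=
    hm.trans (pow_le_pow_right₀ hb1 (le_max_left _ _))
  by_cases hlt : m < m₀
  · refine fd_small hb1 ?_ r
    have h1 : Nat.card (alternatingGroup (Fin m)) ≤ m₀.factorial := by
      refine le_trans ?_ (Nat.factorial_le hlt.le)
      have h2 := Subgroup.card_le_card_group (alternatingGroup (Fin m))
      rwa [Nat.card_perm, Nat.card_fin] at h2
    have h3 : (Nat.card (alternatingGroup (Fin m)) : ℝ) ≤ (m₀.factorial : ℝ) := by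
      exact_mod_cast h1
    exact h3.trans ((le_max_right _ _).trans hb)
  · obtain ⟨h1, h2⟩ := hm₀ m (not_lt.1 hlt)
    have h3 := fd_card m
    have h4 : (r ^ m) ^ max k 1 ≤ Nat.card (alternatingGroup (Fin m)) := by omega
    have h5 : (m / r + 1).factorial ^ max k 1 ≤ Nat.card (alternatingGroup (Fin m)) := by omega
    refine chain_alt hr (fd_root (by linarith) (le_max_right _ _) (le_trans ?_ hm'))
      (fd_root (by linarith) (le_max_right _ _) (le_trans ?_ hm'))
    · exact_mod_cast h4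
    · exact_mod_cast h5

end MP0775d3.Ox
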