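import Pool.Agent.Lib.MP_0775d3_lc.Ox.FacDefs

/-! Project OX: groups with good composition factors. -/

set_option linter.unusedSectionVars false
set_option linter.unusedVariables false

namespace MP0775d3.Ox

/-- PROOF. Induction. -/
theorem Fac.mono {b b' : ℝ} (hb : b ≤ b') {G : Type} [Group G] (h : Fac b G) : Fac b' G := by
  induction h with
  | one G hs => exact Fac.one G hs
  | ext G N hN _ h3 ih =>
    refine Fac.ext G N hN ih ?_
    rcases h3 with h3 | h3 | h3
    · exact Or.inl (h3.trans hb)
    · exact Or.inr (Or.inl h3)
    · exact Or.inr (Or.inr h3)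

private theorem facF_congr {b : ℝ} {G : Type} [Group G] (h : Fac b G) :
    ∀ (G' : Type) [Group G'] (e : G ≃* G'), Fac b G' := by
  induction h with
  | one G hs =>
    intro G' _ e
    exact Fac.one G' e.symm.toEquiv.subsingleton
  | ext G N hN _ h3 ih =>
    intro G' _ e
    have h1 : Fac b (N.map e.toMonoidHom) := ih _ (e.subgroupMap N)
    refine Fac.ext G' (N.map e.toMonoidHom) (hN.map e.toMonoidHom e.surjective) h1 ?_
    have hi : (N.map e.toMonoidHom).index = N.index := by
      exact Subgroup.index_map_of_bijective e.bijective N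
    rw [hi]
    rcases h3 with h3 | h3 | ⟨m, φ, hφ, hk⟩
    · exact Or.inl h3
    · exact Or.inr (Or.inl h3)
    · refine Or.inr (Or.inr ⟨m, φ.comp e.symm.toMonoidHom, hφ.comp e.symm.surjective, ?_⟩)
      ext x
      rw [← hk]
      simp only [MonoidHom.mem_ker, MonoidHom.comp_apply, Subgroup.mem_map]
      constructor
      · intro hx
        exact ⟨e.symm x, hx, by simp⟩
      · rintro ⟨y, hy, rfl⟩
        simpa using hy

/-- PROOF. Strong induction on `Nat.card G`. If `G` is not trivial, a maximal normal subgroup `N` (or: a subgroup of prime index of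
the abelianization, pulled back): `G ⧸ N` is simple and solvable, so of prime order
(`IsSimpleGroup.comm_iff_isSolvable`, `IsSimpleGroup.prime_card`); `N` is solvable. -/
theorem fac_solvable (b : ℝ) (G : Type) [Group G] [Finite G] [Group.IsSolvable G] : Fac b G := by
  suffices H : ∀ n : ℕ, ∀ (G : Type) [Group G] [Finite G] [Group.IsSolvable G], Nat.card G = n →
      Fac b G from H _ G rfl
  intro n
  induction n using Nat.strong_induction_on with
  | _ n ih =>
    intro G _ _ _ hn
    rcases subsingleton_or_nontrivial G with hs | hs
    · exact Fac.one G hs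
    · obtain ⟨N, ⟨hN1, hN2⟩, hmax⟩ := Set.exists_max_image
        {N : Subgroup G | N.Normal ∧ N ≠ ⊤} (fun N => Nat.card N) (Set.toFinite _)
        ⟨⊥, inferInstance, bot_ne_top⟩
      have := hN1
      have hss : IsSimpleGroup (G ⧸ N) := by
        have hnt : Nontrivial (G ⧸ N) := by
          by_contra hcon
          rw [not_nontrivial_iff_subsingleton] at hcon
          exact hN2 (QuotientGroup.subgroup_eq_top_of_subsingleton N hcon)
        refine ⟨fun H hH => ?_⟩
        have hle : N ≤ H.comap (QuotientGroup.mk' N) := by
          intro x hx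
          rw [Subgroup.mem_comap]
          have : QuotientGroup.mk' N x = 1 := by
            rw [← MonoidHom.mem_ker, QuotientGroup.ker_mk']
            exact hx
          rw [this]
          exact H.one_mem
        by_cases htop : H.comap (QuotientGroup.mk' N) = ⊤
        · right
          rw [← Subgroup.map_comap_eq_self_of_surjective (QuotientGroup.mk'_surjective N) H, htop]
          exact Subgroup.map_top_of_surjective _ (QuotientGroup.mk'_surjective N)
        · left
          have h1 := hmax (H.comap (QuotientGroup.mk' N)) ⟨hH.comap _, htop⟩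
          have h2 : N = H.comap (QuotientGroup.mk' N) :=
            Subgroup.eq_of_le_of_card_ge hle h1
          rw [← Subgroup.map_comap_eq_self_of_surjective (QuotientGroup.mk'_surjective N) H, ← h2]
          rw [Subgroup.map_eq_bot_iff, QuotientGroup.ker_mk']
      have hcomm := (IsSimpleGroup.comm_iff_isSolvable (G := G ⧸ N)).2 inferInstance
      have hp : (Nat.card (G ⧸ N)).Prime := by
        letI : CommGroup (G ⧸ N) := { (inferInstance : Group (G ⧸ N)) with mul_comm := hcomm }
        exact IsSimpleGroup.prime_card
      have hlt : Nat.card N < n := by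
        rw [← hn]
        have h1 := N.card_mul_index
        have h2 : N.index = Nat.card (G ⧸ N) := rfl
        have h3 := hp.two_le
        have h4 : 0 < Nat.card N := Nat.card_pos
        rw [h2] at h1
        nlinarith
      exact Fac.ext G N hN1 (ih _ hlt N rfl) (Or.inr (Or.inl hp))

/-- PROOF. `Fin m` with at most one element: trivial group. Else `alternatingGroup (Fin m)` has index `2`
(`alternatingGroup.index_eq_two`), and in it `⊥` with the identity `φ`. -/
theorem fac_perm (b : ℝ) (m : ℕ) : Fac b (Equiv.Perm (Fin m)) := by
  rcases subsingleton_or_nontrivial (Fin m) with hs | hs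
  · exact Fac.one _ inferInstance
  · have h1 : Fac b (alternatingGroup (Fin m)) :=
      Fac.ext _ ⊥ inferInstance (Fac.one _ inferInstance)
        (Or.inr (Or.inr ⟨m, MonoidHom.id _, Function.surjective_id, by
          ext x
          simp⟩))
    refine Fac.ext _ (alternatingGroup (Fin m)) inferInstance h1 (Or.inr (Or.inl ?_))
    rw [alternatingGroup.index_eq_two]
    exact Nat.prime_two

/-- PROOF. `Fac b` is closed under isomorphisms: induction on `Fac`. -/
theorem Fac.congr {b : ℝ} {G G' : Type} [Group G] [Group G'] (e : G ≃* G') (h : Fac b G) :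
    Fac b G' := facF_congr h G' e

private theorem facF_extend {b : ℝ} {Q : Type} [Group Q] (h' : Fac b Q) :
    ∀ (G : Type) [Group G] (φ : G →* Q), Function.Surjective φ → Fac b φ.ker → Fac b G := by
  induction h' with
  | one Q hs =>
    intro G _ φ hφ h
    have htop : φ.ker = ⊤ := by
      ext x
      simp [MonoidHom.mem_ker, Subsingleton.elim (φ x) 1]
    rw [htop] at h
    exact Fac.congr Subgroup.topEquiv h
  | ext Q N hN _ h3 ih =>
    intro G _ φ hφ h
    have hM : Fac b (N.comap φ) := by
      refine ih (N.comap φ) (φ.subgroupComap N) ?_ ?_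
      · intro y
        obtain ⟨x, hx⟩ := hφ y
        refine ⟨⟨x, ?_⟩, ?_⟩
        · rw [Subgroup.mem_comap, hx]
          exact y.2
        · exact Subtype.ext hx
      · have hle : φ.ker ≤ N.comap φ := Subgroup.ker_le_comap φ N
        have hk : (φ.subgroupComap N).ker = φ.ker.subgroupOf (N.comap φ) := by
          ext x
          rw [MonoidHom.mem_ker, Subgroup.mem_subgroupOf, MonoidHom.mem_ker, Subtype.ext_iff]
          rfl
        rw [hk]
        exact Fac.congr (Subgroup.subgroupOfEquivOfLe hle).symm h
    refine Fac.ext G (N.comap φ) (hN.comap φ) hM ?_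
    have hi : (N.comap φ).index = N.index := Subgroup.index_comap_of_surjective N hφ
    rw [hi]
    rcases h3 with h3 | h3 | ⟨m, ψ, hψ, hk⟩
    · exact Or.inl h3
    · exact Or.inr (Or.inl h3)
    · refine Or.inr (Or.inr ⟨m, ψ.comp φ, hψ.comp hφ, ?_⟩)
      rw [← hk]
      rfl

/-- PROOF. Induction on `Fac b (G ⧸ N)` or on `r`: with normal subgroups of the quotient pulled back. -/
theorem Fac.extend {b : ℝ} {G Q : Type} [Group G] [Group Q] (φ : G →* Q)
    (hφ : Function.Surjective φ) (h : Fac b φ.ker) (h' : Fac b Q) : Fac b G :=
  facF_extend h' G φ hφ h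

end MP0775d3.Ox
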