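import Pool.Agent.Lib.MP_0775d3_lc.Ox.LDefs
import Pool.Agent.Lib.MP_0775d3_lc.Om.FdReps

/-! Project OX: group matrices, the part of the representations of small dimension. -/

set_option linter.unusedSectionVars false
set_option linter.unusedVariables false

namespace MP0775d3.Ox

open Matrix MP0775d3.Cf MP0775d3.Om

private theorem lSplit_comm {G : Type} [Group G] [Fintype G] (S : Sys G) (f : G → ℂ)
    (A : ∀ i, Matrix (S.D i) (S.D i) ℂ) (hA : A = fun i => ∑ g, f g • S.π i g)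
    (M : Matrix (Σ i, S.D i × S.D i) (Σ i, S.D i × S.D i) ℂ)
    (hM : M = Matrix.blockDiagonal' fun i =>
      Matrix.kroneckerMap (· * ·) (A i) (1 : Matrix (S.D i) (S.D i) ℂ)) :
    S.F * (Matrix.of fun x y => f (x * y⁻¹)) = M * S.F := by
  ext z y
  obtain ⟨i, a, b⟩ := z
  rw [Matrix.mul_apply, Matrix.mul_apply, Fintype.sum_sigma, Finset.sum_eq_single i,
    Fintype.sum_prod_type]
  · have h1 : ∀ c, ∑ b', M ⟨i, (a, b)⟩ ⟨i, (c, b')⟩ * S.F ⟨i, (c, b')⟩ y =
        A i a c * S.π i y c b := by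
      intro c
      rw [Finset.sum_eq_single b]
      · rw [hM, Matrix.blockDiagonal'_apply_eq, Matrix.kroneckerMap_apply, Matrix.one_apply_eq,
          mul_one]
        rfl
      · intro b' _ hb
        rw [hM, Matrix.blockDiagonal'_apply_eq, Matrix.kroneckerMap_apply,
          Matrix.one_apply_ne (Ne.symm hb), mul_zero, zero_mul]
      · intro hb
        exact absurd (Finset.mem_univ b) hb
    rw [Finset.sum_congr rfl fun c _ => h1 c, ← Matrix.mul_apply, hA]
    change ∑ x, S.π i x a b * f (x * y⁻¹) = ((∑ g, f g • S.π i g) * S.π i y) a b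
    rw [Matrix.sum_mul, Matrix.sum_apply]
    refine Fintype.sum_equiv (Equiv.mulRight y⁻¹) _ _ fun x => ?_
    rw [Matrix.smul_mul, Matrix.smul_apply, ← S.mul, smul_eq_mul, Equiv.coe_mulRight,
      inv_mul_cancel_right, mul_comm]
  · intro j _ hj
    refine Finset.sum_eq_zero fun x _ => ?_
    rw [hM, Matrix.blockDiagonal'_apply_ne _ _ _ (Ne.symm hj), zero_mul]
  · intro hb
    exact absurd (Finset.mem_univ i) hb

/-- Group matrices: the part of the representations of dimension more than `L` has small rank. PROOF. `groupMat f` is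
`U * M * U'` with `U' = S.F`, `U = S.F'` (up to transposition inside the blocks, as in `fd_of_reps`), `M` block diagonal with the blocks
`A i ⊗ 1`. Let `M₀` be `M` with the blocks of dimension more than `L` replaced by zero. `M = M₀ + M₁`, the rank of `U * M₁ * U'` is at
most the sum; `U * M₀ * U' = F' * M₀ * F` with the `F'`, `F` of `Sys.low'` and `FL`, and `M₀` is one layer (`bx_layer`,
`L ≤ s`). -/
theorem fl_split {G : Type} [Group G] [Fintype G] {w s L : ℝ} {t : ℕ} (ht : 1 ≤ t) (hs : 1 ≤ s)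
    (hL : L ≤ s) (hw : (Fintype.card G : ℝ) ≤ w) (S : Sys G)
    (F : Matrix (Σ i, S.D i × S.D i) G ℂ) (hB : Bx w s t F) (hF : S.Low L F) (f : G → ℂ) :
    ∃ R Q : Matrix G G ℂ, (Matrix.of fun x y => f (x * y⁻¹)) = R + Q ∧
      (R.rank : ℝ) ≤ ∑ i, (if (Fintype.card (S.D i) : ℝ) ≤ L then 0 else
        (Fintype.card (S.D i) * Fintype.card (S.D i) : ℝ)) ∧
      Bx w s (t + 1 + 1 + t + 1) Q := by
  classical
  obtain ⟨A, hA⟩ : ∃ A : ∀ i, Matrix (S.D i) (S.D i) ℂ, A = fun i => ∑ g, f g • S.π i g :=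
    ⟨_, rfl⟩
  obtain ⟨M, hM⟩ : ∃ M : Matrix (Σ i, S.D i × S.D i) (Σ i, S.D i × S.D i) ℂ,
      M = Matrix.blockDiagonal' fun i =>
        Matrix.kroneckerMap (· * ·) (A i) (1 : Matrix (S.D i) (S.D i) ℂ) := ⟨_, rfl⟩
  obtain ⟨M₀, hM₀⟩ : ∃ M₀ : Matrix (Σ i, S.D i × S.D i) (Σ i, S.D i × S.D i) ℂ,
      M₀ = Matrix.blockDiagonal' fun i => if (Fintype.card (S.D i) : ℝ) ≤ L then
        Matrix.kroneckerMap (· * ·) (A i) (1 : Matrix (S.D i) (S.D i) ℂ) else 0 := ⟨_, rfl⟩
  obtain ⟨d, hd⟩ : ∃ d : (Σ i, S.D i × S.D i) → ℂ,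
      d = fun z => if (Fintype.card (S.D z.1) : ℝ) ≤ L then 0 else 1 := ⟨_, rfl⟩
  have hdp : ∀ i x, (Fintype.card (S.D i) : ℝ) ≤ L → d ⟨i, x⟩ = 0 := by
    intro i x h
    rw [hd]
    exact if_pos h
  have hdn : ∀ i x, ¬ (Fintype.card (S.D i) : ℝ) ≤ L → d ⟨i, x⟩ = 1 := by
    intro i x h
    rw [hd]
    exact if_neg h
  obtain ⟨F', hB', hF'⟩ := S.low' ht F hB hF
  have e1 := lSplit_comm S f A hA M hM
  have e2 : (Matrix.of fun x y => f (x * y⁻¹)) = S.F' * M * S.F := by
    rw [Matrix.mul_assoc, ← e1, ← Matrix.mul_assoc, S.F'_mul_F, Matrix.one_mul]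
  have e3 : M = M₀ + M * Matrix.diagonal d := by
    ext z z'
    obtain ⟨i, x⟩ := z
    obtain ⟨j, y⟩ := z'
    rw [Matrix.add_apply, Matrix.mul_diagonal, hM, hM₀]
    by_cases hij : i = j
    · subst hij
      rw [Matrix.blockDiagonal'_apply_eq, Matrix.blockDiagonal'_apply_eq]
      by_cases hL' : (Fintype.card (S.D i) : ℝ) ≤ L
      · rw [if_pos hL', hdp i y hL', mul_zero, add_zero]
      · rw [if_neg hL', hdn i y hL', mul_one, Matrix.zero_apply, zero_add]
    · rw [Matrix.blockDiagonal'_apply_ne _ _ _ hij, Matrix.blockDiagonal'_apply_ne _ _ _ hij,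
        zero_mul, add_zero]
  have hz : ∀ z z' : (Σ i, S.D i × S.D i), M₀ z z' ≠ 0 →
      (Fintype.card (S.D z.1) : ℝ) ≤ L ∧ (Fintype.card (S.D z'.1) : ℝ) ≤ L := by
    intro z z' h
    obtain ⟨i, x⟩ := z
    obtain ⟨j, y⟩ := z'
    rw [hM₀] at h
    by_cases hij : i = j
    · subst hij
      rw [Matrix.blockDiagonal'_apply_eq] at h
      by_cases hL' : (Fintype.card (S.D i) : ℝ) ≤ L
      · exact ⟨hL', hL'⟩
      · rw [if_neg hL'] at h
        exact absurd rfl h
    · rw [Matrix.blockDiagonal'_apply_ne _ _ _ hij] at h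
      exact absurd rfl h
  have e4 : S.F' * M₀ = F' * M₀ := by
    ext g z
    rw [Matrix.mul_apply, Matrix.mul_apply]
    refine Finset.sum_congr rfl fun z' _ => ?_
    by_cases h : M₀ z' z = 0
    · rw [h, mul_zero, mul_zero]
    · rw [hF' g z' (hz z' z h).1]
  have e5 : M₀ * S.F = M₀ * F := by
    ext z g
    rw [Matrix.mul_apply, Matrix.mul_apply]
    refine Finset.sum_congr rfl fun z' _ => ?_
    by_cases h : M₀ z z' = 0
    · rw [h, zero_mul, zero_mul]
    · rw [hF z' g (hz z z' h).2]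
  refine ⟨S.F' * (M * Matrix.diagonal d) * S.F, F' * M₀ * F, ?_, ?_, ?_⟩
  · have e6 : F' * M₀ * F = S.F' * M₀ * S.F := by
      rw [← e4, Matrix.mul_assoc, ← e5, ← Matrix.mul_assoc]
    rw [e2, e6, ← Matrix.add_mul, ← Matrix.mul_add, add_comm, ← e3]
  · have h1 : (S.F' * (M * Matrix.diagonal d) * S.F).rank ≤ (Matrix.diagonal d).rank :=
      (Matrix.rank_mul_le_left _ _).trans
        ((Matrix.rank_mul_le_right _ _).trans (Matrix.rank_mul_le_right _ _))
    rw [Matrix.rank_diagonal] at h1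
    refine le_trans (Nat.cast_le.2 h1) (le_of_eq ?_)
    rw [Fintype.card_subtype, Finset.card_filter, Fintype.sum_sigma]
    push_cast
    refine Finset.sum_congr rfl fun i _ => ?_
    by_cases hL' : (Fintype.card (S.D i) : ℝ) ≤ L
    · rw [if_pos hL']
      refine Finset.sum_eq_zero fun x _ => ?_
      exact if_neg fun h => h (hdp i x hL')
    · rw [if_neg hL']
      have h2 : ∀ x : S.D i × S.D i, (if d ⟨i, x⟩ ≠ 0 then (1 : ℝ) else 0) = 1 := by
        intro x
        refine if_pos ?_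
        rw [hdn i x hL']
        exact one_ne_zero
      rw [Finset.sum_congr rfl fun x _ => h2 x, Finset.sum_const, Finset.card_univ,
        Fintype.card_prod, nsmul_eq_mul, mul_one]
      push_cast
      rfl
  · have h0 : (∑ i, (Fintype.card (S.D i) * Fintype.card (S.D i) : ℝ)) ≤ w := by
      refine le_trans (le_of_eq ?_) hw
      rw [← Nat.card_eq_fintype_card, ← S.sq]
      push_cast
      rfl
    have h1 : Bx w s 1 M₀ := by
      rw [hM₀]
      exact bx_layer hs A (fun i => (Fintype.card (S.D i) : ℝ) ≤ L) (fun i hi => hi.trans hL)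
        (fun i hi => hi.trans hL) h0 h0
    exact (hB'.mul h1 hs).mul hB hs

end MP0775d3.Ox
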