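import Pool.Agent.Lib.MP_0775d3_lc.Ox.SysR

/-! Project OX: decomposition of a representation. -/

set_option linter.unusedSectionVars false
set_option linter.unusedVariables false

namespace MP0775d3.Ox

open Matrix MP0775d3.Cf

variable {G : Type} [Group G]

/-- Factorization of an idempotent matrix. -/
private theorem Adapt_fac {E : Type} [Fintype E] [DecidableEq E] (Q : Matrix E E ℂ)
    (hQ : Q * Q = Q) : ∃ (n : ℕ) (V : Matrix E (Fin n) ℂ) (V' : Matrix (Fin n) E ℂ),
      V * V' = Q ∧ V' * V = 1 := by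
  obtain ⟨T, hT⟩ : ∃ T : (E → ℂ) →ₗ[ℂ] (E → ℂ), T = Matrix.toLin' Q := ⟨_, rfl⟩
  have hTT : T ∘ₗ T = T := by
    rw [hT, ← Matrix.toLin'_mul, hQ]
  let v := Module.finBasis ℂ (LinearMap.range T)
  let e := Pi.basisFun ℂ E
  refine ⟨_, LinearMap.toMatrix v e (LinearMap.range T).subtype,
    LinearMap.toMatrix e v T.rangeRestrict, ?_, ?_⟩
  · rw [← LinearMap.toMatrix_comp]
    have h1 : (LinearMap.range T).subtype ∘ₗ T.rangeRestrict = T := LinearMap.ext fun x => rfl
    rw [h1, hT]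
    have h2 : LinearMap.toMatrix e e (Matrix.toLin' Q) = LinearMap.toMatrix' (Matrix.toLin' Q) := by
      rw [LinearMap.toMatrix_eq_toMatrix']
    rw [h2, LinearMap.toMatrix'_toLin']
  · rw [← LinearMap.toMatrix_comp]
    have h1 : T.rangeRestrict ∘ₗ (LinearMap.range T).subtype = LinearMap.id := by
      refine LinearMap.ext fun x => Subtype.ext ?_
      obtain ⟨y, hy⟩ := x.2
      change T (x : E → ℂ) = x
      rw [← hy]
      exact congrArg (fun f => f y) hTT
    rw [h1, LinearMap.toMatrix_id]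

/-- The matrix units. -/
private noncomputable def Adapt_U [Fintype G] (S : Sys G) {E : Type} (ρ : G → Matrix E E ℂ)
    (i : S.I) (a b : S.D i) : Matrix E E ℂ := ∑ g, S.F' g ⟨i, (a, b)⟩ • ρ g

private theorem Adapt_act [Fintype G] (S : Sys G) {E : Type} [Fintype E] [DecidableEq E]
    (ρ : G → Matrix E E ℂ) (hm : ∀ g h, ρ (g * h) = ρ g * ρ h) (g : G) (i : S.I) (a b : S.D i) :
    ρ g * Adapt_U S ρ i a b = ∑ c, S.π i g c a • Adapt_U S ρ i c b := by
  have h1 : ρ g * Adapt_U S ρ i a b = ∑ h, S.F' h ⟨i, (a, b)⟩ • ρ (g * h) := by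
    rw [Adapt_U, Matrix.mul_sum]
    refine Finset.sum_congr rfl fun h _ => ?_
    rw [Matrix.mul_smul, hm]
  have h2 : ∑ h, S.F' h ⟨i, (a, b)⟩ • ρ (g * h) = ∑ k, S.F' (g⁻¹ * k) ⟨i, (a, b)⟩ • ρ k := by
    refine Fintype.sum_equiv (Equiv.mulLeft g) _ _ fun h => ?_
    rw [Equiv.coe_mulLeft, inv_mul_cancel_left]
  have h3 : ∀ k, S.F' (g⁻¹ * k) ⟨i, (a, b)⟩ = ∑ c, S.π i g c a * S.F' k ⟨i, (c, b)⟩ := by
    intro k
    change ((Fintype.card (S.D i) : ℂ) / Nat.card G) * S.π i (g⁻¹ * k)⁻¹ b a =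
      ∑ c, S.π i g c a * (((Fintype.card (S.D i) : ℂ) / Nat.card G) * S.π i k⁻¹ b c)
    rw [_root_.mul_inv_rev, inv_inv, S.mul, Matrix.mul_apply, Finset.mul_sum]
    exact Finset.sum_congr rfl fun c _ => by ring
  rw [h1, h2]
  simp only [h3, Finset.sum_smul, Adapt_U, Finset.smul_sum]
  rw [Finset.sum_comm]
  exact Finset.sum_congr rfl fun c _ => Finset.sum_congr rfl fun k _ => by rw [mul_smul]

private theorem Adapt_mul_ne [Fintype G] (S : Sys G) {E : Type} [Fintype E] [DecidableEq E]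
    (ρ : G → Matrix E E ℂ) (hm : ∀ g h, ρ (g * h) = ρ g * ρ h) {i j : S.I} (a b : S.D i)
    (c d : S.D j) (h : (⟨i, b⟩ : Σ i, S.D i) ≠ ⟨j, c⟩) :
    Adapt_U S ρ i a b * Adapt_U S ρ j c d = 0 := by
  have h1 : Adapt_U S ρ i a b * Adapt_U S ρ j c d =
      ∑ c', (∑ g, S.F' g ⟨i, (a, b)⟩ * S.π j g c' c) • Adapt_U S ρ j c' d := by
    conv_lhs => rw [Adapt_U, Matrix.sum_mul]
    simp only [Matrix.smul_mul, Adapt_act S ρ hm, Finset.smul_sum, Finset.sum_smul, smul_smul]
    rw [Finset.sum_comm]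
  rw [h1]
  refine Finset.sum_eq_zero fun c' _ => ?_
  rw [S.unit_apply, if_neg, zero_smul]
  intro h2
  apply h
  injection h2 with h3 h4
  subst h3
  have h5 := eq_of_heq h4
  rw [Prod.mk.injEq] at h5
  rw [h5.2]

private theorem Adapt_mul_eq [Fintype G] (S : Sys G) {E : Type} [Fintype E] [DecidableEq E]
    (ρ : G → Matrix E E ℂ) (hm : ∀ g h, ρ (g * h) = ρ g * ρ h) {i : S.I} (a b d : S.D i) :
    Adapt_U S ρ i a b * Adapt_U S ρ i b d = Adapt_U S ρ i a d := by
  have h1 : Adapt_U S ρ i a b * Adapt_U S ρ i b d =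
      ∑ c', (∑ g, S.F' g ⟨i, (a, b)⟩ * S.π i g c' b) • Adapt_U S ρ i c' d := by
    conv_lhs => rw [Adapt_U, Matrix.sum_mul]
    simp only [Matrix.smul_mul, Adapt_act S ρ hm, Finset.smul_sum, Finset.sum_smul, smul_smul]
    rw [Finset.sum_comm]
  rw [h1, Finset.sum_eq_single a]
  · rw [S.unit_apply, if_pos rfl, one_smul]
  · intro c' _ hc
    rw [S.unit_apply, if_neg, zero_smul]
    intro h2
    injection h2 with h3 h4
    rw [Prod.mk.injEq] at h4
    exact hc h4.1
  · intro h2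
    exact absurd (Finset.mem_univ _) h2

private theorem Adapt_one [Fintype G] (S : Sys G) {E : Type} [Fintype E] [DecidableEq E]
    (ρ : G → Matrix E E ℂ) (h1 : ρ 1 = 1) : ∑ i, ∑ a, Adapt_U S ρ i a a = 1 := by
  classical
  have h2 : ∑ z : (Σ i, S.D i × S.D i), S.F z 1 • Adapt_U S ρ z.1 z.2.1 z.2.2 = ρ 1 := by
    have h3 : ∀ h : G, ∑ z : (Σ i, S.D i × S.D i), S.F' h z * S.F z 1 =
        if h = 1 then 1 else 0 := by
      intro h
      have h4 := congrFun (congrFun S.F'_mul_F h) 1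
      rw [Matrix.mul_apply, Matrix.one_apply] at h4
      exact h4
    simp only [Adapt_U, Finset.smul_sum, smul_smul]
    rw [Finset.sum_comm]
    have h5 : ∀ h : G, ∑ z : (Σ i, S.D i × S.D i), (S.F z 1 * S.F' h ⟨z.1, (z.2.1, z.2.2)⟩) • ρ h =
        (if h = 1 then (1 : ℂ) else 0) • ρ h := by
      intro h
      rw [← h3 h, Finset.sum_smul]
      exact Finset.sum_congr rfl fun z _ => by rw [mul_comm]
    rw [Finset.sum_congr rfl fun h _ => h5 h]
    simp
  rw [← h1, ← h2, Fintype.sum_sigma]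
  refine Finset.sum_congr rfl fun i _ => ?_
  rw [Fintype.sum_prod_type]
  refine Finset.sum_congr rfl fun a _ => ?_
  rw [Finset.sum_eq_single a]
  · have h3 : S.F ⟨i, (a, a)⟩ 1 = 1 := by
      change S.π i 1 a a = 1
      rw [S.one, Matrix.one_apply_eq]
    rw [h3, one_smul]
  · intro b _ hb
    have h3 : S.F ⟨i, (a, b)⟩ 1 = 0 := by
      change S.π i 1 a b = 0
      rw [S.one, Matrix.one_apply_ne hb.symm]
    rw [h3, zero_smul]
  · intro h
    exact absurd (Finset.mem_univ _) h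

/-- Every representation is a direct sum of the representations of the system. PROOF. `U i a b = ∑ g, F' g ⟨i, (a, b)⟩ • ρ g`.
From `F'_mul_F`, `F_mul_F'`: `ρ g * U i a b = ∑ a', π i g a' a • U i a' b`, `U i a b * U j c d = if i = j, b = c then
U i a d else 0`, `∑ i, ∑ a, U i a a = ρ 1 = 1`. For every `i` choose `o : D i`; `P i = Fin (finrank (range (U i o o)))`,
`v i p` a basis of this range; column `⟨i, (a, p)⟩` of `B` is `U i a o` applied to `v i p`. The columns are a basis of `E → ℂ`: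
they span (`x = ∑ U i a a x`, `U i a a = U i a o * U i o a`, `U i o a x` is in the range of `U i o o`), and they are
independent (apply `U i o a`). `B'` is the inverse. -/
theorem adapt [Finite G] (S : Sys G) {E : Type} [Fintype E] [DecidableEq E]
    (ρ : G → Matrix E E ℂ) (h1 : ρ 1 = 1) (hm : ∀ g h, ρ (g * h) = ρ g * ρ h) :
    ∃ (P : S.I → Type) (_ : ∀ i, Fintype (P i)) (_ : ∀ i, DecidableEq (P i))
      (B : Matrix E (Σ i, S.D i × P i) ℂ) (B' : Matrix (Σ i, S.D i × P i) E ℂ),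
      B * B' = 1 ∧ B' * B = 1 ∧ ∀ g, ρ g * B = B * S.rep P g := by
  have := Fintype.ofFinite G
  have ho : ∀ i, ∃ o : S.D i, True := fun i => ⟨Classical.arbitrary _, trivial⟩
  choose o _ using ho
  have hf := fun i => Adapt_fac (Adapt_U S ρ i (o i) (o i)) (Adapt_mul_eq S ρ hm _ _ _)
  choose n V V' hV hV' using hf
  refine ⟨fun i => Fin (n i), fun i => inferInstance, fun i => inferInstance,
    Matrix.of fun e z => (Adapt_U S ρ z.1 z.2.1 (o z.1) * V z.1) e z.2.2,
    Matrix.of fun z e => (V' z.1 * Adapt_U S ρ z.1 (o z.1) z.2.1) z.2.2 e, ?_, ?_, ?_⟩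
  · ext e e'
    rw [Matrix.mul_apply, Fintype.sum_sigma, ← Adapt_one S ρ h1, Matrix.sum_apply]
    refine Finset.sum_congr rfl fun i _ => ?_
    rw [Fintype.sum_prod_type, Matrix.sum_apply]
    refine Finset.sum_congr rfl fun a _ => ?_
    have h2 : Adapt_U S ρ i a a =
        Adapt_U S ρ i a (o i) * V i * (V' i * Adapt_U S ρ i (o i) a) := by
      rw [Matrix.mul_assoc, ← Matrix.mul_assoc (V i), hV, Adapt_mul_eq S ρ hm,
        Adapt_mul_eq S ρ hm]
    rw [h2, Matrix.mul_apply]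
    rfl
  · ext z z'
    obtain ⟨i, a, p⟩ := z
    obtain ⟨j, b, q⟩ := z'
    rw [Matrix.mul_apply]
    have h2 : ∑ e, (Matrix.of fun (z : Σ i, S.D i × Fin (n i)) (e : E) =>
        (V' z.1 * Adapt_U S ρ z.1 (o z.1) z.2.1) z.2.2 e) ⟨i, (a, p)⟩ e *
        (Matrix.of fun (e : E) (z : Σ i, S.D i × Fin (n i)) =>
        (Adapt_U S ρ z.1 z.2.1 (o z.1) * V z.1) e z.2.2) e ⟨j, (b, q)⟩ =
        (V' i * Adapt_U S ρ i (o i) a * (Adapt_U S ρ j b (o j) * V j)) p q := by
      rw [Matrix.mul_apply]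
      rfl
    rw [h2]
    by_cases hz : (⟨i, a⟩ : Σ i, S.D i) = ⟨j, b⟩
    · injection hz with h3 h4
      subst h3
      have h5 := eq_of_heq h4
      subst h5
      rw [Matrix.mul_assoc, ← Matrix.mul_assoc (Adapt_U S ρ i (o i) a),
        Adapt_mul_eq S ρ hm, ← hV i, Matrix.mul_assoc (V i), hV' i, Matrix.mul_one, hV' i,
        Matrix.one_apply, Matrix.one_apply]
      by_cases hpq : p = q
      · rw [if_pos hpq, if_pos (by rw [hpq])]
      · rw [if_neg hpq, if_neg]
        intro h6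
        apply hpq
        injection h6 with h7 h8
        rw [Prod.mk.injEq] at h8
        exact h8.2
    · rw [Matrix.mul_assoc, ← Matrix.mul_assoc (Adapt_U S ρ i (o i) a),
        Adapt_mul_ne S ρ hm _ _ _ _ hz, Matrix.zero_mul, Matrix.mul_zero, Matrix.zero_apply,
        Matrix.one_apply_ne]
      intro h6
      apply hz
      injection h6 with h7 h8
      subst h7
      have h9 := eq_of_heq h8
      rw [Prod.mk.injEq] at h9
      rw [h9.1]
  · intro g
    ext e z
    obtain ⟨i, a, p⟩ := z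
    have h2 : (ρ g * Matrix.of fun (e : E) (z : Σ i, S.D i × Fin (n i)) =>
        (Adapt_U S ρ z.1 z.2.1 (o z.1) * V z.1) e z.2.2) e ⟨i, (a, p)⟩ =
        (ρ g * (Adapt_U S ρ i a (o i) * V i)) e p := by
      rw [Matrix.mul_apply, Matrix.mul_apply]
      rfl
    rw [h2, ← Matrix.mul_assoc, Adapt_act S ρ hm, Matrix.sum_mul, Matrix.sum_apply,
      Matrix.mul_apply, Fintype.sum_sigma, Finset.sum_eq_single i]
    · rw [Fintype.sum_prod_type]
      refine Finset.sum_congr rfl fun c _ => ?_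
      rw [Finset.sum_eq_single p]
      · rw [S.rep_same, if_pos rfl, Matrix.smul_mul, Matrix.smul_apply, smul_eq_mul, mul_comm]
        rfl
      · intro q _ hq
        rw [S.rep_same, if_neg hq, mul_zero]
      · intro h3
        exact absurd (Finset.mem_univ _) h3
    · intro j _ hj
      refine Finset.sum_eq_zero fun c _ => ?_
      rw [S.rep_ne _ _ hj, mul_zero]
    · intro h3
      exact absurd (Finset.mem_univ _) h3

end MP0775d3.Ox
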