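import Pool.Agent.Lib.MP_0775d3_lc.Ox.SysR
import Pool.Agent.Lib.MP_0775d3_lc.Om.Wedd

/-! Project OX: existence of systems of representations. -/

set_option linter.unusedSectionVars false
set_option linter.unusedVariables false

namespace MP0775d3.Ox

open Matrix MP0775d3.Cf MP0775d3.Om

variable {G : Type} [Group G]

/-- The trace of a left multiplication on a product of matrix algebras. -/
private theorem sysb_trace {n : ℕ} {d : Fin n → ℕ}
    (M : ∀ i, Matrix (Fin (d i)) (Fin (d i)) ℂ) :
    LinearMap.trace ℂ (∀ i, Matrix (Fin (d i)) (Fin (d i)) ℂ) (LinearMap.mulLeft ℂ M) =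
      ∑ i, (d i : ℂ) * (M i).trace := by
  classical
  let e : (∀ i, Matrix (Fin (d i)) (Fin (d i)) ℂ) ≃ₗ[ℂ] ((Σ i, Fin (d i) × Fin (d i)) → ℂ) :=
    { toFun := fun M z => M z.1 z.2.1 z.2.2
      map_add' := fun _ _ => rfl
      map_smul' := fun _ _ => rfl
      invFun := fun v i => Matrix.of fun a b => v ⟨i, (a, b)⟩
      left_inv := fun _ => rfl
      right_inv := fun v => by
        funext z
        rfl }
  let b : Module.Basis (Σ i, Fin (d i) × Fin (d i)) ℂ (∀ i, Matrix (Fin (d i)) (Fin (d i)) ℂ) :=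
    Module.Basis.ofEquivFun e
  have hr : ∀ (N : ∀ i, Matrix (Fin (d i)) (Fin (d i)) ℂ) z, b.repr N z = N z.1 z.2.1 z.2.2 :=
    fun N z => rfl
  have hb : ∀ z (i : Fin n) (x y : Fin (d i)), b z i x y =
      (Pi.single z 1 : (Σ i, Fin (d i) × Fin (d i)) → ℂ) ⟨i, (x, y)⟩ := by
    intro z i x y
    have h1 : b z = e.symm (Pi.single z 1) := by
      simp only [b, Module.Basis.coe_ofEquivFun]
    rw [h1]
    rfl
  rw [LinearMap.trace_eq_matrix_trace ℂ b, Matrix.trace, Fintype.sum_sigma]
  refine Finset.sum_congr rfl fun i _ => ?_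
  rw [Fintype.sum_prod_type]
  have h2 : ∀ a c : Fin (d i), Matrix.diag (LinearMap.toMatrix b b (LinearMap.mulLeft ℂ M))
      ⟨i, (a, c)⟩ = M i a a := by
    intro a c
    rw [Matrix.diag_apply, LinearMap.toMatrix_apply, LinearMap.mulLeft_apply, hr]
    change (M i * b ⟨i, (a, c)⟩ i) a c = M i a a
    rw [Matrix.mul_apply, Finset.sum_eq_single a]
    · rw [hb, Pi.single_eq_same, mul_one]
    · intro x _ hx
      rw [hb, Pi.single_eq_of_ne, mul_zero]
      intro h
      have h3 := eq_of_heq (Sigma.mk.inj h).2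
      exact hx (congrArg Prod.fst h3)
    · intro h
      exact absurd (Finset.mem_univ a) h
  simp only [h2, Finset.sum_const, Finset.card_univ, Fintype.card_fin, nsmul_eq_mul]
  rw [← Finset.mul_sum]
  rfl

/-- PROOF. `wedd`: `I = Fin n`, `D i = Fin (d i)`, `π i g = Φ (MonoidAlgebra.single g 1) i`. Trace: the left
multiplication by `single g 1` on the group algebra has trace `0` for `g ≠ 1` (no fixed basis vector); transported by
`Φ` (`LinearMap.trace_conj'` or `trace_eq_of...`) it is the left multiplication by `(π i g)_i` on the product of the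
matrix algebras, with trace `∑ i, d i * trace (π i g)`. -/
theorem exists_sys (G : Type) [Group G] [Finite G] : Nonempty (Sys G) := by
  classical
  obtain ⟨n, d, hd, -, hsq, ⟨Φ⟩⟩ := wedd G
  have hfin : Fintype G := Fintype.ofFinite G
  refine ⟨{ I := Fin n
            D := fun i => Fin (d i)
            ne := fun i => ⟨⟨0, hd i⟩⟩
            π := fun i g => Φ (MonoidAlgebra.single g 1) i
            one := ?_
            mul := ?_
            sq := ?_
            tr := ?_ }⟩
  · intro i
    have h1 : (MonoidAlgebra.single (1 : G) (1 : ℂ)) = 1 := MonoidAlgebra.one_def.symm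
    rw [h1, map_one]
    rfl
  · intro i g h
    have h1 : MonoidAlgebra.single (g * h) (1 : ℂ) =
        MonoidAlgebra.single g 1 * MonoidAlgebra.single h 1 := by
      rw [MonoidAlgebra.single_mul_single, mul_one]
    rw [h1, map_mul]
    rfl
  · simp only [Fintype.card_fin]
    exact hsq
  · intro g hg
    simp only [Fintype.card_fin]
    rw [← sysb_trace]
    have h1 : LinearMap.mulLeft ℂ (Φ (MonoidAlgebra.single g 1)) =
        Φ.toLinearEquiv.conj (LinearMap.mulLeft ℂ (MonoidAlgebra.single g 1)) := by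
      refine LinearMap.ext fun x => ?_
      rw [LinearEquiv.conj_apply_apply, LinearMap.mulLeft_apply, LinearMap.mulLeft_apply]
      change _ = Φ (MonoidAlgebra.single g 1 * Φ.symm x)
      rw [map_mul, AlgEquiv.apply_symm_apply]
    have h2 : LinearMap.trace ℂ (∀ i, Matrix (Fin (d i)) (Fin (d i)) ℂ)
        (LinearMap.mulLeft ℂ (Φ (MonoidAlgebra.single g 1))) = 0 := by
      rw [h1, LinearMap.trace_conj',
        LinearMap.trace_eq_matrix_trace ℂ (MonoidAlgebra.basis G ℂ), Matrix.trace]
      refine Finset.sum_eq_zero fun x _ => ?_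
      rw [Matrix.diag_apply, LinearMap.toMatrix_apply, LinearMap.mulLeft_apply,
        MonoidAlgebra.basis_apply, MonoidAlgebra.single_mul_single, mul_one]
      change (MonoidAlgebra.single (g * x) (1 : ℂ)).coeff x = 0
      have h3 : g * x ≠ x := fun h => hg (mul_eq_right.1 h)
      rw [MonoidAlgebra.coeff_single, Finsupp.single_eq_of_ne (Ne.symm h3)]
    exact h2

/-- PROOF. `exists_sys`, one block: `blk_card`, `bx_of_blk`; both index types have `Nat.card G` elements (`sq`). -/
theorem fs_small [Finite G] {s : ℝ} (hs : 1 ≤ s) (h : (Nat.card G : ℝ) ≤ s) :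
    FS (Nat.card G) s 1 G := by
  classical
  have hfin : Fintype G := Fintype.ofFinite G
  obtain ⟨S⟩ := exists_sys G
  have h1 : Fintype.card (Σ i, S.D i × S.D i) = Nat.card G := by
    rw [Fintype.card_sigma, ← S.sq]
    exact Finset.sum_congr rfl fun i _ => Fintype.card_prod _ _
  have h2 : Fintype.card G = Nat.card G := Nat.card_eq_fintype_card.symm
  refine ⟨S, bx_of_blk (blk_card ?_ ?_ _) hs ?_ ?_⟩
  · rw [h1]
    exact h
  · rw [h2]
    exact h
  · rw [h1]
  · rw [h2]

end MP0775d3.Ox
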