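import Pool.Agent.Lib.MP_0775d3_lc.Ox.Adapt
import Pool.Agent.Lib.MP_0775d3_lc.Ox.SysB

/-! Project OX: adapted systems and branching. -/

set_option linter.unusedSectionVars false
set_option linter.unusedVariables false

namespace MP0775d3.Ox

open Matrix MP0775d3.Cf

variable {G H D : Type} [Group G] [Group H] [Group D]

/-- PROOF. A system `S₀` of `G` (`exists_sys`); for each `l : S₀.I`, `adapt` for `fun h => S₀.π l (ι h)` gives `P l`,
`B`, `B'`; `ρ l g = B' * S₀.π l g * B`. The traces and the cardinalities are those of `S₀` (`card_of_inv`). -/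
theorem exists_ad [Finite G] [Finite H] (ι : H →* G) (S : Sys H) : Nonempty (Ad ι S) := by
  classical
  obtain ⟨S₀⟩ := exists_sys G
  choose P fP dP B B' h1 h2 h3 using fun l : S₀.I => adapt S (fun h => S₀.π l (ι h))
    (by rw [map_one, S₀.one]) (fun g h => by rw [map_mul, S₀.mul])
  have hc : ∀ l, Fintype.card (S₀.D l) = Fintype.card (Σ i, S.D i × P l i) := fun l =>
    card_of_inv (h1 l) (h2 l)
  have hm : ∀ l (g h : G), B' l * S₀.π l g * B l * (B' l * S₀.π l h * B l) =
      B' l * (S₀.π l g * S₀.π l h) * B l := by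
    intro l g h
    calc B' l * S₀.π l g * B l * (B' l * S₀.π l h * B l)
        = B' l * S₀.π l g * (B l * B' l) * S₀.π l h * B l := by simp only [Matrix.mul_assoc]
      _ = B' l * (S₀.π l g * S₀.π l h) * B l := by
          rw [h1 l, Matrix.mul_one, Matrix.mul_assoc (B' l)]
  refine ⟨{
    I := S₀.I
    P := P
    fP := fP
    dP := dP
    ρ := fun l g => B' l * S₀.π l g * B l
    ne := fun l => ?_
    one := fun l => ?_
    mul := fun l g h => ?_
    sq := ?_
    tr := fun g hg => ?_
    res := fun l h => ?_ }⟩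
  · rw [← Fintype.card_pos_iff, ← hc l]
    exact Fintype.card_pos
  · rw [S₀.one, Matrix.mul_one, h2 l]
  · rw [S₀.mul, hm]
  · rw [← S₀.sq]
    exact Finset.sum_congr rfl fun l _ => by rw [hc l]
  · rw [← S₀.tr g hg]
    refine Finset.sum_congr rfl fun l _ => ?_
    rw [hc l, Matrix.trace_mul_comm, ← Matrix.mul_assoc, h1 l, Matrix.one_mul]
  · rw [Matrix.mul_assoc, h3 l h, ← Matrix.mul_assoc, h2 l, Matrix.one_mul]

/-- PROOF. `adapt` for `fun d => S.π i (ι d)`, for each `i`. -/
theorem exists_br [Finite D] (ι : D →* H) (S : Sys H) (T : Sys D) : Nonempty (Br ι S T) := by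
  classical
  choose P fP dP B B' h1 h2 h3 using fun l : S.I => adapt T (fun h => S.π l (ι h))
    (by rw [map_one, S.one]) (fun g h => by rw [map_mul, S.mul])
  exact ⟨{
    M := P
    fM := fP
    dM := dP
    B := B
    B' := B'
    inv := h1
    inv' := h2
    eq := h3 }⟩

/-- PROOF. For `M i k`: by `inv`, `inv'`, `card_of_inv`. -/
theorem Br.card {ι : D →* H} {S : Sys H} {T : Sys D} (b : Br ι S T) (i : S.I) :
    ∑ k, Fintype.card (T.D k) * Fintype.card (b.M i k) = Fintype.card (S.D i) := by
  rw [card_of_inv (b.inv i) (b.inv' i), Fintype.card_sigma]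
  exact Finset.sum_congr rfl fun k _ => by rw [Fintype.card_prod]

/-- PROOF. Compare `(S.π i (ι d) * B i) * B' i` and so on: multiply `Br.eq` by `B' i` on both sides. -/
theorem Br.eq' {ι : D →* H} {S : Sys H} {T : Sys D} (b : Br ι S T) (i : S.I) (d : D) :
    b.B' i * S.π i (ι d) = T.rep (b.M i) d * b.B' i := by
  calc b.B' i * S.π i (ι d) = b.B' i * (S.π i (ι d) * b.B i) * b.B' i := by
        rw [Matrix.mul_assoc, Matrix.mul_assoc, b.inv, Matrix.mul_one]
    _ = T.rep (b.M i) d * b.B' i := by
        rw [b.eq, ← Matrix.mul_assoc, b.inv', Matrix.one_mul]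

end MP0775d3.Ox
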