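import Pool.Agent.Lib.MP_0775d3_lc.Ox.AdaptB

/-! Project OX: counting. -/

set_option linter.unusedSectionVars false
set_option linter.unusedVariables false

namespace MP0775d3.Ox

open Matrix MP0775d3.Cf

variable {G H D : Type} [Group G] [Group H] [Group D]

private theorem adaptC_tr {ι : D →* H} {S : Sys H} {T : Sys D} (b : Br ι S T) (i : S.I) (d : D) :
    (S.π i (ι d)).trace = ∑ k, (Fintype.card (b.M i k) : ℂ) * (T.π k d).trace := by
  rw [← T.rep_trace (b.M i) d]
  have h1 : S.π i (ι d) = b.B i * T.rep (b.M i) d * b.B' i := by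
    rw [← b.eq, Matrix.mul_assoc, b.inv, Matrix.mul_one]
  rw [h1, Matrix.trace_mul_comm, ← Matrix.mul_assoc, b.inv', Matrix.one_mul]

private theorem adaptC_mult [Fintype D] {ι : D →* H} {S : Sys H} {T : Sys D} (b : Br ι S T)
    (i : S.I) (k : T.I) (c : T.D k) :
    ∑ d, T.F' d ⟨k, (c, c)⟩ * (S.π i (ι d)).trace = (Fintype.card (b.M i k) : ℂ) := by
  have h1 : ∀ k' : T.I, ∑ d, T.F' d ⟨k, (c, c)⟩ * ((Fintype.card (b.M i k') : ℂ) *
      (T.π k' d).trace) = (Fintype.card (b.M i k') : ℂ) * ∑ c' : T.D k',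
        if (⟨k', (c', c')⟩ : Σ i, T.D i × T.D i) = ⟨k, (c, c)⟩ then 1 else 0 := by
    intro k'
    rw [Finset.mul_sum]
    have h2 : ∀ d, T.F' d ⟨k, (c, c)⟩ * ((Fintype.card (b.M i k') : ℂ) * (T.π k' d).trace) =
        ∑ c' : T.D k', (Fintype.card (b.M i k') : ℂ) *
          (T.F' d ⟨k, (c, c)⟩ * T.π k' d c' c') := by
      intro d
      rw [Matrix.trace, ← Finset.mul_sum, ← Finset.mul_sum]
      simp only [Matrix.diag_apply]
      ring
    rw [Finset.sum_congr rfl fun d _ => h2 d, Finset.sum_comm]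
    refine Finset.sum_congr rfl fun c' _ => ?_
    rw [← Finset.mul_sum, T.unit_apply]
  have h3 : ∑ d, T.F' d ⟨k, (c, c)⟩ * (S.π i (ι d)).trace =
      ∑ k', (Fintype.card (b.M i k') : ℂ) * ∑ c' : T.D k',
        if (⟨k', (c', c')⟩ : Σ i, T.D i × T.D i) = ⟨k, (c, c)⟩ then 1 else 0 := by
    rw [← Finset.sum_congr rfl fun k' _ => h1 k', Finset.sum_comm]
    refine Finset.sum_congr rfl fun d _ => ?_
    rw [adaptC_tr b i d, Finset.mul_sum]
  rw [h3, Finset.sum_eq_single k]
  · rw [Finset.sum_eq_single c]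
    · rw [if_pos rfl, mul_one]
    · intro c' _ hc'
      rw [if_neg]
      intro h
      have h4 := eq_of_heq (Sigma.mk.inj h).2
      exact hc' (Prod.mk.inj h4).1
    · intro h
      exact absurd (Finset.mem_univ c) h
  · intro k' _ hk'
    rw [Finset.sum_eq_zero, mul_zero]
    intro c' _
    rw [if_neg]
    intro h
    exact hk' (Sigma.mk.inj h).1
  · intro h
    exact absurd (Finset.mem_univ k) h

/-- Frobenius reciprocity for the regular representation. PROOF. By `Br.eq` and the inverses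
`trace (S.π i (ι d)) = ∑ k', |M i k'| * trace (T.π k' d)` (`rep_trace`). Fix `c : T.D k` (`ne`). With `T.unit_apply`,
`∑ d, T.F' d ⟨k, (c, c)⟩ * trace (S.π i (ι d)) = |M i k|`. Multiply by `|D i|` and sum over `i`: by `S.tr`, `S.sq` only
`d = 1` is left (`hι`), so the sum is `T.F' 1 ⟨k, (c, c)⟩ * |H| = |T.D k| / |D| * |H|`. -/
theorem Br.count [Finite H] {ι : D →* H} (hι : Function.Injective ι) {S : Sys H} {T : Sys D}
    (b : Br ι S T) (k : T.I) :
    (∑ i, Fintype.card (S.D i) * Fintype.card (b.M i k)) * Nat.card D =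
      Nat.card H * Fintype.card (T.D k) := by
  classical
  have hfD : Finite D := Finite.of_injective ι hι
  let _ : Fintype D := Fintype.ofFinite D
  obtain ⟨c⟩ := T.ne k
  have h1 : ∀ d : D, d ≠ 1 → ∑ i, (Fintype.card (S.D i) : ℂ) * (S.π i (ι d)).trace = 0 := by
    intro d hd
    refine S.tr _ fun h => hd (hι ?_)
    rw [h, map_one]
  have h2 : ∑ i, (Fintype.card (S.D i) : ℂ) * (S.π i (ι 1)).trace = (Nat.card H : ℂ) := by
    rw [map_one, ← S.sq, Nat.cast_sum]
    refine Finset.sum_congr rfl fun i _ => ?_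
    rw [S.one, Matrix.trace_one, Nat.cast_mul]
  have h3 : ∑ i, (Fintype.card (S.D i) : ℂ) * (Fintype.card (b.M i k) : ℂ) =
      T.F' 1 ⟨k, (c, c)⟩ * (Nat.card H : ℂ) := by
    have h4 : ∀ i, (Fintype.card (S.D i) : ℂ) * (Fintype.card (b.M i k) : ℂ) =
        ∑ d, T.F' d ⟨k, (c, c)⟩ * ((Fintype.card (S.D i) : ℂ) * (S.π i (ι d)).trace) := by
      intro i
      rw [← adaptC_mult b i k c, Finset.mul_sum]
      exact Finset.sum_congr rfl fun d _ => by ring
    rw [Finset.sum_congr rfl fun i _ => h4 i, Finset.sum_comm, Finset.sum_eq_single 1]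
    · rw [← Finset.mul_sum, h2]
    · intro d _ hd
      rw [← Finset.mul_sum, h1 d hd, mul_zero]
    · intro h
      exact absurd (Finset.mem_univ 1) h
  have h5 : T.F' 1 ⟨k, (c, c)⟩ = (Fintype.card (T.D k) : ℂ) / Nat.card D := by
    change ((Fintype.card (T.D k) : ℂ) / Nat.card D) * T.π k (1 : D)⁻¹ c c = _
    rw [inv_one, T.one, Matrix.one_apply_eq, mul_one]
  have hD0 : (Nat.card D : ℂ) ≠ 0 := Nat.cast_ne_zero.2 Nat.card_pos.ne'
  have h6 : (((∑ i, Fintype.card (S.D i) * Fintype.card (b.M i k)) * Nat.card D : ℕ) : ℂ) =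
      ((Nat.card H * Fintype.card (T.D k) : ℕ) : ℂ) := by
    rw [Nat.cast_mul, Nat.cast_sum, Nat.cast_mul]
    simp only [Nat.cast_mul]
    rw [h3, h5]
    field_simp
  exact Nat.cast_injective h6

end MP0775d3.Ox
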