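import Pool.Agent.Lib.MP_0775d3_lc.Ox.GlC
import Pool.Agent.Lib.MP_0775d3_lc.Om.FinA

/-! Which circulants over finite groups are rigid in the sense of Valiant, in terms of `ω`. -/

namespace MP0775d3.Ox.Check

open MP0775d3.Om MP0775d3.Sl2 MP0775d3.Kron MP0775d3.Ox

theorem result :
    (∀ (G : ℕ → Type) [∀ k, Group (G k)] [∀ k, Fintype (G k)],
      Filter.Tendsto (fun k => Fintype.card (G k)) Filter.atTop Filter.atTop → AllTame G →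
      (SomeRigid G ↔ 2 < omega ∧ BigReps G) ∧ (GenRigid G ↔ 2 < omega ∧ BigReps G)) ∧
    (∀ (G : ℕ → Type) [∀ k, Group (G k)] [∀ k, Fintype (G k)],
      Filter.Tendsto (fun k => Fintype.card (G k)) Filter.atTop Filter.atTop →
      (∀ η : ℝ, 0 < η → ∃ k₀ : ℕ, ∀ k, k₀ ≤ k → Cls ((Fintype.card (G k) : ℝ) ^ η) (G k)) →
      AllTame G) ∧
    (∀ (b : ℝ) (G : Type) [Group G] [Finite G] [Group.IsSolvable G], Cls b G) ∧
    (∀ (b : ℝ) (m : ℕ), Cls b (Equiv.Perm (Fin m))) ∧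
    ((SomeRigid fun k => Equiv.Perm (Fin k)) ↔ 2 < omega) ∧
    (∀ (F : ℕ → Type) [∀ k, Field (F k)] [∀ k, Finite (F k)] (m : ℕ → ℕ)
      [∀ k, Fintype (Matrix.GeneralLinearGroup (Fin (m k)) (F k))], (∀ k, 2 ≤ m k) →
      Filter.Tendsto (fun k => Fintype.card (Matrix.GeneralLinearGroup (Fin (m k)) (F k)))
        Filter.atTop Filter.atTop →
      ((SomeRigid fun k => Matrix.GeneralLinearGroup (Fin (m k)) (F k)) ↔ 2 < omega)) ∧
    (∀ (G : Type) [Group G] [Fintype G] (f : G → ℂ), AlgebraicIndependent ℚ f →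
      ∀ R S : Matrix G G ℂ, (Matrix.of fun x y => f (x * y⁻¹)) = R + S → ∀ e m : ℝ, 0 ≤ e →
      Mass G e m → e ^ (omega - 2) * (m - 4 * R.rank) / 4 ≤
        (({p | S p.1 p.2 ≠ 0} : Set (G × G)).ncard : ℝ)) ∧
    (∀ δ : ℝ, 0 < δ → ∀ l : ℕ, ∃ γ : ℝ, 0 < γ ∧ ∃ n₀ : ℕ,
      ∀ (G : Type) [Group G] [Fintype G], n₀ ≤ Fintype.card G →
      Tame ((Fintype.card G : ℝ) ^ (δ / 16)) l G → ∀ m : ℝ,
      ¬ Mass G ((Fintype.card G : ℝ) ^ (δ / 16)) m → ∀ f : G → ℂ,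
        Dec (Matrix.of fun x y => f (x * y⁻¹)) (m + (Fintype.card G : ℝ) ^ (1 - γ))
          ((Fintype.card G : ℝ) ^ δ)) ∧
    (omega = 2 → ∀ δ : ℝ, 0 < δ → ∀ l : ℕ, ∃ γ : ℝ, 0 < γ ∧ ∃ n₀ : ℕ,
      ∀ (G : Type) [Group G] [Fintype G], n₀ ≤ Fintype.card G →
      Tame ((Fintype.card G : ℝ) ^ (δ / 8)) l G → ∀ f : G → ℂ,
        Dec (Matrix.of fun x y => f (x * y⁻¹)) ((Fintype.card G : ℝ) ^ (1 - γ))
          ((Fintype.card G : ℝ) ^ δ)) ∧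
    2 ≤ omega ∧ omega ≤ 3 :=
  ⟨fun G _ _ => someRigid_iff G, fun G _ _ => allTame_of_cls G, cls_solvable, cls_perm,
    genRigid_perm, someRigid_gl, fun G _ _ f hf R S h e m he hm => group_low_mass G f hf R S h e m he hm,
    up_low, up_tame, two_le_omega, omega_le_three⟩

end MP0775d3.Ox.Check
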