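import Pool.Agent.Lib.MP_0775d3_lc.Ox.FacD

/-! Project OX: from composition factors to the class. -/

set_option linter.unusedSectionVars false
set_option linter.unusedVariables false

namespace MP0775d3.Ox

private theorem facE_chain_mono {b b' : ℝ} (hb : b ≤ b') {r : ℕ} : ∀ {Q : Type} [Group Q],
    Chain b r Q → Chain b' r Q := by
  induction r with
  | zero => intro Q _ h; exact h
  | succ r ih =>
    intro Q _ h
    obtain ⟨Y, h1, h2⟩ := h
    exact ⟨Y, h1.trans hb, ih h2⟩

/-- PROOF. Induction on `k`. `k = 0`: `|G'| ≤ 1 ≤ b ^ 2`. Step: `L' = L + r + 3`, `B₀'` the maximum of `B₀` and of the number of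
`alt_chain (k + 1)`. Induction on `Fac b G` (for all `G'`). `one`: `|G'|` is the index. `ext N`: if the image of `N` in `G'`
has index at most `b`, the hypothesis for `N`. Else `|N| * b < |G'|`, so `|N| ≤ b ^ k`, and the statement for `k`, `N` and
the identity gives `Tame (b ^ 2) L N`. Index of `N` at most `b`: `Tame.index` for `N → G'` (index at most `b ^ 2`). Prime index:
the third case of the recursion, then `Tame.index`. Alternating quotient (`|A_m| ≤ |G'| ≤ b ^ (k + 1)`): `Chain.tame` (`b ≤ b ^ 2`,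
monotone), then `Tame.index`. -/
theorem fac_main (k : ℕ) : ∃ (L : ℕ) (B₀ : ℝ), 1 ≤ B₀ ∧ ∀ b : ℝ, B₀ ≤ b → ∀ (G : Type) [Group G],
    Fac b G → ∀ (G' : Type) [Group G'] [Finite G'] (ι : G →* G'), Function.Injective ι →
      (ι.range.index : ℝ) ≤ b → (Nat.card G' : ℝ) ≤ b ^ k → Tame (b ^ 2) L G' := by
  induction k with
  | zero =>
    refine ⟨0, 1, le_refl _, fun b hb G _ _ G' _ _ ι _ _ hG' => ?_⟩
    change (Nat.card G' : ℝ) ≤ b ^ 2
    rw [pow_zero] at hG'
    exact hG'.trans (one_le_pow₀ hb)
  | succ k ihk =>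
    obtain ⟨L, B₀, hB₀, hk⟩ := ihk
    obtain ⟨r, B₁, hB₁, hr⟩ := alt_chain (k + 1)
    refine ⟨L + r + 3, max B₀ B₁, le_max_of_le_left hB₀, fun b hb G _ hF => ?_⟩
    have hb0 : B₀ ≤ b := (le_max_left _ _).trans hb
    have hb1 : B₁ ≤ b := (le_max_right _ _).trans hb
    have hb' : 1 ≤ b := hB₀.trans hb0
    have hbb : b ≤ b ^ 2 := by nlinarith
    induction hF with
    | one G hs =>
      intro G' _ _ ι hι hi hG'
      have h1 : ι.range = ⊥ := by
        rw [eq_bot_iff]
        rintro _ ⟨x, rfl⟩
        rw [Subsingleton.elim x 1, map_one]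
        exact Subgroup.one_mem _
      rw [h1, Subgroup.index_bot] at hi
      have h2 : Tame (b ^ 2) 0 G' := hi.trans hbb
      exact Tame.mono (Nat.zero_le _) h2
    | ext G N hN hFN hc ih =>
      intro G' _ _ ι hι hi hG'
      have hinj : Function.Injective (ι.comp N.subtype) := hι.comp N.subtype_injective
      by_cases hle : ((ι.comp N.subtype).range.index : ℝ) ≤ b
      · exact ih G' (ι.comp N.subtype) hinj hle hG'
      · push Not at hle
        have hfG : Finite G := Finite.of_injective ι hι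
        have hcard : (Nat.card N : ℝ) ≤ b ^ k := by
          have h1 : Nat.card (ι.comp N.subtype).range * (ι.comp N.subtype).range.index =
              Nat.card G' := Subgroup.card_mul_index _
          have h2 : Nat.card (ι.comp N.subtype).range = Nat.card N :=
            (Nat.card_congr (MonoidHom.ofInjective hinj).toEquiv).symm
          rw [h2] at h1
          have h3 : (Nat.card N : ℝ) * ((ι.comp N.subtype).range.index : ℝ) = Nat.card G' := by
            exact_mod_cast h1
          have h4 : (Nat.card N : ℝ) * b ≤ b ^ k * b := by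
            rw [← pow_succ]
            refine le_trans ?_ hG'
            rw [← h3]
            exact mul_le_mul_of_nonneg_left hle.le (Nat.cast_nonneg _)
          exact le_of_mul_le_mul_right h4 (by linarith)
        have hT : Tame (b ^ 2) L N := by
          refine hk b hb0 N hFN N (MonoidHom.id N) Function.injective_id ?_ hcard
          have h1 : (MonoidHom.id N).range = ⊤ :=
            MonoidHom.range_eq_top.2 Function.surjective_id
          rw [h1, Subgroup.index_top, Nat.cast_one]
          exact hb'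
        rcases hc with hc | hc | ⟨m, φ, hφ, hker⟩
        · have h1 : (((ι.comp N.subtype).range.index : ℕ) : ℝ) ≤ b ^ 2 := by
            have h2 : (ι.comp N.subtype).range = N.map ι := by
              rw [MonoidHom.range_comp, Subgroup.range_subtype]
            rw [h2, Subgroup.index_map_of_injective N hι, Nat.cast_mul, pow_two]
            exact mul_le_mul hc hi (Nat.cast_nonneg _) (by linarith)
          exact Tame.mono (by omega) (Tame.index (ι.comp N.subtype) hinj h1 hT)
        · have h1 : Tame (b ^ 2) (L + 1) G := Or.inr (Or.inr (Or.inl ⟨N, hN, hc, hT⟩))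
          exact Tame.mono (by omega) (Tame.index ι hι (hi.trans hbb) h1)
        · subst hker
          have h1 : (Nat.card (alternatingGroup (Fin m)) : ℝ) ≤ b ^ (k + 1) := by
            refine le_trans ?_ hG'
            have h2 : Nat.card (alternatingGroup (Fin m)) ≤ Nat.card G :=
              Nat.card_le_card_of_surjective φ hφ
            have h3 : Nat.card G ≤ Nat.card G' := Nat.card_le_card_of_injective ι hι
            exact_mod_cast h2.trans h3
          have h2 : Tame (b ^ 2) (L + r) G :=
            Chain.tame φ (facE_chain_mono hbb (hr b hb1 m h1)) hT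
          exact Tame.mono (by omega) (Tame.index ι hι (hi.trans hbb) h2)

/-- PROOF. `fac_main` with `k = ⌈2 / δ⌉₊`, `b = |G| ^ (δ / 2)`, `G' = G`; `|G|` large gives `B₀ ≤ b`. -/
theorem fac_tame (δ : ℝ) (hδ : 0 < δ) : ∃ (L n₀ : ℕ), ∀ (G : Type) [Group G] [Fintype G],
    n₀ ≤ Fintype.card G → Fac ((Fintype.card G : ℝ) ^ (δ / 2)) G →
      Tame ((Fintype.card G : ℝ) ^ δ) L G := by
  obtain ⟨L, B₀, hB₀, h⟩ := fac_main ⌈2 / δ⌉₊
  refine ⟨L, ⌈B₀ ^ (2 / δ)⌉₊ + 1, fun G _ _ hn hF => ?_⟩
  have hc1 : (1 : ℝ) ≤ (Fintype.card G : ℝ) := by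
    have : 1 ≤ Fintype.card G := le_trans (Nat.le_add_left 1 _) hn
    exact_mod_cast this
  have hc0 : (0 : ℝ) ≤ (Fintype.card G : ℝ) := zero_le_one.trans hc1
  have hB : B₀ ≤ (Fintype.card G : ℝ) ^ (δ / 2) := by
    have h1 : B₀ ^ (2 / δ) ≤ (Fintype.card G : ℝ) := by
      refine (Nat.le_ceil _).trans ?_
      exact_mod_cast (Nat.le_succ _).trans hn
    have h2 : (B₀ ^ (2 / δ)) ^ (δ / 2) ≤ (Fintype.card G : ℝ) ^ (δ / 2) :=
      Real.rpow_le_rpow (Real.rpow_nonneg (by linarith) _) h1 (by linarith)
    have h3 : 2 / δ * (δ / 2) = 1 := by field_simp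
    rw [← Real.rpow_mul (by linarith), h3, Real.rpow_one] at h2
    exact h2
  have h4 : ((Fintype.card G : ℝ) ^ (δ / 2)) ^ 2 = (Fintype.card G : ℝ) ^ δ := by
    rw [← Real.rpow_natCast, ← Real.rpow_mul hc0]
    congr 1
    push_cast
    ring
  rw [← h4]
  refine h _ hB G hF G (MonoidHom.id G) Function.injective_id ?_ ?_
  · have h5 : (MonoidHom.id G).range = ⊤ := MonoidHom.range_eq_top.2 Function.surjective_id
    rw [h5, Subgroup.index_top, Nat.cast_one]
    exact hB₀.trans hB
  · rw [Nat.card_eq_fintype_card, ← Real.rpow_natCast, ← Real.rpow_mul hc0]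
    have h5 : (1 : ℝ) ≤ δ / 2 * (⌈2 / δ⌉₊ : ℝ) := by
      have h6 : 2 / δ ≤ (⌈2 / δ⌉₊ : ℝ) := Nat.le_ceil _
      have h7 : δ / 2 * (2 / δ) = 1 := by field_simp
      rw [← h7]
      exact mul_le_mul_of_nonneg_left h6 (by linarith)
    calc (Fintype.card G : ℝ) = (Fintype.card G : ℝ) ^ (1 : ℝ) := (Real.rpow_one _).symm
      _ ≤ _ := Real.rpow_le_rpow_of_exponent_le hc1 h5

end MP0775d3.Ox
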