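import Mathlib

/-! Project OX: numbers for the linear groups. -/

set_option linter.unusedSectionVars false
set_option linter.unusedVariables false

namespace MP0775d3.Ox

/-- PROOF. `r = 4 * k`. For `m ≥ r`: `(m / r + 1) ^ 2 * k ≤ (2 m / r) ^ 2 * k ≤ m * (m - 1) / 2`, so
`(q ^ ((m / r + 1) ^ 2)) ^ k ≤ b ^ k`. There is `m₁` with `(m + 1) ^ ((r + 1) ^ 2 * k) ≤ 2 ^ (m * (m - 1) / 2) ≤ b ^ k` for
`m ≥ m₁`, and `B₀ = m₁ ^ ((r + 1) ^ 2)` (at least `1`) for `m < m₁`. -/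
theorem lin_num (k : ℕ) (hk : 1 ≤ k) : ∃ (r : ℕ) (B₀ : ℝ), 0 < r ∧ 1 ≤ B₀ ∧ ∀ b : ℝ, B₀ ≤ b →
    ∀ q m : ℕ, 2 ≤ q → ((q ^ (m * (m - 1) / 2) : ℕ) : ℝ) ≤ b ^ k →
      (((m + 1) ^ ((r + 1) ^ 2) : ℕ) : ℝ) ≤ b ∧
      (m < r ∨ ((q ^ ((m / r + 1) ^ 2) : ℕ) : ℝ) ≤ b) := by
  obtain ⟨r, hr⟩ : ∃ r, r = 4 * k := ⟨_, rfl⟩
  obtain ⟨E, hE⟩ : ∃ E, E = (r + 1) ^ 2 := ⟨_, rfl⟩
  have hm1 : 1 ≤ 2 * (E * k) + 1 := by omega
  have hcast : ∀ (b : ℝ), 0 ≤ b → ∀ x y : ℕ, x ^ k ≤ y → ((y : ℕ) : ℝ) ≤ b ^ k → (x : ℝ) ≤ b := by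
    intro b hb x y h1 h2
    refine le_of_pow_le_pow_left₀ (n := k) (by omega) hb (le_trans ?_ h2)
    exact_mod_cast h1
  refine ⟨r, ((2 * (E * k) + 1 : ℕ) : ℝ) ^ E, by omega, one_le_pow₀ (by exact_mod_cast hm1), ?_⟩
  intro b hb q m hq hqb
  have hb0 : 0 ≤ b := le_trans (pow_nonneg (Nat.cast_nonneg _) _) hb
  have hq0 : 0 < q := by omega
  refine ⟨?_, ?_⟩
  · rw [← hE]
    rcases Nat.lt_or_ge m (2 * (E * k) + 1) with hm | hm
    · refine le_trans ?_ hb
      rw [Nat.cast_pow]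
      exact pow_le_pow_left₀ (Nat.cast_nonneg _) (by exact_mod_cast hm) _
    · refine hcast b hb0 _ _ ?_ hqb
      have h1 : m * (E * k) ≤ m * (m - 1) / 2 := by
        rw [Nat.le_div_iff_mul_le (by norm_num)]
        have h2 : E * k * 2 ≤ m - 1 := by omega
        calc m * (E * k) * 2 = m * (E * k * 2) := by ring
          _ ≤ m * (m - 1) := Nat.mul_le_mul_left m h2
      calc ((m + 1) ^ E) ^ k = (m + 1) ^ (E * k) := by rw [pow_mul]
        _ ≤ (2 ^ m) ^ (E * k) := Nat.pow_le_pow_left (Nat.lt_two_pow_self) _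
        _ = 2 ^ (m * (E * k)) := (pow_mul 2 m (E * k)).symm
        _ ≤ 2 ^ (m * (m - 1) / 2) := Nat.pow_le_pow_right (by norm_num) h1
        _ ≤ q ^ (m * (m - 1) / 2) := Nat.pow_le_pow_left hq _
  · rcases Nat.lt_or_ge m r with hm | hm
    · exact Or.inl hm
    · right
      refine hcast b hb0 _ _ ?_ hqb
      have h1 : (m / r + 1) ^ 2 * k ≤ m * (m - 1) / 2 := by
        rw [Nat.le_div_iff_mul_le (by norm_num)]
        obtain ⟨d, hd⟩ : ∃ d, d = m / r := ⟨_, rfl⟩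
        have h2 : r * d ≤ m := by
          rw [hd]
          exact Nat.mul_div_le m r
        have h3 : 1 ≤ d := by
          rw [hd]
          exact (Nat.one_le_div_iff (by omega)).2 hm
        rw [← hd]
        obtain ⟨n, rfl⟩ : ∃ n, m = n + 1 := ⟨m - 1, by omega⟩
        rw [Nat.add_sub_cancel]
        rw [hr] at h2 hm
        have h4 : 2 * (d + 1) * k ≤ n + 1 := by nlinarith
        have h5 : d + 1 ≤ n := by nlinarith
        calc (d + 1) ^ 2 * k * 2 = (2 * (d + 1) * k) * (d + 1) := by ring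
          _ ≤ (n + 1) * n := Nat.mul_le_mul h4 h5
      calc (q ^ ((m / r + 1) ^ 2)) ^ k = q ^ ((m / r + 1) ^ 2 * k) := by rw [pow_mul]
        _ ≤ q ^ (m * (m - 1) / 2) := Nat.pow_le_pow_right hq0 h1

private noncomputable def gnumU {F : Type} [Field F] {m : ℕ}
    (u : (Σ j : Fin m, Fin (j : ℕ)) → F) : Matrix (Fin m) (Fin m) F := Matrix.of fun i j =>
  if h : (i : ℕ) < (j : ℕ) then u ⟨j, ⟨i, h⟩⟩ else if i = j then 1 else 0

private theorem gnumU_diag {F : Type} [Field F] {m : ℕ}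
    (u : (Σ j : Fin m, Fin (j : ℕ)) → F) (i : Fin m) : gnumU u i i = 1 := by
  rw [gnumU, Matrix.of_apply, dif_neg (lt_irrefl _), if_pos rfl]

private theorem gnumU_det {F : Type} [Field F] {m : ℕ}
    (u : (Σ j : Fin m, Fin (j : ℕ)) → F) : (gnumU u).det = 1 := by
  rw [Matrix.det_of_isUpperTriangular]
  · exact Finset.prod_eq_one fun i _ => gnumU_diag u i
  · intro i j hij
    have h1 : (j : ℕ) < (i : ℕ) := hij
    rw [gnumU, Matrix.of_apply, dif_neg (by omega), if_neg]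
    intro h
    rw [h] at h1
    exact lt_irrefl _ h1

/-- PROOF. The unipotent upper triangular matrices: the map from the functions on the pairs `a < b` (their number is
`m (m - 1) / 2`) to `SL_m(F)`, `u ↦ 1 + u`, is injective, and two such matrices that differ by a scalar matrix are equal (compare the
diagonals). -/
theorem card_sl_quot {F : Type} [Field F] [Fintype F] {m : ℕ} {Q : Type} [Group Q] [Finite Q]
    (φ : Matrix.SpecialLinearGroup (Fin m) F →* Q)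
    (hφ : ∀ g, φ g = 1 → ∃ a : F, g.1 = Matrix.scalar (Fin m) a) :
    Fintype.card F ^ (m * (m - 1) / 2) ≤ Nat.card Q := by
  classical
  obtain ⟨g, hg⟩ : ∃ g : ((Σ j : Fin m, Fin (j : ℕ)) → F) → Matrix.SpecialLinearGroup (Fin m) F,
      ∀ u, (g u).1 = gnumU u := ⟨fun u => ⟨gnumU u, gnumU_det u⟩, fun u => rfl⟩
  have hf : Function.Injective fun u => φ (g u) := by
    intro u v huv
    have h1 : φ ((g v)⁻¹ * g u) = 1 := by
      rw [map_mul, map_inv, inv_mul_eq_one]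
      exact huv.symm
    obtain ⟨a, ha⟩ := hφ _ h1
    have h2 : gnumU u = gnumU v * Matrix.scalar (Fin m) a := by
      have h3 : g u = g v * ((g v)⁻¹ * g u) := by rw [mul_inv_cancel_left]
      have h4 := congrArg Subtype.val h3
      rw [← ha, ← hg, ← hg]
      exact h4
    have h3 : ∀ i j, gnumU u i j = gnumU v i j * a := by
      intro i j
      rw [h2, Matrix.scalar_apply, Matrix.mul_diagonal]
    funext ⟨j, i⟩
    have ha1 : a = 1 := by
      have h4 := h3 j j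
      rw [gnumU_diag, gnumU_diag, one_mul] at h4
      exact h4.symm
    have h5 := h3 ⟨i, i.2.trans j.2⟩ j
    rw [ha1, mul_one] at h5
    have e : ∀ w : (Σ j : Fin m, Fin (j : ℕ)) → F, gnumU w ⟨i, i.2.trans j.2⟩ j = w ⟨j, i⟩ := by
      intro w
      rw [gnumU, Matrix.of_apply, dif_pos i.2]
    rw [e, e] at h5
    exact h5
  have h6 := Nat.card_le_card_of_injective _ hf
  rw [Nat.card_eq_fintype_card, Fintype.card_fun, Fintype.card_sigma] at h6
  simp only [Fintype.card_fin] at h6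
  rw [Fin.sum_univ_eq_sum_range (fun i => i) m, Finset.sum_range_id] at h6
  exact h6

end MP0775d3.Ox
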