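import Mathlib

/-! Project OX: pairs of flags. -/

set_option linter.unusedSectionVars false
set_option linter.unusedVariables false

namespace MP0775d3.Ox

variable {F V : Type} [Field F] [AddCommGroup V] [Module F V] [FiniteDimensional F V]

omit [FiniteDimensional F V] in
/-- an independent set extended along a subspace -/
private lemma gflag_ext {S : Set V} (hS : LinearIndepOn F id S) {W : Submodule F V}
    (h : Submodule.span F S ⊓ W ≤ Submodule.span F (S ∩ (W : Set V))) :
    ∃ S' : Set V, LinearIndepOn F id S' ∧ S ⊆ S' ∧ S' ⊆ S ∪ (W : Set V) ∧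
      W ≤ Submodule.span F (S' ∩ (W : Set V)) := by
  have h1 : LinearIndepOn F id (S ∩ (W : Set V)) := hS.mono Set.inter_subset_left
  have h2 : S ∩ (W : Set V) ⊆ (W : Set V) := Set.inter_subset_right
  obtain ⟨T, hTdef⟩ : ∃ T, T = h1.extend h2 := ⟨_, rfl⟩
  have hTW : T ⊆ (W : Set V) := hTdef ▸ h1.extend_subset h2
  have hST : S ∩ (W : Set V) ⊆ T := hTdef ▸ h1.subset_extend h2
  have hTs : Submodule.span F T = W := by
    rw [hTdef, h1.span_extend_eq_span h2, Submodule.span_eq]
  have hTi : LinearIndepOn F id T := hTdef ▸ h1.linearIndepOn_extend h2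
  have hu : S ∪ T = (S \ (W : Set V)) ∪ T := by
    ext x
    constructor
    · rintro (hx | hx)
      · by_cases hxW : x ∈ (W : Set V)
        · exact Or.inr (hST ⟨hx, hxW⟩)
        · exact Or.inl ⟨hx, hxW⟩
      · exact Or.inr hx
    · rintro (hx | hx)
      · exact Or.inl hx.1
      · exact Or.inr hx
  refine ⟨S ∪ T, ?_, Set.subset_union_left, Set.union_subset_union_right _ hTW, ?_⟩
  · rw [hu]
    refine (hS.mono Set.diff_subset).id_union hTi ?_
    rw [hTs, Submodule.disjoint_def]
    intro x hx1 hx2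
    have h3 : x ∈ Submodule.span F (S ∩ (W : Set V)) :=
      h ⟨Submodule.span_mono Set.diff_subset hx1, hx2⟩
    have hdj : Disjoint (S \ (W : Set V)) (S ∩ (W : Set V)) :=
      Set.disjoint_left.2 fun y hy hy' => hy.2 hy'.2
    have h4 := ((linearIndepOn_id_union_iff hdj).1 (by rwa [Set.diff_union_inter])).2.2
    exact Submodule.disjoint_def.1 h4 x hx1 h3
  · refine le_trans (le_of_eq hTs.symm) (Submodule.span_mono ?_)
    exact fun x hx => ⟨Or.inr hx, hTW hx⟩

omit [FiniteDimensional F V] in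
private lemma gflag_idx {r : ℕ} {A : ℕ → Submodule F V} (hA : Monotone A) (hA0 : A 0 = ⊥)
    (hAr : A r = ⊤) {x : V} (hx : x ≠ 0) (n : ℕ) : sInf {m | x ∈ A (m + 1)} < n ↔ x ∈ A n := by
  have hr : r ≠ 0 := by
    rintro rfl
    have h1 : x ∈ A 0 := by rw [hAr]; exact Submodule.mem_top
    rw [hA0, Submodule.mem_bot] at h1
    exact hx h1
  have hne : {m | x ∈ A (m + 1)}.Nonempty := by
    refine ⟨r - 1, ?_⟩
    show x ∈ A (r - 1 + 1)
    rw [Nat.sub_add_cancel (Nat.pos_of_ne_zero hr), hAr]
    exact Submodule.mem_top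
  constructor
  · intro h
    exact hA (Nat.succ_le_of_lt h) (Nat.sInf_mem hne)
  · intro h
    cases n with
    | zero =>
      rw [hA0, Submodule.mem_bot] at h
      exact absurd h hx
    | succ n => exact Nat.lt_succ_of_le (Nat.sInf_le h)

omit [FiniteDimensional F V] in
private lemma gflag_key (r : ℕ) (A B : ℕ → Submodule F V) (hA : Monotone A) (hB : Monotone B)
    (hA0 : A 0 = ⊥) (hB0 : B 0 = ⊥) (hBr : B r = ⊤) (n : ℕ) :
    ∃ S : Set V, LinearIndepOn F id S ∧ S ⊆ (A n : Set V) ∧
      ∀ n' ≤ n, ∀ k, A n' ⊓ B k ≤ Submodule.span F (S ∩ ((A n' ⊓ B k : Submodule F V) : Set V)) := by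
  induction n with
  | zero =>
    refine ⟨∅, linearIndepOn_empty F id, Set.empty_subset _, ?_⟩
    intro n' hn' k
    obtain rfl : n' = 0 := by omega
    rw [hA0, bot_inf_eq]
    exact bot_le
  | succ n ih =>
    obtain ⟨S, hS, hSA, hSg⟩ := ih
    have inner : ∀ k, ∃ S' : Set V, LinearIndepOn F id S' ∧ S ⊆ S' ∧
        S' ⊆ S ∪ ((A (n + 1) ⊓ B k : Submodule F V) : Set V) ∧
        ∀ k' ≤ k, A (n + 1) ⊓ B k' ≤
          Submodule.span F (S' ∩ ((A (n + 1) ⊓ B k' : Submodule F V) : Set V)) := by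
      intro k
      induction k with
      | zero =>
        refine ⟨S, hS, subset_rfl, Set.subset_union_left, ?_⟩
        intro k' hk'
        obtain rfl : k' = 0 := by omega
        rw [hB0, inf_bot_eq]
        exact bot_le
      | succ k ihk =>
        obtain ⟨S', hS', hSS', hS'u, hg⟩ := ihk
        have hW : Submodule.span F S' ⊓ (A (n + 1) ⊓ B (k + 1)) ≤
            Submodule.span F (S' ∩ ((A (n + 1) ⊓ B (k + 1) : Submodule F V) : Set V)) := by
          have h1 : Submodule.span F S' ≤ (A (n + 1) ⊓ B k) ⊔ A n := by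
            rw [Submodule.span_le]
            intro x hx
            rcases hS'u hx with h | h
            · exact Submodule.mem_sup_right (hSA h)
            · exact Submodule.mem_sup_left h
          have h2 : A n ⊓ B (k + 1) ≤
              Submodule.span F (S' ∩ ((A (n + 1) ⊓ B (k + 1) : Submodule F V) : Set V)) :=
            (hSg n le_rfl (k + 1)).trans (Submodule.span_mono
              (Set.inter_subset_inter hSS' (inf_le_inf_right _ (hA (Nat.le_succ n)))))
          have h3 : A (n + 1) ⊓ B k ≤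
              Submodule.span F (S' ∩ ((A (n + 1) ⊓ B (k + 1) : Submodule F V) : Set V)) :=
            (hg k le_rfl).trans (Submodule.span_mono
              (Set.inter_subset_inter_right _ (inf_le_inf_left _ (hB (Nat.le_succ k)))))
          have h4 : A (n + 1) ⊓ B k ≤ A (n + 1) ⊓ B (k + 1) := inf_le_inf_left _ (hB (Nat.le_succ k))
          refine (inf_le_inf_right _ h1).trans ?_
          rw [sup_inf_assoc_of_le (A n) h4]
          refine sup_le h3 (le_trans ?_ h2)
          exact le_inf inf_le_left (inf_le_right.trans inf_le_right)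
        obtain ⟨S'', h1, h2, h3, h4⟩ := gflag_ext hS' hW
        refine ⟨S'', h1, hSS'.trans h2, ?_, ?_⟩
        · intro x hx
          rcases h3 hx with h | h
          · rcases hS'u h with h' | h'
            · exact Or.inl h'
            · exact Or.inr (inf_le_inf_left (A (n + 1)) (hB (Nat.le_succ k)) h')
          · exact Or.inr h
        · intro k' hk'
          rcases Nat.lt_or_ge k k' with h5 | h5
          · obtain rfl : k' = k + 1 := by omega
            exact h4
          · exact (hg k' h5).trans (Submodule.span_mono (Set.inter_subset_inter_left _ h2))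
    obtain ⟨S', h1, h2, h3, h4⟩ := inner r
    refine ⟨S', h1, ?_, ?_⟩
    · intro x hx
      rcases h3 hx with h | h
      · exact hA (Nat.le_succ n) (hSA h)
      · exact h.1
    · intro n' hn' k
      rcases Nat.lt_or_ge n n' with h5 | h5
      · obtain rfl : n' = n + 1 := by omega
        rcases Nat.lt_or_ge r k with h6 | h6
        · have h7 : B k = B r := by
            rw [hBr, eq_top_iff, ← hBr]
            exact hB h6.le
          rw [h7]
          exact h4 r le_rfl
        · exact h4 k h6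
      · exact (hSg n' h5 k).trans (Submodule.span_mono (Set.inter_subset_inter_left _ h2))

/-- A basis adapted to two flags. PROOF. `C n k` a complement of `(A n ⊓ B (k + 1)) ⊔ (A (n + 1) ⊓ B k)` in
`A (n + 1) ⊓ B (k + 1)`, with a basis; `I = Σ n : Fin r, Σ k : Fin r, Fin (finrank (C n k))`. Induction on `n`, `k`:
`A n ⊓ B k` is the sum of the `C n' k'` with `n' < n`, `k' < k`; the number of basis vectors in it is its dimension
(`finrank (X ⊔ Y) + finrank (X ⊓ Y) = finrank X + finrank Y`, with `X ⊓ Y = A n ⊓ B k`). So the vectors span `V = A r ⊓ B r`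
and their number is `finrank V`: a basis. -/
theorem adapted (r : ℕ) (A B : ℕ → Submodule F V) (hA : Monotone A) (hB : Monotone B)
    (hA0 : A 0 = ⊥) (hB0 : B 0 = ⊥) (hAr : A r = ⊤) (hBr : B r = ⊤) :
    ∃ (I : Type) (_ : Fintype I) (v : Module.Basis I F V) (i j : I → ℕ),
      ∀ n k, A n ⊓ B k = Submodule.span F (v '' {a | i a < n ∧ j a < k}) := by
  classical
  obtain ⟨S, hS, -, hg⟩ := gflag_key r A B hA hB hA0 hB0 hBr r
  have hspan : ⊤ ≤ Submodule.span F (Set.range ((↑) : S → V)) := by
    rw [Subtype.range_coe]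
    have h1 := hg r le_rfl r
    rw [hAr, hBr, inf_top_eq] at h1
    exact h1.trans (Submodule.span_mono Set.inter_subset_left)
  have hli : LinearIndependent F ((↑) : S → V) := hS.linearIndependent
  let v : Module.Basis S F V := Module.Basis.mk hli hspan
  have hv : ∀ a : S, v a = (a : V) := fun a => Module.Basis.mk_apply hli hspan a
  haveI : Finite S := Module.Finite.finite_basis v
  refine ⟨S, Fintype.ofFinite S, v, fun a => sInf {m | (a : V) ∈ A (m + 1)},
    fun a => sInf {m | (a : V) ∈ B (m + 1)}, ?_⟩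
  intro n k
  have hn0 : ∀ a : S, (a : V) ≠ 0 := fun a => by
    rw [← hv]
    exact v.ne_zero a
  have himg : v '' {a | sInf {m | (a : V) ∈ A (m + 1)} < n ∧ sInf {m | (a : V) ∈ B (m + 1)} < k} =
      S ∩ ((A n ⊓ B k : Submodule F V) : Set V) := by
    ext x
    constructor
    · rintro ⟨a, ⟨h1, h2⟩, rfl⟩
      rw [hv]
      exact ⟨a.2, (gflag_idx hA hA0 hAr (hn0 a) n).1 h1, (gflag_idx hB hB0 hBr (hn0 a) k).1 h2⟩
    · rintro ⟨h1, h2, h3⟩
      refine ⟨⟨x, h1⟩, ⟨(gflag_idx hA hA0 hAr (hn0 ⟨x, h1⟩) n).2 h2,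
        (gflag_idx hB hB0 hBr (hn0 ⟨x, h1⟩) k).2 h3⟩, hv _⟩
  rw [himg]
  refine le_antisymm ?_ (Submodule.span_le.2 Set.inter_subset_right)
  rcases Nat.lt_or_ge r n with h6 | h6
  · have h7 : A n = A r := by
      rw [hAr, eq_top_iff, ← hAr]
      exact hA h6.le
    rw [h7]
    exact hg r le_rfl k
  · exact hg n h6 k

private theorem gflag_cnt {I : Type} [Fintype I] (i j : I → ℕ) (n k : ℕ) :
    (Finset.univ.filter fun a => i a < n + 1 ∧ j a < k + 1).card +
      (Finset.univ.filter fun a => i a < n ∧ j a < k).card =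
    (Finset.univ.filter fun a => i a < n + 1 ∧ j a < k).card +
      (Finset.univ.filter fun a => i a < n ∧ j a < k + 1).card +
      (Finset.univ.filter fun a => i a = n ∧ j a = k).card := by
  simp only [Finset.card_filter]
  rw [← Finset.sum_add_distrib, ← Finset.sum_add_distrib, ← Finset.sum_add_distrib]
  refine Finset.sum_congr rfl fun a _ => ?_
  split_ifs <;> omega

private theorem gflag_rank {I : Type} [Fintype I] (v : Module.Basis I F V) (i j : I → ℕ)
    (n k : ℕ) :
    Module.finrank F (Submodule.span F (v '' {a | i a < n ∧ j a < k})) =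
      (Finset.univ.filter fun a => i a < n ∧ j a < k).card := by
  have h1 : v '' {a | i a < n ∧ j a < k} =
      Set.range (fun a : {a // i a < n ∧ j a < k} => v a) := by
    ext x
    constructor
    · rintro ⟨a, ha, rfl⟩
      exact ⟨⟨a, ha⟩, rfl⟩
    · rintro ⟨a, rfl⟩
      exact ⟨a.1, a.2, rfl⟩
  have h2 : LinearIndependent F (fun a : {a // i a < n ∧ j a < k} => v a) :=
    v.linearIndependent.comp _ Subtype.val_injective
  rw [h1, finrank_span_eq_card h2, Fintype.card_subtype]

private theorem gflag_map {I I' : Type} (v : Module.Basis I F V) (v' : Module.Basis I' F V)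
    (e : I ≃ I') (w : I' → Fˣ) (g : V ≃ₗ[F] V) (hg : ∀ a, g (v a) = w (e a) • v' (e a))
    (S : Set I) :
    (Submodule.span F (v '' S)).map (g : V →ₗ[F] V) = Submodule.span F (v' '' (e '' S)) := by
  rw [Submodule.map_span]
  apply le_antisymm
  · rw [Submodule.span_le]
    rintro x ⟨y, ⟨a, ha, rfl⟩, rfl⟩
    change g (v a) ∈ _
    rw [hg]
    exact Submodule.smul_mem _ (w (e a) : F) (Submodule.subset_span ⟨e a, ⟨a, ha, rfl⟩, rfl⟩)
  · rw [Submodule.span_le]
    rintro x ⟨y, ⟨a, ha, rfl⟩, rfl⟩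
    have h1 : v' (e a) = ((w (e a))⁻¹ : Fˣ) • g (v a) := by
      rw [hg, inv_smul_smul]
    rw [SetLike.mem_coe, h1]
    exact Submodule.smul_mem _ ((w (e a))⁻¹ : Fˣ).1 (Submodule.subset_span ⟨v a, ⟨a, ha, rfl⟩, rfl⟩)

private theorem gflag_image {I I' : Type} (e : I ≃ I') (i j : I → ℕ) (i' j' : I' → ℕ)
    (hi : ∀ a, i' (e a) = i a) (hj : ∀ a, j' (e a) = j a) (n k : ℕ) :
    e '' {a | i a < n ∧ j a < k} = {a | i' a < n ∧ j' a < k} := by
  ext a'
  constructor
  · rintro ⟨a, ⟨h1, h2⟩, rfl⟩
    exact ⟨by rw [hi]; exact h1, by rw [hj]; exact h2⟩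
  · rintro ⟨h1, h2⟩
    refine ⟨e.symm a', ⟨?_, ?_⟩, e.apply_symm_apply a'⟩
    · rw [← hi, e.apply_symm_apply]
      exact h1
    · rw [← hj, e.apply_symm_apply]
      exact h2

private theorem gflag_equiv {I I' : Type} [Fintype I] [Fintype I'] (i j : I → ℕ) (i' j' : I' → ℕ)
    (h : ∀ n k, (Finset.univ.filter fun a => i a = n ∧ j a = k).card =
      (Finset.univ.filter fun a => i' a = n ∧ j' a = k).card) :
    ∃ e : I ≃ I', (∀ a, i' (e a) = i a) ∧ ∀ a, j' (e a) = j a := by
  classical
  have h1 : ∀ y : ℕ × ℕ, Nonempty ({a // (i a, j a) = y} ≃ {a // (i' a, j' a) = y}) := by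
    rintro ⟨n, k⟩
    refine ⟨Fintype.equivOfCardEq ?_⟩
    rw [Fintype.card_subtype, Fintype.card_subtype]
    simp only [Prod.mk.injEq]
    exact h n k
  have E' : ∀ y, {a // (i a, j a) = y} ≃ {a // (i' a, j' a) = y} := fun y => (h1 y).some
  have key : ∀ a, (fun a => (i' a, j' a)) (((Equiv.sigmaFiberEquiv fun a => (i a, j a)).symm.trans
      ((Equiv.sigmaCongrRight E').trans (Equiv.sigmaFiberEquiv fun a => (i' a, j' a)))) a) =
      (i a, j a) := by
    intro a
    exact (E' (i a, j a) ⟨a, rfl⟩).2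
  refine ⟨(Equiv.sigmaFiberEquiv fun a => (i a, j a)).symm.trans
    ((Equiv.sigmaCongrRight E').trans (Equiv.sigmaFiberEquiv fun a => (i' a, j' a))), ?_, ?_⟩
  · intro a
    exact congrArg Prod.fst (key a)
  · intro a
    exact congrArg Prod.snd (key a)

/-- A map of the one basis to multiples of the other one with determinant `1`. -/
private theorem gflag_det {I I' : Type} [Fintype I] [Fintype I'] (v : Module.Basis I F V)
    (v' : Module.Basis I' F V) (e : I ≃ I') :
    ∃ (w : I' → Fˣ) (g : V ≃ₗ[F] V), (∀ a, g (v a) = w (e a) • v' (e a)) ∧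
      LinearMap.det (g : V →ₗ[F] V) = 1 := by
  classical
  obtain ⟨g₀, hg₀⟩ : ∃ g₀ : V ≃ₗ[F] V, g₀ = v.equiv v' e := ⟨_, rfl⟩
  have hs : ∀ w : I' → Fˣ, LinearMap.det
      ((v'.equiv (v'.unitsSMul w) (Equiv.refl I') : V ≃ₗ[F] V) : V →ₗ[F] V) = ∏ a, (w a : F) := by
    intro w
    rw [← LinearMap.det_toMatrix v']
    have h1 : LinearMap.toMatrix v' v' ((v'.equiv (v'.unitsSMul w) (Equiv.refl I') : V ≃ₗ[F] V) :
        V →ₗ[F] V) = Matrix.diagonal fun a => (w a : F) := by
      ext a b
      rw [LinearMap.toMatrix_apply]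
      change v'.repr ((v'.equiv (v'.unitsSMul w) (Equiv.refl I')) (v' b)) a = _
      rw [Module.Basis.equiv_apply, Equiv.refl_apply, Module.Basis.unitsSMul_apply,
        Units.smul_def, map_smul, Module.Basis.repr_self, Finsupp.smul_apply, smul_eq_mul]
      by_cases hab : a = b
      · subst hab
        rw [Finsupp.single_eq_same, mul_one, Matrix.diagonal_apply_eq]
      · rw [Finsupp.single_eq_of_ne hab, mul_zero, Matrix.diagonal_apply_ne _ hab]
    rw [h1, Matrix.det_diagonal]
  obtain ⟨d, hd⟩ := LinearEquiv.isUnit_det' g₀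
  have hw : ∃ w : I' → Fˣ, (∏ a, (w a : F)) * (d : F) = 1 := by
    rcases isEmpty_or_nonempty I' with hI | ⟨⟨a₁⟩⟩
    · refine ⟨1, ?_⟩
      rw [Finset.univ_eq_empty, Finset.prod_empty, one_mul, hd, ← LinearMap.det_toMatrix v',
        Matrix.det_isEmpty]
    · refine ⟨Function.update 1 a₁ d⁻¹, ?_⟩
      rw [Finset.prod_eq_single a₁]
      · rw [Function.update_self]
        exact d.inv_mul
      · intro a _ ha
        rw [Function.update_of_ne ha]
        rfl
      · intro h
        exact absurd (Finset.mem_univ _) h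
  obtain ⟨w, hw⟩ := hw
  refine ⟨w, g₀.trans (v'.equiv (v'.unitsSMul w) (Equiv.refl I')), fun a => ?_, ?_⟩
  · rw [LinearEquiv.trans_apply, hg₀, Module.Basis.equiv_apply, Module.Basis.equiv_apply,
      Equiv.refl_apply, Module.Basis.unitsSMul_apply]
  · rw [LinearEquiv.coe_trans, LinearMap.det_comp, hs, ← hd]
    exact hw

/-- PROOF. `adapted` for `A`, `B` and for `A`, `B'`; `finrank (A n ⊓ B k)` is the number of `a` with `i a < n`, `j a < k`. The numbers
of `a` with `i a = n`, `j a = k` agree (differences), so there is a bijection of the index sets which preserves `i` and `j`; `h` maps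
the one basis to the other one, one vector multiplied by a scalar to get determinant `1`. `A n = A n ⊓ B r`,
`B k = A r ⊓ B k`. -/
theorem flags_conj (r : ℕ) (A B B' : ℕ → Submodule F V) (hA : Monotone A) (hB : Monotone B)
    (hB' : Monotone B') (hA0 : A 0 = ⊥) (hB0 : B 0 = ⊥) (hB0' : B' 0 = ⊥) (hAr : A r = ⊤)
    (hBr : B r = ⊤) (hBr' : B' r = ⊤)
    (h : ∀ n k, Module.finrank F ↥(A n ⊓ B k) = Module.finrank F ↥(A n ⊓ B' k)) :
    ∃ g : V ≃ₗ[F] V, LinearMap.det (g : V →ₗ[F] V) = 1 ∧
      (∀ n, (A n).map (g : V →ₗ[F] V) = A n) ∧ ∀ n, (B n).map (g : V →ₗ[F] V) = B' n := by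
  obtain ⟨I, _, v, i, j, h1⟩ := adapted r A B hA hB hA0 hB0 hAr hBr
  obtain ⟨I', _, v', i', j', h2⟩ := adapted r A B' hA hB' hA0 hB0' hAr hBr'
  have h3 : ∀ n k, (Finset.univ.filter fun a => i a < n ∧ j a < k).card =
      (Finset.univ.filter fun a => i' a < n ∧ j' a < k).card := by
    intro n k
    rw [← gflag_rank v i j n k, ← gflag_rank v' i' j' n k, ← h1, ← h2, h]
  obtain ⟨e, he, he'⟩ := gflag_equiv i j i' j' fun n k => by
    have e1 := gflag_cnt i j n k
    have e2 := gflag_cnt i' j' n k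
    rw [← h3, ← h3, ← h3, ← h3] at e2
    omega
  obtain ⟨w, g, hg, hdet⟩ := gflag_det v v' e
  have h4 : ∀ n k, (A n ⊓ B k).map (g : V →ₗ[F] V) = A n ⊓ B' k := by
    intro n k
    rw [h1, gflag_map v v' e w g hg, gflag_image e i j i' j' he he', h2]
  refine ⟨g, hdet, fun n => ?_, fun n => ?_⟩
  · have h5 := h4 n r
    rwa [hBr, hBr', inf_top_eq] at h5
  · have h5 := h4 r n
    rwa [hAr, top_inf_eq, top_inf_eq] at h5

end MP0775d3.Ox
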