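import Pool.Agent.Lib.MP_0775d3_lc.Ox.GPar0
import Pool.Agent.Lib.MP_0775d3_lc.Ox.GFlag

/-! Project OX: parabolic subgroups. -/

set_option linter.unusedSectionVars false
set_option linter.unusedVariables false

namespace MP0775d3.Ox

variable {F : Type} [Field F] {m r : ℕ}

/-- The coordinate flag of a colouring. -/
def flag (F : Type) [Field F] (c : Fin m → Fin r) (n : ℕ) : Submodule F (Fin m → F) where
  carrier := {v | ∀ a, n ≤ (c a : ℕ) → v a = 0}
  add_mem' := by
    intro v w hv hw a ha
    rw [Pi.add_apply, hv a ha, hw a ha, add_zero]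
  zero_mem' := fun a _ => rfl
  smul_mem' := by
    intro x v hv a ha
    rw [Pi.smul_apply, hv a ha, smul_zero]

/-- PROOF. A basis: the unit vectors `e_a` with `c a < n`. -/
theorem flag_finrank (c : Fin m → Fin r) (n : ℕ) :
    Module.finrank F (flag F c n) = Nat.card {a : Fin m // (c a : ℕ) < n} := by
  classical
  obtain ⟨e⟩ : Nonempty (flag F c n ≃ₗ[F] ({a : Fin m // (c a : ℕ) < n} → F)) := ⟨
    { toFun := fun v a => v.1 a.1
      map_add' := fun v w => rfl
      map_smul' := fun x v => rfl
      invFun := fun w => ⟨fun a => if h : (c a : ℕ) < n then w ⟨a, h⟩ else 0,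
        fun a ha => dif_neg (not_lt.mpr ha)⟩
      left_inv := by
        intro v
        apply Subtype.ext
        funext a
        by_cases h : (c a : ℕ) < n
        · exact dif_pos h
        · exact (dif_neg h).trans (v.2 a (not_lt.mp h)).symm
      right_inv := by
        intro w
        funext a
        exact dif_pos a.2 }⟩
  rw [e.finrank_eq, Module.finrank_fintype_fun_eq_card, Nat.card_eq_fintype_card]

/-- The stabilizer of the flag. -/
def par (F : Type) [Field F] (c : Fin m → Fin r) :
    Subgroup (Matrix.SpecialLinearGroup (Fin m) F) where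
  carrier := {g | ∀ n, (flag F c n).map (Matrix.toLin' g.1) = flag F c n}
  mul_mem' := by
    intro g h hg hh n
    change (flag F c n).map (Matrix.toLin' (g * h).1) = flag F c n
    rw [Matrix.SpecialLinearGroup.coe_mul, Matrix.toLin'_mul, Submodule.map_comp, hh n, hg n]
  one_mem' := by
    intro n
    change (flag F c n).map (Matrix.toLin' (1 : Matrix (Fin m) (Fin m) F)) = flag F c n
    rw [Matrix.toLin'_one, Submodule.map_id]
  inv_mem' := by
    intro g hg n
    change (flag F c n).map (Matrix.toLin' (g⁻¹).1) = flag F c n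
    conv_lhs => rw [← hg n]
    rw [← Submodule.map_comp, ← Matrix.toLin'_mul, ← Matrix.SpecialLinearGroup.coe_mul,
      inv_mul_cancel, Matrix.SpecialLinearGroup.coe_one, Matrix.toLin'_one, Submodule.map_id]

/-- PROOF. `flag_fac0` for the action of `par F c` on `Fin m → F`; the steps have dimension
`|{a // c a = n}| ≤ m / r + 1`. -/
theorem par_fac0 [Fintype F] (c : Fin m → Fin r)
    (hc : ∀ i, Nat.card {a // c a = i} ≤ m / r + 1) {b : ℝ}
    (hb : m < r ∨ ((Fintype.card F ^ ((m / r + 1) ^ 2) : ℕ) : ℝ) ≤ b) : Fac0 b (par F c) := by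
  classical
  have hcount : ∀ n : ℕ, Nat.card {a : Fin m // (c a : ℕ) < n + 1} =
      Nat.card {a : Fin m // (c a : ℕ) < n} + Nat.card {a : Fin m // (c a : ℕ) = n} := by
    intro n
    rw [Nat.card_eq_fintype_card, Nat.card_eq_fintype_card, Nat.card_eq_fintype_card,
      Fintype.card_subtype, Fintype.card_subtype, Fintype.card_subtype,
      ← Finset.card_union_of_disjoint, ← Finset.filter_or]
    · congr 1
      ext a
      simp only [Finset.mem_filter, Finset.mem_univ, true_and]
      omega
    · rw [Finset.disjoint_left]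
      intro a h1 h2
      rw [Finset.mem_filter] at h1 h2
      omega
  have hstep : ∀ n : ℕ, Nat.card {a : Fin m // (c a : ℕ) = n} ≤ m / r + 1 := by
    intro n
    by_cases hn : n < r
    · refine le_trans (le_of_eq ?_) (hc ⟨n, hn⟩)
      refine Nat.card_congr (Equiv.subtypeEquivRight fun a => ?_)
      rw [Fin.ext_iff]
    · have h0 : IsEmpty {a : Fin m // (c a : ℕ) = n} := by
        refine ⟨fun a => ?_⟩
        have h1 := (c a.1).isLt
        have h2 := a.2
        omega
      rw [Nat.card_of_isEmpty]
      exact Nat.zero_le _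
  refine flag_fac0 (F := F) (V := Fin m → F) (Γ := par F c)
    ((Matrix.SpecialLinearGroup.toLin').comp (par F c).subtype)
    (Matrix.SpecialLinearGroup.toLin'_injective.comp (par F c).subtype_injective) r
    (flag F c) ?_ ?_ ?_ ?_ ?_
  · intro n n' hn v hv a ha
    exact hv a (hn.trans ha)
  · rw [eq_bot_iff]
    intro v hv
    rw [Submodule.mem_bot]
    funext a
    exact hv a (Nat.zero_le _)
  · rw [eq_top_iff]
    intro v _ a ha
    exact absurd ha (not_le.mpr (c a).isLt)
  · intro g n
    exact g.2 n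
  · intro n
    rw [flag_finrank, flag_finrank, hcount n]
    have h1 := hstep n
    rcases hb with hb | hb
    · left
      rw [Nat.div_eq_of_lt hb] at h1
      omega
    · right
      refine le_trans ?_ hb
      rw [Nat.add_sub_cancel_left]
      exact_mod_cast Nat.pow_le_pow_right Fintype.card_pos (Nat.pow_le_pow_left h1 2)

/-- PROOF. For `g` let `d g (n, k) = finrank (flag n ⊓ (flag k).map g)`, `n, k ≤ r`. If `d g = d g'` then `flags_conj` with
`A = flag`, `B = (flag).map g`, `B' = (flag).map g'` gives `h ∈ par`, and `h' = g⁻¹ * h⁻¹ * g'` is in `par`. At most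
`(m + 1) ^ ((r + 1) ^ 2)` functions; `X` a set of representatives. -/
theorem par_dc [Fintype F] (c : Fin m → Fin r) :
    ∃ X : Finset (Matrix.SpecialLinearGroup (Fin m) F), X.card ≤ (m + 1) ^ ((r + 1) ^ 2) ∧
      ∀ g, ∃ x ∈ X, ∃ h ∈ par F c, ∃ h' ∈ par F c, g = h * x * h' := by
  classical
  have hmono : Monotone (flag F c) := by
    intro n n' hn v hv a ha
    exact hv a (hn.trans ha)
  have h0 : flag F c 0 = ⊥ := by
    rw [eq_bot_iff]
    intro v hv
    rw [Submodule.mem_bot]
    funext a
    exact hv a (Nat.zero_le _)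
  have htop : ∀ n, r ≤ n → flag F c n = ⊤ := by
    intro n hn
    rw [eq_top_iff]
    intro v _ a ha
    have h1 := (c a).isLt
    exact absurd ha (by omega)
  have hmapmono : ∀ g : Matrix.SpecialLinearGroup (Fin m) F,
      Monotone fun k => (flag F c k).map (Matrix.toLin' g.1) := fun g n n' hn =>
    Submodule.map_mono (hmono hn)
  have hmap0 : ∀ g : Matrix.SpecialLinearGroup (Fin m) F,
      (flag F c 0).map (Matrix.toLin' g.1) = ⊥ := by
    intro g
    rw [h0, Submodule.map_bot]
  have hmaptop : ∀ (g : Matrix.SpecialLinearGroup (Fin m) F) (n : ℕ), r ≤ n →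
      (flag F c n).map (Matrix.toLin' g.1) = ⊤ := by
    intro g n hn
    rw [htop n hn, ← Matrix.SpecialLinearGroup.toLin'_to_linearMap, Submodule.map_top,
      LinearEquiv.range]
  obtain ⟨d, hd⟩ : ∃ d : Matrix.SpecialLinearGroup (Fin m) F →
      (Fin (r + 1) × Fin (r + 1) → Fin (m + 1)), ∀ g q, (d g q : ℕ) =
        Module.finrank F ↥(flag F c q.1 ⊓ (flag F c q.2).map (Matrix.toLin' g.1)) := by
    refine ⟨fun g q => ⟨Module.finrank F
      ↥(flag F c q.1 ⊓ (flag F c q.2).map (Matrix.toLin' g.1)), ?_⟩, fun g q => rfl⟩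
    have h1 := Submodule.finrank_le
      (flag F c q.1 ⊓ (flag F c q.2).map (Matrix.toLin' g.1))
    rw [Module.finrank_fintype_fun_eq_card, Fintype.card_fin] at h1
    omega
  obtain ⟨s, hs⟩ : ∃ s : (Fin (r + 1) × Fin (r + 1) → Fin (m + 1)) →
      Matrix.SpecialLinearGroup (Fin m) F, ∀ g, d (s (d g)) = d g := by
    refine ⟨fun f => if h : ∃ g, d g = f then h.choose else 1, fun g => ?_⟩
    have h1 : ∃ g', d g' = d g := ⟨g, rfl⟩
    simp only [dif_pos h1]
    exact h1.choose_spec
  refine ⟨Finset.univ.image s, ?_, ?_⟩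
  · refine Finset.card_image_le.trans (le_of_eq ?_)
    rw [Finset.card_univ, Fintype.card_fun, Fintype.card_prod, Fintype.card_fin, Fintype.card_fin,
      pow_two]
  · intro g
    obtain ⟨x, hx⟩ : ∃ x, s (d g) = x := ⟨_, rfl⟩
    have hdx : d x = d g := by rw [← hx]; exact hs g
    refine ⟨x, Finset.mem_image.mpr ⟨d g, Finset.mem_univ _, hx⟩, ?_⟩
    have hdim : ∀ n k, Module.finrank F
        ↥(flag F c n ⊓ (flag F c k).map (Matrix.toLin' x.1)) =
        Module.finrank F ↥(flag F c n ⊓ (flag F c k).map (Matrix.toLin' g.1)) := by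
      intro n k
      have e1 : flag F c n = flag F c (min n r) := by
        rcases le_total n r with h | h
        · rw [min_eq_left h]
        · rw [min_eq_right h, htop n h, htop r le_rfl]
      have e2 : flag F c k = flag F c (min k r) := by
        rcases le_total k r with h | h
        · rw [min_eq_left h]
        · rw [min_eq_right h, htop k h, htop r le_rfl]
      rw [e1, e2]
      have h1 := congrFun hdx (⟨min n r, by omega⟩, ⟨min k r, by omega⟩)
      have h2 := congrArg Fin.val h1
      rw [hd, hd] at h2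
      exact h2
    obtain ⟨h, hdet, hA, hB⟩ := flags_conj r (flag F c)
      (fun k => (flag F c k).map (Matrix.toLin' x.1))
      (fun k => (flag F c k).map (Matrix.toLin' g.1)) hmono (hmapmono x) (hmapmono g) h0
      (hmap0 x) (hmap0 g) (htop r le_rfl) (hmaptop x r le_rfl) (hmaptop g r le_rfl) hdim
    obtain ⟨H, hH⟩ : ∃ H : Matrix.SpecialLinearGroup (Fin m) F,
        Matrix.toLin' H.1 = (h : (Fin m → F) →ₗ[F] (Fin m → F)) := by
      refine ⟨⟨LinearMap.toMatrix' (h : (Fin m → F) →ₗ[F] (Fin m → F)), ?_⟩, ?_⟩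
      · rw [LinearMap.det_toMatrix', hdet]
      · exact Matrix.toLin'_toMatrix' _
    have hHp : H ∈ par F c := by
      intro n
      rw [hH]
      exact hA n
    have hsub : x⁻¹ * H⁻¹ * g ∈ par F c := by
      intro n
      have h1 : (flag F c n).map (Matrix.toLin' g.1) =
          (flag F c n).map (Matrix.toLin' (H * x).1) := by
        rw [Matrix.SpecialLinearGroup.coe_mul, Matrix.toLin'_mul, Submodule.map_comp, hH]
        exact (hB n).symm
      change (flag F c n).map (Matrix.toLin' (x⁻¹ * H⁻¹ * g).1) = flag F c n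
      have h2 : x⁻¹ * H⁻¹ = (H * x)⁻¹ := (mul_inv_rev H x).symm
      rw [h2, Matrix.SpecialLinearGroup.coe_mul, Matrix.toLin'_mul, Submodule.map_comp, h1,
        ← Submodule.map_comp, ← Matrix.toLin'_mul, ← Matrix.SpecialLinearGroup.coe_mul,
        inv_mul_cancel, Matrix.SpecialLinearGroup.coe_one, Matrix.toLin'_one, Submodule.map_id]
    refine ⟨H, hHp, x⁻¹ * H⁻¹ * g, hsub, ?_⟩
    group

end MP0775d3.Ox
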