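import Pool.Agent.Lib.MP_0775d3_lc.Ox.GDefs
import Pool.Agent.Lib.MP_0775d3_lc.Ox.GPar
import Pool.Agent.Lib.MP_0775d3_lc.Ox.GNum
import Pool.Agent.Lib.MP_0775d3_lc.Ox.FacE

/-! Project OX: linear groups are in the class. -/

set_option linter.unusedSectionVars false
set_option linter.unusedVariables false

namespace MP0775d3.Ox

/-- PROOF. `R` the range of `φ` (index at most `b ≤ b ^ 2`: `Tame.index`). `card_sl_quot`, `lin_num k` (case `k = 0`: `Q` trivial); a balanced
colouring `c` (`a ↦ a % r`). `H` the image of `par F c` in `R`: at most `(m + 1) ^ ((r + 1) ^ 2) ≤ b` double cosets (`par_dc`),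
`Fac0 b H` (`par_fac0`, `Fac0.quot`), so `Fac0 b` of all `H ⊓ x H x⁻¹` (`Fac0.inj`), and these are in the class by
`fac_main k` with `G' = G` (`Fac0.fac`). Fourth case of the recursion. -/
theorem lin_tame (k : ℕ) : ∃ (L : ℕ) (B₀ : ℝ), 1 ≤ B₀ ∧ ∀ b : ℝ, B₀ ≤ b → ∀ (Q : Type) [Group Q]
    [Finite Q], IsLin b Q → (Nat.card Q : ℝ) ≤ b ^ k → Tame (b ^ 2) L Q := by
  classical
  rcases Nat.eq_zero_or_pos k with rfl | hk
  · refine ⟨0, 1, le_rfl, fun b hb Q _ _ _ hQ => ?_⟩
    change (Nat.card Q : ℝ) ≤ b ^ 2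
    rw [pow_zero] at hQ
    exact hQ.trans (one_le_pow₀ hb)
  obtain ⟨r, B₁, hr, hB₁, hnum⟩ := lin_num k hk
  obtain ⟨L, B₂, hB₂, hmain⟩ := fac_main k
  refine ⟨L + 2, max B₁ B₂, hB₁.trans (le_max_left _ _), fun b hb Q _ _ hQ hcard => ?_⟩
  have hb1 : (1 : ℝ) ≤ b := hB₁.trans ((le_max_left _ _).trans hb)
  have hb2 : b ≤ b ^ 2 := by
    rw [sq]
    exact le_mul_of_one_le_left (by linarith) hb1
  obtain ⟨F, i1, i2, m, φ, hφ, hidx⟩ := hQ
  have hq : 2 ≤ Fintype.card F := Fintype.one_lt_card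
  have hqm : ((Fintype.card F ^ (m * (m - 1) / 2) : ℕ) : ℝ) ≤ b ^ k := by
    refine le_trans ?_ hcard
    exact_mod_cast card_sl_quot φ hφ
  obtain ⟨h1, h2⟩ := hnum b ((le_max_left _ _).trans hb) _ m hq hqm
  obtain ⟨c, hc⟩ := MP0775d3.Sg.exists_colour m r hr
  have hfac := par_fac0 (F := F) c hc h2
  obtain ⟨X, hX1, hX2⟩ := par_dc (F := F) c
  have hSL : Finite (Matrix.SpecialLinearGroup (Fin m) F) := Subtype.finite
  obtain ⟨H, hH⟩ : ∃ H : Subgroup φ.range, H = (par F c).map φ.rangeRestrict := ⟨_, rfl⟩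
  have hHf : Fac0 b H := by
    rw [hH]
    exact Fac0.quot (φ.rangeRestrict.subgroupMap (par F c))
      (φ.rangeRestrict.subgroupMap_surjective (par F c)) hfac
  have hid : ∀ (K : Type) [Group K], ((MonoidHom.id K).range.index : ℝ) ≤ b := by
    intro K _
    rw [MonoidHom.range_eq_top.2 Function.surjective_id, Subgroup.index_top, Nat.cast_one]
    exact hb1
  have hT : Tame (b ^ 2) (L + 1) φ.range := by
    unfold Tame
    refine Or.inr (Or.inr (Or.inr ⟨H, ⟨X.image φ.rangeRestrict, ?_, ?_⟩, fun x => ?_⟩))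
    · have h3 : ((X.image φ.rangeRestrict).card : ℝ) ≤ (((m + 1) ^ ((r + 1) ^ 2) : ℕ) : ℝ) := by
        exact_mod_cast Finset.card_image_le.trans hX1
      exact (h3.trans h1).trans hb2
    · intro g
      obtain ⟨g₀, rfl⟩ := φ.rangeRestrict_surjective g
      obtain ⟨x, hx, h, hh, h', hh', hg⟩ := hX2 g₀
      refine ⟨φ.rangeRestrict x, Finset.mem_image_of_mem _ hx, φ.rangeRestrict h, ?_,
        φ.rangeRestrict h', ?_, ?_⟩
      · rw [hH]
        exact Subgroup.mem_map_of_mem _ hh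
      · rw [hH]
        exact Subgroup.mem_map_of_mem _ hh'
      · rw [← map_mul, ← map_mul, ← hg]
    · refine hmain b ((le_max_right _ _).trans hb) _
        (Fac0.inj (Subgroup.inclusion inf_le_left) (Subgroup.inclusion_injective _) hHf).fac _
        (MonoidHom.id _) Function.injective_id ?_ ?_
      · exact hid _
      · refine le_trans ?_ hcard
        have h3 := Subgroup.card_le_card_group (H ⊓ H.map (MulAut.conj x).toMonoidHom)
        have h4 := Subgroup.card_le_card_group φ.range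
        exact_mod_cast h3.trans h4
  have h5 := Tame.index φ.range.subtype (Subgroup.subtype_injective _) (b := b ^ 2) ?_ hT
  · exact h5
  · rw [Subgroup.range_subtype]
    exact hidx.trans hb2

end MP0775d3.Ox
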