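import Pool.Agent.Lib.MP_0775d3_lc.Ox.GExt
import Pool.Agent.Lib.MP_0775d3_lc.Ox.GTame

/-! Project OX: composition factors, with the linear groups. -/

set_option linter.unusedSectionVars false
set_option linter.unusedVariables false

namespace MP0775d3.Ox

private theorem gc_chain {b b' : ℝ} (hb : b ≤ b') {r : ℕ} {Q : Type} [Group Q]
    (h : Chain b r Q) : Chain b' r Q := by
  induction r generalizing Q with
  | zero => exact h
  | succ r ih =>
    obtain ⟨Y, hY, hC⟩ := h
    exact ⟨Y, hY.trans hb, ih hC⟩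

private theorem gc_card {G G' : Type} [Group G] [Group G'] [Finite G'] (ι : G →* G')
    (hι : Function.Injective ι) : Nat.card G * ι.range.index = Nat.card G' := by
  rw [Nat.card_congr (MonoidHom.ofInjective hι).toEquiv]
  exact ι.range.card_mul_index

private theorem gc_le {G G' : Type} [Group G] [Group G'] [Finite G'] (ι : G →* G')
    (hι : Function.Injective ι) : Nat.card G ≤ Nat.card G' :=
  Nat.card_le_card_of_injective ι hι

private theorem gc_zero {b : ℝ} {G : Type} [Group G] (h : (Nat.card G : ℝ) ≤ b) :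
    Tame b 0 G := h

private theorem gc_idx {b : ℝ} {l : ℕ} {G : Type} [Group G] (N : Subgroup G)
    (hi : (N.index : ℝ) ≤ b) (h : Tame b l N) : Tame b (l + 1) G := by
  unfold Tame
  exact Or.inr (Or.inl ⟨N, hi, h⟩)

private theorem gc_prime {b : ℝ} {l : ℕ} {G : Type} [Group G] (N : Subgroup G) (hN : N.Normal)
    (hi : N.index.Prime) (h : Tame b l N) : Tame b (l + 1) G := by
  unfold Tame
  exact Or.inr (Or.inr (Or.inl ⟨N, hN, hi, h⟩))

/-- PROOF. As `fac_main`, with `Tame.ext` in place of `Chain.tame` (`alt_chain` and `Chain.tame` with the trivial kernel give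
`Tame` of the alternating group; `Tame.congr`) and `lin_tame` for the linear type (`|Q| ≤ |G'| ≤ b ^ (k + 1)`). -/
theorem cls_main (k : ℕ) : ∃ (L : ℕ) (B₀ : ℝ), 1 ≤ B₀ ∧ ∀ b : ℝ, B₀ ≤ b → ∀ (G : Type) [Group G],
    Cls b G → ∀ (G' : Type) [Group G'] [Finite G'] (ι : G →* G'), Function.Injective ι →
      (ι.range.index : ℝ) ≤ b → (Nat.card G' : ℝ) ≤ b ^ k → Tame (b ^ 2) L G' := by
  induction k with
  | zero =>
    refine ⟨0, 1, le_refl _, fun b hb G _ _ G' _ _ ι _ _ hc => gc_zero ?_⟩
    rw [pow_zero] at hc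
    exact hc.trans (one_le_pow₀ hb)
  | succ k ihk =>
    obtain ⟨L, B₀, hB₀, hL⟩ := ihk
    obtain ⟨r, B₁, hB₁, hr⟩ := alt_chain (k + 1)
    obtain ⟨L₂, B₂, hB₂, hL₂⟩ := lin_tame (k + 1)
    refine ⟨L + r + L₂ + 2, max B₀ (max B₁ B₂), hB₀.trans (le_max_left _ _), ?_⟩
    intro b hb G _ hG
    have hb0 : B₀ ≤ b := (le_max_left _ _).trans hb
    have hb1 : B₁ ≤ b := (le_max_left _ _).trans ((le_max_right _ _).trans hb)
    have hb2 : B₂ ≤ b := (le_max_right _ _).trans ((le_max_right _ _).trans hb)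
    have hb' : 1 ≤ b := hB₀.trans hb0
    have hbb : b ≤ b ^ 2 := by nlinarith
    clear hb
    induction hG with
    | one G hs =>
      intro G' _ _ ι hι hi hc
      refine Tame.mono (Nat.zero_le _) (gc_zero ?_)
      have h1 := gc_card ι hι
      have h2 : Nat.card G = 1 := by
        have : Subsingleton G := hs
        exact Nat.card_unique
      rw [h2, one_mul] at h1
      rw [← h1]
      exact hi.trans hbb
    | ext G N hN hC hcase ih =>
      intro G' _ _ ι hι hi hc
      have hfG : Finite G := Finite.of_injective ι hι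
      by_cases hx : (((ι.comp N.subtype).range.index : ℕ) : ℝ) ≤ b
      · exact ih G' (ι.comp N.subtype) (hι.comp N.subtype_injective) hx hc
      · have h1 := gc_card (ι.comp N.subtype) (hι.comp N.subtype_injective)
        have h2 : (Nat.card N : ℝ) * ((ι.comp N.subtype).range.index : ℝ) = Nat.card G' := by
          exact_mod_cast h1
        have h3 : (Nat.card N : ℝ) ≤ b ^ k := by
          have h4 : (Nat.card N : ℝ) * b ≤ b ^ k * b := by
            calc (Nat.card N : ℝ) * b ≤ (Nat.card N : ℝ) * ((ι.comp N.subtype).range.index : ℝ) :=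
                  mul_le_mul_of_nonneg_left (not_le.1 hx).le (Nat.cast_nonneg _)
              _ = Nat.card G' := h2
              _ ≤ b ^ (k + 1) := hc
              _ = b ^ k * b := pow_succ b k
          exact le_of_mul_le_mul_right h4 (by linarith)
        have h5 : Tame (b ^ 2) L N := by
          refine hL b hb0 N hC N (MonoidHom.id N) Function.injective_id ?_ h3
          have h6 : (MonoidHom.id N).range = ⊤ := by
            rw [MonoidHom.range_eq_top]
            exact Function.surjective_id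
          rw [h6, Subgroup.index_top, Nat.cast_one]
          exact hb'
        have key : Tame (b ^ 2) (L + r + L₂ + 1) G := by
          rcases hcase with h | h | ⟨Q, _, φ, hφ, hk, h⟩
          · exact Tame.mono (by omega) (gc_idx N (h.trans hbb) h5)
          · exact Tame.mono (by omega) (gc_prime N hN h h5)
          · have hfQ : Finite Q := Finite.of_surjective φ hφ
            have h6 : Tame (b ^ 2) L φ.ker := by
              rw [hk]
              exact h5
            have h7 : (Nat.card Q : ℝ) ≤ b ^ (k + 1) := by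
              refine le_trans ?_ hc
              exact_mod_cast (Nat.card_le_card_of_surjective φ hφ).trans (gc_le ι hι)
            rcases h with ⟨m, ⟨e⟩⟩ | h
            · have h8 : Chain b r (alternatingGroup (Fin m)) := by
                refine hr b hb1 m ?_
                rw [← Nat.card_congr e.toEquiv]
                exact h7
              have h9 : Chain b r Q := Chain.inj e.toMonoidHom e.injective h8
              exact Tame.mono (by omega) (Chain.tame φ (gc_chain hbb h9) h6)
            · exact Tame.mono (by omega) (Tame.ext φ hφ h6 (hL₂ b hb2 Q h h7))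
        exact Tame.index ι hι (hi.trans hbb) key

/-- PROOF. As `fac_tame`. -/
theorem cls_tame (δ : ℝ) (hδ : 0 < δ) : ∃ (L n₀ : ℕ), ∀ (G : Type) [Group G] [Fintype G],
    n₀ ≤ Fintype.card G → Cls ((Fintype.card G : ℝ) ^ (δ / 2)) G →
      Tame ((Fintype.card G : ℝ) ^ δ) L G := by
  obtain ⟨L, B₀, hB₀, hL⟩ := cls_main ⌈2 / δ⌉₊
  refine ⟨L, ⌈B₀ ^ (2 / δ)⌉₊, fun G _ _ hn hG => ?_⟩
  have hB : (0 : ℝ) ≤ B₀ := by linarith
  have hn' : B₀ ^ (2 / δ) ≤ (Fintype.card G : ℝ) :=
    (Nat.le_ceil _).trans (by exact_mod_cast hn)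
  have hc1 : (1 : ℝ) ≤ (Fintype.card G : ℝ) := by
    exact_mod_cast Fintype.card_pos
  have hc0 : (0 : ℝ) ≤ (Fintype.card G : ℝ) := by linarith
  have hd : 2 / δ * (δ / 2) = 1 := by
    field_simp
  have h1 : B₀ ≤ (Fintype.card G : ℝ) ^ (δ / 2) := by
    calc B₀ = (B₀ ^ (2 / δ)) ^ (δ / 2) := by
          rw [← Real.rpow_mul hB, hd, Real.rpow_one]
      _ ≤ (Fintype.card G : ℝ) ^ (δ / 2) :=
        Real.rpow_le_rpow (Real.rpow_nonneg hB _) hn' (by positivity)
  have h2 : (Nat.card G : ℝ) ≤ ((Fintype.card G : ℝ) ^ (δ / 2)) ^ ⌈2 / δ⌉₊ := by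
    rw [← Real.rpow_natCast, ← Real.rpow_mul hc0, Nat.card_eq_fintype_card]
    calc (Fintype.card G : ℝ) = (Fintype.card G : ℝ) ^ (1 : ℝ) := (Real.rpow_one _).symm
      _ ≤ (Fintype.card G : ℝ) ^ (δ / 2 * (⌈2 / δ⌉₊ : ℝ)) := by
        refine Real.rpow_le_rpow_of_exponent_le hc1 ?_
        calc (1 : ℝ) = δ / 2 * (2 / δ) := by rw [mul_comm, hd]
          _ ≤ δ / 2 * (⌈2 / δ⌉₊ : ℝ) :=
            mul_le_mul_of_nonneg_left (Nat.le_ceil _) (by positivity)
  have h3 : (((MonoidHom.id G).range.index : ℕ) : ℝ) ≤ (Fintype.card G : ℝ) ^ (δ / 2) := by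
    have h6 : (MonoidHom.id G).range = ⊤ := by
      rw [MonoidHom.range_eq_top]
      exact Function.surjective_id
    rw [h6, Subgroup.index_top, Nat.cast_one]
    exact Real.one_le_rpow hc1 (by positivity)
  have h4 := hL _ h1 G hG G (MonoidHom.id G) Function.injective_id h3 h2
  have h5 : ((Fintype.card G : ℝ) ^ (δ / 2)) ^ 2 = (Fintype.card G : ℝ) ^ δ := by
    rw [← Real.rpow_natCast, ← Real.rpow_mul hc0]
    congr 1
    push_cast
    ring
  rwa [h5] at h4

private theorem gc_lin {b b' : ℝ} (hb : b ≤ b') {Q : Type} [Group Q] (h : IsLin b Q) :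
    IsLin b' Q := by
  obtain ⟨F, i1, i2, m, φ, h1, h2⟩ := h
  exact ⟨F, i1, i2, m, φ, h1, h2.trans hb⟩

theorem Cls.mono {b b' : ℝ} (hb : b ≤ b') {G : Type} [Group G] (h : Cls b G) : Cls b' G := by
  induction h with
  | one G hs => exact Cls.one G hs
  | ext G N hN hC hcase ih =>
    refine Cls.ext G N hN ih ?_
    rcases hcase with h | h | ⟨Q, i, φ, hφ, hk, h⟩
    · exact Or.inl (h.trans hb)
    · exact Or.inr (Or.inl h)
    · exact Or.inr (Or.inr ⟨Q, i, φ, hφ, hk, h.imp_right (gc_lin hb)⟩)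

theorem Fac.cls {b : ℝ} {G : Type} [Group G] (h : Fac b G) : Cls b G := by
  induction h with
  | one G hs => exact Cls.one G hs
  | ext G N hN hC hcase ih =>
    refine Cls.ext G N hN ih ?_
    rcases hcase with h | h | ⟨m, φ, hφ, hk⟩
    · exact Or.inl h
    · exact Or.inr (Or.inl h)
    · exact Or.inr (Or.inr ⟨alternatingGroup (Fin m), inferInstance, φ, hφ, hk,
        Or.inl ⟨m, ⟨MulEquiv.refl _⟩⟩⟩)

end MP0775d3.Ox
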