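import Pool.Agent.Lib.MP_0775d3_lc.Ox.Mass
import Pool.Agent.Lib.MP_0775d3_lc.Om.GroupLow

/-! Project OX: the mass in terms of the commuting probability; symmetric groups. -/

namespace MP0775d3.Ox

open Matrix MP0775d3.Om

theorem card_conj_perm (k : ℕ) : Nat.card (ConjClasses (Equiv.Perm (Fin k))) ≤ 2 ^ k := by
  classical
  have h1 : Nat.card (ConjClasses (Equiv.Perm (Fin k))) ≤
      Nat.card (Nat.Partition (Fintype.card (Fin k))) := by
    refine Nat.card_le_card_of_injective (fun c => (Quotient.out c).partition) ?_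
    intro c c' h
    have h2 := Equiv.Perm.partition_eq_of_isConj.2 h
    have h3 := ConjClasses.mk_eq_mk_iff_isConj.2 h2
    have h4 : ∀ c : ConjClasses (Equiv.Perm (Fin k)), ConjClasses.mk (Quotient.out c) = c :=
      fun c => Quotient.out_eq c
    rwa [h4, h4] at h3
  have h2 : Nat.card (Nat.Partition (Fintype.card (Fin k))) ≤
      Nat.card (Composition (Fintype.card (Fin k))) :=
    Nat.card_le_card_of_surjective _ Nat.Partition.ofComposition_surj
  rw [Nat.card_eq_fintype_card (α := Composition _), composition_card] at h2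
  have h3 : 2 ^ (Fintype.card (Fin k) - 1) ≤ 2 ^ k := by
    rw [Fintype.card_fin]
    exact Nat.pow_le_pow_right (by norm_num) (Nat.sub_le k 1)
  exact h1.trans (h2.trans h3)

/-- PROOF. `wedd`: at most `k = |ConjClasses G|` blocks; those with `d i < e`, `e ^ 2 = n / (2 k)`, have
`∑ d i ^ 2 ≤ k e ^ 2 = n / 2`. -/
theorem mass_commProb (G : Type) [Group G] [Finite G] :
    Mass G ((1 / (2 * (commProb G : ℝ))) ^ (1 / 2 : ℝ)) ((Nat.card G : ℝ) / 2) := by
  classical
  obtain ⟨n, d, _, hn, hsum, ⟨Φ⟩⟩ := wedd G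
  refine ⟨n, d, Φ, ?_⟩
  have hN0 : 0 < Nat.card G := Nat.card_pos
  have hk0 : 0 < Nat.card (ConjClasses G) := Nat.card_pos
  obtain ⟨N, hN⟩ : ∃ N : ℝ, N = (Nat.card G : ℝ) := ⟨_, rfl⟩
  obtain ⟨k, hk⟩ : ∃ k : ℝ, k = (Nat.card (ConjClasses G) : ℝ) := ⟨_, rfl⟩
  have hNpos : 0 < N := by rw [hN]; exact_mod_cast hN0
  have hkpos : 0 < k := by rw [hk]; exact_mod_cast hk0
  have hc : (commProb G : ℝ) = k / N := by
    rw [commProb_def', hk, hN]
    push_cast
    rfl
  have hc2 : 1 / (2 * (commProb G : ℝ)) = N / (2 * k) := by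
    rw [hc]
    field_simp
  have hpos : 0 < N / (2 * k) := by positivity
  obtain ⟨e, he⟩ : ∃ e : ℝ, e = (1 / (2 * (commProb G : ℝ))) ^ (1 / 2 : ℝ) := ⟨_, rfl⟩
  rw [← he, ← hN]
  have he0 : 0 ≤ e := by
    rw [he, hc2]
    exact Real.rpow_nonneg hpos.le _
  have he2 : e ^ 2 = N / (2 * k) := by
    rw [he, hc2, ← Real.rpow_natCast, ← Real.rpow_mul hpos.le]
    norm_num
  have hs1 : (∑ i, (d i : ℝ) ^ 2) = N := by
    rw [hN, ← hsum]
    push_cast
    exact Finset.sum_congr rfl fun i _ => by ring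
  have hs2 : (∑ i, (d i : ℝ) ^ 2) ≤
      (∑ i, if e ≤ (d i : ℝ) then (d i : ℝ) ^ 2 else 0) + n * e ^ 2 := by
    have h1 : ∀ i ∈ (Finset.univ : Finset (Fin n)), (d i : ℝ) ^ 2 ≤
        (if e ≤ (d i : ℝ) then (d i : ℝ) ^ 2 else 0) + e ^ 2 := by
      intro i _
      split_ifs with hi
      · have := sq_nonneg e
        linarith
      · rw [zero_add]
        have h2 : (d i : ℝ) ≤ e := (not_le.1 hi).le
        have h3 : (0 : ℝ) ≤ d i := Nat.cast_nonneg _
        nlinarith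
    refine (Finset.sum_le_sum h1).trans (le_of_eq ?_)
    rw [Finset.sum_add_distrib, Finset.sum_const, Finset.card_univ, Fintype.card_fin,
      nsmul_eq_mul]
  have hs3 : (n : ℝ) * e ^ 2 ≤ N / 2 := by
    have h1 : (n : ℝ) ≤ k := by
      rw [hk]
      exact_mod_cast hn
    rw [he2]
    calc (n : ℝ) * (N / (2 * k)) ≤ k * (N / (2 * k)) := mul_le_mul_of_nonneg_right h1 hpos.le
      _ = N / 2 := by field_simp
  rw [hs1] at hs2
  linarith

/-- PROOF. `mass_commProb`: `1 / (2 * commProb) ≥ k ! / 2 ^ (k + 1) ≥ (k !) ^ (1 / 2)` for large `k`. -/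
theorem mass_perm : ∃ k₀ : ℕ, ∀ k : ℕ, k₀ ≤ k → Mass (Equiv.Perm (Fin k))
    ((Fintype.card (Equiv.Perm (Fin k)) : ℝ) ^ (1 / 4 : ℝ))
    (1 / 4 * Fintype.card (Equiv.Perm (Fin k))) := by
  classical
  -- `4 ^ (k + 1) ≤ k !` for large `k`
  have h1 := FloorSemiring.tendsto_pow_div_factorial_atTop (4 : ℝ)
  obtain ⟨k₀, hk₀⟩ := Filter.eventually_atTop.1 (h1.eventually_le_const
    (by norm_num : (0 : ℝ) < 1 / 4))
  refine ⟨k₀, fun k hk => ?_⟩
  have h2 := hk₀ k hk
  have hf : (0 : ℝ) < (k.factorial : ℝ) := by exact_mod_cast k.factorial_pos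
  rw [div_le_iff₀ hf] at h2
  have hcard : Fintype.card (Equiv.Perm (Fin k)) = k.factorial := by
    rw [Fintype.card_perm, Fintype.card_fin]
  have hnc : Nat.card (Equiv.Perm (Fin k)) = k.factorial := by
    rw [Nat.card_eq_fintype_card, hcard]
  rw [hcard]
  have hm := mass_commProb (Equiv.Perm (Fin k))
  rw [hnc] at hm
  refine hm.mono ?_ ?_
  · have hc : (commProb (Equiv.Perm (Fin k)) : ℝ) ≤ 2 ^ k / k.factorial := by
      rw [commProb_def', hnc]
      push_cast
      exact div_le_div_of_nonneg_right (by exact_mod_cast card_conj_perm k) hf.le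
    have hc0 : (0 : ℝ) < (commProb (Equiv.Perm (Fin k)) : ℝ) := by
      exact_mod_cast commProb_pos _
    have h3 : ((k.factorial : ℝ)) ^ (1 / 2 : ℝ) ≤ 1 / (2 * (commProb (Equiv.Perm (Fin k)) : ℝ)) := by
      rw [le_div_iff₀ (by positivity)]
      have h4 : (2 : ℝ) * 2 ^ k ≤ (k.factorial : ℝ) ^ (1 / 2 : ℝ) := by
        have h5 : ((2 : ℝ) * 2 ^ k) ^ 2 ≤ k.factorial := by
          calc ((2 : ℝ) * 2 ^ k) ^ 2 = 4 * 4 ^ k := by
                rw [mul_pow, ← pow_mul, mul_comm k 2, pow_mul]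
                norm_num
            _ ≤ k.factorial := by linarith
        have h7 : (0 : ℝ) ≤ 2 * 2 ^ k := by positivity
        calc (2 : ℝ) * 2 ^ k = (((2 : ℝ) * 2 ^ k) ^ 2) ^ (1 / 2 : ℝ) := by
              rw [← Real.sqrt_eq_rpow, Real.sqrt_sq h7]
          _ ≤ (k.factorial : ℝ) ^ (1 / 2 : ℝ) :=
              Real.rpow_le_rpow (by positivity) h5 (by norm_num)
      have h6 : (k.factorial : ℝ) ^ (1 / 2 : ℝ) * (k.factorial : ℝ) ^ (1 / 2 : ℝ) =
          k.factorial := by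
        rw [← Real.rpow_add hf]
        norm_num
      calc (k.factorial : ℝ) ^ (1 / 2 : ℝ) * (2 * (commProb (Equiv.Perm (Fin k)) : ℝ))
          ≤ (k.factorial : ℝ) ^ (1 / 2 : ℝ) * (2 * (2 ^ k / k.factorial)) := by
            refine mul_le_mul_of_nonneg_left (by linarith) (Real.rpow_nonneg hf.le _)
        _ = (k.factorial : ℝ) ^ (1 / 2 : ℝ) * (2 * 2 ^ k) / k.factorial := by ring
        _ ≤ (k.factorial : ℝ) ^ (1 / 2 : ℝ) * (k.factorial : ℝ) ^ (1 / 2 : ℝ) / k.factorial := by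
            refine div_le_div_of_nonneg_right (mul_le_mul_of_nonneg_left h4
              (Real.rpow_nonneg hf.le _)) hf.le
        _ = 1 := by rw [h6, div_self hf.ne']
    calc (k.factorial : ℝ) ^ (1 / 4 : ℝ) = ((k.factorial : ℝ) ^ (1 / 2 : ℝ)) ^ (1 / 2 : ℝ) := by
          rw [← Real.rpow_mul hf.le]
          norm_num
      _ ≤ _ := Real.rpow_le_rpow (Real.rpow_nonneg hf.le _) h3 (by norm_num)
  · linarith

end MP0775d3.Ox
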