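import Pool.Agent.Lib.MP_0775d3_lc.Ox.SeqC
import Pool.Agent.Lib.MP_0775d3_lc.Ox.GCls
import Pool.Agent.Lib.MP_0775d3_lc.Ox.SymRig

/-! Project OX: corollaries. -/

set_option linter.unusedSectionVars false
set_option linter.unusedVariables false

namespace MP0775d3.Ox

open Matrix MP0775d3.Cf MP0775d3.Om MP0775d3.Sl2 MP0775d3.Kron

theorem allTame_of_cls (G : ℕ → Type) [∀ k, Group (G k)] [∀ k, Fintype (G k)]
    (hG : Filter.Tendsto (fun k => Fintype.card (G k)) Filter.atTop Filter.atTop)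
    (h : ∀ η : ℝ, 0 < η → ∃ k₀ : ℕ, ∀ k, k₀ ≤ k → Cls ((Fintype.card (G k) : ℝ) ^ η) (G k)) :
    AllTame G := by
  intro δ hδ
  obtain ⟨L, n₀, h1⟩ := cls_tame δ hδ
  obtain ⟨k₀, h2⟩ := h (δ / 2) (by positivity)
  obtain ⟨k₁, h3⟩ := Filter.eventually_atTop.1 (Filter.tendsto_atTop.1 hG n₀)
  refine ⟨L, max k₀ k₁, fun k hk => h1 (G k) (h3 k ((le_max_right _ _).trans hk))
    (h2 k ((le_max_left _ _).trans hk))⟩

theorem cls_solvable (b : ℝ) (G : Type) [Group G] [Finite G] [Group.IsSolvable G] : Cls b G :=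
  (fac_solvable b G).cls

theorem cls_perm (b : ℝ) (m : ℕ) : Cls b (Equiv.Perm (Fin m)) := (fac_perm b m).cls

theorem genRigid_perm : (SomeRigid fun k => Equiv.Perm (Fin k)) ↔ 2 < omega := by
  have hG : Filter.Tendsto (fun k => Fintype.card (Equiv.Perm (Fin k))) Filter.atTop
      Filter.atTop := by
    have h1 : (fun k => Fintype.card (Equiv.Perm (Fin k))) = Nat.factorial := by
      funext k
      rw [Fintype.card_perm, Fintype.card_fin]
    rw [h1]
    exact factorial_tendsto_atTop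
  have hT := allTame_of_cls (fun k => Equiv.Perm (Fin k)) hG
    (fun η _ => ⟨0, fun k _ => cls_perm _ k⟩)
  rw [(someRigid_iff _ hG hT).1]
  refine ⟨fun h => h.1, fun h => ⟨h, 1 / 4, by norm_num, mass_perm⟩⟩

end MP0775d3.Ox
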