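import Pool.Agent.Lib.MP_0775d3_lc.Ox.Defs

/-! Project OX: double cosets. -/

set_option linter.unusedSectionVars false
set_option linter.unusedVariables false

namespace MP0775d3.Ox

variable {G : Type} [Group G]

/-- The map `d ↦ x⁻¹ * d * x` from `H ⊓ x H x⁻¹` to `H`. -/
private def dceV (H : Subgroup G) (x : G) :
    ↥(H ⊓ H.map (MulAut.conj x).toMonoidHom) →* H where
  toFun d := ⟨x⁻¹ * d.1 * x, by
    obtain ⟨h, hh, he⟩ := Subgroup.mem_map.1 d.2.2
    have : d.1 = x * h * x⁻¹ := he.symm
    rw [this]
    have : x⁻¹ * (x * h * x⁻¹) * x = h := by group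
    rw [this]
    exact hh⟩
  map_one' := by
    ext
    simp
  map_mul' a b := by
    apply Subtype.ext
    change x⁻¹ * (a.1 * b.1) * x = (x⁻¹ * a.1 * x) * (x⁻¹ * b.1 * x)
    group

private theorem dceV_coe (H : Subgroup G) (x : G)
    (d : ↥(H ⊓ H.map (MulAut.conj x).toMonoidHom)) : (dceV H x d : G) = x⁻¹ * d.1 * x := rfl

private theorem dceV_inj (H : Subgroup G) (x : G) : Function.Injective (dceV H x) := by
  intro a b h
  have h1 := congrArg Subtype.val h
  rw [dceV_coe, dceV_coe] at h1
  exact Subtype.ext (mul_left_cancel (mul_right_cancel h1))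

private theorem dce_bij {D K : Type} [Group D] [Group K] (v : D →* K)
    (hv : Function.Injective v) :
    Function.Bijective fun p : D × (K ⧸ v.range) => v p.1 * (Quotient.out p.2)⁻¹ := by
  constructor
  · rintro ⟨d, q⟩ ⟨d', q'⟩ h
    simp only at h
    have h1 : (Quotient.out q : K) * v d⁻¹ = Quotient.out q' * v d'⁻¹ := by
      have := congrArg Inv.inv h
      rw [mul_inv_rev, mul_inv_rev, inv_inv, inv_inv, ← map_inv, ← map_inv] at this
      exact this
    have hq : q = q' := by
      rw [← Quotient.out_eq q, ← Quotient.out_eq q']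
      refine QuotientGroup.eq.2 ?_
      refine ⟨d⁻¹ * d', ?_⟩
      rw [map_mul, ← mul_left_cancel_iff (a := (Quotient.out q : K)), ← mul_assoc, h1]
      rw [mul_assoc, ← map_mul, inv_mul_cancel, map_one, mul_one, ← mul_assoc,
        mul_inv_cancel, one_mul]
    subst hq
    have h2 := hv (mul_left_cancel h1)
    rw [inv_inj.1 h2]
  · intro k
    obtain ⟨d, hd⟩ : (Quotient.out (QuotientGroup.mk k⁻¹ : K ⧸ v.range))⁻¹ * k⁻¹ ∈ v.range :=
      QuotientGroup.eq.1 (Quotient.out_eq _)
    refine ⟨(d⁻¹, (QuotientGroup.mk k⁻¹ : K ⧸ v.range)), ?_⟩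
    simp only
    rw [map_inv, hd]
    group

/-- PROOF. Let `X` be a set of representatives of the double cosets `H x H` (at most `|X₀|` of them, as every one meets
`X₀`; `DoubleCoset` in Mathlib, or the relation `∃ h h', y = h * x * h'`). `D x = H ⊓ x H x⁻¹`, `u x d = d`,
`v x d = x⁻¹ * d * x`. `R x`: right coset representatives of the image `V` of `v x` in `H`: `R x = H ⧸ V`,
`r x q = (Quotient.out q)⁻¹`. `bij'`: `g = h * x * h'`, `h' = v d * r ρ`, `h * x * v d * r ρ = (h * u d) * x * r ρ`;
injective: `h x r = h₁ x r₁` gives `h₁⁻¹ h = x r₁ r⁻¹ x⁻¹`, an element `d` of `D x`, and `v d * r = r₁`, so `ρ = ρ₁`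
and `d = 1`. -/
theorem exists_dc [Finite G] (H : Subgroup G) (X₀ : Finset G)
    (hX : ∀ g : G, ∃ x ∈ X₀, ∃ h ∈ H, ∃ h' ∈ H, g = h * x * h') :
    ∃ d : Dc H.subtype, Fintype.card d.X ≤ X₀.card ∧ ∀ y, ∃ x : G,
      Nonempty (d.D y ≃* ↥(H ⊓ H.map (MulAut.conj x).toMonoidHom)) := by
  classical
  let X := DoubleCoset.Quotient (H : Set G) (H : Set G)
  have : Finite X := inferInstanceAs (Finite (Quotient _))
  have : Fintype X := Fintype.ofFinite X
  let x : X → G := fun q => Quotient.out q
  have : ∀ q : X, Fintype (H ⧸ (dceV H (x q)).range) := fun q => Fintype.ofFinite _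
  have hmk : ∀ g : G, ∃ h ∈ H, ∃ h' ∈ H, g = h * x (DoubleCoset.mk H H g) * h' := by
    intro g
    exact (DoubleCoset.eq H H _ _).1 (DoubleCoset.out_eq' H H (DoubleCoset.mk H H g))
  let d : Dc H.subtype :=
    { X := X
      D := fun q => ↥(H ⊓ H.map (MulAut.conj (x q)).toMonoidHom)
      u := fun q => Subgroup.inclusion inf_le_left
      v := fun q => dceV H (x q)
      x := x
      R := fun q => H ⧸ (dceV H (x q)).range
      r := fun q ρ => (Quotient.out ρ)⁻¹
      comm := by
        intro q d
        change (d.1 : G) * x q = x q * ((x q)⁻¹ * d.1 * x q)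
        group
      bij := fun q => dce_bij (dceV H (x q)) (dceV_inj H (x q))
      bij' := by
        constructor
        · rintro ⟨q, h, ρ⟩ ⟨q', h', ρ'⟩ he
          have he' : (h : G) * x q * ((Quotient.out ρ : H)⁻¹ : H) =
              (h' : G) * x q' * ((Quotient.out ρ' : H)⁻¹ : H) := he
          have hq : q = q' := by
            have h1 : DoubleCoset.mk H H (x q) = DoubleCoset.mk H H (x q') := by
              refine (DoubleCoset.eq H H _ _).2 ⟨((h'⁻¹ * h : H) : G), (h'⁻¹ * h).2,
                (((Quotient.out ρ : H)⁻¹ * (Quotient.out ρ' : H) : H) : G), Subtype.coe_prop _, ?_⟩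
              have h2 : x q' = (h' : G)⁻¹ * ((h' : G) * x q' * ((Quotient.out ρ' : H)⁻¹ : H)) *
                  (Quotient.out ρ' : H) := by
                push_cast
                group
              refine h2.trans ?_
              rw [← he']
              push_cast
              group
            have h3 := DoubleCoset.out_eq' H H q
            have h4 := DoubleCoset.out_eq' H H q'
            rw [← h3, ← h4]
            exact h1
          subst hq
          have hd : (h' : G)⁻¹ * h ∈ H ⊓ H.map (MulAut.conj (x q)).toMonoidHom := by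
            refine ⟨(h'⁻¹ * h).2, Subgroup.mem_map.2
              ⟨(((Quotient.out ρ' : H)⁻¹ * (Quotient.out ρ : H) : H) : G), Subtype.coe_prop _, ?_⟩⟩
            change x q * _ * (x q)⁻¹ = _
            have h2 : (h : G) = (h' : G) * x q * ((Quotient.out ρ' : H)⁻¹ : H) *
                (Quotient.out ρ : H) * (x q)⁻¹ := by
              rw [← he']
              push_cast
              group
            rw [h2]
            push_cast
            group
          have hb := (dce_bij (dceV H (x q)) (dceV_inj H (x q))).1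
            (a₁ := (⟨_, hd⟩, ρ)) (a₂ := (1, ρ')) (by
              apply Subtype.ext
              simp only [map_one, one_mul]
              have h5 : ((dceV H (x q) ⟨_, hd⟩ * (Quotient.out ρ : H)⁻¹ : H) : G) =
                  (x q)⁻¹ * ((h' : G)⁻¹ * h) * x q * ((Quotient.out ρ : H)⁻¹ : H) := by
                rw [Subgroup.coe_mul, dceV_coe]
              rw [h5]
              have h6 : (x q)⁻¹ * ((h' : G)⁻¹ * h) * x q * ((Quotient.out ρ : H)⁻¹ : H) =
                  (x q)⁻¹ * (h' : G)⁻¹ * ((h : G) * x q * ((Quotient.out ρ : H)⁻¹ : H)) := by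
                group
              rw [h6, he']
              group)
          rw [Prod.mk.injEq] at hb
          obtain ⟨hb1, hb2⟩ := hb
          subst hb2
          have h7 : (h' : G)⁻¹ * h = 1 := congrArg Subtype.val hb1
          have h8 : h = h' := Subtype.ext (by
            have := congrArg (fun z => (h' : G) * z) h7
            simpa using this)
          rw [h8]
        · intro g
          obtain ⟨h, hh, h', hh', hg⟩ := hmk g
          obtain ⟨⟨d, ρ⟩, hd⟩ := (dce_bij (dceV H (x (DoubleCoset.mk H H g)))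
            (dceV_inj H (x (DoubleCoset.mk H H g)))).2 ⟨h', hh'⟩
          refine ⟨⟨DoubleCoset.mk H H g, ⟨h * d.1, H.mul_mem hh d.2.1⟩, ρ⟩, ?_⟩
          have hd' : (x (DoubleCoset.mk H H g))⁻¹ * d.1 * x (DoubleCoset.mk H H g) *
              ((Quotient.out ρ : H)⁻¹ : H) = h' := by
            have := congrArg Subtype.val hd
            simp only [Subgroup.coe_mul, dceV_coe] at this
            exact this
          change (h * d.1 : G) * x (DoubleCoset.mk H H g) * ((Quotient.out ρ : H)⁻¹ : H) = g
          have h9 : (h * d.1 : G) * x (DoubleCoset.mk H H g) * ((Quotient.out ρ : H)⁻¹ : H) =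
              h * x (DoubleCoset.mk H H g) * ((x (DoubleCoset.mk H H g))⁻¹ * d.1 *
                x (DoubleCoset.mk H H g) * ((Quotient.out ρ : H)⁻¹ : H)) := by
            group
          rw [h9, hd', ← hg]
      uinj := fun q => Subgroup.inclusion_injective _
      vinj := fun q => dceV_inj H (x q) }
  refine ⟨d, ?_, fun y => ⟨x y, ⟨MulEquiv.refl _⟩⟩⟩
  change Fintype.card X ≤ X₀.card
  have hs : Function.Surjective fun a : X₀ => (DoubleCoset.mk H H a.1 : X) := by
    intro q
    obtain ⟨a, ha, h, hh, h', hh', he⟩ := hX (x q)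
    refine ⟨⟨a, ha⟩, ?_⟩
    have h1 : DoubleCoset.mk H H a = DoubleCoset.mk H H (x q) :=
      (DoubleCoset.eq H H _ _).2 ⟨h, hh, h', hh', he⟩
    change DoubleCoset.mk H H a = q
    rw [h1]
    exact DoubleCoset.out_eq' H H q
  have := Fintype.card_le_of_surjective _ hs
  rwa [Fintype.card_coe] at this

end MP0775d3.Ox
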