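import Pool.Agent.Lib.MP_0775d3_lc.Ox.DcM

/-! Project OX: all double cosets. Numbers. -/

set_option linter.unusedSectionVars false
set_option linter.unusedVariables false

namespace MP0775d3.Ox

open Matrix MP0775d3.Cf

variable {G H : Type} [Group G] [Group H] {ι : H →* G} {S : Sys H} (d : Dc ι)
  (T : ∀ y, Sys (d.D y)) (bu : ∀ y, Br (d.u y) S (T y)) (bv : ∀ y, Br (d.v y) S (T y))

private theorem dck_le {D : Type} [Group D] {v : D →* H} {T : Sys D} (b : Br v S T) (i : S.I) :
    ∑ k, Fintype.card (b.M i k) ≤ Fintype.card (S.D i) := by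
  rw [← b.card i]
  refine Finset.sum_le_sum fun k _ => ?_
  exact Nat.le_mul_of_pos_left _ (Fintype.card_pos_iff.2 (T.ne k))

private theorem dck_y [Finite H] (y : d.X) :
    ∑ k, (∑ i, Fintype.card (S.D i) * Fintype.card ((bu y).M i k)) *
      (∑ j, Fintype.card (S.D j) * Fintype.card ((bv y).M j k)) =
      Nat.card H * Fintype.card (d.R y) := by
  have hf : Finite (d.D y) := Finite.of_injective _ (d.uinj y)
  have hD0 : 0 < Nat.card (d.D y) := Nat.card_pos
  have hH : Nat.card H = Nat.card (d.D y) * Fintype.card (d.R y) := by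
    rw [← Nat.card_eq_fintype_card (α := d.R y), ← Nat.card_prod]
    exact (Nat.card_congr (Equiv.ofBijective _ (d.bij y))).symm
  have hA : ∀ k, ∑ i, Fintype.card (S.D i) * Fintype.card ((bu y).M i k) =
      Fintype.card (d.R y) * Fintype.card ((T y).D k) := by
    intro k
    have h1 := (bu y).count (d.uinj y) k
    refine Nat.eq_of_mul_eq_mul_right hD0 ?_
    rw [h1, hH]
    ring
  have hB : ∀ k, ∑ j, Fintype.card (S.D j) * Fintype.card ((bv y).M j k) =
      Fintype.card (d.R y) * Fintype.card ((T y).D k) := by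
    intro k
    have h1 := (bv y).count (d.vinj y) k
    refine Nat.eq_of_mul_eq_mul_right hD0 ?_
    rw [h1, hH]
    ring
  have h2 : ∀ k, (∑ i, Fintype.card (S.D i) * Fintype.card ((bu y).M i k)) *
      (∑ j, Fintype.card (S.D j) * Fintype.card ((bv y).M j k)) =
      Fintype.card (d.R y) * Fintype.card (d.R y) *
        (Fintype.card ((T y).D k) * Fintype.card ((T y).D k)) := by
    intro k
    rw [hA, hB]
    ring
  rw [Finset.sum_congr rfl fun k _ => h2 k, ← Finset.mul_sum, (T y).sq, hH]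
  ring

/-- PROOF. `bij'`. -/
theorem dc_card [Finite G] : ∑ y, Nat.card H * Fintype.card (d.R y) = Nat.card G := by
  have h1 : Nat.card (Σ y, H × d.R y) = Nat.card G :=
    Nat.card_congr (Equiv.ofBijective _ d.bij')
  have hf : Finite (Σ y, H × d.R y) := Finite.of_injective _ d.bij'.1
  have hf' : ∀ y, Finite (H × d.R y) := fun y =>
    Finite.of_injective (fun q : H × d.R y => (⟨y, q⟩ : Σ y, H × d.R y)) fun p q h =>
      eq_of_heq (Sigma.mk.inj h).2
  rw [← h1, Nat.card_sigma]
  exact Finset.sum_congr rfl fun y _ => by rw [Nat.card_prod, Nat.card_eq_fintype_card (α := d.R y)]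

/-- PROOF. `∑ k, |M i k| * |M' j k| ≤ (∑ k, |M i k|) * (∑ k, |M' j k|) ≤ |S.D i| * |S.D j|` for each `y`
(`Br.card`, `Sys.ne`). -/
theorem dcK_card (z : S.I × S.I) : Fintype.card (DcK d T bu bv z) ≤
    Fintype.card d.X * (Fintype.card (S.D z.1) * Fintype.card (S.D z.2)) := by
  have h1 : Fintype.card (DcK d T bu bv z) =
      ∑ y, ∑ k, Fintype.card ((bu y).M z.1 k) * Fintype.card ((bv y).M z.2 k) := by
    rw [Fintype.card_sigma]
    refine Finset.sum_congr rfl fun y _ => ?_
    rw [Fintype.card_sigma]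
    exact Finset.sum_congr rfl fun k _ => Fintype.card_prod _ _
  rw [h1]
  have h2 : ∀ y, ∑ k, Fintype.card ((bu y).M z.1 k) * Fintype.card ((bv y).M z.2 k) ≤
      Fintype.card (S.D z.1) * Fintype.card (S.D z.2) := by
    intro y
    have h3 := dck_le (bu y) z.1
    have h4 := dck_le (bv y) z.2
    refine le_trans ?_ (Nat.mul_le_mul h3 h4)
    rw [Finset.mul_sum]
    refine Finset.sum_le_sum fun k _ => Nat.mul_le_mul_right _ ?_
    exact Finset.single_le_sum (f := fun k => Fintype.card ((bu y).M z.1 k))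
      (fun _ _ => Nat.zero_le _) (Finset.mem_univ k)
  refine (Finset.sum_le_sum fun y _ => h2 y).trans ?_
  rw [Finset.sum_const, smul_eq_mul, Finset.card_univ]

/-- PROOF. For each `y`, `∑ i j k, |D i| |D j| |M i k| |M' j k| = ∑ k, (∑ i, |D i| |M i k|) * (∑ j, |D j| |M' j k|)`; times
`|D y| ^ 2` it is `∑ k, |H| ^ 2 * |T.D k| ^ 2 = |H| ^ 2 * |D y|` (`Br.count` twice, `Sys.sq`), and
`|H| = |D y| * |R y|` (`bij`). `dc_card`. -/
theorem dcK_sum [Finite G] [Finite H] : ∑ z : S.I × S.I, Fintype.card (DcK d T bu bv z) *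
    (Fintype.card (S.D z.1) * Fintype.card (S.D z.2)) ≤ Nat.card G := by
  have h0 : ∀ z : S.I × S.I, Fintype.card (DcK d T bu bv z) =
      ∑ y, ∑ k, Fintype.card ((bu y).M z.1 k) * Fintype.card ((bv y).M z.2 k) := by
    intro z
    rw [Fintype.card_sigma]
    refine Finset.sum_congr rfl fun y _ => ?_
    rw [Fintype.card_sigma]
    exact Finset.sum_congr rfl fun k _ => Fintype.card_prod _ _
  have h1 : ∀ z : S.I × S.I, Fintype.card (DcK d T bu bv z) *
      (Fintype.card (S.D z.1) * Fintype.card (S.D z.2)) =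
      ∑ y, ∑ k, (Fintype.card (S.D z.1) * Fintype.card ((bu y).M z.1 k)) *
        (Fintype.card (S.D z.2) * Fintype.card ((bv y).M z.2 k)) := by
    intro z
    rw [h0, Finset.sum_mul]
    refine Finset.sum_congr rfl fun y _ => ?_
    rw [Finset.sum_mul]
    exact Finset.sum_congr rfl fun k _ => by ring
  rw [Finset.sum_congr rfl fun z _ => h1 z, Finset.sum_comm, ← dc_card d]
  refine (Finset.sum_congr rfl fun y _ => ?_).le
  rw [Finset.sum_comm, ← dck_y d T bu bv y]
  refine Finset.sum_congr rfl fun k _ => ?_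
  rw [Finset.sum_mul_sum, Fintype.sum_prod_type]

end MP0775d3.Ox
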