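import Pool.Agent.Lib.MP_0775d3_lc.Ox.SysR

/-! Project OX: the lemma of Schur. -/

set_option linter.unusedSectionVars false
set_option linter.unusedVariables false

namespace MP0775d3.Ox

open Matrix MP0775d3.Cf

variable {D : Type} [Group D]

private theorem schur_core [Fintype D] (T : Sys D) (j j' k : T.I) (X : T.D j → T.D j' → ℂ)
    (h : ∀ d c c', ∑ e, T.π j d c e * X e c' = ∑ e, X c e * T.π j' d e c') (a b : T.D k)
    (c : T.D j) (c' : T.D j') :
    ∑ e, (if (⟨j, (c, e)⟩ : Σ i, T.D i × T.D i) = ⟨k, (a, b)⟩ then (1 : ℂ) else 0) * X e c' =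
      ∑ e, X c e * (if (⟨j', (e, c')⟩ : Σ i, T.D i × T.D i) = ⟨k, (a, b)⟩ then (1 : ℂ) else 0) := by
  have h1 : ∑ d, T.F' d ⟨k, (a, b)⟩ * ∑ e, T.π j d c e * X e c' =
      ∑ d, T.F' d ⟨k, (a, b)⟩ * ∑ e, X c e * T.π j' d e c' :=
    Finset.sum_congr rfl fun d _ => by rw [h d c c']
  have h2 : ∑ d, T.F' d ⟨k, (a, b)⟩ * ∑ e, T.π j d c e * X e c' =
      ∑ e, (∑ d, T.F' d ⟨k, (a, b)⟩ * T.π j d c e) * X e c' := by
    simp only [Finset.mul_sum, Finset.sum_mul]
    rw [Finset.sum_comm]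
    exact Finset.sum_congr rfl fun e _ => Finset.sum_congr rfl fun d _ => by ring
  have h3 : ∑ d, T.F' d ⟨k, (a, b)⟩ * ∑ e, X c e * T.π j' d e c' =
      ∑ e, X c e * (∑ d, T.F' d ⟨k, (a, b)⟩ * T.π j' d e c') := by
    simp only [Finset.mul_sum]
    rw [Finset.sum_comm]
    exact Finset.sum_congr rfl fun e _ => Finset.sum_congr rfl fun d _ => by ring
  rw [h2, h3] at h1
  simp only [T.unit_apply] at h1
  exact h1

private theorem schur_off [Fintype D] (T : Sys D) {j j' : T.I} (hj : j ≠ j')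
    (X : T.D j → T.D j' → ℂ)
    (h : ∀ d c c', ∑ e, T.π j d c e * X e c' = ∑ e, X c e * T.π j' d e c') (b : T.D j)
    (c' : T.D j') : X b c' = 0 := by
  have h1 := schur_core T j j' j X h b b b c'
  rw [Finset.sum_eq_single b, if_pos rfl, one_mul] at h1
  · rw [h1]
    refine Finset.sum_eq_zero fun e _ => ?_
    rw [if_neg, mul_zero]
    intro h2
    exact hj (congrArg Sigma.fst h2).symm
  · intro e _ he
    rw [if_neg, zero_mul]
    intro h2
    have h3 := eq_of_heq (Sigma.mk.inj_iff.mp h2).2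
    exact he (congrArg Prod.snd h3)
  · intro hb
    exact absurd (Finset.mem_univ b) hb

private theorem schur_diag [Fintype D] (T : Sys D) {j : T.I}
    (X : T.D j → T.D j → ℂ)
    (h : ∀ d c c', ∑ e, T.π j d c e * X e c' = ∑ e, X c e * T.π j d e c') (a b c' : T.D j) :
    X b c' = if c' = b then X a a else 0 := by
  have h1 := schur_core T j j j X h a b a c'
  rw [Finset.sum_eq_single b, if_pos rfl, one_mul, Finset.sum_eq_single a] at h1
  · rw [h1]
    by_cases hc : c' = b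
    · subst hc
      rw [if_pos rfl, if_pos rfl, mul_one]
    · rw [if_neg hc, if_neg, mul_zero]
      intro h2
      have h3 := eq_of_heq (Sigma.mk.inj_iff.mp h2).2
      exact hc (congrArg Prod.snd h3)
  · intro e _ he
    rw [if_neg, mul_zero]
    intro h2
    have h3 := eq_of_heq (Sigma.mk.inj_iff.mp h2).2
    exact he (congrArg Prod.fst h3)
  · intro hb
    exact absurd (Finset.mem_univ a) hb
  · intro e _ he
    rw [if_neg, zero_mul]
    intro h2
    have h3 := eq_of_heq (Sigma.mk.inj_iff.mp h2).2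
    exact he (congrArg Prod.snd h3)
  · intro hb
    exact absurd (Finset.mem_univ b) hb

private theorem schur_left (T : Sys D) {M : T.I → Type} [∀ k, Fintype (M k)]
    [∀ k, DecidableEq (M k)] (V : (Σ k, T.D k × M k) → ℂ) (d : D) (j : T.I) (c : T.D j)
    (μ : M j) : ∑ w, T.rep M d ⟨j, (c, μ)⟩ w * V w = ∑ e, T.π j d c e * V ⟨j, (e, μ)⟩ := by
  rw [Fintype.sum_sigma, Finset.sum_eq_single j, Fintype.sum_prod_type]
  · refine Finset.sum_congr rfl fun e _ => ?_
    rw [Finset.sum_eq_single μ, T.rep_same, if_pos rfl]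
    · intro q _ hq
      rw [T.rep_same, if_neg (Ne.symm hq), zero_mul]
    · intro hb
      exact absurd (Finset.mem_univ μ) hb
  · intro i _ hi
    refine Finset.sum_eq_zero fun b _ => ?_
    rw [T.rep_ne M d (Ne.symm hi), zero_mul]
  · intro hb
    exact absurd (Finset.mem_univ j) hb

private theorem schur_right (T : Sys D) {M : T.I → Type} [∀ k, Fintype (M k)]
    [∀ k, DecidableEq (M k)] (V : (Σ k, T.D k × M k) → ℂ) (d : D) (j : T.I) (c : T.D j)
    (μ : M j) : ∑ w, V w * T.rep M d w ⟨j, (c, μ)⟩ = ∑ e, V ⟨j, (e, μ)⟩ * T.π j d e c := by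
  rw [Fintype.sum_sigma, Finset.sum_eq_single j, Fintype.sum_prod_type]
  · refine Finset.sum_congr rfl fun e _ => ?_
    rw [Finset.sum_eq_single μ, T.rep_same, if_pos rfl]
    · intro q _ hq
      rw [T.rep_same, if_neg hq, mul_zero]
    · intro hb
      exact absurd (Finset.mem_univ μ) hb
  · intro i _ hi
    refine Finset.sum_eq_zero fun b _ => ?_
    rw [T.rep_ne M d hi, mul_zero]
  · intro hb
    exact absurd (Finset.mem_univ j) hb

/-- PROOF. Multiply `hX d` by `T.F' d ⟨k, (a, b)⟩` and sum over `d` (`unit_apply`): with `E` the matrix unit `(a, b)` of the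
block `k`, `(E ⊗ 1) * X = X * (E ⊗ 1)`. Compare entries: `X ⟨k, (c, μ)⟩ ⟨k', (c', ν)⟩` vanishes if `k ≠ k'` or `c ≠ c'`
and does not depend on `c = c'`. -/
theorem schur [Finite D] (T : Sys D) {M N : T.I → Type} [∀ k, Fintype (M k)] [∀ k, Fintype (N k)]
    [∀ k, DecidableEq (M k)] [∀ k, DecidableEq (N k)]
    (X : Matrix (Σ k, T.D k × M k) (Σ k, T.D k × N k) ℂ)
    (hX : ∀ d, T.rep M d * X = X * T.rep N d) :
    ∃ Y : ∀ k, Matrix (M k) (N k) ℂ, (∀ k c μ ν, X ⟨k, (c, μ)⟩ ⟨k, (c, ν)⟩ = Y k μ ν) ∧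
      (∀ k c c' μ ν, c ≠ c' → X ⟨k, (c, μ)⟩ ⟨k, (c', ν)⟩ = 0) ∧
      ∀ k k' a b, k ≠ k' → X ⟨k, a⟩ ⟨k', b⟩ = 0 := by
  classical
  have := Fintype.ofFinite D
  have hE : ∀ j j' (μ : M j) (ν : N j') (d : D) (c : T.D j) (c' : T.D j'),
      ∑ e, T.π j d c e * X ⟨j, (e, μ)⟩ ⟨j', (c', ν)⟩ =
        ∑ e, X ⟨j, (c, μ)⟩ ⟨j', (e, ν)⟩ * T.π j' d e c' := by
    intro j j' μ ν d c c'
    have h1 := congrFun (congrFun (hX d) ⟨j, (c, μ)⟩) ⟨j', (c', ν)⟩
    rw [Matrix.mul_apply, Matrix.mul_apply] at h1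
    rw [← schur_left T (fun w => X w ⟨j', (c', ν)⟩) d j c μ,
      ← schur_right T (fun w => X ⟨j, (c, μ)⟩ w) d j' c' ν]
    exact h1
  refine ⟨fun k => Matrix.of fun μ ν => X ⟨k, (Classical.arbitrary (T.D k), μ)⟩
    ⟨k, (Classical.arbitrary (T.D k), ν)⟩, ?_, ?_, ?_⟩
  · intro k c μ ν
    have h1 := schur_diag T (fun a b => X ⟨k, (a, μ)⟩ ⟨k, (b, ν)⟩)
      (fun d c c' => hE k k μ ν d c c') (Classical.arbitrary (T.D k)) c c
    rw [if_pos rfl] at h1
    exact h1
  · intro k c c' μ ν hc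
    have h1 := schur_diag T (fun a b => X ⟨k, (a, μ)⟩ ⟨k, (b, ν)⟩)
      (fun d c c' => hE k k μ ν d c c') (Classical.arbitrary (T.D k)) c c'
    rw [if_neg (Ne.symm hc)] at h1
    exact h1
  · rintro k k' ⟨a, μ⟩ ⟨b, ν⟩ hk
    exact schur_off T hk (fun a b => X ⟨k, (a, μ)⟩ ⟨k', (b, ν)⟩)
      (fun d c c' => hE k k' μ ν d c c') a b

/-- PROOF. As `schur`, with one block: multiply by `T.F' d ⟨k, (a, b)⟩` and sum. -/
theorem schur_one [Finite D] (T : Sys D) (k : T.I) (X : Matrix (T.D k) (T.D k) ℂ)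
    (hX : ∀ d, T.π k d * X = X * T.π k d) : ∃ c : ℂ, X = c • 1 := by
  classical
  have := Fintype.ofFinite D
  refine ⟨X (Classical.arbitrary (T.D k)) (Classical.arbitrary (T.D k)), ?_⟩
  ext b c'
  have h1 := schur_diag T X (fun d c c' => by
    have h2 := congrFun (congrFun (hX d) c) c'
    rw [Matrix.mul_apply, Matrix.mul_apply] at h2
    exact h2) (Classical.arbitrary (T.D k)) b c'
  rw [h1, Matrix.smul_apply, Matrix.one_apply]
  by_cases hb : c' = b
  · rw [if_pos hb, if_pos hb.symm, smul_eq_mul, mul_one]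
  · rw [if_neg hb, if_neg (Ne.symm hb), smul_zero]

/-- PROOF. The same with two different blocks. -/
theorem schur_ne [Finite D] (T : Sys D) {k k' : T.I} (hk : k ≠ k') (X : Matrix (T.D k) (T.D k') ℂ)
    (hX : ∀ d, T.π k d * X = X * T.π k' d) : X = 0 := by
  classical
  have := Fintype.ofFinite D
  ext b c'
  exact schur_off T hk X (fun d c c' => by
    have h2 := congrFun (congrFun (hX d) c) c'
    rw [Matrix.mul_apply, Matrix.mul_apply] at h2
    exact h2) b c'

end MP0775d3.Ox
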