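import Pool.Agent.Lib.MP_0775d3_lc.Ox.AdaptC
import Pool.Agent.Lib.MP_0775d3_lc.Cf.CalcC

/-! Project OX: one double coset. The five layers. -/

set_option linter.unusedSectionVars false
set_option linter.unusedVariables false

namespace MP0775d3.Ox

open Matrix MP0775d3.Cf

variable {H D : Type} [Group H] [Group D] {S : Sys H} {T : Sys D} {u v : D →* H}
  (bu : Br u S T) (bv : Br v S T) {R : Type} [Fintype R] [DecidableEq R] (r : R → H)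
  (φ : ∀ k, (Σ i, S.D i × bu.M i k) → R × T.D k)

/-- The two-sided coordinates on a double coset. -/
abbrev WI : Type := Σ z : S.I × S.I, (S.D z.1 × S.D z.2) × (Σ k, bu.M z.1 k × bv.M z.2 k)

/-- The matrix of the two-sided coordinates of the functions on `H × R`. -/
def Wm : Matrix (WI bu bv) (H × R) ℂ := Matrix.of fun z q =>
  ∑ c : T.D z.2.2.1, (S.π z.1.1 q.1 * bu.B z.1.1) z.2.1.1 ⟨z.2.2.1, (c, z.2.2.2.1)⟩ *
    (bv.B' z.1.2 * S.π z.1.2 (r q.2)) ⟨z.2.2.1, (c, z.2.2.2.2)⟩ z.2.1.2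

/-- The Fourier transform of `H`. -/
def mA (S : Sys H) (R : Type) [DecidableEq R] : Matrix ((Σ i, S.D i × S.D i) × R) (H × R) ℂ :=
  Matrix.kroneckerMap (· * ·) S.F (1 : Matrix R R ℂ)

/-- The base change `bu.B`. -/
def mB : Matrix (Σ i, S.D i × ((Σ k, T.D k × bu.M i k) × R)) ((Σ i, S.D i × S.D i) × R) ℂ :=
  (Matrix.blockDiagonal' fun i => Matrix.kroneckerMap (· * ·) (bu.B i)ᵀ
    (1 : Matrix (S.D i × R) (S.D i × R) ℂ)).submatrix
    (fun p => ⟨p.1, (p.2.2.1, (p.2.1, p.2.2.2))⟩) (fun q => ⟨q.1.1, (q.1.2.2, (q.1.2.1, q.2))⟩)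

/-- The inverse Fourier transform of `D`. -/
noncomputable def mC : Matrix ((D × R) × R) (Σ i, S.D i × ((Σ k, T.D k × bu.M i k) × R)) ℂ :=
  (Matrix.kroneckerMap (· * ·) T.F' (1 : Matrix (R × R) (R × R) ℂ)).submatrix
    (fun p => (p.1.1, (p.1.2, p.2)))
    (fun q => (⟨q.2.2.1.1, ((φ q.2.2.1.1 ⟨q.1, (q.2.1, q.2.2.1.2.2)⟩).2, q.2.2.1.2.1)⟩,
      (q.2.2.2, (φ q.2.2.1.1 ⟨q.1, (q.2.1, q.2.2.1.2.2)⟩).1)))

/-- The Fourier transform of `H`, columns numbered by `D × R`. -/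
def mD (S : Sys H) (v : D →* H) (r : R → H) : Matrix ((Σ j, S.D j × S.D j) × R) ((D × R) × R) ℂ :=
  (Matrix.kroneckerMap (· * ·) S.F (1 : Matrix R R ℂ)).submatrix id
    (fun q => (v q.1.1 * r q.1.2, q.2))

/-- The base change `bv.B'`. -/
def mE : Matrix (Σ j, ((Σ k, T.D k × bv.M j k) × S.D j) × R) ((Σ j, S.D j × S.D j) × R) ℂ :=
  (Matrix.blockDiagonal' fun j => Matrix.kroneckerMap (· * ·) (bv.B' j)
    (1 : Matrix (S.D j × R) (S.D j × R) ℂ)).submatrix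
    (fun p => ⟨p.1, (p.2.1.1, (p.2.1.2, p.2.2))⟩) (fun q => ⟨q.1.1, (q.1.2.1, (q.1.2.2, q.2))⟩)

/-- The first two layers. -/
def mBA : Matrix (Σ i, S.D i × ((Σ k, T.D k × bu.M i k) × R)) (H × R) ℂ :=
  mB bu (R := R) * mA S R

/-- The last two layers. -/
def mED : Matrix (Σ j, ((Σ k, T.D k × bv.M j k) × S.D j) × R) ((D × R) × R) ℂ :=
  mE bv (R := R) * mD S v r

/-- The last three layers. -/
noncomputable def mEDC [Fintype D] : Matrix (Σ j, ((Σ k, T.D k × bv.M j k) × S.D j) × R)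
    (Σ i, S.D i × ((Σ k, T.D k × bu.M i k) × R)) ℂ :=
  mED bv r * mC bu φ

/-- The rows of the product which are used. -/
def wf (z : WI bu bv) : Σ j, ((Σ k, T.D k × bv.M j k) × S.D j) × R :=
  ⟨z.1.2, ((⟨z.2.2.1, ((φ z.2.2.1 ⟨z.1.1, (z.2.1.1, z.2.2.2.1)⟩).2, z.2.2.2.2)⟩, z.2.1.2),
    (φ z.2.2.1 ⟨z.1.1, (z.2.1.1, z.2.2.2.1)⟩).1)⟩

end MP0775d3.Ox
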