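import Pool.Agent.Lib.MP_0775d3_lc.Ox.Ts
import Pool.Agent.Lib.MP_0775d3_lc.Ox.Schur
import Pool.Agent.Lib.MP_0775d3_lc.Ox.WDefs

/-! Project OX: all double cosets. The coefficients. -/

set_option linter.unusedSectionVars false
set_option linter.unusedVariables false

namespace MP0775d3.Ox

open Matrix MP0775d3.Cf

variable {G H : Type} [Group G] [Group H] {ι : H →* G} {S : Sys H} (A : Ad ι S) (d : Dc ι)
  (T : ∀ y, Sys (d.D y)) (bu : ∀ y, Br (d.u y) S (T y)) (bv : ∀ y, Br (d.v y) S (T y))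

/-- The multiplicity index. -/
abbrev DcK (z : S.I × S.I) : Type := Σ y, Σ k, (bu y).M z.1 k × (bv y).M z.2 k

/-- The two-sided coordinates on `G`: on the double coset `y` those of `Wm`. -/
noncomputable def dcW : Matrix (Σ z : S.I × S.I, (S.D z.1 × S.D z.2) × DcK d T bu bv z) G ℂ :=
  Matrix.of fun z g => if z.2.2.1 = ((Equiv.ofBijective _ d.bij').symm g).1 then
    ∑ c : (T z.2.2.1).D z.2.2.2.1,
      (S.π z.1.1 ((Equiv.ofBijective _ d.bij').symm g).2.1 * (bu z.2.2.1).B z.1.1) z.2.1.1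
        ⟨z.2.2.2.1, (c, z.2.2.2.2.1)⟩ *
      ((bv z.2.2.1).B' z.1.2 * S.π z.1.2 (d.r _ ((Equiv.ofBijective _ d.bij').symm g).2.2))
        ⟨z.2.2.2.1, (c, z.2.2.2.2.2)⟩ z.2.1.2
    else 0

private theorem dcM_left {P : S.I → Type} [∀ k, Fintype (P k)] [∀ k, DecidableEq (P k)]
    (V : (Σ k, S.D k × P k) → ℂ) (h : H) (j : S.I) (c : S.D j) (μ : P j) :
    ∑ w, S.rep P h ⟨j, (c, μ)⟩ w * V w = ∑ e, S.π j h c e * V ⟨j, (e, μ)⟩ := by
  rw [Fintype.sum_sigma, Finset.sum_eq_single j, Fintype.sum_prod_type]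
  · refine Finset.sum_congr rfl fun e _ => ?_
    rw [Finset.sum_eq_single μ, S.rep_same, if_pos rfl]
    · intro q _ hq
      rw [S.rep_same, if_neg (Ne.symm hq), zero_mul]
    · intro hb
      exact absurd (Finset.mem_univ μ) hb
  · intro i _ hi
    refine Finset.sum_eq_zero fun b _ => ?_
    rw [S.rep_ne P h (Ne.symm hi), zero_mul]
  · intro hb
    exact absurd (Finset.mem_univ j) hb

private theorem dcM_right {P : S.I → Type} [∀ k, Fintype (P k)] [∀ k, DecidableEq (P k)]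
    (V : (Σ k, S.D k × P k) → ℂ) (h : H) (j : S.I) (c : S.D j) (μ : P j) :
    ∑ w, V w * S.rep P h w ⟨j, (c, μ)⟩ = ∑ e, V ⟨j, (e, μ)⟩ * S.π j h e c := by
  rw [Fintype.sum_sigma, Finset.sum_eq_single j, Fintype.sum_prod_type]
  · refine Finset.sum_congr rfl fun e _ => ?_
    rw [Finset.sum_eq_single μ, S.rep_same, if_pos rfl]
    · intro q _ hq
      rw [S.rep_same, if_neg hq, mul_zero]
    · intro hb
      exact absurd (Finset.mem_univ μ) hb
  · intro i _ hi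
    refine Finset.sum_eq_zero fun b _ => ?_
    rw [S.rep_ne P h hi, mul_zero]
  · intro hb
    exact absurd (Finset.mem_univ j) hb

/-- The block of a representation. -/
private noncomputable def dcMX (l : A.I) (g : G) {i j : S.I} (p : A.P l i) (q : A.P l j) :
    Matrix (S.D i) (S.D j) ℂ := Matrix.of fun a b => A.ρ l g ⟨i, (a, p)⟩ ⟨j, (b, q)⟩

private theorem dcMX_left (l : A.I) (h : H) (g : G) {i j : S.I} (p : A.P l i) (q : A.P l j) :
    dcMX A l (ι h * g) p q = S.π i h * dcMX A l g p q := by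
  ext a b
  rw [Matrix.mul_apply, dcMX, Matrix.of_apply, A.mul, A.res, Matrix.mul_apply]
  exact dcM_left (fun w => A.ρ l g w ⟨j, (b, q)⟩) h i a p

private theorem dcMX_right (l : A.I) (h : H) (g : G) {i j : S.I} (p : A.P l i) (q : A.P l j) :
    dcMX A l (g * ι h) p q = dcMX A l g p q * S.π j h := by
  ext a b
  rw [Matrix.mul_apply, dcMX, Matrix.of_apply, A.mul, A.res, Matrix.mul_apply]
  exact dcM_right (fun w => A.ρ l g ⟨i, (a, p)⟩ w) h j b q

/-- PROOF. Let `X = A.ρ l (d.x y)`. As `ι (u e) * x = x * ι (v e)`, the `D i × D j` matrix `X_pq` (entries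
`X ⟨i, (a, p)⟩ ⟨j, (b, q)⟩`) satisfies `S.π i (u e) * X_pq = X_pq * S.π j (v e)` (`A.res`, `A.mul`, entries of `rep`).
So `X' = bu.B' i * X_pq * bv.B j` satisfies `T.rep e * X' = X' * T.rep e` (`Br.eq`, `Br.eq'`), `schur` gives `Y`, and
`X_pq = bu.B i * X' * bv.B' j`. -/
theorem dc_coef [∀ y, Finite (d.D y)] (y : d.X) (l : A.I) (i j : S.I) (p : A.P l i) (q : A.P l j) :
    ∃ Y : ∀ k, Matrix ((bu y).M i k) ((bv y).M j k) ℂ, ∀ (a : S.D i) (b : S.D j),
      A.ρ l (d.x y) ⟨i, (a, p)⟩ ⟨j, (b, q)⟩ = ∑ k, ∑ μ, ∑ ν, Y k μ ν *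
        ∑ c, (bu y).B i a ⟨k, (c, μ)⟩ * (bv y).B' j ⟨k, (c, ν)⟩ b := by
  classical
  obtain ⟨X, hX⟩ : ∃ X, X = dcMX A l (d.x y) p q := ⟨_, rfl⟩
  have hc : ∀ e, S.π i (d.u y e) * X = X * S.π j (d.v y e) := by
    intro e
    rw [hX, ← dcMX_left, ← dcMX_right, d.comm]
  have hX' : ∀ e, (T y).rep ((bu y).M i) e * ((bu y).B' i * X * (bv y).B j) =
      (bu y).B' i * X * (bv y).B j * (T y).rep ((bv y).M j) e := by
    intro e
    calc (T y).rep ((bu y).M i) e * ((bu y).B' i * X * (bv y).B j)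
        = (T y).rep ((bu y).M i) e * (bu y).B' i * X * (bv y).B j := by
          simp only [Matrix.mul_assoc]
      _ = (bu y).B' i * (S.π i (d.u y e) * X) * (bv y).B j := by
          rw [← Br.eq', Matrix.mul_assoc ((bu y).B' i)]
      _ = (bu y).B' i * X * (S.π j (d.v y e) * (bv y).B j) := by
          rw [hc]
          simp only [Matrix.mul_assoc]
      _ = (bu y).B' i * X * (bv y).B j * (T y).rep ((bv y).M j) e := by
          rw [(bv y).eq]
          simp only [Matrix.mul_assoc]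
  obtain ⟨Y, h1, h2, h3⟩ := schur (T y) _ hX'
  obtain ⟨X', hX1⟩ : ∃ X', X' = (bu y).B' i * X * (bv y).B j := ⟨_, rfl⟩
  rw [← hX1] at h1 h2 h3
  have hXX : X = (bu y).B i * X' * (bv y).B' j := by
    rw [hX1]
    calc X = ((bu y).B i * (bu y).B' i) * X * ((bv y).B j * (bv y).B' j) := by
          rw [(bu y).inv, (bv y).inv, Matrix.one_mul, Matrix.mul_one]
      _ = (bu y).B i * ((bu y).B' i * X * (bv y).B j) * (bv y).B' j := by
          simp only [Matrix.mul_assoc]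
  refine ⟨Y, fun a b => ?_⟩
  have hab : A.ρ l (d.x y) ⟨i, (a, p)⟩ ⟨j, (b, q)⟩ = X a b := by
    rw [hX]
    rfl
  have hin : ∀ (k : (T y).I) (c : (T y).D k) (ν : (bv y).M j k),
      ((bu y).B i * X') a ⟨k, (c, ν)⟩ = ∑ μ, (bu y).B i a ⟨k, (c, μ)⟩ * Y k μ ν := by
    intro k c ν
    rw [Matrix.mul_apply, Fintype.sum_sigma, Finset.sum_eq_single k, Fintype.sum_prod_type,
      Finset.sum_eq_single c]
    · exact Finset.sum_congr rfl fun μ _ => by rw [h1]
    · intro c' _ hc'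
      exact Finset.sum_eq_zero fun μ _ => by rw [h2 _ _ _ _ _ hc', mul_zero]
    · intro h
      exact absurd (Finset.mem_univ _) h
    · intro k' _ hk'
      exact Finset.sum_eq_zero fun w _ => by rw [h3 _ _ _ _ hk', mul_zero]
    · intro h
      exact absurd (Finset.mem_univ _) h
  rw [hab, hXX, Matrix.mul_apply, Fintype.sum_sigma]
  refine Finset.sum_congr rfl fun k _ => ?_
  rw [Fintype.sum_prod_type]
  simp only [hin, Finset.mul_sum, Finset.sum_mul]
  rw [Finset.sum_comm]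
  rw [Finset.sum_comm (s := (Finset.univ : Finset ((bu y).M i k)))]
  refine Finset.sum_congr rfl fun ν _ => ?_
  rw [Finset.sum_comm]
  exact Finset.sum_congr rfl fun μ _ => Finset.sum_congr rfl fun c _ => by ring

/-- PROOF. `dc_coef` for all data, `Y z ⟨l, (p, q)⟩ ⟨y, ⟨k, (μ, ν)⟩⟩` the coefficient. For `g = ι h * x * ι (r ρ)`
(`Equiv.apply_symm_apply`) expand `A.ρ l g` by `A.mul`, `A.res`: the entry at `⟨i, (a, p)⟩ ⟨j, (b, q)⟩` is
`∑ a' b', S.π i h a a' * A.ρ l x ⟨i, (a', p)⟩ ⟨j, (b', q)⟩ * S.π j (r ρ) b' b`. -/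
theorem dc_two [∀ y, Finite (d.D y)] : ∃ Y : ∀ z : S.I × S.I,
    Matrix (Σ l, A.P l z.1 × A.P l z.2) (DcK d T bu bv z) ℂ, Two A (dcW d T bu bv) Y := by
  classical
  choose Y hY using fun (y : d.X) (l : A.I) (i j : S.I) (p : A.P l i) (q : A.P l j) =>
    dc_coef A d T bu bv y l i j p q
  have hX : ∀ (y : d.X) (l : A.I) (i j : S.I) (p : A.P l i) (q : A.P l j),
      dcMX A l (d.x y) p q = ∑ k, ∑ μ, ∑ ν, Y y l i j p q k μ ν • ∑ c,
        Matrix.vecMulVec (fun a => (bu y).B i a ⟨k, (c, μ)⟩) (fun b => (bv y).B' j ⟨k, (c, ν)⟩ b) := by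
    intro y l i j p q
    ext a b
    rw [dcMX, Matrix.of_apply, hY]
    simp only [Matrix.sum_apply, Matrix.smul_apply, Matrix.vecMulVec_apply, smul_eq_mul]
  have key : ∀ (y : d.X) (h r : H) (l : A.I) (i j : S.I) (p : A.P l i) (q : A.P l j) (a : S.D i)
      (b : S.D j), A.ρ l (ι h * d.x y * ι r) ⟨i, (a, p)⟩ ⟨j, (b, q)⟩ =
        ∑ k, ∑ μ, ∑ ν, Y y l i j p q k μ ν * ∑ c, (S.π i h * (bu y).B i) a ⟨k, (c, μ)⟩ *
          ((bv y).B' j * S.π j r) ⟨k, (c, ν)⟩ b := by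
    intro y h r l i j p q a b
    have h1 : A.ρ l (ι h * d.x y * ι r) ⟨i, (a, p)⟩ ⟨j, (b, q)⟩ =
        dcMX A l (ι h * d.x y * ι r) p q a b := rfl
    rw [h1, dcMX_right, dcMX_left, hX]
    simp only [Matrix.mul_sum, Matrix.sum_mul, Matrix.mul_smul, Matrix.smul_mul,
      Matrix.mul_vecMulVec, Matrix.vecMulVec_mul, Matrix.sum_apply, Matrix.smul_apply,
      Matrix.vecMulVec_apply, smul_eq_mul]
    rfl
  refine ⟨fun z => Matrix.of fun w κ =>
    Y κ.1 w.1 z.1 z.2 w.2.1 w.2.2 κ.2.1 κ.2.2.1 κ.2.2.2, ?_⟩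
  intro g l i a p j b q
  obtain ⟨t, ht⟩ : ∃ t, t = (Equiv.ofBijective _ d.bij').symm g := ⟨_, rfl⟩
  have hg : ι t.2.1 * d.x t.1 * ι (d.r t.1 t.2.2) = g := by
    have h1 := (Equiv.ofBijective _ d.bij').apply_symm_apply g
    rw [← ht] at h1
    exact h1
  have hW : ∀ κ, dcW d T bu bv ⟨(i, j), ((a, b), κ)⟩ g = if κ.1 = t.1 then
      ∑ c : (T κ.1).D κ.2.1, (S.π i t.2.1 * (bu κ.1).B i) a ⟨κ.2.1, (c, κ.2.2.1)⟩ *
        ((bv κ.1).B' j * S.π j (d.r _ t.2.2)) ⟨κ.2.1, (c, κ.2.2.2)⟩ b else 0 := by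
    intro κ
    rw [ht]
    rfl
  rw [← hg, key, hg]
  simp only [hW, Matrix.of_apply]
  rw [Fintype.sum_sigma, Finset.sum_eq_single t.1, Fintype.sum_sigma]
  · refine Finset.sum_congr rfl fun k _ => ?_
    rw [Fintype.sum_prod_type]
    refine Finset.sum_congr rfl fun μ _ => Finset.sum_congr rfl fun ν _ => ?_
    rw [if_pos rfl]
  · intro y _ hy
    refine Finset.sum_eq_zero fun κ _ => ?_
    rw [if_neg hy, mul_zero]
  · intro h
    exact absurd (Finset.mem_univ _) h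

end MP0775d3.Ox
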