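import Pool.Agent.Lib.MP_0775d3_lc.Ox.WDefs

/-! Project OX: one double coset. Two partial products. -/

set_option linter.unusedSectionVars false
set_option linter.unusedVariables false

namespace MP0775d3.Ox

open Matrix MP0775d3.Cf

variable {H D : Type} [Group H] [Group D] {S : Sys H} {T : Sys D} {u v : D →* H}
  (bu : Br u S T) (bv : Br v S T) {R : Type} [Fintype R] [DecidableEq R] (r : R → H)
  (φ : ∀ k, (Σ i, S.D i × bu.M i k) → R × T.D k)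

private theorem wb_B_same (i : S.I) (a a' a'' : S.D i) (z : Σ k, T.D k × bu.M i k) (ρ ρ' : R) :
    mB bu ⟨i, (a, (z, ρ))⟩ (⟨i, (a', a'')⟩, ρ') =
      if a = a' ∧ ρ = ρ' then bu.B i a'' z else 0 := by
  change (Matrix.blockDiagonal' fun i => Matrix.kroneckerMap (· * ·) (bu.B i)ᵀ
    (1 : Matrix (S.D i × R) (S.D i × R) ℂ)) ⟨i, (z, (a, ρ))⟩ ⟨i, (a'', (a', ρ'))⟩ = _
  rw [Matrix.blockDiagonal'_apply_eq]
  change bu.B i a'' z * (1 : Matrix (S.D i × R) (S.D i × R) ℂ) (a, ρ) (a', ρ') = _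
  rw [Matrix.one_apply, mul_ite, mul_one, mul_zero]
  simp only [Prod.mk.injEq]

private theorem wb_B_ne {i i' : S.I} (h : i ≠ i') (a : S.D i) (z : Σ k, T.D k × bu.M i k) (ρ : R)
    (b : S.D i' × S.D i') (ρ' : R) :
    mB bu ⟨i, (a, (z, ρ))⟩ (⟨i', b⟩, ρ') = 0 := by
  change (Matrix.blockDiagonal' fun i => Matrix.kroneckerMap (· * ·) (bu.B i)ᵀ
    (1 : Matrix (S.D i × R) (S.D i × R) ℂ)) ⟨i, (z, (a, ρ))⟩ ⟨i', (b.2, (b.1, ρ'))⟩ = _
  rw [Matrix.blockDiagonal'_apply_ne _ _ _ h]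

private theorem wb_E_same (j : S.I) (z : Σ k, T.D k × bv.M j k) (b a' b' : S.D j) (ρ ρ' : R) :
    mE bv ⟨j, ((z, b), ρ)⟩ (⟨j, (a', b')⟩, ρ') =
      if b = b' ∧ ρ = ρ' then bv.B' j z a' else 0 := by
  change (Matrix.blockDiagonal' fun j => Matrix.kroneckerMap (· * ·) (bv.B' j)
    (1 : Matrix (S.D j × R) (S.D j × R) ℂ)) ⟨j, (z, (b, ρ))⟩ ⟨j, (a', (b', ρ'))⟩ = _
  rw [Matrix.blockDiagonal'_apply_eq]
  change bv.B' j z a' * (1 : Matrix (S.D j × R) (S.D j × R) ℂ) (b, ρ) (b', ρ') = _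
  rw [Matrix.one_apply, mul_ite, mul_one, mul_zero]
  simp only [Prod.mk.injEq]

private theorem wb_E_ne {j j' : S.I} (h : j ≠ j') (z : Σ k, T.D k × bv.M j k) (b : S.D j) (ρ : R)
    (c : S.D j' × S.D j') (ρ' : R) :
    mE bv ⟨j, ((z, b), ρ)⟩ (⟨j', c⟩, ρ') = 0 := by
  change (Matrix.blockDiagonal' fun j => Matrix.kroneckerMap (· * ·) (bv.B' j)
    (1 : Matrix (S.D j × R) (S.D j × R) ℂ)) ⟨j, (z, (b, ρ))⟩ ⟨j', (c.1, (c.2, ρ'))⟩ = _
  rw [Matrix.blockDiagonal'_apply_ne _ _ _ h]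

/-- PROOF. Entries: `∑ a', bu.B i a' z * S.π i h a a'` if `ρ = ρ'`. -/
theorem mBA_apply (i : S.I) (a : S.D i) (z : Σ k, T.D k × bu.M i k) (ρ : R) (q : H × R) :
    mBA bu ⟨i, (a, (z, ρ))⟩ q = if ρ = q.2 then (S.π i q.1 * bu.B i) a z else 0 := by
  have hA : ∀ (a' a'' : S.D i) (ρ' : R), mA S R (⟨i, (a', a'')⟩, ρ') q =
      if ρ' = q.2 then S.π i q.1 a' a'' else 0 := by
    intro a' a'' ρ'
    change S.π i q.1 a' a'' * (1 : Matrix R R ℂ) ρ' q.2 = _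
    rw [Matrix.one_apply, mul_ite, mul_one, mul_zero]
  rw [mBA, Matrix.mul_apply, Fintype.sum_prod_type, Fintype.sum_sigma, Finset.sum_eq_single i]
  · rw [Fintype.sum_prod_type, Finset.sum_eq_single a]
    · have h1 : ∀ a'' : S.D i, ∑ ρ' : R, mB bu ⟨i, (a, (z, ρ))⟩ (⟨i, (a, a'')⟩, ρ') *
          mA S R (⟨i, (a, a'')⟩, ρ') q = if ρ = q.2 then S.π i q.1 a a'' * bu.B i a'' z else 0 := by
        intro a''
        rw [Finset.sum_eq_single ρ]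
        · rw [wb_B_same, if_pos ⟨rfl, rfl⟩, hA, mul_ite, mul_zero, mul_comm]
        · intro ρ' _ hρ
          rw [wb_B_same, if_neg fun h => hρ h.2.symm, zero_mul]
        · intro h
          exact absurd (Finset.mem_univ _) h
      rw [Finset.sum_congr rfl fun a'' _ => h1 a'']
      split_ifs with h
      · rw [Matrix.mul_apply]
      · exact Finset.sum_const_zero
    · intro a' _ ha'
      refine Finset.sum_eq_zero fun a'' _ => Finset.sum_eq_zero fun ρ' _ => ?_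
      rw [wb_B_same, if_neg fun h => ha' h.1.symm, zero_mul]
    · intro h
      exact absurd (Finset.mem_univ _) h
  · intro i' _ hi'
    refine Finset.sum_eq_zero fun b _ => Finset.sum_eq_zero fun ρ' _ => ?_
    rw [wb_B_ne bu hi'.symm, zero_mul]
  · intro h
    exact absurd (Finset.mem_univ _) h

/-- PROOF. Entries, as `mBA_apply`. -/
theorem mED_apply (j : S.I) (z : Σ k, T.D k × bv.M j k) (b : S.D j) (ρ : R) (q : (D × R) × R) :
    mED bv r ⟨j, ((z, b), ρ)⟩ q =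
      if ρ = q.2 then (bv.B' j * S.π j (v q.1.1 * r q.1.2)) z b else 0 := by
  have hA : ∀ (a' b' : S.D j) (ρ' : R), mD S v r (⟨j, (a', b')⟩, ρ') q =
      if ρ' = q.2 then S.π j (v q.1.1 * r q.1.2) a' b' else 0 := by
    intro a' b' ρ'
    change S.π j (v q.1.1 * r q.1.2) a' b' * (1 : Matrix R R ℂ) ρ' q.2 = _
    rw [Matrix.one_apply, mul_ite, mul_one, mul_zero]
  rw [mED, Matrix.mul_apply, Fintype.sum_prod_type, Fintype.sum_sigma, Finset.sum_eq_single j]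
  · rw [Fintype.sum_prod_type]
    have h1 : ∀ a' : S.D j, ∑ b' : S.D j, ∑ ρ' : R, mE bv ⟨j, ((z, b), ρ)⟩ (⟨j, (a', b')⟩, ρ') *
        mD S v r (⟨j, (a', b')⟩, ρ') q =
        if ρ = q.2 then bv.B' j z a' * S.π j (v q.1.1 * r q.1.2) a' b else 0 := by
      intro a'
      rw [Finset.sum_eq_single b]
      · rw [Finset.sum_eq_single ρ]
        · rw [wb_E_same, if_pos ⟨rfl, rfl⟩, hA, mul_ite, mul_zero]
        · intro ρ' _ hρ
          rw [wb_E_same, if_neg fun h => hρ h.2.symm, zero_mul]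
        · intro h
          exact absurd (Finset.mem_univ _) h
      · intro b' _ hb'
        refine Finset.sum_eq_zero fun ρ' _ => ?_
        rw [wb_E_same, if_neg fun h => hb' h.1.symm, zero_mul]
      · intro h
        exact absurd (Finset.mem_univ _) h
    rw [Finset.sum_congr rfl fun a' _ => h1 a']
    split_ifs with h
    · rw [Matrix.mul_apply]
    · exact Finset.sum_const_zero
  · intro i' _ hi'
    refine Finset.sum_eq_zero fun b _ => Finset.sum_eq_zero fun ρ' _ => ?_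
    rw [wb_E_ne bv hi'.symm, zero_mul]
  · intro h
    exact absurd (Finset.mem_univ _) h

/-- PROOF. `S.mul`, `Br.eq'`, entries of `rep`. -/
theorem br_mul (j : S.I) (k : T.I) (c : T.D k) (ν : bv.M j k) (b : S.D j) (d : D) (h : H) :
    (bv.B' j * S.π j (v d * h)) ⟨k, (c, ν)⟩ b =
      ∑ c', T.π k d c c' * (bv.B' j * S.π j h) ⟨k, (c', ν)⟩ b := by
  rw [S.mul, ← Matrix.mul_assoc, Br.eq', Matrix.mul_assoc, Matrix.mul_apply, Fintype.sum_sigma,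
    Finset.sum_eq_single k]
  · rw [Fintype.sum_prod_type]
    refine Finset.sum_congr rfl fun c' _ => ?_
    rw [Finset.sum_eq_single ν]
    · rw [Sys.rep, Matrix.blockDiagonal'_apply_eq]
      change T.π k d c c' * (1 : Matrix (bv.M j k) (bv.M j k) ℂ) ν ν * _ = _
      rw [Matrix.one_apply_eq, mul_one]
    · intro ν' _ hν
      rw [Sys.rep, Matrix.blockDiagonal'_apply_eq]
      change T.π k d c c' * (1 : Matrix (bv.M j k) (bv.M j k) ℂ) ν ν' * _ = _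
      rw [Matrix.one_apply_ne hν.symm, mul_zero, zero_mul]
    · intro h
      exact absurd (Finset.mem_univ _) h
  · intro k' _ hk'
    refine Finset.sum_eq_zero fun p _ => ?_
    rw [Sys.rep, Matrix.blockDiagonal'_apply_ne _ _ _ hk'.symm, zero_mul]
  · intro h
    exact absurd (Finset.mem_univ _) h

private theorem wb_gen [Fintype D] [DecidableEq D] (j : S.I) (k k₁ : T.I) (c₀ : T.D k)
    (c : T.D k₁) (ν : bv.M j k) (b : S.D j) (ρ₀ ρ : R) (i : S.I) (a : S.D i) (μ : bu.M i k₁) :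
    mEDC bu bv r φ ⟨j, ((⟨k, (c₀, ν)⟩, b), ρ₀)⟩ ⟨i, (a, (⟨k₁, (c, μ)⟩, ρ))⟩ =
      ∑ c' : T.D k, if ρ₀ = (φ k₁ ⟨i, (a, μ)⟩).1 then
        (if (⟨k, (c₀, c')⟩ : Σ i, T.D i × T.D i) = ⟨k₁, ((φ k₁ ⟨i, (a, μ)⟩).2, c)⟩ then
          (1 : ℂ) else 0) * (bv.B' j * S.π j (r ρ)) ⟨k, (c', ν)⟩ b else 0 := by
  obtain ⟨ρ₁, hρ₁⟩ : ∃ ρ₁, ρ₁ = (φ k₁ ⟨i, (a, μ)⟩).1 := ⟨_, rfl⟩
  obtain ⟨c₁, hc₁⟩ : ∃ c₁, c₁ = (φ k₁ ⟨i, (a, μ)⟩).2 := ⟨_, rfl⟩
  have hC : ∀ (d : D) (ρ' ρ'' : R), mC bu φ ((d, ρ'), ρ'') ⟨i, (a, (⟨k₁, (c, μ)⟩, ρ))⟩ =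
      if ρ' = ρ ∧ ρ'' = ρ₁ then T.F' d ⟨k₁, (c₁, c)⟩ else 0 := by
    intro d ρ' ρ''
    rw [hρ₁, hc₁]
    change T.F' d ⟨k₁, ((φ k₁ ⟨i, (a, μ)⟩).2, c)⟩ * (1 : Matrix (R × R) (R × R) ℂ) (ρ', ρ'')
      (ρ, (φ k₁ ⟨i, (a, μ)⟩).1) = _
    rw [Matrix.one_apply, mul_ite, mul_one, mul_zero]
    simp only [Prod.mk.injEq]
  rw [← hρ₁, ← hc₁, mEDC, Matrix.mul_apply, Fintype.sum_prod_type, Fintype.sum_prod_type]
  have h1 : ∀ d : D, ∑ ρ' : R, ∑ ρ'' : R, mED bv r ⟨j, ((⟨k, (c₀, ν)⟩, b), ρ₀)⟩ ((d, ρ'), ρ'') *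
      mC bu φ ((d, ρ'), ρ'') ⟨i, (a, (⟨k₁, (c, μ)⟩, ρ))⟩ =
      if ρ₀ = ρ₁ then ∑ c' : T.D k, (bv.B' j * S.π j (r ρ)) ⟨k, (c', ν)⟩ b *
        (T.F' d ⟨k₁, (c₁, c)⟩ * T.π k d c₀ c') else 0 := by
    intro d
    rw [Finset.sum_eq_single ρ]
    · rw [Finset.sum_eq_single ρ₁]
      · rw [hC, if_pos ⟨rfl, rfl⟩, mED_apply]
        split_ifs with h
        · rw [br_mul, Finset.sum_mul]
          refine Finset.sum_congr rfl fun c' _ => ?_
          ring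
        · rw [zero_mul]
      · intro ρ'' _ h
        rw [hC, if_neg fun h' => h h'.2, mul_zero]
      · intro h
        exact absurd (Finset.mem_univ _) h
    · intro ρ' _ h
      refine Finset.sum_eq_zero fun ρ'' _ => ?_
      rw [hC, if_neg fun h' => h h'.1, mul_zero]
    · intro h
      exact absurd (Finset.mem_univ _) h
  rw [Finset.sum_congr rfl fun d _ => h1 d]
  split_ifs with h
  · rw [Finset.sum_comm]
    refine Finset.sum_congr rfl fun c' _ => ?_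
    rw [← Finset.mul_sum, Sys.unit_apply, mul_comm]
  · rw [Finset.sum_const_zero, Finset.sum_const_zero]

/-- PROOF. `mED_apply`, `br_mul`, `Sys.unit_apply`: the sum over `d` of `T.π k d c₀ c' * T.F' d ⟨k₁, (c₁, c)⟩` is `1` if
`k = k₁`, `c₀ = c₁`, `c' = c`, else `0`, with `c₁ = (φ k₁ ⟨i, (a, μ)⟩).2`; the factor `1` of `mC` gives
`ρ₀ = (φ k₁ ⟨i, (a, μ)⟩).1`. -/
theorem mEDC_same [Fintype D] [DecidableEq D] (j : S.I) (k : T.I) (c₀ c : T.D k) (ν : bv.M j k)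
    (b : S.D j) (ρ₀ ρ : R) (i : S.I) (a : S.D i) (μ : bu.M i k) :
    mEDC bu bv r φ ⟨j, ((⟨k, (c₀, ν)⟩, b), ρ₀)⟩ ⟨i, (a, (⟨k, (c, μ)⟩, ρ))⟩ =
      if φ k ⟨i, (a, μ)⟩ = (ρ₀, c₀) then (bv.B' j * S.π j (r ρ)) ⟨k, (c, ν)⟩ b else 0 := by
  rw [wb_gen, Finset.sum_eq_single c]
  · by_cases h : φ k ⟨i, (a, μ)⟩ = (ρ₀, c₀)
    · have h1 : (φ k ⟨i, (a, μ)⟩).1 = ρ₀ := by rw [h]
      have h2 : (φ k ⟨i, (a, μ)⟩).2 = c₀ := by rw [h]
      rw [if_pos h, if_pos h1.symm, h2, if_pos rfl, one_mul]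
    · rw [if_neg h]
      by_cases h1 : ρ₀ = (φ k ⟨i, (a, μ)⟩).1
      · rw [if_pos h1, if_neg, zero_mul]
        intro h2
        apply h
        have h3 := congrArg Prod.fst (eq_of_heq (Sigma.mk.inj h2).2)
        exact Prod.ext h1.symm h3.symm
      · rw [if_neg h1]
  · intro c' _ hc'
    split_ifs with h1 h2
    · exact absurd (congrArg Prod.snd (eq_of_heq (Sigma.mk.inj h2).2)) hc'
    · rw [zero_mul]
    · rfl
  · intro h
    exact absurd (Finset.mem_univ _) h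

/-- PROOF. As `mEDC_same`: for `k ≠ k₁` the sum over `d` vanishes. -/
theorem mEDC_ne [Fintype D] [DecidableEq D] (j : S.I) {k k₁ : T.I} (hk : k ≠ k₁) (c₀ : T.D k)
    (c : T.D k₁) (ν : bv.M j k) (b : S.D j) (ρ₀ ρ : R) (i : S.I) (a : S.D i) (μ : bu.M i k₁) :
    mEDC bu bv r φ ⟨j, ((⟨k, (c₀, ν)⟩, b), ρ₀)⟩ ⟨i, (a, (⟨k₁, (c, μ)⟩, ρ))⟩ = 0 := by
  rw [wb_gen]
  refine Finset.sum_eq_zero fun c' _ => ?_
  split_ifs with h1 h2
  · exact absurd (Sigma.mk.inj h2).1 hk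
  · rw [zero_mul]
  · rfl

end MP0775d3.Ox
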