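import Pool.Agent.Lib.MP_0775d3_lc.Ox.WA
import Pool.Agent.Lib.MP_0775d3_lc.Ox.WB

/-! Project OX: one double coset. The two-sided coordinates are a box circuit. -/

set_option linter.unusedSectionVars false
set_option linter.unusedVariables false

namespace MP0775d3.Ox

open Matrix MP0775d3.Cf

variable {H D : Type} [Group H] [Group D] {S : Sys H} {T : Sys D} {u v : D →* H}
  (bu : Br u S T) (bv : Br v S T) {R : Type} [Fintype R] [DecidableEq R] (r : R → H)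
  (φ : ∀ k, (Σ i, S.D i × bu.M i k) → R × T.D k)

/-- PROOF. `(ρ, c)`, the middle index of `mEDC`, is `φ k ⟨i, (a, μ)⟩`, so that only `⟨i₁, (a₁, μ₁)⟩ = ⟨i, (a, μ)⟩`
(`hφ`) and `k₁ = k` contribute to the sum over `⟨i₁, (a₁, (⟨k₁, (c, μ₁)⟩, ρ))⟩`; `mBA_apply`. -/
theorem wm_eq [Fintype D] [DecidableEq D] (hφ : ∀ k, Function.Injective (φ k)) :
    Wm bu bv r = (mEDC bu bv r φ * mBA bu (R := R)).submatrix (wf bu bv φ) id := by
  ext z q
  obtain ⟨⟨i, j⟩, ⟨a, b⟩, ⟨k, μ, ν⟩⟩ := z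
  rw [submatrix_apply, Matrix.mul_apply]
  let e : T.D k → (Σ i, S.D i × ((Σ k, T.D k × bu.M i k) × R)) :=
    fun c => ⟨i, (a, (⟨k, (c, μ)⟩, q.2))⟩
  refine Fintype.sum_of_injective e ?_ _ _ ?_ ?_
  · intro c c' h
    have h1 := eq_of_heq (Sigma.mk.inj h).2
    have h2 := (Prod.mk.inj (Prod.mk.inj h1).2).1
    have h3 := eq_of_heq (Sigma.mk.inj h2).2
    exact (Prod.mk.inj h3).1
  · rintro ⟨i₁, a₁, ⟨k₁, c₁, μ₁⟩, ρ₁⟩ hw
    by_cases hρ : ρ₁ = q.2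
    · by_cases hk : k = k₁
      · subst hk
        change mEDC bu bv r φ ⟨j, ((⟨k, ((φ k ⟨i, (a, μ)⟩).2, ν)⟩, b), (φ k ⟨i, (a, μ)⟩).1)⟩
          ⟨i₁, (a₁, (⟨k, (c₁, μ₁)⟩, ρ₁))⟩ * _ = 0
        rw [mEDC_same, if_neg, zero_mul]
        intro h
        have h1 := hφ k h
        have h2 : i₁ = i := (Sigma.mk.inj h1).1
        subst h2
        have h3 := Prod.mk.inj (eq_of_heq (Sigma.mk.inj h1).2)
        rw [h3.1, h3.2, hρ] at hw
        exact hw ⟨c₁, rfl⟩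
      · change mEDC bu bv r φ ⟨j, ((⟨k, ((φ k ⟨i, (a, μ)⟩).2, ν)⟩, b), (φ k ⟨i, (a, μ)⟩).1)⟩
          ⟨i₁, (a₁, (⟨k₁, (c₁, μ₁)⟩, ρ₁))⟩ * _ = 0
        rw [mEDC_ne bu bv r φ j hk, zero_mul]
    · have h9 := mBA_apply bu (R := R) i₁ a₁ ⟨k₁, (c₁, μ₁)⟩ ρ₁ q
      rw [if_neg hρ] at h9
      change _ * mBA bu (R := R) ⟨i₁, (a₁, (⟨k₁, (c₁, μ₁)⟩, ρ₁))⟩ q = 0
      rw [h9, mul_zero]
  · intro c
    change _ = mEDC bu bv r φ ⟨j, ((⟨k, ((φ k ⟨i, (a, μ)⟩).2, ν)⟩, b), (φ k ⟨i, (a, μ)⟩).1)⟩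
      ⟨i, (a, (⟨k, (c, μ)⟩, q.2))⟩ * mBA bu (R := R) ⟨i, (a, (⟨k, (c, μ)⟩, q.2))⟩ q
    rw [mEDC_same, if_pos rfl, mBA_apply, if_pos rfl, mul_comm]

/-- PROOF. `⟨j, ν⟩`, `b`, `k` are read off, then `⟨i, (a, μ)⟩` by `hφ`. -/
theorem wf_inj (hφ : ∀ k, Function.Injective (φ k)) : Function.Injective (wf bu bv φ) := by
  rintro ⟨⟨i, j⟩, ⟨a, b⟩, ⟨k, μ, ν⟩⟩ ⟨⟨i', j'⟩, ⟨a', b'⟩, ⟨k', μ', ν'⟩⟩ h
  change (⟨j, ((⟨k, ((φ k ⟨i, (a, μ)⟩).2, ν)⟩, b), (φ k ⟨i, (a, μ)⟩).1)⟩ :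
    Σ j, ((Σ k, T.D k × bv.M j k) × S.D j) × R) =
    ⟨j', ((⟨k', ((φ k' ⟨i', (a', μ')⟩).2, ν')⟩, b'), (φ k' ⟨i', (a', μ')⟩).1)⟩ at h
  obtain ⟨hj, h1⟩ := Sigma.mk.inj h
  subst hj
  obtain ⟨h2, h3⟩ := Prod.mk.inj (eq_of_heq h1)
  obtain ⟨h4, hb⟩ := Prod.mk.inj h2
  obtain ⟨hk, h5⟩ := Sigma.mk.inj h4
  subst hk
  obtain ⟨h6, hν⟩ := Prod.mk.inj (eq_of_heq h5)
  have h7 := hφ k (Prod.ext h3 h6)
  obtain ⟨hi, h8⟩ := Sigma.mk.inj h7
  subst hi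
  obtain ⟨ha, hμ⟩ := Prod.mk.inj (eq_of_heq h8)
  subst hb
  subst hν
  subst ha
  subst hμ
  rfl

/-- PROOF. The cardinalities: `∑ i, |S.D i| * |bu.M i k| = |H| / |D| * |T.D k| = |R| * |T.D k|` (`Br.count`, `hr`). -/
theorem exists_phi [Finite H] (hu : Function.Injective u)
    (hr : Function.Bijective fun p : D × R => v p.1 * r p.2) :
    ∃ φ : ∀ k, (Σ i, S.D i × bu.M i k) → R × T.D k, ∀ k, Function.Injective (φ k) := by
  have hD : Finite D := Finite.of_injective u hu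
  have h0 : 0 < Nat.card D := Nat.card_pos
  have h1 : Nat.card H = Nat.card D * Fintype.card R := by
    rw [← Nat.card_congr (Equiv.ofBijective _ hr), Nat.card_prod, Nat.card_eq_fintype_card (α := R)]
  have h2 : ∀ k, Nonempty ((Σ i, S.D i × bu.M i k) ↪ R × T.D k) := by
    intro k
    refine Function.Embedding.nonempty_of_card_le (le_of_eq ?_)
    have h3 := bu.count hu k
    rw [h1, mul_comm, mul_assoc] at h3
    have h4 := Nat.eq_of_mul_eq_mul_left h0 h3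
    rw [Fintype.card_sigma, Fintype.card_prod, ← h4]
    exact Finset.sum_congr rfl fun i _ => Fintype.card_prod _ _
  exact ⟨fun k => (h2 k).some, fun k => (h2 k).some.injective⟩

/-- PROOF. `exists_phi`, `wm_eq`, `Bx.mul` four times, `Bx.submatrix`; all widths are at most
`K * (|H| * |R|)` as `|D| * |R| = |H|`. Depth: `t₀ + t + 1` (E, D), `+ t' + 1` (C), `+ (t₀ + t + 1) + 1` (B, A). -/
theorem w_bx [Finite H] {K b N s : ℝ} {t t' t₀ : ℕ} (hK : 1 ≤ K) (hb : 1 ≤ b) (hs : 1 ≤ s)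
    (ht : 1 ≤ t) (ht' : 1 ≤ t') (hMM : MM K b N s t₀)
    (hN : (Nat.card H * Fintype.card R : ℝ) ≤ N) (hu : Function.Injective u)
    (hr : Function.Bijective fun p : D × R => v p.1 * r p.2)
    (hF : Bx (K * Nat.card H) s t S.F) (hF' : Bx (K * Nat.card D) s t' T.F) :
    Bx (K * (Nat.card H * Fintype.card R)) s (2 * t₀ + 2 * t + t' + 4) (Wm bu bv r) := by
  classical
  have hD : Finite D := Finite.of_injective u hu
  have _ : Fintype D := Fintype.ofFinite D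
  obtain ⟨⟨d, ρ⟩, -⟩ := hr.2 1
  have hR : Nonempty R := ⟨ρ⟩
  obtain ⟨φ, hφ⟩ := exists_phi bu (v := v) r hu hr
  have h1 : (Nat.card H : ℝ) = Nat.card D * Fintype.card R := by
    rw [← Nat.card_congr (Equiv.ofBijective _ hr), Nat.card_prod, Nat.card_eq_fintype_card (α := R)]
    push_cast
    ring
  have eA : (Fintype.card R : ℝ) * (K * Nat.card H) = K * (Nat.card H * Fintype.card R) := by ring
  have eC : (Fintype.card R : ℝ) * Fintype.card R * (K * Nat.card D) =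
      K * (Nat.card H * Fintype.card R) := by
    rw [h1]
    ring
  have hA := mA_bx (S := S) (R := R) ht hF
  rw [eA] at hA
  have hB := mB_bx bu (R := R) hK hb hMM hN
  have hC := mC_bx bu φ hφ ht' hF'
  rw [eC] at hC
  have hD' := mD_bx (S := S) (v := v) r hr.1 ht hF
  rw [eA] at hD'
  have hE := mE_bx bv (R := R) hK hb hMM hN
  have hBA : Bx (K * (Nat.card H * Fintype.card R)) s (t₀ + t + 1) (mBA bu (R := R)) :=
    hB.mul hA hs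
  have hED : Bx (K * (Nat.card H * Fintype.card R)) s (t₀ + t + 1) (mED bv r) := hE.mul hD' hs
  have hEDC : Bx (K * (Nat.card H * Fintype.card R)) s (t₀ + t + 1 + t' + 1)
      (mEDC bu bv r φ) := hED.mul hC hs
  have h2 := (hEDC.mul hBA hs).submatrix (wf_inj bu bv φ hφ) Function.injective_id
  rw [← wm_eq bu bv r φ hφ] at h2
  have h3 : t₀ + t + 1 + t' + 1 + (t₀ + t + 1) + 1 = 2 * t₀ + 2 * t + t' + 4 := by ring
  rw [h3] at h2
  exact h2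

end MP0775d3.Ox
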