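import Pool.Agent.Lib.MP_0775d3_lc.Ox.DcK
import Pool.Agent.Lib.MP_0775d3_lc.Ox.WD

/-! Project OX: all double cosets. Numbers and the circuit. -/

set_option linter.unusedSectionVars false
set_option linter.unusedVariables false

namespace MP0775d3.Ox

open Matrix MP0775d3.Cf

variable {G H : Type} [Group G] [Group H] {ι : H →* G} {S : Sys H} (d : Dc ι)
  (T : ∀ y, Sys (d.D y)) (bu : ∀ y, Br (d.u y) S (T y)) (bv : ∀ y, Br (d.v y) S (T y))

/-- The rows of the block diagonal matrix. -/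
private def dcnF (z : Σ z : S.I × S.I, (S.D z.1 × S.D z.2) × DcK d T bu bv z) :
    Σ y, WI (bu y) (bv y) := ⟨z.2.2.1, ⟨z.1, (z.2.1, z.2.2.2)⟩⟩

private theorem dcnF_inj : Function.Injective (dcnF d T bu bv) :=
  Function.LeftInverse.injective
    (g := fun p => (⟨p.2.1, (p.2.2.1, ⟨p.1, p.2.2.2⟩)⟩ :
      Σ z : S.I × S.I, (S.D z.1 × S.D z.2) × DcK d T bu bv z)) fun _ => rfl

/-- PROOF. The rows of `dcW` are a disjoint union over `y` of the `WI (bu y) (bv y)`; on the columns of the double coset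
`y` the matrix is `Wm (bu y) (bv y) (d.r y)`, between different `y` it is zero: `bx_sigma` (of the `Wm`, `w_bx` in
`h`), `Bx.submatrix` along `⟨z, (ab, ⟨y, κ⟩)⟩ ↦ ⟨y, ⟨z, (ab, κ)⟩⟩` and `g ↦ (Equiv.ofBijective _ d.bij').symm g`;
`dc_card`. -/
theorem dcW_bx [Finite G] {K s : ℝ} {t : ℕ} (hK : 0 ≤ K)
    (h : ∀ y, Bx (K * (Nat.card H * Fintype.card (d.R y))) s t (Wm (bu y) (bv y) (d.r y))) :
    Bx (K * Nat.card G) s t (dcW d T bu bv) := by
  have h1 := bx_sigma h
  have h2 : ∑ y, K * (Nat.card H * Fintype.card (d.R y) : ℝ) = K * Nat.card G := by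
    rw [← Finset.mul_sum, ← dc_card d]
    push_cast
    rfl
  rw [h2] at h1
  have h3 : dcW d T bu bv =
      (Matrix.blockDiagonal' fun y => Wm (bu y) (bv y) (d.r y)).submatrix (dcnF d T bu bv)
        (Equiv.ofBijective _ d.bij').symm := by
    ext z g
    obtain ⟨z, ab, y, κ⟩ := z
    rw [Matrix.submatrix_apply]
    unfold dcW
    rw [Matrix.of_apply]
    generalize (Equiv.ofBijective _ d.bij').symm g = q
    obtain ⟨y', h', ρ⟩ := q
    change _ = Matrix.blockDiagonal' (fun y => Wm (bu y) (bv y) (d.r y)) ⟨y, ⟨z, (ab, κ)⟩⟩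
      ⟨y', (h', ρ)⟩
    by_cases hy : y = y'
    · subst hy
      rw [Matrix.blockDiagonal'_apply_eq, if_pos rfl]
      rfl
    · rw [Matrix.blockDiagonal'_apply_ne _ _ _ hy]
      exact if_neg hy
  rw [h3]
  exact h1.submatrix (dcnF_inj d T bu bv) (Equiv.injective _)

end MP0775d3.Ox
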