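import Pool.Agent.Lib.MP_0775d3_lc.Ox.DcN
import Pool.Agent.Lib.MP_0775d3_lc.Ox.DcK
import Pool.Agent.Lib.MP_0775d3_lc.Ox.DcE

/-! Project OX: the step for few double cosets. -/

set_option linter.unusedSectionVars false
set_option linter.unusedVariables false

namespace MP0775d3.Ox

open Matrix MP0775d3.Cf

/-- PROOF. `exists_dc`, `X₀ = X`. `S` from `hH`, `T y` from `hD` (`FS.congr`), `exists_br`, `exists_ad`, `dc_two`. `w_bx` for
every `y` (`|H| * |R y| ≤ |G| ≤ N`: `dc_card`), `dcW_bx`. `Two.bx` with `wz z = K * (|K z| * |S.D z.1 × S.D z.2|)`: block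
`z` by `MM` with `c = |K z|` (`Two.card`, `dcK_card`, `dcK_sum`), sum by `dcK_sum`. -/
theorem step_dc {K b N s : ℝ} {t t' t₀ : ℕ} (hK : 1 ≤ K) (hb : 1 ≤ b) (hs : 1 ≤ s) (ht : 1 ≤ t)
    (ht' : 1 ≤ t') (hMM : MM K b N s t₀) {G : Type} [Group G] [Finite G] (hG : (Nat.card G : ℝ) ≤ N)
    (H : Subgroup G) (X : Finset G) (hX : (X.card : ℝ) ≤ b)
    (hX' : ∀ g : G, ∃ x ∈ X, ∃ h ∈ H, ∃ h' ∈ H, g = h * x * h')
    (hH : FS (K * Nat.card H) s t H)
    (hD : ∀ x : G, FS (K * Nat.card ↥(H ⊓ H.map (MulAut.conj x).toMonoidHom)) s t'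
      ↥(H ⊓ H.map (MulAut.conj x).toMonoidHom)) :
    FS (K * Nat.card G) s (3 * t₀ + 2 * t + t' + 5) G := by
  classical
  have hK0 : 0 ≤ K := zero_le_one.trans hK
  obtain ⟨d, hdX, hdD⟩ := exists_dc H X hX'
  obtain ⟨S, hS⟩ := hH
  have hfin : ∀ y, Finite (d.D y) := fun y => Finite.of_injective (d.u y) (d.uinj y)
  have hT : ∀ y, FS (K * Nat.card (d.D y)) s t' (d.D y) := by
    intro y
    obtain ⟨x, ⟨e⟩⟩ := hdD y
    have h1 := (hD x).congr e.symm
    rw [Nat.card_congr e.toEquiv]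
    exact h1
  choose T hT using hT
  have hbu : ∀ y, Nonempty (Br (d.u y) S (T y)) := fun y => exists_br (d.u y) S (T y)
  have hbv : ∀ y, Nonempty (Br (d.v y) S (T y)) := fun y => exists_br (d.v y) S (T y)
  let bu : ∀ y, Br (d.u y) S (T y) := fun y => (hbu y).some
  let bv : ∀ y, Br (d.v y) S (T y) := fun y => (hbv y).some
  obtain ⟨A⟩ := exists_ad H.subtype S
  obtain ⟨Y, hY⟩ := dc_two A d T bu bv
  have hcard := dc_card d
  have hN : ∀ y, ((Nat.card H : ℝ) * Fintype.card (d.R y)) ≤ N := by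
    intro y
    have h1 : Nat.card H * Fintype.card (d.R y) ≤ Nat.card G := by
      rw [← hcard]
      exact Finset.single_le_sum (f := fun y => Nat.card H * Fintype.card (d.R y))
        (fun _ _ => Nat.zero_le _) (Finset.mem_univ y)
    refine le_trans ?_ hG
    exact_mod_cast h1
  have hW : Bx (K * Nat.card G) s (2 * t₀ + 2 * t + t' + 4) (dcW d T bu bv) :=
    dcW_bx d T bu bv hK0 fun y =>
      w_bx (bu y) (bv y) (d.r y) hK hb hs ht ht' hMM (hN y) (d.uinj y) (d.bij y) hS (hT y)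
  have hsum := dcK_sum d T bu bv
  have hone : ∀ z : S.I × S.I, Fintype.card (DcK d T bu bv z) *
      (Fintype.card (S.D z.1) * Fintype.card (S.D z.2)) ≤ Nat.card G := fun z =>
    (Finset.single_le_sum (f := fun z : S.I × S.I => Fintype.card (DcK d T bu bv z) *
      (Fintype.card (S.D z.1) * Fintype.card (S.D z.2))) (fun _ _ => Nat.zero_le _)
      (Finset.mem_univ z)).trans hsum
  have hfinal := Two.bx A (dcW d T bu bv) Y hY hs hW
    (fun z => K * ((Fintype.card (DcK d T bu bv z) : ℝ) * Fintype.card (S.D z.1 × S.D z.2)))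
    (t' := t₀) (by
      rw [← Finset.mul_sum]
      refine mul_le_mul_of_nonneg_left ?_ hK0
      have h1 : ∀ z : S.I × S.I, ((Fintype.card (DcK d T bu bv z) : ℝ) *
          Fintype.card (S.D z.1 × S.D z.2)) = ((Fintype.card (DcK d T bu bv z) *
          (Fintype.card (S.D z.1) * Fintype.card (S.D z.2)) : ℕ) : ℝ) := by
        intro z
        rw [Fintype.card_prod]
        push_cast
        ring
      rw [Finset.sum_congr rfl fun z _ => h1 z, ← Nat.cast_sum]
      exact_mod_cast hsum)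
    (fun z => hMM _ _ _ _ (by exact_mod_cast Two.card A (dcW d T bu bv) Y hY z) le_rfl (by
        have h1 := dcK_card d T bu bv z
        have h2 : (Fintype.card (DcK d T bu bv z) : ℝ) ≤
            Fintype.card d.X * (Fintype.card (S.D z.1) * Fintype.card (S.D z.2)) := by
          exact_mod_cast h1
        have h3 : (Fintype.card d.X : ℝ) ≤ b := le_trans (by exact_mod_cast hdX) hX
        rw [Fintype.card_prod]
        push_cast
        refine h2.trans (mul_le_mul_of_nonneg_right h3 (by positivity))) (by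
        have h1 := hone z
        rw [Fintype.card_prod]
        refine le_trans ?_ hG
        push_cast
        exact_mod_cast h1) (Y z))
  have he : t₀ + (2 * t₀ + 2 * t + t' + 4) + 1 = 3 * t₀ + 2 * t + t' + 5 := by ring
  rw [he] at hfinal
  exact ⟨A.sys, hfinal⟩

end MP0775d3.Ox
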