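import Pool.Agent.Lib.MP_0775d3_lc.Om.Defs
import Pool.Agent.Lib.MP_0775d3_lc.Cf.Defs

/-! Project OX: Fourier transforms of groups with chains of subgroups. Definitions. -/

set_option linter.unusedSectionVars false
set_option linter.unusedVariables false

namespace MP0775d3.Ox

open Matrix MP0775d3.Cf

/-- A complete system of irreducible matrix representations of a finite group. -/
structure Sys (G : Type) [Group G] where
  I : Type
  [fI : Fintype I]
  [dI : DecidableEq I]
  D : I → Type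
  [fD : ∀ i, Fintype (D i)]
  [dD : ∀ i, DecidableEq (D i)]
  [ne : ∀ i, Nonempty (D i)]
  π : ∀ i, G → Matrix (D i) (D i) ℂ
  one : ∀ i, π i 1 = 1
  mul : ∀ i g h, π i (g * h) = π i g * π i h
  sq : ∑ i, Fintype.card (D i) * Fintype.card (D i) = Nat.card G
  tr : ∀ g, g ≠ 1 → ∑ i, (Fintype.card (D i) : ℂ) * (π i g).trace = 0

attribute [instance] Sys.fI Sys.dI Sys.fD Sys.dD Sys.ne

variable {G H D : Type} [Group G] [Group H] [Group D]

/-- The Fourier matrix. -/
def Sys.F (S : Sys G) : Matrix (Σ i, S.D i × S.D i) G ℂ :=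
  Matrix.of fun z g => S.π z.1 g z.2.1 z.2.2

/-- Its inverse. -/
noncomputable def Sys.F' (S : Sys G) : Matrix G (Σ i, S.D i × S.D i) ℂ :=
  Matrix.of fun g z => ((Fintype.card (S.D z.1) : ℂ) / Nat.card G) * S.π z.1 g⁻¹ z.2.2 z.2.1

/-- The representation with the multiplicity spaces `P i`. -/
def Sys.rep (S : Sys G) (P : S.I → Type) [∀ i, DecidableEq (P i)] (g : G) :
    Matrix (Σ i, S.D i × P i) (Σ i, S.D i × P i) ℂ :=
  Matrix.blockDiagonal' fun i => Matrix.kroneckerMap (· * ·) (S.π i g) (1 : Matrix (P i) (P i) ℂ)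

/-- The Fourier transform of `G` is a box circuit. -/
def FS (w s : ℝ) (t : ℕ) (G : Type) [Group G] : Prop := ∃ S : Sys G, Bx w s t S.F

/-- Multiplication by a fixed matrix, many times: true with `K = C * N ^ η`, `s = C * b * N ^ δ` if `ω = 2`. -/
def MM (K b N s : ℝ) (t : ℕ) : Prop :=
  ∀ (P Q E : Type) [Fintype P] [Fintype Q] [Fintype E] [DecidableEq E] (c : ℝ),
    (Fintype.card P : ℝ) ≤ c → (Fintype.card Q : ℝ) ≤ c → c ≤ b * Fintype.card E →
    c * Fintype.card E ≤ N → ∀ A : Matrix P Q ℂ,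
      Bx (K * (c * Fintype.card E)) s t (Matrix.kroneckerMap (· * ·) A (1 : Matrix E E ℂ))

/-- The Fourier matrices of the groups of prime order. -/
def FP (K N s : ℝ) (t : ℕ) : Prop :=
  ∀ p : ℕ, p.Prime → (p : ℝ) ≤ N → FB (K * p) s t (Multiplicative (ZMod p))

/-- Systems of representations of `G`, adapted to a system of `H`. -/
structure Ad (ι : H →* G) (S : Sys H) where
  I : Type
  [fI : Fintype I]
  [dI : DecidableEq I]
  P : I → S.I → Type
  [fP : ∀ l i, Fintype (P l i)]
  [dP : ∀ l i, DecidableEq (P l i)]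
  ρ : ∀ l, G → Matrix (Σ i, S.D i × P l i) (Σ i, S.D i × P l i) ℂ
  ne : ∀ l, Nonempty (Σ i, S.D i × P l i)
  one : ∀ l, ρ l 1 = 1
  mul : ∀ l g h, ρ l (g * h) = ρ l g * ρ l h
  sq : ∑ l, Fintype.card (Σ i, S.D i × P l i) * Fintype.card (Σ i, S.D i × P l i) = Nat.card G
  tr : ∀ g, g ≠ 1 → ∑ l, (Fintype.card (Σ i, S.D i × P l i) : ℂ) * (ρ l g).trace = 0
  res : ∀ l h, ρ l (ι h) = S.rep (P l) h

attribute [instance] Ad.fI Ad.dI Ad.fP Ad.dP

/-- The system of representations of `G`. -/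
def Ad.sys {ι : H →* G} {S : Sys H} (A : Ad ι S) : Sys G where
  I := A.I
  D l := Σ i, S.D i × A.P l i
  ne := A.ne
  π := A.ρ
  one := A.one
  mul := A.mul
  sq := A.sq
  tr := A.tr

/-- Branching: the restrictions of the representations of `H` to `D` are decomposed. -/
structure Br (ι : D →* H) (S : Sys H) (T : Sys D) where
  M : S.I → T.I → Type
  [fM : ∀ i k, Fintype (M i k)]
  [dM : ∀ i k, DecidableEq (M i k)]
  B : ∀ i, Matrix (S.D i) (Σ k, T.D k × M i k) ℂ
  B' : ∀ i, Matrix (Σ k, T.D k × M i k) (S.D i) ℂ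
  inv : ∀ i, B i * B' i = 1
  inv' : ∀ i, B' i * B i = 1
  eq : ∀ i d, S.π i (ι d) * B i = B i * T.rep (M i) d

attribute [instance] Br.fM Br.dM

/-- `G` is a disjoint union of double cosets `H x H`, each of them in bijection with `H × R x`; `D x` is
the intersection of `H` and `x * H * x⁻¹`. -/
structure Dc (ι : H →* G) where
  X : Type
  [fX : Fintype X]
  [dX : DecidableEq X]
  D : X → Type
  [gD : ∀ x, Group (D x)]
  u : ∀ x, D x →* H
  v : ∀ x, D x →* H
  x : X → G
  R : X → Type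
  [fR : ∀ x, Fintype (R x)]
  [dR : ∀ x, DecidableEq (R x)]
  r : ∀ x, R x → H
  comm : ∀ y d, ι (u y d) * x y = x y * ι (v y d)
  bij : ∀ y, Function.Bijective fun p : D y × R y => v y p.1 * r y p.2
  bij' : Function.Bijective fun p : (Σ y, H × R y) => ι p.2.1 * x p.1 * ι (r p.1 p.2.2)
  uinj : ∀ y, Function.Injective (u y)
  vinj : ∀ y, Function.Injective (v y)

attribute [instance] Dc.fX Dc.dX Dc.gD Dc.fR Dc.dR

/-- The class of groups, by recursion on the level: groups of order at most `b`; groups with a subgroup of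
index at most `b`, with a normal subgroup of prime index, or with a subgroup `H` with at most `b` double
cosets such that all `H ∩ x H x⁻¹` have lower level. -/
def Tame (b : ℝ) : ℕ → ∀ (G : Type) [Group G], Prop
  | 0, G, _ => (Nat.card G : ℝ) ≤ b
  | l + 1, G, _ => Tame b l G ∨
      (∃ H : Subgroup G, (H.index : ℝ) ≤ b ∧ Tame b l H) ∨
      (∃ H : Subgroup G, H.Normal ∧ H.index.Prime ∧ Tame b l H) ∨
      (∃ H : Subgroup G, (∃ X : Finset G, (X.card : ℝ) ≤ b ∧
        ∀ g : G, ∃ x ∈ X, ∃ h ∈ H, ∃ h' ∈ H, g = h * x * h') ∧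
        ∀ x : G, Tame b l ↥(H ⊓ H.map (MulAut.conj x).toMonoidHom))

end MP0775d3.Ox
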