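import Pool.Agent.Lib.MP_0775d3_lc.Ox.FacDefs

/-! Project OX: calculus of `Tame` and `Chain`. -/

set_option linter.unusedSectionVars false
set_option linter.unusedVariables false

namespace MP0775d3.Ox

private theorem facA_conj {G G' : Type} [Group G] [Group G'] (e : G ≃* G') (H : Subgroup G)
    (x : G) : (H ⊓ H.map (MulAut.conj x).toMonoidHom).map (e : G →* G') =
      H.map (e : G →* G') ⊓ (H.map (e : G →* G')).map (MulAut.conj (e x)).toMonoidHom := by
  rw [Subgroup.map_inf_eq _ _ _ e.injective, Subgroup.map_map, Subgroup.map_map]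
  congr 2
  ext g
  simp

private theorem facA_idx {Q Q' : Type} [Group Q] [Group Q'] [Finite Q'] (ι : Q →* Q')
    (Y : Subgroup Q') : (Y.comap ι).index ≤ Y.index := by
  rw [Subgroup.index_comap, ← Subgroup.relIndex_top_right Y]
  refine Subgroup.relIndex_le_of_le_right le_top ?_
  rw [Subgroup.relIndex_top_right]
  exact Subgroup.index_ne_zero_of_finite

/-- PROOF. Induction on `l`, transport of the subgroups by `Subgroup.map e` (`Subgroup.equivMapOfInjective`,
`Subgroup.index_map_of_bijective`, `Subgroup.Normal.map`), of the finset by `Finset.map`. -/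
theorem Tame.congr {b : ℝ} {l : ℕ} {G G' : Type} [Group G] [Group G'] (e : G ≃* G')
    (h : Tame b l G) : Tame b l G' := by
  induction l generalizing G G' with
  | zero =>
    have h1 : (Nat.card G : ℝ) ≤ b := h
    change (Nat.card G' : ℝ) ≤ b
    rwa [← Nat.card_congr e.toEquiv]
  | succ l ih =>
    unfold Tame at h ⊢
    rcases h with h | ⟨H, h1, h2⟩ | ⟨H, h1, h2, h3⟩ | ⟨H, ⟨X, h1, h2⟩, h3⟩
    · exact Or.inl (ih e h)
    · refine Or.inr (Or.inl ⟨H.map (e : G →* G'), ?_, ih (e.subgroupMap H) h2⟩)
      rw [Subgroup.index_map_equiv]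
      exact h1
    · refine Or.inr (Or.inr (Or.inl ⟨H.map (e : G →* G'), h1.map _ e.surjective, ?_,
        ih (e.subgroupMap H) h3⟩))
      rw [Subgroup.index_map_equiv]
      exact h2
    · refine Or.inr (Or.inr (Or.inr ⟨H.map (e : G →* G'), ⟨X.map e.toEquiv.toEmbedding, ?_, ?_⟩,
        fun x => ?_⟩))
      · rw [Finset.card_map]
        exact h1
      · intro g
        obtain ⟨x, hx, a, ha, a', ha', hg⟩ := h2 (e.symm g)
        refine ⟨e x, ?_, e a, Subgroup.mem_map_of_mem _ ha, e a', Subgroup.mem_map_of_mem _ ha', ?_⟩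
        · exact Finset.mem_map_of_mem _ hx
        · rw [← map_mul, ← map_mul, ← hg, e.apply_symm_apply]
      · have h4 := ih (e.subgroupMap _) (h3 (e.symm x))
        rw [facA_conj, e.apply_symm_apply] at h4
        exact h4

/-- PROOF. The first case of the recursion. -/
theorem Tame.mono {b : ℝ} {l l' : ℕ} (hl : l ≤ l') {G : Type} [Group G] (h : Tame b l G) :
    Tame b l' G := by
  induction l', hl using Nat.le_induction with
  | base => exact h
  | succ n _ ih =>
    unfold Tame
    exact Or.inl ih

/-- PROOF. The second case of the recursion for the range (`MonoidHom.ofInjective`), `Tame.congr`. -/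
theorem Tame.index {b : ℝ} {l : ℕ} {G G' : Type} [Group G] [Group G'] (ι : G →* G')
    (hι : Function.Injective ι) (hi : (ι.range.index : ℝ) ≤ b) (h : Tame b l G) :
    Tame b (l + 1) G' := by
  unfold Tame
  exact Or.inr (Or.inl ⟨ι.range, hi, h.congr (MonoidHom.ofInjective hι)⟩)

/-- PROOF. Induction on `r`: the preimage of `Y` has index at most that of `Y` (`Subgroup.index_comap`, finite). -/
theorem Chain.inj {b : ℝ} {r : ℕ} {Q Q' : Type} [Group Q] [Group Q'] [Finite Q'] (ι : Q →* Q')
    (hι : Function.Injective ι) (h : Chain b r Q') : Chain b r Q := by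
  induction r generalizing Q Q' with
  | zero =>
    have h1 : Subsingleton Q' := h
    exact hι.subsingleton
  | succ r ih =>
    obtain ⟨Y, hY, hC⟩ := h
    refine ⟨Y.comap ι, le_trans ?_ hY, ih (ι.subgroupComap Y) ?_ hC⟩
    · exact_mod_cast facA_idx ι Y
    · intro a a' haa
      have h1 : ι (a : Q) = ι (a' : Q) := congrArg Subtype.val haa
      exact Subtype.ext (hι h1)

/-- PROOF. Induction on `r`. `r = 0`: `⊥`-quotient, `φ.ker = ⊤`. `r + 1`: `Y` from `h`, `H = Y.comap φ` has index at most
that of `Y`; `φ` restricts to `H →* Y` (`MonoidHom.subgroupComap`) with a kernel isomorphic to `φ.ker`; `Tame.congr`. -/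
theorem Chain.tame {b : ℝ} {r l : ℕ} {G Q : Type} [Group G] [Group Q] [Finite Q] (φ : G →* Q)
    (h : Chain b r Q) (hl : Tame b l φ.ker) : Tame b (l + r) G := by
  induction r generalizing G Q with
  | zero =>
    have h1 : Subsingleton Q := h
    have h2 : φ.ker = ⊤ := by
      ext g
      exact ⟨fun _ => Subgroup.mem_top g, fun _ => Subsingleton.elim _ _⟩
    rw [h2] at hl
    exact hl.congr Subgroup.topEquiv
  | succ r ih =>
    obtain ⟨Y, hY, hC⟩ := h
    have hle : φ.ker ≤ Y.comap φ := by
      intro g hg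
      rw [Subgroup.mem_comap, MonoidHom.mem_ker.1 hg]
      exact Y.one_mem
    have hk : (φ.subgroupComap Y).ker = φ.ker.subgroupOf (Y.comap φ) := by
      ext x
      rw [MonoidHom.mem_ker, Subgroup.mem_subgroupOf, MonoidHom.mem_ker]
      constructor
      · intro hx
        exact congrArg Subtype.val hx
      · intro hx
        exact Subtype.ext hx
    have h1 : Tame b l (φ.subgroupComap Y).ker := by
      rw [hk]
      exact hl.congr (Subgroup.subgroupOfEquivOfLe hle).symm
    have h2 : Tame b (l + r) (Y.comap φ) := ih (φ.subgroupComap Y) hC h1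
    change Tame b (l + r + 1) G
    unfold Tame
    refine Or.inr (Or.inl ⟨Y.comap φ, le_trans ?_ hY, h2⟩)
    exact_mod_cast facA_idx φ Y

/-- PROOF. `Y = ψ.ker`, of index at most `|P|` (`Subgroup.index_ker`). -/
theorem Chain.ker {b : ℝ} {r : ℕ} {Q P : Type} [Group Q] [Group P] [Finite P] (ψ : Q →* P)
    (hP : (Nat.card P : ℝ) ≤ b) (h : Chain b r ψ.ker) : Chain b (r + 1) Q := by
  refine ⟨ψ.ker, le_trans ?_ hP, h⟩
  rw [Subgroup.index_ker]
  exact_mod_cast Subgroup.card_le_card_group ψ.range

end MP0775d3.Ox
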