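import Pool.Agent.Lib.MP_0775d3_lc.Ox.FacA
import Pool.Agent.Lib.MP_0775d3_lc.SG.Colour

/-! Project OX: chains in symmetric groups. -/

set_option linter.unusedSectionVars false
set_option linter.unusedVariables false

namespace MP0775d3.Ox

/-- The permutations that preserve the colouring `c` and fix the points of colour less than `j`. -/
def young {m r : ℕ} (c : Fin m → Fin r) (j : ℕ) : Subgroup (Equiv.Perm (Fin m)) where
  carrier := {σ | (∀ a, c (σ a) = c a) ∧ ∀ a, (c a : ℕ) < j → σ a = a}
  mul_mem' := by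
    rintro σ τ ⟨h1, h2⟩ ⟨h3, h4⟩
    refine ⟨fun a => ?_, fun a ha => ?_⟩
    · rw [Equiv.Perm.mul_apply, h1, h3]
    · rw [Equiv.Perm.mul_apply, h4 a ha, h2 a ha]
  one_mem' := ⟨fun a => rfl, fun a _ => rfl⟩
  inv_mem' := by
    rintro σ ⟨h1, h2⟩
    refine ⟨fun a => ?_, fun a ha => ?_⟩
    · have h := h1 (σ⁻¹ a)
      have e : σ (σ⁻¹ a) = a := σ.apply_symm_apply a
      rw [e] at h
      exact h.symm
    · have h := h2 a ha
      rw [Equiv.Perm.inv_eq_iff_eq]
      exact h.symm

/-- PROOF. The cosets of `young c 0` inject into the functions `Fin m → Fin r` by `σ ↦ fun a => c (σ⁻¹ a)`. -/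
theorem young_index {m r : ℕ} (c : Fin m → Fin r) : (young c 0).index ≤ r ^ m := by
  have h1 : Nat.card (Fin m → Fin r) = r ^ m := by
    rw [Nat.card_fun, Nat.card_fin, Nat.card_fin]
  rw [Subgroup.index, ← h1]
  refine Nat.card_le_card_of_injective
    (fun q : Equiv.Perm (Fin m) ⧸ young c 0 => fun a => c ((Quotient.out q)⁻¹ a)) ?_
  intro q q' h
  rw [← QuotientGroup.out_eq' q, ← QuotientGroup.out_eq' q', QuotientGroup.eq]
  refine ⟨fun a => ?_, fun a ha => absurd ha (Nat.not_lt_zero _)⟩
  have h2 := congrFun h (Quotient.out q' a)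
  have h3 : (Quotient.out q')⁻¹ (Quotient.out q' a) = a :=
    (Quotient.out q').symm_apply_apply a
  simp only [h3] at h2
  exact h2

/-- The restriction of the permutations in `young c j` to the points of the colour `i`. -/
private def facC_res {m r : ℕ} (c : Fin m → Fin r) (j : ℕ) (i : Fin r) :
    young c j →* Equiv.Perm {a // c a = i} where
  toFun σ := Equiv.Perm.subtypePerm (σ : Equiv.Perm (Fin m)) fun a => by
    rw [σ.2.1 a]
  map_one' := rfl
  map_mul' _ _ := rfl

private theorem facC_res_apply {m r : ℕ} (c : Fin m → Fin r) (j : ℕ) (i : Fin r)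
    (σ : young c j) (a : {a // c a = i}) :
    (facC_res c j i σ a : Fin m) = (σ : Equiv.Perm (Fin m)) a := rfl

/-- The kernel of the restriction to the colour `j` fixes the points of the colours up to `j`. -/
private def facC_ker {m r : ℕ} (c : Fin m → Fin r) (j : ℕ) (i : Fin r) (hi : (i : ℕ) = j) :
    (facC_res c j i).ker →* young c (j + 1) where
  toFun σ := ⟨((σ : young c j) : Equiv.Perm (Fin m)), (σ : young c j).2.1, fun a ha => by
    rcases Nat.lt_succ_iff_lt_or_eq.1 ha with h | h
    · exact (σ : young c j).2.2 a h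
    · have h1 : c a = i := Fin.ext (h.trans hi.symm)
      have h2 := MonoidHom.mem_ker.1 σ.2
      have h3 := facC_res_apply c j i (σ : young c j) ⟨a, h1⟩
      rw [h2] at h3
      exact h3.symm⟩
  map_one' := rfl
  map_mul' _ _ := rfl

/-- PROOF. Downward induction on `j` (`n = r - j`): `young c r` is trivial; the restriction to the points of colour `j` is a
homomorphism from `young c j` to `Equiv.Perm {a // c a = j}` (`Equiv.Perm.subtypePerm`), with kernel isomorphic to
`young c (j + 1)`: `Chain.ker` (the kernel, as a subgroup of `young c j`, maps injectively to `young c (j + 1)`: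
`Chain.inj`). -/
theorem young_chain {b : ℝ} {m r : ℕ} (c : Fin m → Fin r)
    (hb : ∀ i, ((Nat.card {a // c a = i}).factorial : ℝ) ≤ b) (n j : ℕ) (hj : j + n = r) :
    Chain b n (young c j) := by
  induction n generalizing j with
  | zero =>
    refine ⟨fun σ τ => Subtype.ext (Equiv.ext fun a => ?_)⟩
    have h1 : (c a : ℕ) < j := by
      have := (c a).isLt
      omega
    rw [σ.2.2 a h1, τ.2.2 a h1]
  | succ n ih =>
    have hjr : j < r := by omega
    have h1 := ih (j + 1) (by omega)
    refine Chain.ker (facC_res c j ⟨j, hjr⟩) ?_ (Chain.inj (facC_ker c j ⟨j, hjr⟩ rfl) ?_ h1)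
    · rw [Nat.card_perm]
      exact hb ⟨j, hjr⟩
    · intro σ τ h
      have h2 : (((σ : young c j) : Equiv.Perm (Fin m))) = ((τ : young c j) : Equiv.Perm (Fin m)) :=
        congrArg (fun x : young c (j + 1) => (x : Equiv.Perm (Fin m))) h
      exact Subtype.ext (Subtype.ext h2)

/-- PROOF. `Sg.exists_colour` (Lib SG/Colour.lean; or `a ↦ a % r`), `young_index`, `young_chain` for `j = 0`;
`Chain.inj` from the alternating group to the symmetric group. -/
theorem chain_alt {b : ℝ} {m r : ℕ} (hr : 0 < r) (h1 : ((r ^ m : ℕ) : ℝ) ≤ b)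
    (h2 : (((m / r + 1).factorial : ℕ) : ℝ) ≤ b) : Chain b (r + 1) (alternatingGroup (Fin m)) := by
  obtain ⟨c, hc⟩ := MP0775d3.Sg.exists_colour m r hr
  have hb : ∀ i, ((Nat.card {a // c a = i}).factorial : ℝ) ≤ b := by
    intro i
    refine le_trans ?_ h2
    exact_mod_cast Nat.factorial_le (hc i)
  have h3 : Chain b (r + 1) (Equiv.Perm (Fin m)) := by
    refine ⟨young c 0, le_trans ?_ h1, young_chain c hb r 0 (Nat.zero_add r)⟩
    exact_mod_cast young_index c
  exact Chain.inj (alternatingGroup (Fin m)).subtype (Subgroup.subtype_injective _) h3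

end MP0775d3.Ox
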