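import Pool.Agent.Lib.MP_0775d3_lc.Ox.Defs

/-! Project OX: composition factors. Definitions. -/

namespace MP0775d3.Ox

/-- All composition factors are cyclic, alternating or of order at most `b`: the trivial group, and all
groups with a normal subgroup `N` in the class that has index at most `b` or prime index or a
quotient `G / N` isomorphic to an alternating group. -/
inductive Fac (b : ℝ) : ∀ (G : Type) [Group G], Prop
  | one (G : Type) [Group G] : Subsingleton G → Fac b G
  | ext (G : Type) [Group G] (N : Subgroup G) : N.Normal → Fac b N →
      ((N.index : ℝ) ≤ b ∨ N.index.Prime ∨ ∃ (m : ℕ) (φ : G →* alternatingGroup (Fin m)),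
        Function.Surjective φ ∧ φ.ker = N) → Fac b G

/-- A chain of `r` subgroups with indices at most `b`, down to the trivial group. -/
def Chain (b : ℝ) : ℕ → ∀ (Q : Type) [Group Q], Prop
  | 0, Q, _ => Subsingleton Q
  | r + 1, Q, _ => ∃ Y : Subgroup Q, (Y.index : ℝ) ≤ b ∧ Chain b r Y

end MP0775d3.Ox
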