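import Pool.Agent.Lib.MP_0775d3_lc.Ox.Up
import Pool.Agent.Lib.MP_0775d3_lc.Ox.FacE
import Pool.Agent.Lib.MP_0775d3_lc.Ox.FacF

/-! Project OX: the final statements. -/

set_option linter.unusedSectionVars false
set_option linter.unusedVariables false

namespace MP0775d3.Ox

open Matrix MP0775d3.Cf MP0775d3.Om MP0775d3.Sl2 MP0775d3.Kron

/-- PROOF. `fac_tame (δ / 8)`, `up_tame δ`, `γ` the smaller one of `δ / 16` and of the number of `up_tame`: `Fac` is monotone in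
`b` (induction). -/
theorem up_fac (hω : omega = 2) (δ : ℝ) (hδ : 0 < δ) : ∃ γ : ℝ, 0 < γ ∧ ∃ n₀ : ℕ,
    ∀ (G : Type) [Group G] [Fintype G], n₀ ≤ Fintype.card G →
      Fac ((Fintype.card G : ℝ) ^ γ) G → ∀ f : G → ℂ,
        Dec (groupMat f) ((Fintype.card G : ℝ) ^ (1 - γ)) ((Fintype.card G : ℝ) ^ δ) := by
  obtain ⟨l, n₁, h1⟩ := fac_tame (δ / 8) (by positivity)
  obtain ⟨γ₁, hγ₁, n₂, h2⟩ := up_tame hω δ hδ l
  refine ⟨min (δ / 16) γ₁, lt_min (by positivity) hγ₁, max 1 (max n₁ n₂), ?_⟩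
  intro G _ _ hn hF f
  classical
  have e1 : (1 : ℝ) ≤ (Fintype.card G : ℝ) := by
    exact_mod_cast (le_max_left 1 (max n₁ n₂)).trans hn
  have e2 : n₁ ≤ Fintype.card G := ((le_max_left _ _).trans (le_max_right _ _)).trans hn
  have e3 : n₂ ≤ Fintype.card G := ((le_max_right _ _).trans (le_max_right _ _)).trans hn
  have e4 : min (δ / 16) γ₁ ≤ δ / 8 / 2 :=
    (min_le_left _ _).trans (by linarith)
  have e5 : Fac ((Fintype.card G : ℝ) ^ (δ / 8 / 2)) G :=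
    Fac.mono (Real.rpow_le_rpow_of_exponent_le e1 e4) hF
  refine (h2 G e3 (h1 G e2 e5) f).mono (Real.rpow_le_rpow_of_exponent_le e1 ?_) le_rfl
  have e6 : min (δ / 16) γ₁ ≤ γ₁ := min_le_right _ _
  linarith

end MP0775d3.Ox
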