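import Pool.Agent.Lib.MP_0775d3_lc.Ox.Defs

/-! Project OX: composition factors, with the linear groups. Definitions. -/

namespace MP0775d3.Ox

/-- `Q` has a subgroup of index at most `b` isomorphic to a quotient of `SL_m(F)`, `F` a finite field, by a group of
scalar matrices. -/
def IsLin (b : ℝ) (Q : Type) [Group Q] : Prop :=
  ∃ (F : Type) (_ : Field F) (_ : Fintype F) (m : ℕ)
    (φ : Matrix.SpecialLinearGroup (Fin m) F →* Q),
    (∀ g, φ g = 1 → ∃ a : F, g.1 = Matrix.scalar (Fin m) a) ∧ (φ.range.index : ℝ) ≤ b

/-- The class: the trivial group, and all groups `G` with a normal subgroup `N` in the class that has index at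
most `b`, or prime index, or a quotient `G / N` isomorphic to a group `Q` that is an alternating
group or of linear type. -/
inductive Cls (b : ℝ) : ∀ (G : Type) [Group G], Prop
  | one (G : Type) [Group G] : Subsingleton G → Cls b G
  | ext (G : Type) [Group G] (N : Subgroup G) : N.Normal → Cls b N →
      ((N.index : ℝ) ≤ b ∨ N.index.Prime ∨ ∃ (Q : Type) (_ : Group Q) (φ : G →* Q),
        Function.Surjective φ ∧ φ.ker = N ∧
          ((∃ m : ℕ, Nonempty (Q ≃* alternatingGroup (Fin m))) ∨ IsLin b Q)) → Cls b G

end MP0775d3.Ox
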