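import Pool.Agent.Lib.MP_0775d3_lc.Ox.FacA

/-! Project OX: extensions of groups in the class. -/

set_option linter.unusedSectionVars false
set_option linter.unusedVariables false

namespace MP0775d3.Ox

/-- PROOF. Induction on `l'` (for all `G`, `Q`, `φ`). `l' = 0`: `φ.ker` has index `|Q| ≤ b`. The cases of the recursion: take preimages; the
restriction of `φ` to the preimage of a subgroup `H` is onto `H`, with a kernel isomorphic to `φ.ker`; indices are equal, a double
coset of `H` has a double coset as preimage (preimages of the elements of `X`), and the preimage of `H ⊓ x H x⁻¹` is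
`H' ⊓ y H' y⁻¹` for the preimage `H'` of `H` and `φ y = x`. -/
theorem Tame.ext {b : ℝ} {l l' : ℕ} {G Q : Type} [Group G] [Group Q] [Finite G] (φ : G →* Q)
    (hφ : Function.Surjective φ) (h : Tame b l φ.ker) (h' : Tame b l' Q) :
    Tame b (l + l' + 1) G := by
  classical
  induction l' generalizing G Q with
  | zero =>
    have h1 : (Nat.card Q : ℝ) ≤ b := h'
    refine Or.inr (Or.inl ⟨φ.ker, le_trans ?_ h1, h⟩)
    have : Finite Q := Finite.of_surjective φ hφ
    rw [Subgroup.index_ker]
    exact_mod_cast Subgroup.card_le_card_group φ.range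
  | succ l' ih =>
    have key : ∀ K : Subgroup Q, Tame b l' K → Tame b (l + l' + 1) (K.comap φ) := by
      intro K hK
      have hle : φ.ker ≤ K.comap φ := by
        intro g hg
        rw [Subgroup.mem_comap, MonoidHom.mem_ker.1 hg]
        exact K.one_mem
      have hk : (φ.subgroupComap K).ker = φ.ker.subgroupOf (K.comap φ) := by
        ext x
        rw [MonoidHom.mem_ker, Subgroup.mem_subgroupOf, MonoidHom.mem_ker]
        constructor
        · intro hx
          exact congrArg Subtype.val hx
        · intro hx
          exact Subtype.ext hx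
      have h1 : Tame b l (φ.subgroupComap K).ker := by
        rw [hk]
        exact h.congr (Subgroup.subgroupOfEquivOfLe hle).symm
      exact ih (φ.subgroupComap K) (φ.subgroupComap_surjective_of_surjective K hφ) h1 hK
    have h2 : Tame b (l' + 1) Q := h'
    unfold Tame at h2
    rcases h2 with h2 | ⟨H, h2, h3⟩ | ⟨H, h2, h3, h4⟩ | ⟨H, ⟨X, h2, h3⟩, h4⟩
    · exact Or.inl (ih φ hφ h h2)
    · refine Or.inr (Or.inl ⟨H.comap φ, ?_, key H h3⟩)
      rw [Subgroup.index_comap_of_surjective H hφ]
      exact h2
    · refine Or.inr (Or.inr (Or.inl ⟨H.comap φ, h2.comap φ, ?_, key H h4⟩))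
      rw [Subgroup.index_comap_of_surjective H hφ]
      exact h3
    · refine Or.inr (Or.inr (Or.inr ⟨H.comap φ, ⟨X.image (Function.surjInv hφ), ?_, ?_⟩, fun x => ?_⟩))
      · refine le_trans ?_ h2
        exact_mod_cast Finset.card_image_le
      · intro g
        obtain ⟨x, hx, a, ha, a', ha', hg⟩ := h3 (φ g)
        have hx' : φ (Function.surjInv hφ x) = x := Function.surjInv_eq hφ x
        obtain ⟨k, hk⟩ := hφ a
        refine ⟨Function.surjInv hφ x, Finset.mem_image_of_mem _ hx, k, ?_,
          (k * Function.surjInv hφ x)⁻¹ * g, ?_, ?_⟩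
        · rw [Subgroup.mem_comap, hk]
          exact ha
        · rw [Subgroup.mem_comap, map_mul, map_inv, map_mul, hk, hx', hg]
          have e1 : (a * x)⁻¹ * (a * x * a') = a' := by group
          rw [e1]
          exact ha'
        · rw [mul_inv_cancel_left]
      · have e2 : H.comap φ ⊓ (H.comap φ).map (MulAut.conj x).toMonoidHom =
            (H ⊓ H.map (MulAut.conj (φ x)).toMonoidHom).comap φ := by
          ext g
          constructor
          · rintro ⟨hg1, hg2⟩
            obtain ⟨y, hy, hyg⟩ := hg2
            refine ⟨hg1, φ y, hy, ?_⟩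
            rw [← hyg]
            simp
          · rintro ⟨hg1, hg2⟩
            obtain ⟨y, hy, hyg⟩ := hg2
            refine ⟨hg1, x⁻¹ * g * x, ?_, ?_⟩
            · have e3 : φ (x⁻¹ * g * x) = y := by
                rw [map_mul, map_mul, map_inv, ← hyg]
                simp [mul_assoc]
              change φ (x⁻¹ * g * x) ∈ H
              rw [e3]
              exact hy
            · simp [mul_assoc]
        have h5 := key _ (h4 (φ x))
        rw [← e2] at h5
        exact h5

end MP0775d3.Ox
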