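import Pool.Agent.Lib.MP_0775d3_lc.Ox.GFac

/-! Project OX: stabilizers of flags. -/

set_option linter.unusedSectionVars false
set_option linter.unusedVariables false

namespace MP0775d3.Ox

private theorem gpar0_base {F V Γ : Type} [Field F] [Fintype F] [AddCommGroup V] [Module F V]
    [FiniteDimensional F V] [Group Γ] [Finite Γ] (ρ : Γ →* (V ≃ₗ[F] V))
    (hρ : Function.Injective ρ) (r : ℕ) (A : ℕ → Submodule F V) (hA0 : A 0 = ⊥) (hAr : A r = ⊤)
    (ht : ∀ k, k < r → ∀ g, ∀ v ∈ A (k + 1), ρ g v - v ∈ A k) {b : ℝ} : Fac0 b Γ := by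
  obtain ⟨p, hp⟩ := CharP.exists F
  have hpp : p.Prime := CharP.char_is_prime F p
  have : Fact p.Prime := ⟨hpp⟩
  have key : ∀ j, j ≤ r → ∀ g : Γ, ∀ v ∈ A j, ρ (g ^ (p ^ j)) v = v := by
    intro j
    induction j with
    | zero =>
      intro _ g v hv
      rw [hA0, Submodule.mem_bot] at hv
      simp [hv]
    | succ j ih =>
      intro hj g v hv
      have h1 := ht j (by omega) (g ^ (p ^ j)) v hv
      have h2 : ρ (g ^ (p ^ j)) (ρ (g ^ (p ^ j)) v - v) = ρ (g ^ (p ^ j)) v - v :=
        ih (by omega) g _ h1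
      have h3 : ∀ m : ℕ, ρ ((g ^ (p ^ j)) ^ m) v = v + m • (ρ (g ^ (p ^ j)) v - v) := by
        intro m
        induction m with
        | zero => simp
        | succ m ihm =>
          rw [pow_succ' (g ^ (p ^ j)) m, map_mul]
          change ρ (g ^ (p ^ j)) (ρ ((g ^ (p ^ j)) ^ m) v) = _
          rw [ihm, map_add, map_nsmul, h2, succ_nsmul]
          abel
      have h4 := h3 p
      rw [← pow_mul, ← pow_succ] at h4
      rw [h4]
      have h5 : p • (ρ (g ^ (p ^ j)) v - v) = 0 := by
        rw [← Nat.cast_smul_eq_nsmul F, CharP.cast_eq_zero, zero_smul]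
      rw [h5, add_zero]
  have hP : IsPGroup p Γ := by
    intro g
    refine ⟨r, hρ ?_⟩
    rw [map_one]
    ext v
    exact key r le_rfl g v (by rw [hAr]; trivial)
  have := hP.isNilpotent
  exact fac0_solvable b Γ

private theorem gpar0_comm {F Q : Type} [Field F] [AddCommGroup Q] [Module F Q]
    [FiniteDimensional F Q] (h : Module.finrank F Q ≤ 1) (x y : Module.End F Q) :
    x * y = y * x := by
  obtain ⟨v, hv⟩ := finrank_le_one_iff.1 h
  obtain ⟨c, hc⟩ := hv (x v)
  obtain ⟨d, hd⟩ := hv (y v)
  refine LinearMap.ext fun w => ?_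
  obtain ⟨e, rfl⟩ := hv w
  change x (y (e • v)) = y (x (e • v))
  rw [map_smul, map_smul, map_smul, map_smul, ← hc, ← hd, map_smul, map_smul, ← hc, ← hd,
    smul_comm d c]

private theorem gpar0_step {F V : Type} [Field F] [Fintype F] [AddCommGroup V] [Module F V]
    [FiniteDimensional F V] (r : ℕ)
    (A : ℕ → Submodule F V) (hA : Monotone A) (hA0 : A 0 = ⊥) (hAr : A r = ⊤) {b : ℝ}
    (hb : ∀ n, Module.finrank F (A (n + 1)) ≤ Module.finrank F (A n) + 1 ∨
      ((Fintype.card F ^ ((Module.finrank F (A (n + 1)) - Module.finrank F (A n)) ^ 2) : ℕ) : ℝ) ≤ b) :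
    ∀ d n, n + d = r → ∀ (Γ : Type) [Group Γ] [Finite Γ] (ρ : Γ →* (V ≃ₗ[F] V)),
      Function.Injective ρ → (∀ g n, (A n).map (ρ g : V →ₗ[F] V) = A n) →
      (∀ k, k < n → ∀ g, ∀ v ∈ A (k + 1), ρ g v - v ∈ A k) → Fac0 b Γ := by
  intro d
  induction d with
  | zero =>
    intro n hn Γ _ _ ρ hρ hs ht
    obtain rfl : n = r := by omega
    exact gpar0_base ρ hρ n A hA0 hAr ht
  | succ d ih =>
    intro n hn Γ _ _ ρ hρ hs ht
    have hm : ∀ g n, ∀ v ∈ A n, (ρ g : V →ₗ[F] V) v ∈ A n := by
      intro g n v hv
      have h1 := hs g n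
      rw [← h1]
      exact Submodule.mem_map_of_mem hv
    set W := A (n + 1) with hW
    set U := (A n).submoduleOf W with hU
    have hUm : ∀ g, U ≤ U.comap ((ρ g : V →ₗ[F] V).restrict (hm g (n + 1))) := by
      intro g x hx
      rw [Submodule.mem_comap]
      exact hm g n _ hx
    let φ : Γ →* Module.End F (W ⧸ U) :=
      { toFun := fun g => U.mapQ U ((ρ g : V →ₗ[F] V).restrict (hm g (n + 1))) (hUm g)
        map_one' := by
          refine LinearMap.ext fun x => ?_
          obtain ⟨x, rfl⟩ := Submodule.Quotient.mk_surjective U x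
          rw [Submodule.mapQ_apply]
          change _ = Submodule.Quotient.mk x
          refine congrArg _ (Subtype.ext ?_)
          rw [LinearMap.coe_restrict_apply, map_one]
          rfl
        map_mul' := by
          intro g h
          refine LinearMap.ext fun x => ?_
          obtain ⟨x, rfl⟩ := Submodule.Quotient.mk_surjective U x
          rw [Submodule.mapQ_apply]
          change _ = Submodule.mapQ _ _ _ (hUm g) (Submodule.mapQ _ _ _ (hUm h)
            (Submodule.Quotient.mk x))
          rw [Submodule.mapQ_apply, Submodule.mapQ_apply]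
          refine congrArg _ (Subtype.ext ?_)
          rw [LinearMap.coe_restrict_apply, LinearMap.coe_restrict_apply,
            LinearMap.coe_restrict_apply, map_mul]
          rfl }
    have hdim : Module.finrank F (W ⧸ U) = Module.finrank F W - Module.finrank F (A n) := by
      have h1 := Submodule.finrank_quotient_add_finrank U
      have h2 : Module.finrank F U = Module.finrank F (A n) :=
        LinearEquiv.finrank_eq (Submodule.submoduleOfEquivOfLe (hA (Nat.le_succ n)))
      omega
    have hfinV : Finite V := Module.finite_of_finite F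
    have hfinQ : Finite (W ⧸ U) := Module.finite_of_finite F
    have hfinE : Finite (Module.End F (W ⧸ U)) := Module.finite_of_finite F
    have hker : Fac0 b φ.toHomUnits.ker := by
      refine ih (n + 1) (by omega) φ.toHomUnits.ker (ρ.comp φ.toHomUnits.ker.subtype)
        (hρ.comp Subtype.val_injective) (fun g n => hs g n) ?_
      intro k hk g v hv
      rcases Nat.lt_succ_iff_lt_or_eq.1 hk with hk | rfl
      · exact ht k hk g v hv
      · have h1 := g.2
        rw [MonoidHom.mem_ker] at h1
        have h2 : φ g = 1 := congrArg Units.val h1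
        have h3 : φ g (Submodule.Quotient.mk ⟨v, hv⟩) = Submodule.Quotient.mk ⟨v, hv⟩ := by
          rw [h2]
          rfl
        have h4 : (Submodule.Quotient.mk
            ((ρ g : V →ₗ[F] V).restrict (hm g (k + 1)) ⟨v, hv⟩) : W ⧸ U) =
            Submodule.Quotient.mk ⟨v, hv⟩ := h3
        rw [Submodule.Quotient.eq] at h4
        exact h4
    refine Fac0.ker φ.toHomUnits ?_ hker
    rcases hb n with h | h
    · right
      intro x y
      exact Units.ext (gpar0_comm (by rw [hdim, hW]; omega) _ _)
    · left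
      refine le_trans ?_ h
      have h1 : Nat.card (Module.End F (W ⧸ U))ˣ ≤ Nat.card (Module.End F (W ⧸ U)) :=
        Nat.card_le_card_of_injective _ Units.val_injective
      have h2 : Nat.card (Module.End F (W ⧸ U)) =
          Fintype.card F ^ ((Module.finrank F W - Module.finrank F (A n)) ^ 2) := by
        have h3 := Module.natCard_eq_pow_finrank (K := F) (V := Module.End F (W ⧸ U))
        rw [h3, Module.finrank_linearMap, hdim, Nat.card_eq_fintype_card, sq]
      rw [h2] at h1
      exact_mod_cast h1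

/-- A group that stabilizes a flag with small or one-dimensional steps. PROOF. Induction on `n`: let `ρ` also act trivially on
`A (k + 1) / A k` for `k < n`; downward: if `n = r` the elements are unipotent: `(ρ g - 1) ^ r = 0`, so
`ρ g ^ (p ^ e) = 1` for `p ^ e ≥ r` (`p` the characteristic), a `p`-group, solvable (`IsPGroup.isNilpotent`): `fac0_solvable`. Else `Γ`
acts on `A (n + 1) / A n`, by a homomorphism to a group with at most `|F| ^ (a ^ 2)` elements, `a` its dimension, commutative if
`a ≤ 1`: `Fac0.ker`. -/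
theorem flag_fac0 {F V Γ : Type} [Field F] [Fintype F] [AddCommGroup V] [Module F V]
    [FiniteDimensional F V] [Group Γ] (ρ : Γ →* (V ≃ₗ[F] V)) (hρ : Function.Injective ρ) (r : ℕ)
    (A : ℕ → Submodule F V) (hA : Monotone A) (hA0 : A 0 = ⊥) (hAr : A r = ⊤)
    (hs : ∀ g n, (A n).map (ρ g : V →ₗ[F] V) = A n) {b : ℝ}
    (hb : ∀ n, Module.finrank F (A (n + 1)) ≤ Module.finrank F (A n) + 1 ∨
      ((Fintype.card F ^ ((Module.finrank F (A (n + 1)) - Module.finrank F (A n)) ^ 2) : ℕ) : ℝ) ≤ b) :
    Fac0 b Γ := by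
  have hfinV : Finite V := Module.finite_of_finite F
  have hfinE : Finite (V ≃ₗ[F] V) :=
    Finite.of_injective (fun e : V ≃ₗ[F] V => (e : V → V)) DFunLike.coe_injective
  have hfinG : Finite Γ := Finite.of_injective ρ hρ
  exact gpar0_step r A hA hA0 hAr hb r 0 (by omega) Γ ρ hρ hs (fun k hk => absurd hk (by omega))

end MP0775d3.Ox
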