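import Mathlib

/-! Project OX: the number of conjugacy classes of `GL_m(F)`. -/

set_option linter.unusedSectionVars false
set_option linter.unusedVariables false

namespace MP0775d3.Ox

open Polynomial DirectSum

private theorem gla_conj {F : Type} [Field F] {m : ℕ} (A B : Matrix.GeneralLinearGroup (Fin m) F)
    (e : Module.AEval' (Matrix.toLin' (A : Matrix (Fin m) (Fin m) F)) ≃ₗ[F[X]]
      Module.AEval' (Matrix.toLin' (B : Matrix (Fin m) (Fin m) F))) : IsConj A B := by
  classical
  set φ := Matrix.toLin' (A : Matrix (Fin m) (Fin m) F) with hφ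
  set ψ := Matrix.toLin' (B : Matrix (Fin m) (Fin m) F) with hψ
  let g : (Fin m → F) ≃ₗ[F] (Fin m → F) :=
    (Module.AEval'.of φ).trans ((e.restrictScalars F).trans (Module.AEval'.of ψ).symm)
  have hg : ∀ v, g (φ v) = ψ (g v) := by
    intro v
    change (Module.AEval'.of ψ).symm (e (Module.AEval'.of φ (φ v))) =
      ψ ((Module.AEval'.of ψ).symm (e (Module.AEval'.of φ v)))
    rw [← Module.AEval'.of_symm_X_smul, ← Module.AEval'.X_smul_of, map_smul]
  let c : Matrix.GeneralLinearGroup (Fin m) F :=
    ⟨LinearMap.toMatrix' (g : (Fin m → F) →ₗ[F] (Fin m → F)),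
      LinearMap.toMatrix' (g.symm : (Fin m → F) →ₗ[F] (Fin m → F)),
      by rw [← LinearMap.toMatrix'_comp]; simp,
      by rw [← LinearMap.toMatrix'_comp]; simp⟩
  have hc : (c : Matrix (Fin m) (Fin m) F) = LinearMap.toMatrix' (g : (Fin m → F) →ₗ[F] (Fin m → F)) := rfl
  rw [isConj_iff]
  refine ⟨c, ?_⟩
  rw [mul_inv_eq_iff_eq_mul]
  ext1
  rw [Matrix.GeneralLinearGroup.coe_mul, Matrix.GeneralLinearGroup.coe_mul, hc]
  apply Matrix.toLin'.injective
  rw [Matrix.toLin'_mul, Matrix.toLin'_mul, Matrix.toLin'_toMatrix']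
  apply LinearMap.ext
  intro v
  exact hg v

/-- the product of the cyclic modules of a family -/
private abbrev GlaM (F : Type) [Field F] {k : ℕ} (f : Fin k → F[X]) : Type :=
  (i : Fin k) → F[X] ⧸ Ideal.span {f i}

private theorem gla_exists {F : Type} [Field F] {m : ℕ} (φ : Module.End F (Fin m → F)) :
    ∃ (k : ℕ) (f : Fin k → F[X]), (∀ i, (f i).Monic ∧ 0 < (f i).natDegree) ∧
      (∑ i, (f i).natDegree) = m ∧ Nonempty (Module.AEval' φ ≃ₗ[F[X]] GlaM F f) := by
  classical
  have ht : Module.IsTorsion F[X] (Module.AEval' φ) := Module.AEval.isTorsion_of_finiteDimensional F _ φ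
  obtain ⟨ι, _, p, hp, e, ⟨l⟩⟩ := Module.equiv_directSum_of_isTorsion ht
  -- the relevant indices
  let J := {i : ι // e i ≠ 0}
  let k := Fintype.card J
  let σ : Fin k ≃ J := (Fintype.equivFin J).symm
  let f : Fin k → F[X] := fun j => (p (σ j).1 ^ e (σ j).1) * C (p (σ j).1 ^ e (σ j).1).leadingCoeff⁻¹
  have hne : ∀ i, p i ^ e i ≠ 0 := fun i => pow_ne_zero _ (hp i).ne_zero
  have hf : ∀ i, (f i).Monic ∧ 0 < (f i).natDegree := by
    intro j
    refine ⟨Polynomial.monic_mul_leadingCoeff_inv (hne _), ?_⟩
    have h1 : (f j).natDegree = (p (σ j).1 ^ e (σ j).1).natDegree :=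
      Polynomial.natDegree_mul_leadingCoeff_inv _ (hne _)
    rw [h1, Polynomial.natDegree_pow]
    exact Nat.mul_pos (Nat.pos_of_ne_zero (σ j).2) (hp _).natDegree_pos
  have hs : ∀ j, Submodule.span F[X] {p (σ j).1 ^ e (σ j).1} = Ideal.span {f j} := by
    intro j
    have : Ideal.span {p (σ j).1 ^ e (σ j).1} = Ideal.span {f j} := by
      rw [Ideal.span_singleton_eq_span_singleton]
      refine associated_mul_unit_right _ _ ?_
      rw [Polynomial.isUnit_C]
      exact (inv_ne_zero (Polynomial.leadingCoeff_ne_zero.mpr (hne _))).isUnit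
    exact this
  have hsub : ∀ i : ι, ¬ e i ≠ 0 → Subsingleton (F[X] ⧸ Submodule.span F[X] {p i ^ e i}) := by
    intro i hi
    have h0 : e i = 0 := not_not.mp hi
    rw [Submodule.Quotient.subsingleton_iff, h0, pow_zero]
    exact Ideal.span_singleton_one
  let E1 : (⨁ i : ι, F[X] ⧸ Submodule.span F[X] {p i ^ e i}) ≃ₗ[F[X]]
      ((i : ι) → F[X] ⧸ Submodule.span F[X] {p i ^ e i}) :=
    DirectSum.linearEquivFunOnFintype F[X] ι (fun i => F[X] ⧸ Submodule.span F[X] {p i ^ e i})
  let E2 : ((i : ι) → F[X] ⧸ Submodule.span F[X] {p i ^ e i}) ≃ₗ[F[X]]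
      ((j : J) → F[X] ⧸ Submodule.span F[X] {p j.1 ^ e j.1}) :=
    { toFun := fun v j => v j.1
      invFun := fun w i => if h : e i ≠ 0 then w ⟨i, h⟩ else 0
      map_add' := fun _ _ => rfl
      map_smul' := fun _ _ => rfl
      left_inv := by
        intro v
        funext i
        by_cases h : e i ≠ 0
        · simp only [dif_pos h]
        · simp only [dif_neg h]
          exact (hsub i h).elim _ _
      right_inv := by
        intro w
        funext j
        simp only [dif_pos j.2]
        rfl }
  let E3 : ((j : J) → F[X] ⧸ Submodule.span F[X] {p j.1 ^ e j.1}) ≃ₗ[F[X]]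
      ((j : Fin k) → F[X] ⧸ Submodule.span F[X] {p (σ j).1 ^ e (σ j).1}) :=
    (LinearEquiv.piCongrLeft F[X] (fun j : J => F[X] ⧸ Submodule.span F[X] {p j.1 ^ e j.1}) σ).symm
  let E4 : ((j : Fin k) → F[X] ⧸ Submodule.span F[X] {p (σ j).1 ^ e (σ j).1}) ≃ₗ[F[X]] GlaM F f :=
    LinearEquiv.piCongrRight (fun j => Submodule.quotEquivOfEq _ _ (hs j))
  let E : Module.AEval' φ ≃ₗ[F[X]] GlaM F f := l.trans (E1.trans (E2.trans (E3.trans E4)))
  refine ⟨k, f, hf, ?_, ⟨E⟩⟩
  have h1 : Module.finrank F (Module.AEval' φ) = m := by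
    rw [← (Module.AEval'.of φ).finrank_eq, Module.finrank_fin_fun]
  have h2 : Module.finrank F (GlaM F f) = m := by
    rw [← (E.restrictScalars F).finrank_eq, h1]
  have hfin : ∀ j, Module.Finite F (F[X] ⧸ Ideal.span {f j}) := fun j => (hf j).1.finite_quotient
  rw [Module.finrank_pi_fintype] at h2
  rw [← h2]
  refine Finset.sum_congr rfl (fun j _ => ?_)
  exact finrank_quotient_span_eq_natDegree.symm

private theorem gla_count (F : Type) [Field F] [Fintype F] [DecidableEq F] (m : ℕ) :
    ∃ T : Finset (List F[X]), T.card ≤ (2 * Fintype.card F) ^ m ∧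
      ∀ L : List F[X], (∀ f ∈ L, f.Monic ∧ 0 < f.natDegree) → (L.map natDegree).sum = m → L ∈ T := by
  classical
  induction m using Nat.strong_induction_on with
  | _ m ih =>
    rcases Nat.eq_zero_or_pos m with rfl | hm
    · refine ⟨{[]}, by simp, ?_⟩
      intro L hL hs
      rw [Finset.mem_singleton]
      rcases L with _ | ⟨f, L⟩
      · rfl
      · exfalso
        have := (hL f (by simp)).2
        simp only [List.map_cons, List.sum_cons] at hs
        omega
    · choose! T hT hT' using ih
      let Mo : ℕ → Finset F[X] := fun d =>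
        (Finset.univ : Finset (Fin d → F)).image (fun v => X ^ d + ∑ i : Fin d, C (v i) * X ^ (i : ℕ))
      have hMo : ∀ d, (Mo d).card ≤ Fintype.card F ^ d := by
        intro d
        refine Finset.card_image_le.trans ?_
        rw [Finset.card_univ, Fintype.card_fun, Fintype.card_fin]
      have hMo' : ∀ f : F[X], f.Monic → f ∈ Mo f.natDegree := by
        intro f hf
        refine Finset.mem_image.mpr ⟨fun i => f.coeff i, Finset.mem_univ _, ?_⟩
        rw [Fin.sum_univ_eq_sum_range (fun i => C (f.coeff i) * X ^ i)]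
        exact hf.as_sum.symm
      refine ⟨(Finset.range m).biUnion (fun j => Finset.image₂ (fun f L => f :: L) (Mo (j + 1)) (T (m - (j + 1)))), ?_, ?_⟩
      · refine Finset.card_biUnion_le.trans ?_
        have h1 : ∀ j ∈ Finset.range m, (Finset.image₂ (fun f L => f :: L) (Mo (j + 1)) (T (m - (j + 1)))).card ≤
            Fintype.card F ^ m * 2 ^ (m - 1 - j) := by
          intro j hj
          have hj' := Finset.mem_range.mp hj
          refine (Finset.card_image₂_le _ _ _).trans ?_
          refine (Nat.mul_le_mul (hMo _) (hT _ (by omega))).trans ?_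
          have h2 : m = (j + 1) + (m - (j + 1)) := by omega
          have h3 : m - 1 - j = m - (j + 1) := by omega
          rw [h3, mul_pow]
          calc Fintype.card F ^ (j + 1) * (2 ^ (m - (j + 1)) * Fintype.card F ^ (m - (j + 1)))
              = (Fintype.card F ^ (j + 1) * Fintype.card F ^ (m - (j + 1))) * 2 ^ (m - (j + 1)) := by ring
            _ = Fintype.card F ^ m * 2 ^ (m - (j + 1)) := by rw [← pow_add, ← h2]
            _ ≤ _ := le_rfl
        refine (Finset.sum_le_sum h1).trans ?_
        rw [← Finset.mul_sum, Finset.sum_range_reflect (fun i => 2 ^ i) m, mul_pow, mul_comm (2 ^ m)]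
        refine Nat.mul_le_mul_left _ ?_
        have h4 : ∑ j ∈ Finset.range m, 2 ^ j = 2 ^ m - 1 := by
          rw [Nat.geomSum_eq le_rfl]
          simp
        rw [h4]
        exact Nat.sub_le _ _
      · intro L hL hs
        rcases L with _ | ⟨f, L⟩
        · exfalso
          simp only [List.map_nil, List.sum_nil] at hs
          omega
        · simp only [List.map_cons, List.sum_cons] at hs
          obtain ⟨hf1, hf2⟩ := hL f (by simp)
          refine Finset.mem_biUnion.mpr ⟨f.natDegree - 1, Finset.mem_range.mpr (by omega), ?_⟩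
          have h5 : f.natDegree - 1 + 1 = f.natDegree := by omega
          rw [h5]
          refine Finset.mem_image₂_of_mem (hMo' f hf1) ?_
          refine hT' _ (by omega) L (fun g hg => hL g (by simp [hg])) (by omega)

/-- PROOF. For `A` let `M` be `Fin m → F` as a module over `F[X]` (`Module.AEval'`, `X` acts as `A`); it is finite and torsion, so
`Module.equiv_directSum_of_isTorsion` gives `M ≃ ⨁ i, F[X] / (p i ^ e i)`, where the factors with `e i = 0` can be left out and
the polynomials can be taken monic. The degrees `d i ≥ 1` of the `p i ^ e i` have sum `m`. With an order of the index set: a composition of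
`m` (`composition_card`: `2 ^ (m - 1)` of them) and, for each block of length `d i`, the `d i` lower coefficients of `p i ^ e i`,
together a function `Fin m → F`. Two matrices with the same composition and the same function have isomorphic modules, hence are
conjugate (the linear isomorphism commutes with the action of `X`). -/
theorem card_conj_gl (F : Type) [Field F] [Fintype F] [DecidableEq F] (m : ℕ) :
    Nat.card (ConjClasses (Matrix.GeneralLinearGroup (Fin m) F)) ≤ (2 * Fintype.card F) ^ m := by
  classical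
  obtain ⟨T, hT, hT'⟩ := gla_count F m
  have hrep : ∀ c : ConjClasses (Matrix.GeneralLinearGroup (Fin m) F),
      ∃ (A : Matrix.GeneralLinearGroup (Fin m) F) (s : Σ k : ℕ, (Fin k → F[X])), ConjClasses.mk A = c ∧
        List.ofFn s.2 ∈ T ∧
        Nonempty (Module.AEval' (Matrix.toLin' (A : Matrix (Fin m) (Fin m) F)) ≃ₗ[F[X]] GlaM F s.2) := by
    intro c
    obtain ⟨A, hA⟩ := ConjClasses.exists_rep c
    obtain ⟨k, f, hf, hs, he⟩ := gla_exists (Matrix.toLin' (A : Matrix (Fin m) (Fin m) F))
    refine ⟨A, ⟨k, f⟩, hA, hT' _ ?_ ?_, he⟩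
    · intro g hg
      obtain ⟨i, hi⟩ := (List.mem_ofFn' f g).mp hg
      rw [← hi]
      exact hf i
    · rw [List.map_ofFn, List.sum_ofFn]
      exact hs
  choose A s hA hs he using hrep
  have hinj : Function.Injective (fun c : ConjClasses (Matrix.GeneralLinearGroup (Fin m) F) =>
      (⟨List.ofFn (s c).2, hs c⟩ : T)) := by
    intro c d hcd
    have h1 : List.ofFn (s c).2 = List.ofFn (s d).2 := congrArg Subtype.val hcd
    have h2 : s c = s d := List.ofFn_inj'.mp h1
    obtain ⟨e1⟩ := he c
    obtain ⟨e2⟩ := he d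
    rw [← h2] at e2
    rw [← hA c, ← hA d]
    exact ConjClasses.mk_eq_mk_iff_isConj.mpr (gla_conj _ _ (e1.trans e2.symm))
  have := Nat.card_le_card_of_injective _ hinj
  refine this.trans ?_
  rw [Nat.card_eq_fintype_card, Fintype.card_coe]
  exact hT

end MP0775d3.Ox
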