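import Pool.Agent.Lib.MP_0775d3_lc.Ox.GDefs
import Pool.Agent.Lib.MP_0775d3_lc.Ox.GFac

/-! Project OX: general linear groups lie in the class `Cls`. -/

set_option linter.unusedSectionVars false
set_option linter.unusedVariables false

namespace MP0775d3.Ox

private theorem glbx_congr {b : ℝ} {G : Type} [Group G] (h : Cls b G) :
    ∀ (G' : Type) [Group G'] (e : G ≃* G'), Cls b G' := by
  induction h with
  | one G hs =>
    intro G' _ e
    exact Cls.one G' e.symm.toEquiv.subsingleton
  | ext G N hN _ h3 ih =>
    intro G' _ e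
    have h1 : Cls b (N.map e.toMonoidHom) := ih _ (e.subgroupMap N)
    refine Cls.ext G' (N.map e.toMonoidHom) (hN.map e.toMonoidHom e.surjective) h1 ?_
    have hi : (N.map e.toMonoidHom).index = N.index := by
      exact Subgroup.index_map_of_bijective e.bijective N
    rw [hi]
    rcases h3 with h3 | h3 | ⟨Q, i, φ, hφ, hk, hQ⟩
    · exact Or.inl h3
    · exact Or.inr (Or.inl h3)
    · refine Or.inr (Or.inr ⟨Q, i, φ.comp e.symm.toMonoidHom, hφ.comp e.symm.surjective, ?_, hQ⟩)
      ext x
      rw [← hk]
      simp only [MonoidHom.mem_ker, MonoidHom.comp_apply, Subgroup.mem_map]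
      constructor
      · intro hx
        exact ⟨e.symm x, hx, by simp⟩
      · rintro ⟨y, hy, rfl⟩
        simpa using hy

private theorem glbx_extend {b : ℝ} {Q : Type} [Group Q] (h' : Fac0 b Q) :
    ∀ (G : Type) [Group G] (φ : G →* Q), Function.Surjective φ → Cls b φ.ker → Cls b G := by
  induction h' with
  | one Q hs =>
    intro G _ φ hφ h
    have htop : φ.ker = ⊤ := by
      ext x
      simp [MonoidHom.mem_ker, Subsingleton.elim (φ x) 1]
    rw [htop] at h
    exact glbx_congr h G Subgroup.topEquiv
  | ext Q N hN _ h3 ih =>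
    intro G _ φ hφ h
    have hM : Cls b (N.comap φ) := by
      refine ih (N.comap φ) (φ.subgroupComap N) ?_ ?_
      · intro y
        obtain ⟨x, hx⟩ := hφ y
        refine ⟨⟨x, ?_⟩, ?_⟩
        · rw [Subgroup.mem_comap, hx]
          exact y.2
        · exact Subtype.ext hx
      · have hle : φ.ker ≤ N.comap φ := Subgroup.ker_le_comap φ N
        have hk : (φ.subgroupComap N).ker = φ.ker.subgroupOf (N.comap φ) := by
          ext x
          rw [MonoidHom.mem_ker, Subgroup.mem_subgroupOf, MonoidHom.mem_ker, Subtype.ext_iff]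
          rfl
        rw [hk]
        exact glbx_congr h _ (Subgroup.subgroupOfEquivOfLe hle).symm
    refine Cls.ext G (N.comap φ) (hN.comap φ) hM ?_
    rw [Subgroup.index_comap_of_surjective N hφ]
    rcases h3 with h3 | h3
    · exact Or.inl h3
    · exact Or.inr (Or.inl h3)

private theorem glbx_sl (b : ℝ) (hb : 1 ≤ b) (F : Type) [Field F] [Fintype F] (m : ℕ) :
    Cls b (Matrix.SpecialLinearGroup (Fin m) F) := by
  refine Cls.ext _ ⊥ inferInstance (Cls.one _ inferInstance) (Or.inr (Or.inr ?_))
  refine ⟨Matrix.SpecialLinearGroup (Fin m) F, inferInstance, MonoidHom.id _,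
    Function.surjective_id, ?_, Or.inr ?_⟩
  · ext x
    simp
  · refine ⟨F, inferInstance, inferInstance, m, MonoidHom.id _, ?_, ?_⟩
    · intro g hg
      refine ⟨1, ?_⟩
      have h1 : g = 1 := hg
      rw [h1]
      simp
    · have h2 : (MonoidHom.id (Matrix.SpecialLinearGroup (Fin m) F)).range = ⊤ :=
        MonoidHom.range_eq_top.2 Function.surjective_id
      rw [h2, Subgroup.index_top]
      simpa using hb

/-- The general linear group of a finite field is in the class `Cls`. -/
theorem cls_gl_aux (b : ℝ) (hb : 1 ≤ b) (F : Type) [Field F] [Finite F] (m : ℕ) :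
    Cls b (Matrix.GeneralLinearGroup (Fin m) F) := by
  have := Fintype.ofFinite F
  have hr : (Matrix.SpecialLinearGroup.toGL :
      Matrix.SpecialLinearGroup (Fin m) F →* Matrix.GeneralLinearGroup (Fin m) F).range =
      (Matrix.GeneralLinearGroup.det :
        Matrix.GeneralLinearGroup (Fin m) F →* Fˣ).rangeRestrict.ker := by
    rw [MonoidHom.ker_rangeRestrict]
    ext x
    rw [MonoidHom.mem_range, MonoidHom.mem_ker]
    constructor
    · rintro ⟨y, rfl⟩
      exact Matrix.SpecialLinearGroup.coeToGL_det y
    · intro hx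
      refine ⟨⟨x.val, ?_⟩, ?_⟩
      · exact congrArg Units.val hx
      · exact Units.ext rfl
  have h1 : Cls b (Matrix.GeneralLinearGroup.det :
        Matrix.GeneralLinearGroup (Fin m) F →* Fˣ).rangeRestrict.ker := by
    refine glbx_congr (glbx_sl b hb F m) _
      ((MonoidHom.ofInjective Matrix.SpecialLinearGroup.toGL_injective).trans
        (MulEquiv.subgroupCongr hr))
  have h2 : Group.IsSolvable (Matrix.GeneralLinearGroup.det :
        Matrix.GeneralLinearGroup (Fin m) F →* Fˣ).range :=
    Group.isSolvable_of_comm fun x y => Subtype.ext (mul_comm (x : Fˣ) (y : Fˣ))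
  exact glbx_extend (fac0_solvable b _) _ _
    (MonoidHom.rangeRestrict_surjective _) h1

end MP0775d3.Ox
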