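import Pool.Agent.Lib.MP_0775d3_lc.Ox.GlA
import Pool.Agent.Lib.MP_0775d3_lc.Ox.SymRig
import Pool.Agent.Lib.MP_0775d3_lc.Ox.GDefs
import Pool.Agent.Lib.MP_0775d3_lc.Ox.GlBX

/-! Project OX: general linear groups. -/

set_option linter.unusedSectionVars false
set_option linter.unusedVariables false

namespace MP0775d3.Ox

private theorem glB_lower (q m : ℕ) (hq : 2 ≤ q) :
    q ^ (m * m) ≤ 2 ^ m * ∏ i : Fin m, (q ^ m - q ^ (i : ℕ)) := by
  have h : ∀ i : Fin m, q ^ m ≤ 2 * (q ^ m - q ^ (i : ℕ)) := by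
    intro i
    have h1 : 2 * q ^ (i : ℕ) ≤ q ^ m := by
      calc 2 * q ^ (i : ℕ) ≤ q * q ^ (i : ℕ) := Nat.mul_le_mul_right _ hq
        _ = q ^ ((i : ℕ) + 1) := by ring
        _ ≤ q ^ m := Nat.pow_le_pow_right (by omega) i.2
    omega
  calc q ^ (m * m) = ∏ _i : Fin m, q ^ m := by
        rw [Finset.prod_const, Finset.card_univ, Fintype.card_fin, ← pow_mul]
    _ ≤ ∏ i : Fin m, (2 * (q ^ m - q ^ (i : ℕ))) := Finset.prod_le_prod' fun i _ => h i
    _ = 2 ^ m * ∏ i : Fin m, (q ^ m - q ^ (i : ℕ)) := by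
        rw [Finset.prod_mul_distrib, Finset.prod_const, Finset.card_univ, Fintype.card_fin]

private theorem glB_upper (q m : ℕ) :
    ∏ i : Fin m, (q ^ m - q ^ (i : ℕ)) ≤ q ^ (m * m) := by
  calc ∏ i : Fin m, (q ^ m - q ^ (i : ℕ)) ≤ ∏ _i : Fin m, q ^ m :=
        Finset.prod_le_prod' fun i _ => Nat.sub_le _ _
    _ = q ^ (m * m) := by
        rw [Finset.prod_const, Finset.card_univ, Fintype.card_fin, ← pow_mul]

private theorem glB_arith (q m : ℕ) (hq : 2 ≤ q) (hm : 2 ≤ m) (hn : 10 ^ 4 ≤ q ^ (m * m)) :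
    2 ^ (8 + 15 * m) * q ^ (8 * m) ≤ q ^ (7 * (m * m)) := by
  obtain ⟨e, he⟩ : ∃ e, 7 * (m * m) = e + 8 * m := by
    have h8 : 8 * m ≤ 7 * (m * m) := by nlinarith
    exact ⟨7 * (m * m) - 8 * m, (Nat.sub_add_cancel h8).symm⟩
  rw [he, pow_add q]
  refine Nat.mul_le_mul_right _ ?_
  rcases Nat.lt_or_ge m 4 with h4 | h4
  · interval_cases m
    · have h10 : 10 ≤ q := by
        by_contra h
        have h1 : q ≤ 9 := by omega
        have h2 : q ^ (2 * 2) ≤ 9 ^ (2 * 2) := Nat.pow_le_pow_left h1 _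
        norm_num at h2 hn
        omega
      have he' : e = 12 := by omega
      subst he'
      calc 2 ^ (8 + 15 * 2) ≤ 10 ^ 12 := by norm_num
        _ ≤ q ^ 12 := Nat.pow_le_pow_left h10 _
    · have h3 : 3 ≤ q := by
        by_contra h
        have h1 : q = 2 := by omega
        subst h1
        norm_num at hn
      have he' : e = 39 := by omega
      subst he'
      calc 2 ^ (8 + 15 * 3) ≤ 3 ^ 39 := by norm_num
        _ ≤ q ^ 39 := Nat.pow_le_pow_left h3 _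
  · have h5 : 8 + 15 * m ≤ e := by nlinarith
    calc 2 ^ (8 + 15 * m) ≤ 2 ^ e := Nat.pow_le_pow_right (by norm_num) h5
      _ ≤ q ^ e := Nat.pow_le_pow_left hq _

private theorem glB_key (q m N : ℕ) (hq : 2 ≤ q) (hm : 2 ≤ m)
    (hN : N = ∏ i : Fin m, (q ^ m - q ^ (i : ℕ))) (hn : 10 ^ 4 ≤ N) :
    (2 * (2 * q) ^ m) ^ 8 ≤ N ^ 7 := by
  have h1 := glB_lower q m hq
  have h2 := glB_upper q m
  rw [← hN] at h1 h2
  have h3 := glB_arith q m hq hm (hn.trans h2)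
  have h4 : q ^ (7 * (m * m)) ≤ 2 ^ (7 * m) * N ^ 7 := by
    calc q ^ (7 * (m * m)) = (q ^ (m * m)) ^ 7 := by rw [← pow_mul, mul_comm]
      _ ≤ (2 ^ m * N) ^ 7 := Nat.pow_le_pow_left h1 _
      _ = 2 ^ (7 * m) * N ^ 7 := by rw [mul_pow, ← pow_mul, mul_comm m 7]
  have h5 : 2 ^ (7 * m) * (2 * (2 * q) ^ m) ^ 8 ≤ 2 ^ (7 * m) * N ^ 7 := by
    calc 2 ^ (7 * m) * (2 * (2 * q) ^ m) ^ 8 = 2 ^ (8 + 15 * m) * q ^ (8 * m) := by
          rw [mul_pow 2 ((2 * q) ^ m) 8, ← pow_mul, mul_pow 2 q, show 8 + 15 * m = 7 * m + 8 + m * 8 by ring,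
            pow_add, pow_add, mul_comm m 8]
          ring
      _ ≤ _ := h3.trans h4
  exact Nat.le_of_mul_le_mul_left h5 (by positivity)

/-- PROOF. `mass_commProb`, `q = |F|`, `n` the order of `GL_m(F)`: `n ≥ q ^ (m ^ 2) / 2 ^ m` (`Matrix.card_GL_field`, every factor
`q ^ m - q ^ i ≥ q ^ m / 2`), `n ≤ q ^ (m ^ 2)`, `commProb ≤ (2 q) ^ m / n` (`card_conj_gl`), so
`1 / (2 * commProb) ≥ q ^ (m ^ 2 - m) / (2 * 4 ^ m) ≥ q ^ (m ^ 2 / 8) ≥ n ^ (1 / 8)` if `n ≥ 10 ^ 4`: this excludes `m = 2`, `q ≤ 10` and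
`m = 3`, `q = 2`. (`m = 2`: `q ^ (3 / 2) ≥ 32` for `q ≥ 11`; `m = 3`: `q ^ (39 / 8) ≥ 128` for `q ≥ 3`; `m ≥ 4`:
`7 m ^ 2 / 8 - m ≥ 1 + 2 m`.) -/
theorem mass_gl (F : Type) [Field F] [Finite F] (m : ℕ) (hm : 2 ≤ m)
    (hn : 10 ^ 4 ≤ Nat.card (Matrix.GeneralLinearGroup (Fin m) F)) :
    Mass (Matrix.GeneralLinearGroup (Fin m) F)
      ((Nat.card (Matrix.GeneralLinearGroup (Fin m) F) : ℝ) ^ (1 / 16 : ℝ))
      (1 / 16 * Nat.card (Matrix.GeneralLinearGroup (Fin m) F)) := by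
  classical
  have : Fintype F := Fintype.ofFinite F
  have hq : 2 ≤ Fintype.card F := Fintype.one_lt_card
  have hc0 := card_conj_gl F m
  have hNcard : Nat.card (Matrix.GeneralLinearGroup (Fin m) F) =
      ∏ i : Fin m, (Fintype.card F ^ m - Fintype.card F ^ (i : ℕ)) := Matrix.card_GL_field m
  have hkey := glB_key (Fintype.card F) m _ hq hm hNcard hn
  have hm1 := mass_commProb (Matrix.GeneralLinearGroup (Fin m) F)
  have hcp : (commProb (Matrix.GeneralLinearGroup (Fin m) F) : ℝ) =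
      (Nat.card (ConjClasses (Matrix.GeneralLinearGroup (Fin m) F)) : ℝ) /
        (Nat.card (Matrix.GeneralLinearGroup (Fin m) F) : ℝ) := by
    rw [commProb_def']
    push_cast
    rfl
  have hcpos : (0 : ℝ) < (commProb (Matrix.GeneralLinearGroup (Fin m) F) : ℝ) := by
    exact_mod_cast commProb_pos _
  obtain ⟨N, hN⟩ : ∃ N : ℝ, N = (Nat.card (Matrix.GeneralLinearGroup (Fin m) F) : ℝ) := ⟨_, rfl⟩
  obtain ⟨K, hK⟩ : ∃ K : ℝ, K = (((2 * Fintype.card F) ^ m : ℕ) : ℝ) := ⟨_, rfl⟩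
  have hN0 : (0 : ℝ) < N := by
    rw [hN]
    exact_mod_cast (lt_of_lt_of_le (by norm_num) hn : 0 < Nat.card (Matrix.GeneralLinearGroup (Fin m) F))
  have hK0 : (0 : ℝ) ≤ K := by rw [hK]; exact Nat.cast_nonneg _
  have hkey' : (2 * K) ^ 8 ≤ N ^ 7 := by
    rw [hK, hN]
    exact_mod_cast hkey
  have h2K : 2 * K ≤ N ^ (7 / 8 : ℝ) := by
    calc 2 * K = ((2 * K) ^ 8) ^ (1 / 8 : ℝ) := by
          rw [← Real.rpow_natCast (2 * K) 8, ← Real.rpow_mul (by positivity)]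
          norm_num
      _ ≤ (N ^ 7) ^ (1 / 8 : ℝ) := Real.rpow_le_rpow (by positivity) hkey' (by norm_num)
      _ = N ^ (7 / 8 : ℝ) := by
          rw [← Real.rpow_natCast N 7, ← Real.rpow_mul hN0.le]
          norm_num
  have hc : (commProb (Matrix.GeneralLinearGroup (Fin m) F) : ℝ) ≤ K / N := by
    rw [hcp, ← hN, hK]
    exact div_le_div_of_nonneg_right (by exact_mod_cast hc0) hN0.le
  rw [← hN] at hm1 ⊢
  refine hm1.mono ?_ (by linarith)
  have h3 : N ^ (1 / 8 : ℝ) ≤ 1 / (2 * (commProb (Matrix.GeneralLinearGroup (Fin m) F) : ℝ)) := by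
    rw [le_div_iff₀ (by positivity)]
    have h6 : N ^ (1 / 8 : ℝ) * N ^ (7 / 8 : ℝ) = N := by
      rw [← Real.rpow_add hN0]
      norm_num
    calc N ^ (1 / 8 : ℝ) * (2 * (commProb (Matrix.GeneralLinearGroup (Fin m) F) : ℝ))
        ≤ N ^ (1 / 8 : ℝ) * (2 * (K / N)) := by
          refine mul_le_mul_of_nonneg_left (by linarith) (Real.rpow_nonneg hN0.le _)
      _ = N ^ (1 / 8 : ℝ) * (2 * K) / N := by ring
      _ ≤ N ^ (1 / 8 : ℝ) * N ^ (7 / 8 : ℝ) / N := by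
          refine div_le_div_of_nonneg_right (mul_le_mul_of_nonneg_left h2K
            (Real.rpow_nonneg hN0.le _)) hN0.le
      _ = 1 := by rw [h6, div_self hN0.ne']
  calc N ^ (1 / 16 : ℝ) = (N ^ (1 / 8 : ℝ)) ^ (1 / 2 : ℝ) := by
        rw [← Real.rpow_mul hN0.le]
        norm_num
    _ ≤ _ := Real.rpow_le_rpow (Real.rpow_nonneg hN0.le _) h3 (by norm_num)

/-- PROOF. `SL_m(F)` is of linear type with the identity (index `1 ≤ b`), so in the class with `N = ⊥`; it is the kernel of the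
determinant (up to isomorphism: show first that `Cls` is closed under isomorphisms, as `Fac.congr`), the quotient embeds in the cyclic
group `Fˣ`: a chain of normal subgroups of prime index (as `Fac.extend` with `fac_solvable`, proved for `Cls` here). -/
theorem cls_gl (b : ℝ) (hb : 1 ≤ b) (F : Type) [Field F] [Finite F] (m : ℕ) :
    Cls b (Matrix.GeneralLinearGroup (Fin m) F) := by
  exact cls_gl_aux b hb F m

end MP0775d3.Ox
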