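import Pool.Agent.Lib.MP_0775d3_lc.Ox.GlB
import Pool.Agent.Lib.MP_0775d3_lc.Ox.Cor

/-! Project OX: general linear groups, the corollary. -/

set_option linter.unusedSectionVars false
set_option linter.unusedVariables false

namespace MP0775d3.Ox

open MP0775d3.Om

theorem someRigid_gl (F : ℕ → Type) [∀ k, Field (F k)] [∀ k, Finite (F k)] (m : ℕ → ℕ)
    [∀ k, Fintype (Matrix.GeneralLinearGroup (Fin (m k)) (F k))] (hm : ∀ k, 2 ≤ m k)
    (hG : Filter.Tendsto (fun k => Fintype.card (Matrix.GeneralLinearGroup (Fin (m k)) (F k)))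
      Filter.atTop Filter.atTop) :
    (SomeRigid fun k => Matrix.GeneralLinearGroup (Fin (m k)) (F k)) ↔ 2 < omega := by
  have hc : ∀ k, Nat.card (Matrix.GeneralLinearGroup (Fin (m k)) (F k)) =
      Fintype.card (Matrix.GeneralLinearGroup (Fin (m k)) (F k)) := fun k =>
    Nat.card_eq_fintype_card
  have hT := allTame_of_cls (fun k => Matrix.GeneralLinearGroup (Fin (m k)) (F k)) hG
    (fun η hη => ⟨0, fun k _ => cls_gl _ (Real.one_le_rpow (by
      exact_mod_cast Fintype.card_pos) hη.le) (F k) (m k)⟩)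
  rw [(someRigid_iff _ hG hT).1]
  refine ⟨fun h => h.1, fun h => ⟨h, 1 / 16, by norm_num, ?_⟩⟩
  obtain ⟨k₀, hk₀⟩ := Filter.eventually_atTop.1 (Filter.tendsto_atTop.1 hG (10 ^ 4))
  refine ⟨k₀, fun k hk => ?_⟩
  have h1 := mass_gl (F k) (m k) (hm k) (by rw [hc]; exact hk₀ k hk)
  rw [hc] at h1
  exact h1

end MP0775d3.Ox
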