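import Pool.Agent.Lib.MP_0775d3_lc.Ox.LDefs
import Pool.Agent.Lib.MP_0775d3_lc.Ox.WD

/-! Project OX: low part, one double coset. -/

set_option linter.unusedSectionVars false
set_option linter.unusedVariables false

namespace MP0775d3.Ox

open Matrix MP0775d3.Cf

variable {H D : Type} [Group H] [Group D] {S : Sys H} {T : Sys D} {u v : D →* H}
  (bu : Br u S T) (bv : Br v S T) {R : Type} [Fintype R] [DecidableEq R] (r : R → H)

private theorem lw_kron {X X' Y : Type} [DecidableEq Y] (A : Matrix X X' ℂ) :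
    Matrix.kroneckerMap (· * ·) A (1 : Matrix Y Y ℂ) = Matrix.of fun (p : X × Y) (q : X' × Y) =>
      if p.2 = q.2 then A p.1 q.1 else 0 := by
  ext p q
  rw [Matrix.kroneckerMap_apply, Matrix.one_apply, Matrix.of_apply, mul_ite, mul_one, mul_zero]

private theorem lw_bx {X X' Y : Type} [Fintype Y] [DecidableEq Y] {A : Matrix X X' ℂ} {w s : ℝ}
    {t : ℕ} (h : Bx w s t A) (ht : 1 ≤ t) :
    Bx (Fintype.card Y * w) s t (Matrix.kroneckerMap (· * ·) A (1 : Matrix Y Y ℂ)) := by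
  rw [lw_kron]
  exact h.tensor_one ht

private theorem lw_bd {I : Type} [DecidableEq I] {X Y : I → Type} (A : ∀ i, Matrix (X i) (Y i) ℂ)
    (p : I → Prop) [DecidablePred p] (i : I) (x : X i) (y : Σ i, Y i) :
    Matrix.blockDiagonal' (fun i => if p i then A i else 0) ⟨i, x⟩ y =
      if p i then Matrix.blockDiagonal' A ⟨i, x⟩ y else 0 := by
  obtain ⟨j, y⟩ := y
  by_cases h : i = j
  · subst h
    rw [Matrix.blockDiagonal'_apply_eq, Matrix.blockDiagonal'_apply_eq]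
    split_ifs <;> rfl
  · rw [Matrix.blockDiagonal'_apply_ne _ _ _ h, Matrix.blockDiagonal'_apply_ne _ _ _ h]
    split_ifs <;> rfl

/-- The first layer. -/
private def lwA (F : Matrix (Σ i, S.D i × S.D i) H ℂ) (R : Type) [DecidableEq R] :
    Matrix ((Σ i, S.D i × S.D i) × R) (H × R) ℂ :=
  Matrix.kroneckerMap (· * ·) F (1 : Matrix R R ℂ)

/-- The second layer. -/
private noncomputable def lwB (L : ℝ) :
    Matrix (Σ i, S.D i × ((Σ k, T.D k × bu.M i k) × R)) ((Σ i, S.D i × S.D i) × R) ℂ :=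
  (Matrix.blockDiagonal' fun i => if (Fintype.card (S.D i) : ℝ) ≤ L then
    Matrix.kroneckerMap (· * ·) (bu.B i)ᵀ (1 : Matrix (S.D i × R) (S.D i × R) ℂ) else 0).submatrix
    (fun p => ⟨p.1, (p.2.2.1, (p.2.1, p.2.2.2))⟩) (fun q => ⟨q.1.1, (q.1.2.2, (q.1.2.1, q.2))⟩)

/-- The third layer. -/
private noncomputable def lwC (φ : ∀ k, (Σ i, S.D i × bu.M i k) → R × T.D k)
    (F' : Matrix D (Σ i, T.D i × T.D i) ℂ) :
    Matrix ((D × R) × R) (Σ i, S.D i × ((Σ k, T.D k × bu.M i k) × R)) ℂ :=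
  (Matrix.kroneckerMap (· * ·) F' (1 : Matrix (R × R) (R × R) ℂ)).submatrix
    (fun p => (p.1.1, (p.1.2, p.2)))
    (fun q => (⟨q.2.2.1.1, ((φ q.2.2.1.1 ⟨q.1, (q.2.1, q.2.2.1.2.2)⟩).2, q.2.2.1.2.1)⟩,
      (q.2.2.2, (φ q.2.2.1.1 ⟨q.1, (q.2.1, q.2.2.1.2.2)⟩).1)))

/-- The fourth layer. -/
private def lwD (F : Matrix (Σ i, S.D i × S.D i) H ℂ) (v : D →* H) (r : R → H) :
    Matrix ((Σ j, S.D j × S.D j) × R) ((D × R) × R) ℂ :=
  (Matrix.kroneckerMap (· * ·) F (1 : Matrix R R ℂ)).submatrix id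
    (fun q => (v q.1.1 * r q.1.2, q.2))

/-- The fifth layer. -/
private noncomputable def lwE (L : ℝ) :
    Matrix (Σ j, ((Σ k, T.D k × bv.M j k) × S.D j) × R) ((Σ j, S.D j × S.D j) × R) ℂ :=
  (Matrix.blockDiagonal' fun j => if (Fintype.card (S.D j) : ℝ) ≤ L then
    Matrix.kroneckerMap (· * ·) (bv.B' j) (1 : Matrix (S.D j × R) (S.D j × R) ℂ) else 0).submatrix
    (fun p => ⟨p.1, (p.2.1.1, (p.2.1.2, p.2.2))⟩) (fun q => ⟨q.1.1, (q.1.2.1, (q.1.2.2, q.2))⟩)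

private theorem lwB_apply (L : ℝ) (p : Σ i, S.D i × ((Σ k, T.D k × bu.M i k) × R))
    (q : (Σ i, S.D i × S.D i) × R) :
    lwB bu L p q = if (Fintype.card (S.D p.1) : ℝ) ≤ L then mB bu p q else 0 :=
  lw_bd (fun i => Matrix.kroneckerMap (· * ·) (bu.B i)ᵀ
    (1 : Matrix (S.D i × R) (S.D i × R) ℂ)) (fun i => (Fintype.card (S.D i) : ℝ) ≤ L) p.1
    (p.2.2.1, (p.2.1, p.2.2.2)) ⟨q.1.1, (q.1.2.2, (q.1.2.1, q.2))⟩

private theorem lwE_apply (L : ℝ) (p : Σ j, ((Σ k, T.D k × bv.M j k) × S.D j) × R)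
    (q : (Σ i, S.D i × S.D i) × R) :
    lwE bv L p q = if (Fintype.card (S.D p.1) : ℝ) ≤ L then mE bv p q else 0 :=
  lw_bd (fun i => Matrix.kroneckerMap (· * ·) (bv.B' i)
    (1 : Matrix (S.D i × R) (S.D i × R) ℂ)) (fun i => (Fintype.card (S.D i) : ℝ) ≤ L) p.1
    (p.2.1.1, (p.2.1.2, p.2.2)) ⟨q.1.1, (q.1.2.1, (q.1.2.2, q.2))⟩

private theorem lwB_ne (p : Σ i, S.D i × ((Σ k, T.D k × bu.M i k) × R))
    (q : (Σ i, S.D i × S.D i) × R) (h : p.1 ≠ q.1.1) : mB bu p q = 0 := by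
  change (Matrix.blockDiagonal' fun i => Matrix.kroneckerMap (· * ·) (bu.B i)ᵀ
    (1 : Matrix (S.D i × R) (S.D i × R) ℂ)) ⟨p.1, (p.2.2.1, (p.2.1, p.2.2.2))⟩
      ⟨q.1.1, (q.1.2.2, (q.1.2.1, q.2))⟩ = 0
  rw [Matrix.blockDiagonal'_apply_ne _ _ _ h]

private theorem lwE_ne (p : Σ j, ((Σ k, T.D k × bv.M j k) × S.D j) × R)
    (q : (Σ i, S.D i × S.D i) × R) (h : p.1 ≠ q.1.1) : mE bv p q = 0 := by
  change (Matrix.blockDiagonal' fun j => Matrix.kroneckerMap (· * ·) (bv.B' j)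
    (1 : Matrix (S.D j × R) (S.D j × R) ℂ)) ⟨p.1, (p.2.1.1, (p.2.1.2, p.2.2))⟩
      ⟨q.1.1, (q.1.2.1, (q.1.2.2, q.2))⟩ = 0
  rw [Matrix.blockDiagonal'_apply_ne _ _ _ h]

private theorem lwBA_apply {L : ℝ} (F : Matrix (Σ i, S.D i × S.D i) H ℂ) (hFL : S.Low L F)
    (p : Σ i, S.D i × ((Σ k, T.D k × bu.M i k) × R)) (q : H × R) :
    (lwB bu (R := R) L * lwA F R) p q =
      if (Fintype.card (S.D p.1) : ℝ) ≤ L then mBA bu p q else 0 := by
  rw [mBA, Matrix.mul_apply, Matrix.mul_apply]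
  by_cases h : (Fintype.card (S.D p.1) : ℝ) ≤ L
  · rw [if_pos h]
    refine Finset.sum_congr rfl fun x _ => ?_
    rw [lwB_apply, if_pos h]
    by_cases h1 : p.1 = x.1.1
    · have h2 : lwA F R x q = mA S R x q := by
        change F x.1 q.1 * (1 : Matrix R R ℂ) x.2 q.2 = S.F x.1 q.1 * (1 : Matrix R R ℂ) x.2 q.2
        rw [hFL x.1 q.1 (by rw [← h1]; exact h)]
      rw [h2]
    · rw [lwB_ne bu p x h1, zero_mul, zero_mul]
  · rw [if_neg h]
    refine Finset.sum_eq_zero fun x _ => ?_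
    rw [lwB_apply, if_neg h, zero_mul]

private theorem lwED_apply {L : ℝ} (F : Matrix (Σ i, S.D i × S.D i) H ℂ) (hFL : S.Low L F)
    (p : Σ j, ((Σ k, T.D k × bv.M j k) × S.D j) × R) (q : (D × R) × R)
    (h : (Fintype.card (S.D p.1) : ℝ) ≤ L) :
    (lwE bv (R := R) L * lwD F v r) p q = mED bv r p q := by
  rw [mED, Matrix.mul_apply, Matrix.mul_apply]
  refine Finset.sum_congr rfl fun x _ => ?_
  rw [lwE_apply, if_pos h]
  by_cases h1 : p.1 = x.1.1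
  · have h2 : lwD F v r x q = mD S v r x q := by
      change F x.1 (v q.1.1 * r q.1.2) * (1 : Matrix R R ℂ) x.2 q.2 =
        S.F x.1 (v q.1.1 * r q.1.2) * (1 : Matrix R R ℂ) x.2 q.2
      rw [hFL x.1 _ (by rw [← h1]; exact h)]
    rw [h2]
  · rw [lwE_ne bv p x h1, zero_mul, zero_mul]

/-- A representation of `D` below a representation of dimension at most `L`. -/
private theorem lw_dim {L : ℝ} (i : S.I) (k : T.I) (m : bu.M i k)
    (h : (Fintype.card (S.D i) : ℝ) ≤ L) : (Fintype.card (T.D k) : ℝ) ≤ L := by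
  refine le_trans ?_ h
  have h1 : Fintype.card (T.D k) * Fintype.card (bu.M i k) ≤ Fintype.card (S.D i) := by
    rw [← bu.card i]
    exact Finset.single_le_sum (f := fun k => Fintype.card (T.D k) * Fintype.card (bu.M i k))
      (fun j _ => Nat.zero_le _) (Finset.mem_univ k)
  have h2 : 1 ≤ Fintype.card (bu.M i k) := Fintype.card_pos_iff.2 ⟨m⟩
  have h3 : Fintype.card (T.D k) ≤ Fintype.card (S.D i) := by nlinarith
  exact_mod_cast h3

private theorem lwEDC_apply [Fintype D] [DecidableEq D]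
    (φ : ∀ k, (Σ i, S.D i × bu.M i k) → R × T.D k) {L : ℝ}
    (F : Matrix (Σ i, S.D i × S.D i) H ℂ) (hFL : S.Low L F)
    (F' : Matrix D (Σ i, T.D i × T.D i) ℂ)
    (hF' : ∀ g z, (Fintype.card (T.D z.1) : ℝ) ≤ L → F' g z = T.F' g z)
    (p : Σ j, ((Σ k, T.D k × bv.M j k) × S.D j) × R)
    (q : Σ i, S.D i × ((Σ k, T.D k × bu.M i k) × R))
    (h : (Fintype.card (S.D p.1) : ℝ) ≤ L) (h' : (Fintype.card (S.D q.1) : ℝ) ≤ L) :
    ((lwE bv (R := R) L * lwD F v r) * lwC bu φ F') p q = mEDC bu bv r φ p q := by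
  rw [mEDC, Matrix.mul_apply, Matrix.mul_apply]
  refine Finset.sum_congr rfl fun x _ => ?_
  rw [lwED_apply bv r F hFL p x h]
  have h2 : lwC bu φ F' x q = mC bu φ x q := by
    change F' x.1.1 ⟨q.2.2.1.1, ((φ q.2.2.1.1 ⟨q.1, (q.2.1, q.2.2.1.2.2)⟩).2, q.2.2.1.2.1)⟩ *
      (1 : Matrix (R × R) (R × R) ℂ) (x.1.2, x.2)
        (q.2.2.2, (φ q.2.2.1.1 ⟨q.1, (q.2.1, q.2.2.1.2.2)⟩).1) =
      T.F' x.1.1 ⟨q.2.2.1.1, ((φ q.2.2.1.1 ⟨q.1, (q.2.1, q.2.2.1.2.2)⟩).2, q.2.2.1.2.1)⟩ *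
      (1 : Matrix (R × R) (R × R) ℂ) (x.1.2, x.2)
        (q.2.2.2, (φ q.2.2.1.1 ⟨q.1, (q.2.1, q.2.2.1.2.2)⟩).1)
    rw [hF' x.1.1 ⟨q.2.2.1.1, ((φ q.2.2.1.1 ⟨q.1, (q.2.1, q.2.2.1.2.2)⟩).2, q.2.2.1.2.1)⟩
      (lw_dim bu q.1 q.2.2.1.1 q.2.2.1.2.2 h')]
  rw [h2]

private theorem lw_zero [Fintype D] [DecidableEq D]
    (φ : ∀ k, (Σ i, S.D i × bu.M i k) → R × T.D k) (hφ : ∀ k, Function.Injective (φ k))
    (z : WI bu bv) (q : Σ i, S.D i × ((Σ k, T.D k × bu.M i k) × R)) (h : q.1 ≠ z.1.1) :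
    mEDC bu bv r φ (wf bu bv φ z) q = 0 := by
  obtain ⟨i, a, ⟨k₁, c, μ⟩, ρ⟩ := q
  obtain ⟨⟨i₀, j⟩, ⟨a₀, b⟩, ⟨k, μ₀, ν⟩⟩ := z
  change mEDC bu bv r φ ⟨j, ((⟨k, ((φ k ⟨i₀, (a₀, μ₀)⟩).2, ν)⟩, b), (φ k ⟨i₀, (a₀, μ₀)⟩).1)⟩
    ⟨i, (a, (⟨k₁, (c, μ)⟩, ρ))⟩ = 0
  by_cases hk : k = k₁
  · subst hk
    rw [mEDC_same, if_neg]
    intro h1
    have h2 : φ k ⟨i, (a, μ)⟩ = φ k ⟨i₀, (a₀, μ₀)⟩ := h1
    exact h (Sigma.mk.inj (hφ k h2)).1
  · exact mEDC_ne bu bv r φ j hk _ _ _ _ _ _ _ _ _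

/-- PROOF. `exists_phi`. The layers: `E' = mE` with the blocks `|S.D j| > L` replaced by zero, `D' = mD` with `F` in place of `S.F`,
`C' = mC` with `F'` (`Sys.low'` for `T`) in place of `T.F'`, `B' = mB` with the blocks `|S.D i| > L` replaced by zero,
`A' = mA` with `F` in place of `S.F`; `W' = (E' D' C' (B' A')).submatrix (wf ..) id`. Widths as in `w_bx`, `E'`, `B'` one layer
(`bx_layer`: at most `L ≤ s` rows and columns). Equality for `|S.D z.1.1|, |S.D z.1.2| ≤ L`: the row `wf z` of `E' D'` is that of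
`mED`; the row `⟨i, ..⟩` of `B' A'` is zero if `|S.D i| > L`, else that of `mBA`; in the columns `⟨i, (a, (⟨k, (c, μ)⟩, ρ))⟩` with
`|S.D i| ≤ L` also `|T.D k| ≤ L` (`Br.card`), so there `E' D' C' = mEDC` in the row `wf z`; and `mEDC` vanishes there if `|S.D i| > L`
(`mEDC_same`, `mEDC_ne`, injectivity of `φ`, as `|S.D z.1.1| ≤ L`). Now `wm_eq`. -/
theorem w_low [Finite H] {K s L : ℝ} {t t' : ℕ} (hK : 1 ≤ K) (hs : 1 ≤ s) (hL : L ≤ s)
    (ht : 1 ≤ t) (ht' : 1 ≤ t') (hu : Function.Injective u)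
    (hr : Function.Bijective fun p : D × R => v p.1 * r p.2)
    (F : Matrix (Σ i, S.D i × S.D i) H ℂ) (hF : Bx (K * Nat.card H) s t F) (hFL : S.Low L F)
    (F₁ : Matrix (Σ i, T.D i × T.D i) D ℂ) (hF₁ : Bx (K * Nat.card D) s t' F₁)
    (hFL₁ : T.Low L F₁) :
    ∃ W' : Matrix (WI bu bv) (H × R) ℂ,
      Bx (K * (Nat.card H * Fintype.card R)) s (2 * t + t' + 6) W' ∧
      ∀ z q, (Fintype.card (S.D z.1.1) : ℝ) ≤ L → (Fintype.card (S.D z.1.2) : ℝ) ≤ L →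
        W' z q = Wm bu bv r z q := by
  classical
  have hfD : Finite D := Finite.of_injective u hu
  let _ : Fintype D := Fintype.ofFinite D
  obtain ⟨φ, hφ⟩ := exists_phi bu r hu hr
  obtain ⟨F₁', hF₁', hF₁L⟩ := T.low' ht' F₁ hF₁ hFL₁
  obtain ⟨w, hw⟩ : ∃ w : ℝ, w = K * (Nat.card H * Fintype.card R) := ⟨_, rfl⟩
  have hcH : (0 : ℝ) ≤ Nat.card H := Nat.cast_nonneg _
  have hcR : (0 : ℝ) ≤ Fintype.card R := Nat.cast_nonneg _
  have hDR : (Nat.card D : ℝ) * Fintype.card R = Nat.card H := by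
    rw [← Nat.card_congr (Equiv.ofBijective _ hr), Nat.card_prod,
      Nat.card_eq_fintype_card (α := R), Nat.cast_mul]
  have hA : Bx w s t (lwA F R) := by
    have h1 := lw_bx (Y := R) hF ht
    have h2 : (Fintype.card R : ℝ) * (K * Nat.card H) = w := by rw [hw]; ring
    rw [h2] at h1
    exact h1
  have hD : Bx w s t (lwD F v r) := by
    have h1 := lw_bx (Y := R) hF ht
    have h2 : (Fintype.card R : ℝ) * (K * Nat.card H) = w := by rw [hw]; ring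
    rw [h2] at h1
    refine h1.submatrix Function.injective_id ?_
    rintro ⟨p, ρ⟩ ⟨p', ρ'⟩ h
    simp only [Prod.mk.injEq] at h
    have h3 : p = p' := hr.1 h.1
    rw [h3, h.2]
  have hC : Bx w s t' (lwC bu φ F₁') := by
    have h1 := lw_bx (Y := R × R) hF₁' ht'
    have h2 : (Fintype.card (R × R) : ℝ) * (K * Nat.card D) = w := by
      rw [hw, Fintype.card_prod, Nat.cast_mul, ← hDR]
      ring
    rw [h2] at h1
    refine h1.submatrix ?_ ?_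
    · rintro ⟨⟨d, ρ⟩, ρ'⟩ ⟨⟨d₁, ρ₁⟩, ρ₁'⟩ h
      simp only [Prod.mk.injEq] at h
      obtain ⟨rfl, rfl, rfl⟩ := h
      rfl
    · rintro ⟨i, a, ⟨k, c, m⟩, ρ⟩ ⟨i', a', ⟨k', c', m'⟩, ρ'⟩ h
      simp only [Prod.mk.injEq, Sigma.mk.injEq] at h
      obtain ⟨⟨rfl, h⟩, rfl, h2⟩ := h
      simp only [heq_eq_eq, Prod.mk.injEq] at h
      obtain ⟨h1, rfl⟩ := h
      have h3 := hφ k (Prod.ext h2 h1)
      simp only [Sigma.mk.injEq] at h3
      obtain ⟨rfl, h3⟩ := h3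
      simp only [heq_eq_eq, Prod.mk.injEq] at h3
      obtain ⟨rfl, rfl⟩ := h3
      rfl
  have hsum : (∑ i, (Fintype.card (S.D i) * Fintype.card (S.D i × R) : ℝ)) ≤ w := by
    have h1 : (∑ i, (Fintype.card (S.D i) * Fintype.card (S.D i × R) : ℝ)) =
        Nat.card H * Fintype.card R := by
      rw [← S.sq, Nat.cast_sum, Finset.sum_mul]
      refine Finset.sum_congr rfl fun i _ => ?_
      rw [Fintype.card_prod, Nat.cast_mul, Nat.cast_mul, mul_assoc]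
    rw [h1, hw]
    have h2 : (0 : ℝ) ≤ Nat.card H * Fintype.card R := mul_nonneg hcH hcR
    nlinarith
  have hcu : ∀ i, Fintype.card (Σ k, T.D k × bu.M i k) = Fintype.card (S.D i) := fun i =>
    (card_of_inv (bu.inv i) (bu.inv' i)).symm
  have hcv : ∀ i, Fintype.card (Σ k, T.D k × bv.M i k) = Fintype.card (S.D i) := fun i =>
    (card_of_inv (bv.inv i) (bv.inv' i)).symm
  have hB : Bx w s 1 (lwB bu (R := R) L) := by
    have h1 := bx_layer (E := fun i => S.D i × R) (w := w) hs (fun i => (bu.B i)ᵀ)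
      (fun i => (Fintype.card (S.D i) : ℝ) ≤ L)
      (fun i hi => by rw [hcu i]; exact le_trans hi hL) (fun i hi => le_trans hi hL)
      (by simp only [hcu]; exact hsum) hsum
    refine h1.submatrix ?_ ?_
    · rintro ⟨i, a, x, ρ⟩ ⟨j, a', x', ρ'⟩ h
      simp only [Sigma.mk.injEq] at h
      obtain ⟨rfl, h⟩ := h
      simp only [heq_eq_eq, Prod.mk.injEq] at h
      obtain ⟨rfl, rfl, rfl⟩ := h
      rfl
    · rintro ⟨⟨i, a, x⟩, ρ⟩ ⟨⟨j, a', x'⟩, ρ'⟩ h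
      simp only [Sigma.mk.injEq] at h
      obtain ⟨rfl, h⟩ := h
      simp only [heq_eq_eq, Prod.mk.injEq] at h
      obtain ⟨rfl, rfl, rfl⟩ := h
      rfl
  have hE : Bx w s 1 (lwE bv (R := R) L) := by
    have h1 := bx_layer (E := fun i => S.D i × R) (w := w) hs (fun i => bv.B' i)
      (fun i => (Fintype.card (S.D i) : ℝ) ≤ L)
      (fun i hi => by rw [hcv i]; exact le_trans hi hL) (fun i hi => le_trans hi hL)
      (by simp only [hcv]; exact hsum) hsum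
    refine h1.submatrix ?_ ?_
    · rintro ⟨i, ⟨x, a⟩, ρ⟩ ⟨j, ⟨x', a'⟩, ρ'⟩ h
      simp only [Sigma.mk.injEq] at h
      obtain ⟨rfl, h⟩ := h
      simp only [heq_eq_eq, Prod.mk.injEq] at h
      obtain ⟨rfl, rfl, rfl⟩ := h
      rfl
    · rintro ⟨⟨i, a, x⟩, ρ⟩ ⟨⟨j, a', x'⟩, ρ'⟩ h
      simp only [Sigma.mk.injEq] at h
      obtain ⟨rfl, h⟩ := h
      simp only [heq_eq_eq, Prod.mk.injEq] at h
      obtain ⟨rfl, rfl, rfl⟩ := h
      rfl
  have hBA := hB.mul hA hs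
  have hED := hE.mul hD hs
  have hEDC := hED.mul hC hs
  have hall := hEDC.mul hBA hs
  refine ⟨(((lwE bv (R := R) L * lwD F v r) * lwC bu φ F₁') *
    (lwB bu (R := R) L * lwA F R)).submatrix (wf bu bv φ) id, ?_, ?_⟩
  · rw [← hw]
    have h1 : 1 + t + 1 + t' + 1 + (1 + t + 1) + 1 = 2 * t + t' + 6 := by ring
    rw [h1] at hall
    exact hall.submatrix (wf_inj bu bv φ hφ) Function.injective_id
  · intro z q h1 h2
    rw [wm_eq bu bv r φ hφ]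
    change (((lwE bv (R := R) L * lwD F v r) * lwC bu φ F₁') *
      (lwB bu (R := R) L * lwA F R)) (wf bu bv φ z) q =
      (mEDC bu bv r φ * mBA bu (R := R)) (wf bu bv φ z) q
    rw [Matrix.mul_apply, Matrix.mul_apply]
    refine Finset.sum_congr rfl fun x _ => ?_
    rw [lwBA_apply bu F hFL x q]
    by_cases h3 : (Fintype.card (S.D x.1) : ℝ) ≤ L
    · rw [if_pos h3, lwEDC_apply bu bv r φ F hFL F₁' hF₁L (wf bu bv φ z) x h2 h3]
    · rw [if_neg h3, mul_zero, lw_zero bu bv r φ hφ z x (fun h4 => h3 (by rw [h4]; exact h1)),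
        zero_mul]

end MP0775d3.Ox
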