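import Pool.Agent.Lib.MP_0775d3_lc.Ox.LTs
import Pool.Agent.Lib.MP_0775d3_lc.Ox.LW
import Pool.Agent.Lib.MP_0775d3_lc.Ox.DcS

/-! Project OX: low part, double cosets. -/

set_option linter.unusedSectionVars false
set_option linter.unusedVariables false

namespace MP0775d3.Ox

open Matrix MP0775d3.Cf

/-- PROOF. As `dcW_bx`: `bx_sigma` of the matrices `W y`, read along the same maps. -/
theorem dcW_low {G H : Type} [Group G] [Group H] {ι : H →* G} {S : Sys H} (d : Dc ι)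
    (T : ∀ y, Sys (d.D y)) (bu : ∀ y, Br (d.u y) S (T y)) (bv : ∀ y, Br (d.v y) S (T y))
    [Finite G] {K s L : ℝ} {t : ℕ} (hK : 0 ≤ K)
    (h : ∀ y, ∃ W' : Matrix (WI (bu y) (bv y)) (H × d.R y) ℂ,
      Bx (K * (Nat.card H * Fintype.card (d.R y))) s t W' ∧
      ∀ z q, (Fintype.card (S.D z.1.1) : ℝ) ≤ L → (Fintype.card (S.D z.1.2) : ℝ) ≤ L →
        W' z q = Wm (bu y) (bv y) (d.r y) z q) :
    ∃ W' : Matrix (Σ z : S.I × S.I, (S.D z.1 × S.D z.2) × DcK d T bu bv z) G ℂ,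
      Bx (K * Nat.card G) s t W' ∧
      ∀ z g, (Fintype.card (S.D z.1.1) : ℝ) ≤ L → (Fintype.card (S.D z.1.2) : ℝ) ≤ L →
        W' z g = dcW d T bu bv z g := by
  classical
  choose W' hB hW using h
  have h1 : Bx (∑ y, K * (Nat.card H * Fintype.card (d.R y) : ℝ)) s t
      (Matrix.blockDiagonal' W') := bx_sigma hB
  have h2 : ∑ y, K * (Nat.card H * Fintype.card (d.R y) : ℝ) = K * Nat.card G := by
    rw [← Finset.mul_sum, ← dc_card d, Nat.cast_sum]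
    simp only [Nat.cast_mul]
  rw [h2] at h1
  obtain ⟨rf, hrf⟩ : ∃ rf : (Σ z : S.I × S.I, (S.D z.1 × S.D z.2) × DcK d T bu bv z) →
      Σ y, WI (bu y) (bv y), rf = fun z => ⟨z.2.2.1, ⟨z.1, (z.2.1, z.2.2.2)⟩⟩ := ⟨_, rfl⟩
  have hinj : Function.Injective rf := by
    have h3 : Function.LeftInverse (fun w : Σ y, WI (bu y) (bv y) =>
        (⟨w.2.1, (w.2.2.1, ⟨w.1, w.2.2.2⟩)⟩ :
          Σ z : S.I × S.I, (S.D z.1 × S.D z.2) × DcK d T bu bv z)) rf := by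
      intro z
      rw [hrf]
    exact h3.injective
  obtain ⟨e, he⟩ : ∃ e : G ≃ Σ y, H × d.R y, e = (Equiv.ofBijective _ d.bij').symm := ⟨_, rfl⟩
  refine ⟨(Matrix.blockDiagonal' W').submatrix rf e, h1.submatrix hinj e.injective, ?_⟩
  rintro ⟨⟨i, j⟩, ⟨ab, ⟨y, κ⟩⟩⟩ g hi hj
  have h4 : dcW d T bu bv ⟨(i, j), (ab, ⟨y, κ⟩)⟩ g = if y = (e g).1 then
      ∑ c : (T y).D κ.1, (S.π i (e g).2.1 * (bu y).B i) ab.1 ⟨κ.1, (c, κ.2.1)⟩ *
        ((bv y).B' j * S.π j (d.r _ (e g).2.2)) ⟨κ.1, (c, κ.2.2)⟩ ab.2 else 0 := by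
    rw [he]
    rfl
  rw [h4, Matrix.submatrix_apply, hrf]
  obtain ⟨y', q⟩ := e g
  change Matrix.blockDiagonal' W' ⟨y, ⟨(i, j), (ab, κ)⟩⟩ ⟨y', q⟩ = _
  by_cases hy : y = y'
  · subst hy
    rw [Matrix.blockDiagonal'_apply_eq, if_pos rfl, hW y _ _ hi hj]
    rfl
  · rw [Matrix.blockDiagonal'_apply_ne _ _ _ hy, if_neg hy]

/-- PROOF. As `step_dc`, with `w_low`, `dcW_low`, `Two.low` (`|K z| ≤ |X| * |D z.1| * |D z.2| ≤ b * L ^ 2 ≤ s`). -/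
theorem step_dc_low {K b s L : ℝ} {t t' : ℕ} (hK : 1 ≤ K) (hb : 1 ≤ b) (hL : 1 ≤ L) (hs : 1 ≤ s)
    (hbL : b * L ^ 2 ≤ s) (ht : 1 ≤ t) (ht' : 1 ≤ t') {G : Type} [Group G] [Finite G]
    (H : Subgroup G) (X : Finset G) (hX : (X.card : ℝ) ≤ b)
    (hX' : ∀ g : G, ∃ x ∈ X, ∃ h ∈ H, ∃ h' ∈ H, g = h * x * h')
    (hH : FL (K * Nat.card H) s t L H)
    (hD : ∀ x : G, FL (K * Nat.card ↥(H ⊓ H.map (MulAut.conj x).toMonoidHom)) s t' L
      ↥(H ⊓ H.map (MulAut.conj x).toMonoidHom)) :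
    FL (K * Nat.card G) s (2 * t + t' + 8) L G := by
  classical
  obtain ⟨d, hdX, hdD⟩ := exists_dc H X hX'
  obtain ⟨S, F, hF, hFL⟩ := hH
  have hT : ∀ y, ∃ (T : Sys (d.D y)) (F₁ : Matrix (Σ i, T.D i × T.D i) (d.D y) ℂ),
      Bx (K * Nat.card (d.D y)) s t' F₁ ∧ T.Low L F₁ := by
    intro y
    obtain ⟨x, ⟨e⟩⟩ := hdD y
    have h1 := FL.congr e.symm (hD x)
    rw [← Nat.card_congr e.toEquiv] at h1
    exact h1
  choose T F₁ hF₁ hFL₁ using hT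
  have hfD : ∀ y, Finite (d.D y) := fun y => Finite.of_injective _ (d.uinj y)
  have bu : ∀ y, Br (d.u y) S (T y) := fun y => (exists_br (d.u y) S (T y)).some
  have bv : ∀ y, Br (d.v y) S (T y) := fun y => (exists_br (d.v y) S (T y)).some
  obtain ⟨A⟩ := exists_ad H.subtype S
  obtain ⟨Y, hY⟩ := dc_two A d T bu bv
  have hL0 : 0 ≤ L := zero_le_one.trans hL
  have hLs : L ≤ s := by
    refine le_trans ?_ hbL
    nlinarith [mul_nonneg (sub_nonneg.2 hb) (pow_nonneg hL0 2), mul_nonneg hL0 (sub_nonneg.2 hL)]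
  have hw := fun y => w_low (bu y) (bv y) (d.r y) hK hs hLs ht ht' (d.uinj y) (d.bij y) F hF hFL
    (F₁ y) (hF₁ y) (hFL₁ y)
  obtain ⟨W', hW'B, hW'⟩ := dcW_low d T bu bv (K := K) (s := s) (L := L) (t := 2 * t + t' + 6)
    (zero_le_one.trans hK) hw
  have hKz : ∀ z : S.I × S.I, (Fintype.card (S.D z.1) : ℝ) ≤ L → (Fintype.card (S.D z.2) : ℝ) ≤ L →
      (Fintype.card (DcK d T bu bv z) : ℝ) ≤ s := by
    intro z h1 h2
    have h3 : (Fintype.card (DcK d T bu bv z) : ℝ) ≤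
        (Fintype.card d.X : ℝ) * ((Fintype.card (S.D z.1) : ℝ) * Fintype.card (S.D z.2)) := by
      exact_mod_cast dcK_card d T bu bv z
    refine h3.trans (le_trans ?_ hbL)
    have h4 : (Fintype.card d.X : ℝ) ≤ b := le_trans (by exact_mod_cast hdX) hX
    rw [pow_two]
    exact mul_le_mul h4 (mul_le_mul h1 h2 (Nat.cast_nonneg _) hL0)
      (mul_nonneg (Nat.cast_nonneg _) (Nat.cast_nonneg _)) (zero_le_one.trans hb)
  have hwz : (∑ z : S.I × S.I, (Fintype.card (DcK d T bu bv z) *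
      (Fintype.card (S.D z.1) * Fintype.card (S.D z.2)) : ℝ)) ≤ K * Nat.card G := by
    have h1 : (∑ z : S.I × S.I, (Fintype.card (DcK d T bu bv z) *
        (Fintype.card (S.D z.1) * Fintype.card (S.D z.2)) : ℝ)) ≤ Nat.card G := by
      exact_mod_cast dcK_sum d T bu bv
    exact h1.trans (le_mul_of_one_le_left (Nat.cast_nonneg _) hK)
  obtain ⟨F', hF'B, hF'L⟩ := Two.low A (dcW d T bu bv) Y hY hs W' hW'B hW' hKz hwz
  refine ⟨A.sys, F', ?_, hF'L⟩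
  rw [show 2 * t + t' + 8 = 1 + (2 * t + t' + 6) + 1 by omega]
  exact hF'B

end MP0775d3.Ox
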