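import Pool.Agent.Lib.MP_0775d3_lc.Ox.Defs
import Pool.Agent.Lib.MP_0775d3_lc.Ox.MmA

/-! Project OX: `MM` for `ω = 2`. -/

set_option linter.unusedSectionVars false
set_option linter.unusedVariables false

namespace MP0775d3.Ox

open Matrix MP0775d3.Cf MP0775d3.Om

private theorem mmB_fib {β : ℕ} {Z : Type} (z : Z) :
    (({i | i.2 = z} : Set (Fin β × Z)).ncard : ℝ) ≤ β := by
  have h1 : ({i | i.2 = z} : Set (Fin β × Z)) = (fun u : Fin β => (u, z)) '' Set.univ := by
    ext ⟨u, z'⟩
    simp only [Set.mem_ofPred_eq, Set.image_univ, Set.mem_range, Prod.mk.injEq]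
    constructor
    · rintro rfl
      exact ⟨u, rfl, rfl⟩
    · rintro ⟨v, _, h⟩
      exact h.symm
  rw [h1]
  have h2 := Set.ncard_image_le (f := fun u : Fin β => (u, z)) (Set.finite_univ (α := Fin β))
  rw [Set.ncard_univ, Nat.card_eq_fintype_card, Fintype.card_fin] at h2
  exact_mod_cast h2

private theorem mmB_one {D E : Type} [DecidableEq D] [DecidableEq E] {e : D → E}
    (he : Function.Injective e) (a b : D) :
    (1 : Matrix E E ℂ) (e a) (e b) = (1 : Matrix D D ℂ) a b := by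
  by_cases h : a = b
  · subst h
    rw [Matrix.one_apply_eq, Matrix.one_apply_eq]
  · rw [Matrix.one_apply_ne h, Matrix.one_apply_ne fun h' => h (he h')]

private theorem mmB_empty {ι κ : Type} [IsEmpty ι] [IsEmpty κ] {w s : ℝ} {t : ℕ} (hw : 0 ≤ w)
    (A : Matrix ι κ ℂ) : Bx w s t A := by
  refine ⟨Empty, inferInstance, inferInstance, fun _ => 0, fun i => isEmptyElim i,
    fun i => isEmptyElim i, ?_, fun j => ?_, fun i => isEmptyElim i, fun i => isEmptyElim i, ?_⟩
  · rw [Fintype.card_empty, Nat.cast_zero]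
    exact hw
  · exact ⟨Empty, id, id, fun l => l.elim, fun l => l.elim, fun i => i.elim⟩
  · ext i
    exact isEmptyElim i

/-- Extension by zero. -/
private theorem mmB_ext {P Q X Y : Type} {p : P → X} {q : Q → Y} (hp : Function.Injective p)
    (hq : Function.Injective q) (A : Matrix P Q ℂ) :
    ∃ A' : Matrix X Y ℂ, ∀ i j, A' (p i) (q j) = A i j := by
  refine ⟨Matrix.of fun x y => Function.extend p (fun i => Function.extend q (A i) 0 y) 0 x,
    fun i j => ?_⟩
  rw [Matrix.of_apply, hp.extend_apply, hq.extend_apply]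

/-- The case `β` blocks. PROOF. `A'` is a matrix on `Fin β × D`. The entry of `A' ⊗ 1` at `(((u, e), e'), ((v, f), f'))`
is `∑ z, W (e, e') z * d_uv z * V z (f, f')` (`mm_uni` for the block `(u, v)`): the product of `W ⊗ 1_β`
(`Bx.one_tensor`, `Bx.submatrix`), of the matrix on `Fin β × Z` with entries `if z = z' then d_uv z else 0` (one layer,
`blk_of_labels` with label `z`: at most `β` rows and columns) and of `V ⊗ 1_β`. -/
theorem mm_beta (hω : omega = 2) (δ : ℝ) (hδ : 0 < δ) : ∃ t : ℕ, 1 ≤ t ∧ ∀ η : ℝ, 0 < η →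
    ∃ C : ℝ, 1 ≤ C ∧ ∀ N : ℝ, 1 ≤ N → ∀ (D : Type) [Fintype D] [DecidableEq D],
      (Fintype.card D * Fintype.card D : ℝ) ≤ N → ∀ β : ℕ, 1 ≤ β →
      ∀ A : Matrix (Fin β × D) (Fin β × D) ℂ,
        Bx (C * β * (Fintype.card D * Fintype.card D) * N ^ η) (C * β * N ^ δ) t
          (Matrix.kroneckerMap (· * ·) A (1 : Matrix D D ℂ)) := by
  obtain ⟨t, ht, H⟩ := mm_uni hω δ hδ
  refine ⟨t + 1 + 1 + t + 1, by omega, fun η hη => ?_⟩
  obtain ⟨C, hC, H⟩ := H η hη
  refine ⟨C, hC, fun N hN D _ _ hD β hβ A => ?_⟩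
  obtain ⟨Z, iZ, dZ, W, V, hZ, hW, hV, hA⟩ := H N hN D hD
  have hβr : (1 : ℝ) ≤ β := by exact_mod_cast hβ
  have hNδ : (1 : ℝ) ≤ N ^ δ := Real.one_le_rpow hN hδ.le
  have hNη : (1 : ℝ) ≤ N ^ η := Real.one_le_rpow hN hη.le
  have hs : 1 ≤ C * β * N ^ δ :=
    one_le_mul_of_one_le_of_one_le (one_le_mul_of_one_le_of_one_le hC hβr) hNδ
  have hsC : C * N ^ δ ≤ C * β * N ^ δ := by
    refine mul_le_mul_of_nonneg_right ?_ (by positivity)
    exact le_mul_of_one_le_right (by linarith) hβr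
  have hsβ : (β : ℝ) ≤ C * β * N ^ δ := by
    have h1 : (β : ℝ) ≤ C * β := le_mul_of_one_le_left (by positivity) hC
    exact h1.trans (le_mul_of_one_le_right (by positivity) hNδ)
  choose d hd using fun (u v : Fin β) => hA (Matrix.of fun e f => A (u, e) (v, f))
  have hW1 := hW.one_tensor (Y := Fin β) ht
  have hV1 := hV.one_tensor (Y := Fin β) ht
  rw [Fintype.card_fin] at hW1 hV1
  have hinj : Function.Injective fun p : (Fin β × D) × D => (p.1.1, (p.1.2, p.2)) := by
    rintro ⟨⟨a, b⟩, c⟩ ⟨⟨a', b'⟩, c'⟩ h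
    simp only [Prod.mk.injEq] at h
    obtain ⟨h1, h2, h3⟩ := h
    rw [h1, h2, h3]
  have hW2 := hW1.submatrix (f := fun p : (Fin β × D) × D => (p.1.1, (p.1.2, p.2)))
    (g := fun q : Fin β × Z => q) hinj (fun _ _ h => h)
  have hV2 := hV1.submatrix (f := fun q : Fin β × Z => q)
    (g := fun p : (Fin β × D) × D => (p.1.1, (p.1.2, p.2))) (fun _ _ h => h) hinj
  have ew : (β : ℝ) * (C * (Fintype.card D * Fintype.card D) * N ^ η) =
      C * β * (Fintype.card D * Fintype.card D) * N ^ η := by ring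
  rw [ew] at hW2 hV2
  have hW3 := hW2.mono le_rfl hsC le_rfl hs
  have hV3 := hV2.mono le_rfl hsC le_rfl hs
  have hcard : (Fintype.card (Fin β × Z) : ℝ) ≤
      C * β * (Fintype.card D * Fintype.card D) * N ^ η := by
    rw [Fintype.card_prod, Fintype.card_fin, Nat.cast_mul, ← ew]
    exact mul_le_mul_of_nonneg_left hZ (by positivity)
  have hM : Bx (C * β * (Fintype.card D * Fintype.card D) * N ^ η) (C * β * N ^ δ) 1
      (Matrix.of fun (p q : Fin β × Z) => if p.2 = q.2 then d p.1 q.1 p.2 else 0) := by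
    refine bx_of_blk (blk_of_labels Prod.snd Prod.snd (fun l => (mmB_fib l).trans hsβ)
      (fun l => (mmB_fib l).trans hsβ) fun i j hij => ?_) hs hcard hcard
    by_contra h
    refine hij ?_
    rw [Matrix.of_apply, if_neg h]
  have hfin := (hW3.mul hM hs).mul hV3 hs
  have key : Matrix.kroneckerMap (· * ·) A (1 : Matrix D D ℂ) =
      ((Matrix.of fun (p : Fin β × (D × D)) (q : Fin β × Z) =>
        if p.1 = q.1 then W p.2 q.2 else 0).submatrix
          (fun p : (Fin β × D) × D => (p.1.1, (p.1.2, p.2))) (fun q : Fin β × Z => q)) *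
      (Matrix.of fun (p q : Fin β × Z) => if p.2 = q.2 then d p.1 q.1 p.2 else 0) *
      ((Matrix.of fun (p : Fin β × Z) (q : Fin β × (D × D)) =>
        if p.1 = q.1 then V p.2 q.2 else 0).submatrix (fun q : Fin β × Z => q)
          (fun p : (Fin β × D) × D => (p.1.1, (p.1.2, p.2)))) := by
    ext ⟨⟨u, e⟩, e'⟩ ⟨⟨v, f⟩, f'⟩
    have h1 := congrFun (congrFun (hd u v) (e, e')) (f, f')
    rw [Matrix.kroneckerMap_apply, Matrix.of_apply] at h1
    rw [Matrix.kroneckerMap_apply]
    refine h1.trans ?_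
    rw [Matrix.mul_apply, Matrix.mul_apply, Fintype.sum_prod_type]
    simp only [Matrix.mul_diagonal]
    symm
    rw [Finset.sum_eq_single v]
    · refine Finset.sum_congr rfl fun z _ => ?_
      rw [Matrix.submatrix_apply, Matrix.of_apply, if_pos rfl]
      refine congrArg (· * V z (f, f')) ?_
      rw [Matrix.mul_apply, Fintype.sum_prod_type, Finset.sum_eq_single u]
      · rw [Finset.sum_eq_single z]
        · rw [Matrix.submatrix_apply, Matrix.of_apply, Matrix.of_apply, if_pos rfl, if_pos rfl]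
        · intro z' _ hz'
          rw [Matrix.of_apply (f := fun (p q : Fin β × Z) => if p.2 = q.2 then d p.1 q.1 p.2 else 0),
            if_neg (show ¬ (u, z').2 = (v, z).2 from hz'), mul_zero]
        · intro h
          exact absurd (Finset.mem_univ _) h
      · intro u' _ hu'
        refine Finset.sum_eq_zero fun z' _ => ?_
        rw [Matrix.submatrix_apply, Matrix.of_apply, if_neg fun h => hu' h.symm, zero_mul]
      · intro h
        exact absurd (Finset.mem_univ _) h
    · intro v' _ hv'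
      refine Finset.sum_eq_zero fun z' _ => ?_
      rw [Matrix.submatrix_apply, Matrix.of_apply, if_neg hv', mul_zero]
    · intro h
      exact absurd (Finset.mem_univ _) h
  rw [key]
  exact hfin

/-- PROOF. Let `e = |E|`, `n` the floor of `c` (so `|P|, |Q| ≤ n`). `E` empty or `n = 0`: both index types are empty
(`Om.mmBx` has a private lemma for this). If `n ≤ e`: `D = Fin n`, `β = 1`, `E` embeds in `Fin k × Fin n` with
`k = ⌈e / n⌉ ≤ 2 e / n`: `Bx.one_tensor` of `mm_beta` with `β = 1`, width `k * C * n ^ 2 * N ^ η ≤ 2 C n e N ^ η`.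
If `n > e`: `D = E`, `β = ⌈n / e⌉ ≤ 2 n / e ≤ 2 b`; `P`, `Q` embed in `Fin β × E`, `A` extended by zero; width
`C β e ^ 2 N ^ η ≤ 2 C n e N ^ η`, boxes `2 C b N ^ δ`. Here `e ^ 2 ≤ c e ≤ N` resp. `n ^ 2 ≤ c e ≤ N`. -/
theorem mm (hω : omega = 2) (δ : ℝ) (hδ : 0 < δ) : ∃ t : ℕ, 1 ≤ t ∧ ∀ η : ℝ, 0 < η →
    ∃ C : ℝ, 1 ≤ C ∧ ∀ N : ℝ, 1 ≤ N → ∀ b : ℝ, 1 ≤ b →
      MM (C * N ^ η) b N (C * b * N ^ δ) t := by
  obtain ⟨t, ht, H⟩ := mm_beta hω δ hδ
  refine ⟨t, ht, fun η hη => ?_⟩
  obtain ⟨C, hC, H⟩ := H η hη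
  refine ⟨2 * C, by linarith, fun N hN b hb => ?_⟩
  intro P Q E _ _ _ _ c hP hQ hcb hcN A
  have hNδ : (1 : ℝ) ≤ N ^ δ := Real.one_le_rpow hN hδ.le
  have hNη : (1 : ℝ) ≤ N ^ η := Real.one_le_rpow hN hη.le
  have hc0 : 0 ≤ c := (Nat.cast_nonneg _).trans hP
  obtain ⟨n, hn⟩ : ∃ n : ℕ, n = ⌊c⌋₊ := ⟨_, rfl⟩
  have hnc : (n : ℝ) ≤ c := by
    rw [hn]
    exact Nat.floor_le hc0
  have hPn : Fintype.card P ≤ n := by
    rw [hn]
    exact Nat.le_floor hP
  have hQn : Fintype.card Q ≤ n := by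
    rw [hn]
    exact Nat.le_floor hQ
  obtain ⟨e, he⟩ : ∃ e : ℕ, e = Fintype.card E := ⟨_, rfl⟩
  rw [← he] at hcb hcN ⊢
  have hs1 : 1 ≤ 2 * C * b * N ^ δ := by
    refine one_le_mul_of_one_le_of_one_le (one_le_mul_of_one_le_of_one_le ?_ hb) hNδ
    linarith
  have hC0 : 0 ≤ C := by linarith
  rcases Nat.eq_zero_or_pos e with h0 | he0
  · have : IsEmpty E := Fintype.card_eq_zero_iff.1 (he.symm.trans h0)
    exact mmB_empty (by positivity) _
  rcases Nat.eq_zero_or_pos n with h0 | hn0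
  · rw [h0] at hPn hQn
    have : IsEmpty P := Fintype.card_eq_zero_iff.1 (Nat.le_zero.1 hPn)
    have : IsEmpty Q := Fintype.card_eq_zero_iff.1 (Nat.le_zero.1 hQn)
    exact mmB_empty (by positivity) _
  have her : (1 : ℝ) ≤ e := by exact_mod_cast he0
  have hnr : (1 : ℝ) ≤ n := by exact_mod_cast hn0
  rcases le_or_gt n e with hne | hne
  · have hner : (n : ℝ) ≤ e := by exact_mod_cast hne
    -- `n ≤ e`
    obtain ⟨k, hk⟩ : ∃ k : ℕ, k = e / n + 1 := ⟨_, rfl⟩
    have hkn : e ≤ k * n := by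
      rw [hk, Nat.mul_comm]
      exact (Nat.lt_mul_div_succ e hn0).le
    have hkn2 : k * n ≤ 2 * e := by
      have h1 : e / n * n ≤ e := Nat.div_mul_le_self e n
      have h2 : k * n = e / n * n + n := by rw [hk, Nat.add_mul, Nat.one_mul]
      omega
    have hkn2r : (k : ℝ) * n ≤ 2 * e := by exact_mod_cast hkn2
    obtain ⟨p⟩ : Nonempty (P ↪ Fin 1 × Fin n) := Function.Embedding.nonempty_of_card_le (by
      rw [Fintype.card_prod, Fintype.card_fin, Fintype.card_fin, one_mul]
      exact hPn)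
    obtain ⟨q⟩ : Nonempty (Q ↪ Fin 1 × Fin n) := Function.Embedding.nonempty_of_card_le (by
      rw [Fintype.card_prod, Fintype.card_fin, Fintype.card_fin, one_mul]
      exact hQn)
    obtain ⟨φ⟩ : Nonempty (E ↪ Fin k × Fin n) := Function.Embedding.nonempty_of_card_le (by
      rw [Fintype.card_prod, Fintype.card_fin, Fintype.card_fin, ← he]
      exact hkn)
    obtain ⟨A', hA'⟩ := mmB_ext p.injective q.injective A
    have hDN : (Fintype.card (Fin n) * Fintype.card (Fin n) : ℝ) ≤ N := by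
      rw [Fintype.card_fin]
      refine le_trans ?_ hcN
      exact mul_le_mul hnc hner (by positivity) hc0
    have h1 := H N hN (Fin n) hDN 1 le_rfl A'
    have h2 := h1.one_tensor (Y := Fin k) ht
    rw [Fintype.card_fin, Fintype.card_fin] at h2
    have hf : Function.Injective fun x : P × E => ((φ x.2).1, (p x.1, (φ x.2).2)) := by
      rintro ⟨a, b⟩ ⟨a', b'⟩ h
      simp only [Prod.mk.injEq] at h
      obtain ⟨h1, h2, h3⟩ := h
      rw [p.injective h2, φ.injective (Prod.ext h1 h3)]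
    have hg : Function.Injective fun x : Q × E => ((φ x.2).1, (q x.1, (φ x.2).2)) := by
      rintro ⟨a, b⟩ ⟨a', b'⟩ h
      simp only [Prod.mk.injEq] at h
      obtain ⟨h1, h2, h3⟩ := h
      rw [q.injective h2, φ.injective (Prod.ext h1 h3)]
    have h3 := h2.submatrix hf hg
    have key : Matrix.kroneckerMap (· * ·) A (1 : Matrix E E ℂ) =
        (Matrix.of fun (x : Fin k × ((Fin 1 × Fin n) × Fin n))
          (y : Fin k × ((Fin 1 × Fin n) × Fin n)) => if x.1 = y.1 then
            Matrix.kroneckerMap (· * ·) A' (1 : Matrix (Fin n) (Fin n) ℂ) x.2 y.2 else 0).submatrix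
          (fun x : P × E => ((φ x.2).1, (p x.1, (φ x.2).2)))
          (fun x : Q × E => ((φ x.2).1, (q x.1, (φ x.2).2))) := by
      ext ⟨i, a⟩ ⟨j, b⟩
      rw [Matrix.submatrix_apply, Matrix.of_apply, Matrix.kroneckerMap_apply]
      show A i j * (1 : Matrix E E ℂ) a b = if (φ a).1 = (φ b).1 then
        A' (p i) (q j) * (1 : Matrix (Fin n) (Fin n) ℂ) (φ a).2 (φ b).2 else 0
      rw [hA']
      by_cases hab : a = b
      · subst hab
        rw [if_pos rfl, Matrix.one_apply_eq, Matrix.one_apply_eq]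
      · rw [Matrix.one_apply_ne hab, mul_zero]
        by_cases h4 : (φ a).1 = (φ b).1
        · have h5 : (φ a).2 ≠ (φ b).2 := fun h5 => hab (φ.injective (Prod.ext h4 h5))
          rw [if_pos h4, Matrix.one_apply_ne h5, mul_zero]
        · rw [if_neg h4]
    rw [key]
    refine h3.mono ?_ ?_ le_rfl hs1
    · rw [Nat.cast_one, mul_one]
      calc (k : ℝ) * (C * (n * n) * N ^ η) = C * N ^ η * ((k * n) * n) := by ring
        _ ≤ C * N ^ η * ((2 * e) * c) := by
            refine mul_le_mul_of_nonneg_left ?_ (by positivity)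
            exact mul_le_mul hkn2r hnc (by positivity) (by positivity)
        _ = 2 * C * N ^ η * (c * e) := by ring
    · rw [Nat.cast_one, mul_one]
      refine mul_le_mul_of_nonneg_right ?_ (by positivity)
      calc C = 1 * C * 1 := by ring
        _ ≤ 2 * C * b := mul_le_mul (by linarith) hb (by norm_num) (by linarith)
  · have hner : (e : ℝ) ≤ n := by exact_mod_cast hne.le
    -- `e < n`
    obtain ⟨β, hβ⟩ : ∃ β : ℕ, β = n / e + 1 := ⟨_, rfl⟩
    have hβe : n ≤ β * e := by
      rw [hβ, Nat.mul_comm]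
      exact (Nat.lt_mul_div_succ n he0).le
    have hβe2 : β * e ≤ 2 * n := by
      have h1 : n / e * e ≤ n := Nat.div_mul_le_self n e
      have h2 : β * e = n / e * e + e := by rw [hβ, Nat.add_mul, Nat.one_mul]
      omega
    have hβe2r : (β : ℝ) * e ≤ 2 * n := by exact_mod_cast hβe2
    have hβb : (β : ℝ) ≤ 2 * b := by
      have h1 : (β : ℝ) * e ≤ 2 * b * e := by nlinarith
      exact le_of_mul_le_mul_right h1 (by linarith)
    obtain ⟨p⟩ : Nonempty (P ↪ Fin β × E) := Function.Embedding.nonempty_of_card_le (by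
      rw [Fintype.card_prod, Fintype.card_fin, ← he]
      exact hPn.trans hβe)
    obtain ⟨q⟩ : Nonempty (Q ↪ Fin β × E) := Function.Embedding.nonempty_of_card_le (by
      rw [Fintype.card_prod, Fintype.card_fin, ← he]
      exact hQn.trans hβe)
    obtain ⟨A', hA'⟩ := mmB_ext p.injective q.injective A
    have hDN : (Fintype.card E * Fintype.card E : ℝ) ≤ N := by
      rw [← he]
      refine le_trans ?_ hcN
      exact mul_le_mul_of_nonneg_right (hner.trans hnc) (by positivity)
    have hβ1 : 1 ≤ β := by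
      rw [hβ]
      exact Nat.le_add_left 1 _
    have h1 := H N hN E hDN β hβ1 A'
    rw [← he] at h1
    have h3 := h1.submatrix (f := Prod.map p id) (g := Prod.map q id)
      (p.injective.prodMap Function.injective_id) (q.injective.prodMap Function.injective_id)
    have key : Matrix.kroneckerMap (· * ·) A (1 : Matrix E E ℂ) =
        (Matrix.kroneckerMap (· * ·) A' (1 : Matrix E E ℂ)).submatrix (Prod.map p id)
          (Prod.map q id) := by
      ext ⟨i, a⟩ ⟨j, b⟩
      show A i j * (1 : Matrix E E ℂ) a b = A' (p i) (q j) * (1 : Matrix E E ℂ) a b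
      rw [hA']
    rw [key]
    refine h3.mono ?_ ?_ le_rfl hs1
    · calc C * β * (e * e) * N ^ η = C * N ^ η * ((β * e) * e) := by ring
        _ ≤ C * N ^ η * ((2 * c) * e) := by
            refine mul_le_mul_of_nonneg_left ?_ (by positivity)
            exact mul_le_mul_of_nonneg_right (hβe2r.trans (by linarith)) (by positivity)
        _ = 2 * C * N ^ η * (c * e) := by ring
    · refine mul_le_mul_of_nonneg_right ?_ (by positivity)
      calc C * β ≤ C * (2 * b) := mul_le_mul_of_nonneg_left hβb hC0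
        _ = 2 * C * b := by ring

end MP0775d3.Ox
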