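import Pool.Agent.Lib.MP_0775d3_lc.Ox.Index
import Pool.Agent.Lib.MP_0775d3_lc.Ox.DcS
import Pool.Agent.Lib.MP_0775d3_lc.Ox.PrF
import Pool.Agent.Lib.MP_0775d3_lc.Ox.MmB
import Pool.Agent.Lib.MP_0775d3_lc.Cf.FbB

/-! Project OX: induction on the level. -/

set_option linter.unusedSectionVars false
set_option linter.unusedVariables false

namespace MP0775d3.Ox

open Matrix MP0775d3.Cf MP0775d3.Om

/-- The depth. -/
def tau (t₀ t₁ : ℕ) : ℕ → ℕ
  | 0 => 1
  | l + 1 => 3 * tau t₀ t₁ l + 3 * t₀ + t₁ + 5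

private theorem main_tau (t₀ t₁ l : ℕ) : 1 ≤ tau t₀ t₁ l := by
  cases l with
  | zero => exact le_rfl
  | succ l =>
    change 1 ≤ 3 * tau t₀ t₁ l + 3 * t₀ + t₁ + 5
    omega

private theorem main_inf {G : Type} [Group G] (H : Subgroup G) :
    H ⊓ H.map (MulAut.conj (1 : G)).toMonoidHom = H := by
  have h : H.map (MulAut.conj (1 : G)).toMonoidHom = H := by
    rw [map_one]
    exact Subgroup.map_id H
  rw [h, inf_idem]

/-- PROOF. Induction on `l` (for all `G`). Level `0`: `fs_small`, `FS.mono`. Step: the four cases, `FS.mono` to the common depth;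
index: `step_index`; prime index: `step_prime`; double cosets: `step_dc` with `hH` the case `x = 1` of the hypothesis
(`H ⊓ H.map (MulAut.conj 1)` is `H`; `FS.congr`), all subgroups have at most `|G| ≤ N` elements. -/
theorem tame_core {K b N s : ℝ} {t₀ t₁ : ℕ} (hK : 1 ≤ K) (hb : 1 ≤ b) (hbs : b ≤ s) (ht₁ : 1 ≤ t₁)
    (hMM : MM K b N s t₀) (hFP : FP K N s t₁) (l : ℕ) :
    ∀ (G : Type) [Group G] [Finite G], (Nat.card G : ℝ) ≤ N → Tame b l G →
      FS (K * Nat.card G) s (tau t₀ t₁ l) G := by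
  have hs : 1 ≤ s := hb.trans hbs
  induction l with
  | zero =>
    intro G _ _ hG hT
    have hT' : (Nat.card G : ℝ) ≤ b := hT
    refine (fs_small hb hT').mono ?_ hbs le_rfl hs
    exact le_mul_of_one_le_left (Nat.cast_nonneg _) hK
  | succ l ih =>
    intro G _ _ hG hT
    have hτ := main_tau t₀ t₁ l
    have hsub : ∀ H : Subgroup G, (Nat.card H : ℝ) ≤ N := by
      intro H
      refine le_trans ?_ hG
      exact_mod_cast Subgroup.card_le_card_group H
    change FS (K * Nat.card G) s (3 * tau t₀ t₁ l + 3 * t₀ + t₁ + 5) G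
    unfold Tame at hT
    rcases hT with h | ⟨H, h1, h2⟩ | ⟨H, h1, h2, h3⟩ | ⟨H, ⟨X, h1, h2⟩, h3⟩
    · exact (ih G hG h).mono le_rfl le_rfl (by omega) hs
    · exact (step_index hK hs hτ hMM hG H h1 (ih H (hsub H) h2)).mono le_rfl le_rfl (by omega) hs
    · exact (step_prime hK hb hs hτ ht₁ hMM hFP hG H h1 h2 (ih H (hsub H) h3)).mono le_rfl le_rfl
        (by omega) hs
    · have h4 : Tame b l H := by
        have h5 := h3 1
        rw [main_inf] at h5
        exact h5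
      exact (step_dc hK hb hs hτ hτ hMM hG H X h1 h2 (ih H (hsub H) h4)
        (fun x => ih _ (hsub _) (h3 x))).mono le_rfl le_rfl (by omega) hs

/-- PROOF. `mm` and `fb_abelian` (for `Multiplicative (ZMod p)`, `Nat.card = p`) with `δ`, `C` the larger constant (`FB.mono`,
`Bx.mono` for `MM`): `b = N ^ δ`, `s = C * N ^ δ * N ^ δ`, `K = C * N ^ η`; `tame_core`. -/
theorem tame_fs (hω : omega = 2) (δ : ℝ) (hδ : 0 < δ) (l : ℕ) : ∃ t : ℕ, 1 ≤ t ∧ ∀ η : ℝ, 0 < η →
    ∃ C : ℝ, 1 ≤ C ∧ ∀ N : ℝ, 1 ≤ N → ∀ (G : Type) [Group G] [Finite G],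
      (Nat.card G : ℝ) ≤ N → Tame (N ^ δ) l G →
        FS (C * N ^ η * Nat.card G) (C * N ^ (2 * δ)) t G := by
  obtain ⟨t₀, ht₀, h1⟩ := mm hω δ hδ
  obtain ⟨t₁, ht₁, C₁, hC₁, h2⟩ := fb_abelian δ hδ
  refine ⟨tau t₀ t₁ l, main_tau t₀ t₁ l, fun η hη => ?_⟩
  obtain ⟨C, hC, h1⟩ := h1 η hη
  refine ⟨max C C₁, le_max_of_le_left hC, fun N hN G _ _ hG hT => ?_⟩
  have hNη : (1 : ℝ) ≤ N ^ η := Real.one_le_rpow hN hη.le
  have hNδ : (1 : ℝ) ≤ N ^ δ := Real.one_le_rpow hN hδ.le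
  have hM : 1 ≤ max C C₁ := le_max_of_le_left hC
  have e : N ^ (2 * δ) = N ^ δ * N ^ δ := by
    rw [two_mul, Real.rpow_add (by linarith)]
  rw [e]
  have hK : 1 ≤ max C C₁ * N ^ η := one_le_mul_of_one_le_of_one_le hM hNη
  have hs1 : N ^ δ ≤ max C C₁ * (N ^ δ * N ^ δ) := by
    refine (le_mul_of_one_le_left (by linarith) hNδ).trans ?_
    exact le_mul_of_one_le_left (by positivity) hM
  have hs : 1 ≤ max C C₁ * (N ^ δ * N ^ δ) := hNδ.trans hs1
  refine tame_core hK hNδ hs1 ht₁ ?_ ?_ l G hG hT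
  · intro P Q E _ _ _ _ c hP hQ hc hcN A
    have hc0 : 0 ≤ c := (Nat.cast_nonneg _).trans hP
    refine (h1 N hN (N ^ δ) hNδ P Q E c hP hQ hc hcN A).mono ?_ ?_ le_rfl hs
    · refine mul_le_mul_of_nonneg_right ?_ (by positivity)
      exact mul_le_mul_of_nonneg_right (le_max_left _ _) (by linarith)
    · rw [mul_assoc]
      exact mul_le_mul_of_nonneg_right (le_max_left _ _) (by positivity)
  · intro p hp hpN
    have : NeZero p := ⟨hp.ne_zero⟩
    have hcard : Nat.card (Multiplicative (ZMod p)) = p :=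
      (Nat.card_congr Multiplicative.toAdd).trans (Nat.card_zmod p)
    have h3 := h2 N hN (Multiplicative (ZMod p)) (fun a b => mul_comm a b)
      (by rw [hcard]; exact hpN)
    rw [hcard] at h3
    refine h3.mono ?_ ?_ le_rfl hs
    · refine mul_le_mul_of_nonneg_right ?_ (Nat.cast_nonneg _)
      exact (le_max_right C C₁).trans (le_mul_of_one_le_right (by linarith) hNη)
    · refine mul_le_mul (le_max_right _ _) ?_ (by linarith) (by linarith)
      exact le_mul_of_one_le_left (by linarith) hNδ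

end MP0775d3.Ox
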