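import Pool.Agent.Lib.MP_0775d3_lc.Ox.LIndex
import Pool.Agent.Lib.MP_0775d3_lc.Ox.LDc
import Pool.Agent.Lib.MP_0775d3_lc.Ox.LPr
import Pool.Agent.Lib.MP_0775d3_lc.Ox.Main

/-! Project OX: low part, induction on the level. -/

set_option linter.unusedSectionVars false
set_option linter.unusedVariables false

namespace MP0775d3.Ox

open Matrix MP0775d3.Cf MP0775d3.Om

/-- The depth. -/
def tauL (t₁ : ℕ) : ℕ → ℕ
  | 0 => 1
  | l + 1 => 3 * tauL t₁ l + t₁ + 8

private theorem LMain_tau (t₁ l : ℕ) : 1 ≤ tauL t₁ l := by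
  cases l with
  | zero => exact le_rfl
  | succ l =>
    change 1 ≤ 3 * tauL t₁ l + t₁ + 8
    omega

private theorem LMain_inf {G : Type} [Group G] (H : Subgroup G) :
    H ⊓ H.map (MulAut.conj (1 : G)).toMonoidHom = H := by
  have h : H.map (MulAut.conj (1 : G)).toMonoidHom = H := by
    rw [map_one]
    exact Subgroup.map_id H
  rw [h, inf_idem]

/-- PROOF. As `tame_core`: `fs_small` and `FS.low` at level `0`; `step_index_low`, `step_prime_low`, `step_dc_low`. -/
theorem tame_core_low {K b N s L : ℝ} {t₁ : ℕ} (hK : 1 ≤ K) (hb : 1 ≤ b) (hL : 1 ≤ L)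
    (hbL : b * L ^ 2 ≤ s) (ht₁ : 1 ≤ t₁) (hFP : FP K N s t₁) (l : ℕ) :
    ∀ (G : Type) [Group G] [Finite G], (Nat.card G : ℝ) ≤ N → Tame b l G →
      FL (K * Nat.card G) s (tauL t₁ l) L G := by
  have hL2 : L ≤ L ^ 2 := by nlinarith
  have hbb : b ≤ b * L ^ 2 := by nlinarith
  have hbs : b ≤ s := hbb.trans hbL
  have hs : 1 ≤ s := hb.trans hbs
  have hbL1 : b * L ≤ s := (mul_le_mul_of_nonneg_left hL2 (by linarith)).trans hbL
  have hLs : L ≤ s := by
    refine le_trans ?_ hbL1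
    exact le_mul_of_one_le_left (by linarith) hb
  induction l with
  | zero =>
    intro G _ _ hG hT
    have hT' : (Nat.card G : ℝ) ≤ b := hT
    refine (FS.low L (fs_small hb hT')).mono ?_ hbs le_rfl hs
    exact le_mul_of_one_le_left (Nat.cast_nonneg _) hK
  | succ l ih =>
    intro G _ _ hG hT
    have hτ := LMain_tau t₁ l
    have hsub : ∀ H : Subgroup G, (Nat.card H : ℝ) ≤ N := by
      intro H
      refine le_trans ?_ hG
      exact_mod_cast Subgroup.card_le_card_group H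
    change FL (K * Nat.card G) s (3 * tauL t₁ l + t₁ + 8) L G
    unfold Tame at hT
    rcases hT with h | ⟨H, h1, h2⟩ | ⟨H, h1, h2, h3⟩ | ⟨H, ⟨X, h1, h2⟩, h3⟩
    · exact (ih G hG h).mono le_rfl le_rfl (by omega) hs
    · exact (step_index_low hK hs hbL1 hτ H h1 (ih H (hsub H) h2)).mono le_rfl le_rfl
        (by omega) hs
    · exact (step_prime_low hK hL hLs hτ ht₁ hFP hG H h1 h2 (ih H (hsub H) h3)).mono le_rfl
        le_rfl (by omega) hs
    · have h4 : Tame b l H := by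
        have h5 := h3 1
        rw [LMain_inf] at h5
        exact h5
      exact (step_dc_low hK hb hL hs hbL hτ hτ H X h1 h2 (ih H (hsub H) h4)
        (fun x => ih _ (hsub _) (h3 x))).mono le_rfl le_rfl (by omega) hs

/-- PROOF. `fb_abelian` with `3 * δ` (constant `C`): `b = L = N ^ δ`, `s = C * N ^ (3 * δ)`, `K = C`; `tame_core_low`. -/
theorem tame_fl (δ : ℝ) (hδ : 0 < δ) (l : ℕ) : ∃ t : ℕ, 1 ≤ t ∧ ∃ C : ℝ, 1 ≤ C ∧ ∀ N : ℝ, 1 ≤ N →
    ∀ (G : Type) [Group G] [Finite G], (Nat.card G : ℝ) ≤ N → Tame (N ^ δ) l G →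
      FL (C * Nat.card G) (C * N ^ (3 * δ)) t (N ^ δ) G := by
  obtain ⟨t₁, ht₁, C, hC, h2⟩ := fb_abelian (3 * δ) (by positivity)
  refine ⟨tauL t₁ l, LMain_tau t₁ l, C, hC, fun N hN G _ _ hG hT => ?_⟩
  have hN0 : 0 < N := by linarith
  have hNδ : (1 : ℝ) ≤ N ^ δ := Real.one_le_rpow hN hδ.le
  have e : N ^ δ * (N ^ δ) ^ 2 = N ^ (3 * δ) := by
    rw [← Real.rpow_natCast (N ^ δ) 2, ← Real.rpow_mul hN0.le, ← Real.rpow_add hN0]
    congr 1
    push_cast
    ring
  refine tame_core_low hC hNδ hNδ ?_ ht₁ ?_ l G hG hT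
  · rw [e]
    exact le_mul_of_one_le_left (by positivity) hC
  · intro p hp hpN
    have : NeZero p := ⟨hp.ne_zero⟩
    have hcard : Nat.card (Multiplicative (ZMod p)) = p :=
      (Nat.card_congr Multiplicative.toAdd).trans (Nat.card_zmod p)
    have h3 := h2 N hN (Multiplicative (ZMod p)) (fun a b => mul_comm a b)
      (by rw [hcard]; exact hpN)
    rw [hcard] at h3
    exact h3

end MP0775d3.Ox
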