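import Pool.Agent.Lib.MP_0775d3_lc.Ox.AdaptB

/-! Project OX: from two-sided coordinates to the Fourier matrix. -/

set_option linter.unusedSectionVars false
set_option linter.unusedVariables false

namespace MP0775d3.Ox

open Matrix MP0775d3.Cf

variable {G H : Type} [Group G] [Group H] {ι : H →* G} {S : Sys H} (A : Ad ι S)
  {K : S.I × S.I → Type} [∀ z, Fintype (K z)] [∀ z, DecidableEq (K z)]
  (W : Matrix (Σ z : S.I × S.I, (S.D z.1 × S.D z.2) × K z) G ℂ)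
  (Y : ∀ z : S.I × S.I, Matrix (Σ l, A.P l z.1 × A.P l z.2) (K z) ℂ)

/-- The representations are expressed by the coordinates `W`, with coefficients that only see the
multiplicities. -/
def Two : Prop := ∀ g l i a p j b q, A.ρ l g ⟨i, (a, p)⟩ ⟨j, (b, q)⟩ =
  ∑ κ, Y (i, j) ⟨l, (p, q)⟩ κ * W ⟨(i, j), ((a, b), κ)⟩ g

/-- The reading of the rows. -/
private def ts_f (x : Σ l, A.sys.D l × A.sys.D l) :
    Σ z : S.I × S.I, (Σ l, A.P l z.1 × A.P l z.2) × (S.D z.1 × S.D z.2) :=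
  ⟨(x.2.1.1, x.2.2.1), (⟨x.1, (x.2.1.2.2, x.2.2.2.2)⟩, (x.2.1.2.1, x.2.2.2.1))⟩

private theorem ts_f_inj : Function.Injective (ts_f A) :=
  Function.LeftInverse.injective (g := fun y =>
    (⟨y.2.1.1, (⟨y.1.1, (y.2.2.1, y.2.1.2.1)⟩, ⟨y.1.2, (y.2.2.2, y.2.1.2.2)⟩)⟩ :
      Σ l, A.sys.D l × A.sys.D l)) fun _ => rfl

/-- The reading of the columns. -/
private def ts_g (x : Σ z : S.I × S.I, (S.D z.1 × S.D z.2) × K z) :
    Σ z : S.I × S.I, K z × (S.D z.1 × S.D z.2) := ⟨x.1, (x.2.2, x.2.1)⟩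

private theorem ts_g_inj : Function.Injective (ts_g (S := S) (K := K)) :=
  Function.LeftInverse.injective (g := fun y =>
    (⟨y.1, (y.2.2, y.2.1)⟩ : Σ z : S.I × S.I, (S.D z.1 × S.D z.2) × K z)) fun _ => rfl

/-- The middle matrix. -/
private noncomputable def ts_B : Matrix
    (Σ z : S.I × S.I, (Σ l, A.P l z.1 × A.P l z.2) × (S.D z.1 × S.D z.2))
    (Σ z : S.I × S.I, K z × (S.D z.1 × S.D z.2)) ℂ :=
  Matrix.blockDiagonal' fun z : S.I × S.I => Matrix.kroneckerMap (· * ·) (Y z)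
    (1 : Matrix (S.D z.1 × S.D z.2) (S.D z.1 × S.D z.2) ℂ)

private theorem ts_same (z : S.I × S.I) (y : Σ l, A.P l z.1 × A.P l z.2) (κ : K z)
    (ab cd : S.D z.1 × S.D z.2) :
    ts_B A Y ⟨z, (y, ab)⟩ ⟨z, (κ, cd)⟩ = if ab = cd then Y z y κ else 0 := by
  rw [ts_B, Matrix.blockDiagonal'_apply_eq, Matrix.kroneckerMap_apply, Matrix.one_apply, mul_ite,
    mul_one, mul_zero]

private theorem ts_ne {z z' : S.I × S.I} (hz : z ≠ z')
    (x : (Σ l, A.P l z.1 × A.P l z.2) × (S.D z.1 × S.D z.2)) (y : K z' × (S.D z'.1 × S.D z'.2)) :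
    ts_B A Y ⟨z, x⟩ ⟨z', y⟩ = 0 := by
  rw [ts_B, Matrix.blockDiagonal'_apply_ne _ _ _ hz]

private theorem ts_eq (h : Two A W Y) : A.sys.F =
    ((ts_B A Y).submatrix (ts_f A) (ts_g (S := S) (K := K))) * W := by
  classical
  ext x g
  obtain ⟨l, ⟨i, a, p⟩, j, b, q⟩ := x
  have h1 : A.sys.F ⟨l, ⟨i, a, p⟩, j, b, q⟩ g = A.ρ l g ⟨i, (a, p)⟩ ⟨j, (b, q)⟩ := rfl
  rw [h1, h g l i a p j b q, Matrix.mul_apply, Fintype.sum_sigma,
    Finset.sum_eq_single (i, j)]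
  · rw [Fintype.sum_prod_type, Finset.sum_eq_single (a, b)]
    · refine Finset.sum_congr rfl fun κ _ => ?_
      congr 1
      refine Eq.symm ((ts_same A Y (i, j) ⟨l, (p, q)⟩ κ (a, b) (a, b)).trans ?_)
      exact if_pos rfl
    · intro cd _ hcd
      refine Finset.sum_eq_zero fun κ _ => ?_
      have h2 : ((ts_B A Y).submatrix (ts_f A) (ts_g (S := S) (K := K)))
          ⟨l, ⟨i, a, p⟩, j, b, q⟩ ⟨(i, j), (cd, κ)⟩ = 0 :=
        (ts_same A Y (i, j) ⟨l, (p, q)⟩ κ (a, b) cd).trans (if_neg fun h => hcd h.symm)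
      rw [h2, zero_mul]
    · intro h2
      exact absurd (Finset.mem_univ _) h2
  · intro z _ hz
    refine Finset.sum_eq_zero fun y _ => ?_
    have h2 : ((ts_B A Y).submatrix (ts_f A) (ts_g (S := S) (K := K)))
        ⟨l, ⟨i, a, p⟩, j, b, q⟩ ⟨z, y⟩ = 0 :=
      ts_ne A Y (z := (i, j)) (z' := z) (fun h => hz h.symm) (⟨l, (p, q)⟩, (a, b)) (y.2, y.1)
    rw [h2, zero_mul]
  · intro h2
    exact absurd (Finset.mem_univ _) h2

/-- PROOF. `A.sys.F = Mid * W`, `Mid` the matrix `blockDiagonal' fun z => Y z ⊗ 1`, with rows read at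
`⟨l, (⟨i, (a, p)⟩, ⟨j, (b, q)⟩)⟩ ↦ ⟨(i, j), (⟨l, (p, q)⟩, (a, b))⟩` and columns at
`⟨z, (ab, κ)⟩ ↦ ⟨z, (κ, ab)⟩` (both injective): `bx_sigma`, `Bx.submatrix`, `Bx.mono`, `Bx.mul`. -/
theorem Two.bx (h : Two A W Y) {w s : ℝ} {t t' : ℕ} (hs : 1 ≤ s) (hW : Bx w s t W)
    (wz : S.I × S.I → ℝ) (hz : ∑ z, wz z ≤ w)
    (hY : ∀ z, Bx (wz z) s t' (Matrix.kroneckerMap (· * ·) (Y z)
      (1 : Matrix (S.D z.1 × S.D z.2) (S.D z.1 × S.D z.2) ℂ))) :
    Bx w s (t' + t + 1) A.sys.F := by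
  classical
  have h0 : Bx (∑ z, wz z) s t' (ts_B A Y) := bx_sigma hY
  have h1 := h0.submatrix (ts_f_inj A) (ts_g_inj (S := S) (K := K))
  have h2 := (h1.mono hz le_rfl le_rfl hs).mul hW hs
  rw [ts_eq A W Y h]
  exact h2

/-- PROOF. Fix `a₀ : S.D z.1`, `b₀ : S.D z.2`. The vector on the rows of `A.sys.F` that is `v ⟨l, (p, q)⟩` at
`⟨l, (⟨z.1, (a₀, p)⟩, ⟨z.2, (b₀, q)⟩)⟩` and `0` elsewhere is killed by `A.sys.F` (`Two`), hence zero
(`Sys.F_mul_F'`). -/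
theorem Two.rows [Finite G] (h : Two A W Y) (z : S.I × S.I)
    (v : (Σ l, A.P l z.1 × A.P l z.2) → ℂ) (hv : ∀ κ, ∑ y, v y * Y z y κ = 0) : v = 0 := by
  classical
  have hfin : Fintype G := Fintype.ofFinite G
  obtain ⟨i, j⟩ := z
  obtain ⟨a⟩ := S.ne i
  obtain ⟨b⟩ := S.ne j
  obtain ⟨e, he⟩ : ∃ e : (Σ l, A.P l i × A.P l j) → Σ l, A.sys.D l × A.sys.D l,
      e = fun y => ⟨y.1, (⟨i, (a, y.2.1)⟩, ⟨j, (b, y.2.2)⟩)⟩ := ⟨_, rfl⟩
  have hinj : Function.Injective e := by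
    rintro ⟨l, p, q⟩ ⟨l', p', q'⟩ h1
    have h2 := congrArg (ts_f A) h1
    rw [he] at h2
    have h3 := eq_of_heq (Sigma.mk.inj h2).2
    exact (Prod.mk.inj h3).1
  have hF : ∀ g, ∑ y, v y * A.sys.F (e y) g = 0 := by
    intro g
    have h1 : ∀ y, A.sys.F (e y) g = ∑ κ, Y (i, j) y κ * W ⟨(i, j), ((a, b), κ)⟩ g := by
      rintro ⟨l, p, q⟩
      rw [he]
      exact h g l i a p j b q
    simp only [h1, Finset.mul_sum]
    rw [Finset.sum_comm]
    refine Finset.sum_eq_zero fun κ _ => ?_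
    have h2 := hv κ
    rw [Finset.sum_congr rfl fun y _ => (mul_assoc (v y) (Y (i, j) y κ) _).symm,
      ← Finset.sum_mul, h2, zero_mul]
  funext y₀
  have h1 : v y₀ = ∑ y, v y * (A.sys.F * A.sys.F') (e y) (e y₀) := by
    rw [A.sys.F_mul_F', Finset.sum_eq_single y₀]
    · rw [Matrix.one_apply_eq, mul_one]
    · intro y _ hy
      rw [Matrix.one_apply_ne fun h => hy (hinj h), mul_zero]
    · intro h2
      exact absurd (Finset.mem_univ _) h2
  rw [h1]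
  simp only [Matrix.mul_apply, Finset.mul_sum]
  rw [Finset.sum_comm]
  refine Finset.sum_eq_zero fun g _ => ?_
  rw [Finset.sum_congr rfl fun y _ => (mul_assoc (v y) (A.sys.F (e y) g) _).symm,
    ← Finset.sum_mul, hF g, zero_mul]

/-- PROOF. `Two.rows`: more rows than columns give a dependence (`Matrix.exists_vecMul_eq_zero` or
`LinearMap.exists_ne_zero_of_finrank_lt`, or rank). -/
theorem Two.card [Finite G] (h : Two A W Y) (z : S.I × S.I) :
    Fintype.card (Σ l, A.P l z.1 × A.P l z.2) ≤ Fintype.card (K z) := by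
  classical
  have h1 : Function.Injective (Matrix.vecMulLinear (Y z)) := by
    rw [← LinearMap.ker_eq_bot, LinearMap.ker_eq_bot']
    intro v hv
    exact h.rows A W Y z v fun κ => congrFun hv κ
  have h2 := LinearMap.finrank_le_finrank_of_injective h1
  rwa [Module.finrank_fintype_fun_eq_card, Module.finrank_fintype_fun_eq_card] at h2

end MP0775d3.Ox
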