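import Pool.Agent.Lib.MP_0775d3_lc.Ox.LDefs
import Pool.Agent.Lib.MP_0775d3_lc.Ox.Ts

/-! Project OX: low part, from two-sided coordinates to the Fourier matrix. -/

set_option linter.unusedSectionVars false
set_option linter.unusedVariables false

namespace MP0775d3.Ox

open Matrix MP0775d3.Cf

variable {G H : Type} [Group G] [Group H] {ι : H →* G} {S : Sys H} (A : Ad ι S)
  {K : S.I × S.I → Type} [∀ z, Fintype (K z)] [∀ z, DecidableEq (K z)]
  (W : Matrix (Σ z : S.I × S.I, (S.D z.1 × S.D z.2) × K z) G ℂ)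
  (Y : ∀ z : S.I × S.I, Matrix (Σ l, A.P l z.1 × A.P l z.2) (K z) ℂ)

/-- The reading of the rows. -/
private def lts_f (x : Σ l, A.sys.D l × A.sys.D l) :
    Σ z : S.I × S.I, (Σ l, A.P l z.1 × A.P l z.2) × (S.D z.1 × S.D z.2) :=
  ⟨(x.2.1.1, x.2.2.1), (⟨x.1, (x.2.1.2.2, x.2.2.2.2)⟩, (x.2.1.2.1, x.2.2.2.1))⟩

private theorem lts_f_inj : Function.Injective (lts_f A) :=
  Function.LeftInverse.injective (g := fun y =>
    (⟨y.2.1.1, (⟨y.1.1, (y.2.2.1, y.2.1.2.1)⟩, ⟨y.1.2, (y.2.2.2, y.2.1.2.2)⟩)⟩ :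
      Σ l, A.sys.D l × A.sys.D l)) fun _ => rfl

/-- The reading of the columns. -/
private def lts_g (x : Σ z : S.I × S.I, (S.D z.1 × S.D z.2) × K z) :
    Σ z : S.I × S.I, K z × (S.D z.1 × S.D z.2) := ⟨x.1, (x.2.2, x.2.1)⟩

private theorem lts_g_inj : Function.Injective (lts_g (S := S) (K := K)) :=
  Function.LeftInverse.injective (g := fun y =>
    (⟨y.1, (y.2.2, y.2.1)⟩ : Σ z : S.I × S.I, (S.D z.1 × S.D z.2) × K z)) fun _ => rfl

/-- The rows of the product. -/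
private theorem lts_eq (B : ∀ z : S.I × S.I,
      Matrix ((Σ l, A.P l z.1 × A.P l z.2) × (S.D z.1 × S.D z.2)) (K z × (S.D z.1 × S.D z.2)) ℂ)
    (W' : Matrix (Σ z : S.I × S.I, (S.D z.1 × S.D z.2) × K z) G ℂ)
    (l : A.I) (i j : S.I) (a : S.D i) (p : A.P l i) (b : S.D j) (q : A.P l j) (g : G)
    (hB : B (i, j) = Matrix.kroneckerMap (· * ·) (Y (i, j))
      (1 : Matrix (S.D i × S.D j) (S.D i × S.D j) ℂ)) :
    (((Matrix.blockDiagonal' B).submatrix (lts_f A) (lts_g (S := S) (K := K))) * W')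
        ⟨l, (⟨i, (a, p)⟩, ⟨j, (b, q)⟩)⟩ g =
      ∑ κ, Y (i, j) ⟨l, (p, q)⟩ κ * W' ⟨(i, j), ((a, b), κ)⟩ g := by
  classical
  have hsame : ∀ (cd : S.D i × S.D j) (κ : K (i, j)),
      ((Matrix.blockDiagonal' B).submatrix (lts_f A) (lts_g (S := S) (K := K)))
        ⟨l, (⟨i, (a, p)⟩, ⟨j, (b, q)⟩)⟩ ⟨(i, j), (cd, κ)⟩ =
      if (a, b) = cd then Y (i, j) ⟨l, (p, q)⟩ κ else 0 := by
    intro cd κ
    have h1 : (Matrix.blockDiagonal' B) ⟨(i, j), (⟨l, (p, q)⟩, (a, b))⟩ ⟨(i, j), (κ, cd)⟩ =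
        if (a, b) = cd then Y (i, j) ⟨l, (p, q)⟩ κ else 0 := by
      rw [Matrix.blockDiagonal'_apply_eq, hB, Matrix.kroneckerMap_apply, Matrix.one_apply, mul_ite,
        mul_one, mul_zero]
    exact h1
  rw [Matrix.mul_apply, Fintype.sum_sigma, Finset.sum_eq_single (i, j)]
  · rw [Fintype.sum_prod_type, Finset.sum_eq_single (a, b)]
    · refine Finset.sum_congr rfl fun κ _ => ?_
      congr 1
      exact (hsame (a, b) κ).trans (if_pos rfl)
    · intro cd _ hcd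
      refine Finset.sum_eq_zero fun κ _ => ?_
      rw [hsame cd κ, if_neg fun h => hcd h.symm, zero_mul]
    · intro h2
      exact absurd (Finset.mem_univ _) h2
  · intro z _ hz
    refine Finset.sum_eq_zero fun y _ => ?_
    have h2 : ((Matrix.blockDiagonal' B).submatrix (lts_f A) (lts_g (S := S) (K := K)))
        ⟨l, (⟨i, (a, p)⟩, ⟨j, (b, q)⟩)⟩ ⟨z, y⟩ = 0 :=
      Matrix.blockDiagonal'_apply_ne B (k := (i, j)) (k' := z) (⟨l, (p, q)⟩, (a, b)) (y.2, y.1)
        (fun h => hz h.symm)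
    rw [h2, zero_mul]
  · intro h2
    exact absurd (Finset.mem_univ _) h2

/-- The small rows of the product are those of the Fourier matrix. -/
private theorem lts_low (h : Two A W Y) {L : ℝ} (B : ∀ z : S.I × S.I,
      Matrix ((Σ l, A.P l z.1 × A.P l z.2) × (S.D z.1 × S.D z.2)) (K z × (S.D z.1 × S.D z.2)) ℂ)
    (W' : Matrix (Σ z : S.I × S.I, (S.D z.1 × S.D z.2) × K z) G ℂ)
    (hW : ∀ z g, (Fintype.card (S.D z.1.1) : ℝ) ≤ L → (Fintype.card (S.D z.1.2) : ℝ) ≤ L →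
      W' z g = W z g)
    (hB : ∀ z : S.I × S.I, (Fintype.card (S.D z.1) : ℝ) ≤ L → (Fintype.card (S.D z.2) : ℝ) ≤ L →
      B z = Matrix.kroneckerMap (· * ·) (Y z)
        (1 : Matrix (S.D z.1 × S.D z.2) (S.D z.1 × S.D z.2) ℂ)) :
    A.sys.Low L (((Matrix.blockDiagonal' B).submatrix (lts_f A) (lts_g (S := S) (K := K))) *
      W') := by
  classical
  rintro ⟨l, ⟨i, a, p⟩, j, b, q⟩ g hl
  have hc : ∀ (i : S.I) (_ : A.P l i), (Fintype.card (S.D i) : ℝ) ≤ L := by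
    intro i r
    refine le_trans ?_ hl
    have h1 : Fintype.card (S.D i) ≤ Fintype.card (Σ i, S.D i × A.P l i) := by
      refine Fintype.card_le_of_injective (fun c => ⟨i, (c, r)⟩) ?_
      intro c c' hcc
      exact congrArg Prod.fst (eq_of_heq (Sigma.mk.inj hcc).2)
    exact_mod_cast h1
  have hi := hc i p
  have hj := hc j q
  refine (lts_eq A Y B W' l i j a p b q g (hB (i, j) hi hj)).trans ?_
  have h1 : A.sys.F ⟨l, ⟨i, a, p⟩, j, b, q⟩ g = A.ρ l g ⟨i, (a, p)⟩ ⟨j, (b, q)⟩ := rfl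
  rw [h1, h g l i a p j b q]
  refine Finset.sum_congr rfl fun κ _ => ?_
  rw [hW ⟨(i, j), ((a, b), κ)⟩ g hi hj]

/-- PROOF. As `Two.bx`; the middle matrix is `blockDiagonal' fun z => if both dimensions are at most L then Y z ⊗ 1 else 0`
(`bx_layer` if `Y z` has at most `s` rows and columns: `hK`, `Two.card`). A row of `A.sys.F` of a representation `l` of dimension at
most `L` only meets `i`, `j` with `|S.D i|, |S.D j| ≤ |A.sys.D l| ≤ L` (`A.P l i` has an element). -/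
theorem Two.low [Finite G] (h : Two A W Y) {w s L : ℝ} {t : ℕ} (hs : 1 ≤ s)
    (W' : Matrix (Σ z : S.I × S.I, (S.D z.1 × S.D z.2) × K z) G ℂ) (hB : Bx w s t W')
    (hW : ∀ z g, (Fintype.card (S.D z.1.1) : ℝ) ≤ L → (Fintype.card (S.D z.1.2) : ℝ) ≤ L →
      W' z g = W z g)
    (hK : ∀ z : S.I × S.I, (Fintype.card (S.D z.1) : ℝ) ≤ L → (Fintype.card (S.D z.2) : ℝ) ≤ L →
      (Fintype.card (K z) : ℝ) ≤ s)
    (hw : (∑ z : S.I × S.I, (Fintype.card (K z) *
      (Fintype.card (S.D z.1) * Fintype.card (S.D z.2)) : ℝ)) ≤ w) :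
    ∃ F : Matrix (Σ l, A.sys.D l × A.sys.D l) G ℂ, Bx w s (1 + t + 1) F ∧ A.sys.Low L F := by
  classical
  have hcard : ∀ z : S.I × S.I,
      (Fintype.card (Σ l, A.P l z.1 × A.P l z.2) : ℝ) ≤ Fintype.card (K z) := fun z =>
    Nat.cast_le.mpr (h.card A W Y z)
  have hlay := bx_layer (w := w) (I := S.I × S.I) (X := fun z => Σ l, A.P l z.1 × A.P l z.2)
    (Y := K) (E := fun z => S.D z.1 × S.D z.2) hs Y
    (fun z => (Fintype.card (S.D z.1) : ℝ) ≤ L ∧ (Fintype.card (S.D z.2) : ℝ) ≤ L)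
    (fun z hz => (hcard z).trans (hK z hz.1 hz.2)) (fun z hz => hK z hz.1 hz.2)
    (by
      refine le_trans (Finset.sum_le_sum fun z _ => ?_) hw
      rw [Fintype.card_prod, Nat.cast_mul]
      exact mul_le_mul_of_nonneg_right (hcard z) (by positivity))
    (by
      refine le_trans (Finset.sum_le_sum fun z _ => ?_) hw
      rw [Fintype.card_prod, Nat.cast_mul])
  refine ⟨_, (hlay.submatrix (lts_f_inj A) (lts_g_inj (S := S) (K := K))).mul hB hs, ?_⟩
  refine lts_low A W Y h _ W' hW fun z h1 h2 => ?_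
  exact if_pos ⟨h1, h2⟩

/-- The same, if the blocks `Y z` with both dimensions at most `L` are given as circuits. PROOF. As `Two.low`, with
`bx_sigma` and `Bx` of the zero matrix for the other blocks. -/
theorem Two.low' [Finite G] (h : Two A W Y) {w s L : ℝ} {t t' : ℕ} (hs : 1 ≤ s) (ht' : 1 ≤ t')
    (W' : Matrix (Σ z : S.I × S.I, (S.D z.1 × S.D z.2) × K z) G ℂ) (hB : Bx w s t W')
    (hW : ∀ z g, (Fintype.card (S.D z.1.1) : ℝ) ≤ L → (Fintype.card (S.D z.1.2) : ℝ) ≤ L →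
      W' z g = W z g) {M : ℝ} (hM : 1 ≤ M)
    (hY : ∀ z : S.I × S.I, (Fintype.card (S.D z.1) : ℝ) ≤ L → (Fintype.card (S.D z.2) : ℝ) ≤ L →
      Bx (M * (Fintype.card (K z) * (Fintype.card (S.D z.1) * Fintype.card (S.D z.2)))) s t'
        (Matrix.kroneckerMap (· * ·) (Y z) (1 : Matrix (S.D z.1 × S.D z.2) (S.D z.1 × S.D z.2) ℂ)))
    (hw : M * (∑ z : S.I × S.I, (Fintype.card (K z) *
      (Fintype.card (S.D z.1) * Fintype.card (S.D z.2)) : ℝ)) ≤ w) :
    ∃ F : Matrix (Σ l, A.sys.D l × A.sys.D l) G ℂ, Bx w s (t' + t + 1) F ∧ A.sys.Low L F := by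
  classical
  have hcard : ∀ z : S.I × S.I,
      (Fintype.card (Σ l, A.P l z.1 × A.P l z.2) : ℝ) ≤ Fintype.card (K z) := fun z =>
    Nat.cast_le.mpr (h.card A W Y z)
  have hlay := bx_sigma (ι := S.I × S.I)
    (X := fun z => (Σ l, A.P l z.1 × A.P l z.2) × (S.D z.1 × S.D z.2))
    (Y := fun z => K z × (S.D z.1 × S.D z.2))
    (B := fun z => if (Fintype.card (S.D z.1) : ℝ) ≤ L ∧ (Fintype.card (S.D z.2) : ℝ) ≤ L then
      Matrix.kroneckerMap (· * ·) (Y z)
        (1 : Matrix (S.D z.1 × S.D z.2) (S.D z.1 × S.D z.2) ℂ) else 0)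
    (w := fun z => M * (Fintype.card (K z) *
      (Fintype.card (S.D z.1) * Fintype.card (S.D z.2)))) (s := s) (t := t')
    (by
      intro z
      by_cases hz : (Fintype.card (S.D z.1) : ℝ) ≤ L ∧ (Fintype.card (S.D z.2) : ℝ) ≤ L
      · simp only [if_pos hz]
        exact hY z hz.1 hz.2
      · simp only [if_neg hz]
        have hk : ((Fintype.card (K z) : ℝ) * (Fintype.card (S.D z.1) * Fintype.card (S.D z.2))) ≤
            M * (Fintype.card (K z) * (Fintype.card (S.D z.1) * Fintype.card (S.D z.2))) :=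
          le_mul_of_one_le_left (by positivity) hM
        refine Bx.mono (bx_of_blk (blk_partial hs (fun i j j' h1 _ => absurd rfl h1)
          (fun i i' j h1 _ => absurd rfl h1)) hs ?_ ?_) le_rfl le_rfl ht' hs
        · rw [Fintype.card_prod, Fintype.card_prod, Nat.cast_mul, Nat.cast_mul]
          exact (mul_le_mul_of_nonneg_right (hcard z) (by positivity)).trans hk
        · rw [Fintype.card_prod, Fintype.card_prod, Nat.cast_mul, Nat.cast_mul]
          exact hk)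
  have hlay2 := (hlay.submatrix (lts_f_inj A) (lts_g_inj (S := S) (K := K))).mono
    (le_trans (le_of_eq (Finset.mul_sum _ _ _).symm) hw) le_rfl le_rfl hs
  refine ⟨_, hlay2.mul hB hs, ?_⟩
  refine lts_low A W Y h _ W' hW fun z h1 h2 => ?_
  exact if_pos ⟨h1, h2⟩

end MP0775d3.Ox
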