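import Pool.Agent.Lib.MP_0775d3_lc.Ox.Main
import Pool.Agent.Lib.MP_0775d3_lc.Om.Up

/-! Project OX: group matrices of the groups in the class. -/

set_option linter.unusedSectionVars false
set_option linter.unusedVariables false

namespace MP0775d3.Ox

open Matrix MP0775d3.Cf MP0775d3.Om MP0775d3.Sl2 MP0775d3.Kron

private theorem up2_pow_le {C a b : ℝ} (hab : a < b) :
    ∃ n₀ : ℕ, ∀ n : ℕ, n₀ ≤ n → 1 ≤ n → C * (n : ℝ) ^ a ≤ (n : ℝ) ^ b := by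
  have h1 : Filter.Tendsto (fun n : ℕ => (n : ℝ) ^ (b - a)) Filter.atTop Filter.atTop :=
    (tendsto_rpow_atTop (sub_pos.2 hab)).comp tendsto_natCast_atTop_atTop
  obtain ⟨n₀, hn₀⟩ := Filter.eventually_atTop.1 (Filter.tendsto_atTop.1 h1 C)
  refine ⟨n₀, fun n hn hn1 => ?_⟩
  have h2 : (0 : ℝ) < n := by exact_mod_cast hn1
  have h3 : (n : ℝ) ^ b = (n : ℝ) ^ (b - a) * (n : ℝ) ^ a := by
    rw [← Real.rpow_add h2, sub_add_cancel]
  rw [h3]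
  exact mul_le_mul_of_nonneg_right (hn₀ n hn) (Real.rpow_nonneg h2.le a)

/-- As `Om.fd_dec` (same proof), with a power in the width: `γ` depends on `δ`, `t` only. -/
theorem fd_dec2 (hω : omega = 2) (δ : ℝ) (hδ : 0 < δ) (t : ℕ) :
    ∃ γ : ℝ, 0 < γ ∧ ∀ C : ℝ, 1 ≤ C → ∃ n₀ : ℕ, ∀ (G : Type) [Group G] [Fintype G],
      n₀ ≤ Fintype.card G →
      FD (C * (Fintype.card G : ℝ) ^ (γ / 2) * Fintype.card G)
        (C * (Fintype.card G : ℝ) ^ (δ / 4)) t G → ∀ f : G → ℂ,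
        Dec (groupMat f) ((Fintype.card G : ℝ) ^ (1 - γ)) ((Fintype.card G : ℝ) ^ δ) := by
  classical
  obtain ⟨t', ht', hmm⟩ := mm_bx hω (δ / 4) (by linarith)
  obtain ⟨γ, hγ, n₁, hdec⟩ := bx_dec (δ / 2) (δ / 2) (by linarith) (by linarith)
    (t + t' + 1 + t + 1)
  obtain ⟨C', hC', hmm'⟩ := hmm (γ / 2) (by linarith)
  refine ⟨γ, hγ, fun C hC => ?_⟩
  obtain ⟨n₂, h₂⟩ := up2_pow_le (C := C) (a := 1 + γ / 2) (b := 1 + γ) (by linarith)
  obtain ⟨n₃, h₃⟩ := up2_pow_le (C := C') (a := 1 + γ / 2) (b := 1 + γ) (by linarith)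
  obtain ⟨n₄, h₄⟩ := up2_pow_le (C := C) (a := δ / 4) (b := δ / 2) (by linarith)
  obtain ⟨n₅, h₅⟩ := up2_pow_le (C := C') (a := δ / 4) (b := δ / 2) (by linarith)
  refine ⟨n₁ + n₂ + n₃ + n₄ + n₅ + 1, ?_⟩
  intro G _ _ hn hFD f
  obtain ⟨n, hnG⟩ : ∃ n, n = Fintype.card G := ⟨_, rfl⟩
  rw [← hnG] at hn hFD ⊢
  have hn1 : 1 ≤ n := by omega
  have hn1' : (1 : ℝ) ≤ n := by exact_mod_cast hn1
  have hn0 : (0 : ℝ) < n := by linarith
  have k₂ := h₂ n (by omega) hn1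
  have k₃ := h₃ n (by omega) hn1
  have k₄ := h₄ n (by omega) hn1
  have k₅ := h₅ n (by omega) hn1
  have k₂' : C * (n : ℝ) ^ (γ / 2) * n ≤ (n : ℝ) ^ (1 + γ) := by
    refine le_trans (le_of_eq ?_) k₂
    rw [Real.rpow_add hn0, Real.rpow_one]
    ring
  obtain ⟨I, iI1, iI2, D, iD1, iD2, U, U', hcard, hU, hU', hf⟩ := hFD
  obtain ⟨A, hA⟩ := hf f
  rw [Nat.card_eq_fintype_card, ← hnG] at hcard
  have hcard' : (∑ i, (Fintype.card (D i) * Fintype.card (D i) : ℝ)) ≤ n := by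
    exact_mod_cast hcard
  have hmid : ∀ i, Bx (C' * (Fintype.card (D i) * Fintype.card (D i)) * (n : ℝ) ^ (γ / 2))
      (C' * (n : ℝ) ^ (δ / 4)) t'
      (Matrix.kroneckerMap (· * ·) (A i) (1 : Matrix (D i) (D i) ℂ)) := by
    intro i
    refine hmm' n hn1' (D i) (le_trans ?_ hcard') (A i)
    exact Finset.single_le_sum
      (f := fun i => (Fintype.card (D i) * Fintype.card (D i) : ℝ))
      (fun j _ => by positivity) (Finset.mem_univ i)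
  have hs1 : (1 : ℝ) ≤ (n : ℝ) ^ (δ / 2) := Real.one_le_rpow hn1' (by linarith)
  have hsum : (∑ i, C' * (Fintype.card (D i) * Fintype.card (D i) : ℝ) * (n : ℝ) ^ (γ / 2)) ≤
      (n : ℝ) ^ (1 + γ) := by
    rw [← Finset.sum_mul, ← Finset.mul_sum]
    refine le_trans ?_ k₃
    rw [Real.rpow_add hn0, Real.rpow_one, ← mul_assoc]
    exact mul_le_mul_of_nonneg_right (mul_le_mul_of_nonneg_left hcard' (by linarith))
      (Real.rpow_nonneg hn0.le _)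
  have hM := (bx_sigma hmid).mono hsum k₅ le_rfl hs1
  have hU1 := hU.mono k₂' k₄ le_rfl hs1
  have hU2 := hU'.mono k₂' k₄ le_rfl hs1
  have hprod := (hU1.mul hM hs1).mul hU2 hs1
  rw [← hA] at hprod
  have hd := hdec G (by omega) (groupMat f) (by rw [← hnG]; exact hprod)
  rw [← hnG, add_halves] at hd
  exact hd

/-- PROOF. `tame_fs` with `δ / 8`, `t`; `fd_dec2` with this `t`, `γ`; `η = γ / 2`, `N = |G|`; `FS.fd`. -/
theorem up_tame (hω : omega = 2) (δ : ℝ) (hδ : 0 < δ) (l : ℕ) : ∃ γ : ℝ, 0 < γ ∧ ∃ n₀ : ℕ,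
    ∀ (G : Type) [Group G] [Fintype G], n₀ ≤ Fintype.card G →
      Tame ((Fintype.card G : ℝ) ^ (δ / 8)) l G → ∀ f : G → ℂ,
        Dec (groupMat f) ((Fintype.card G : ℝ) ^ (1 - γ)) ((Fintype.card G : ℝ) ^ δ) := by
  classical
  obtain ⟨t, ht, hfs⟩ := tame_fs hω (δ / 8) (by linarith) l
  obtain ⟨γ, hγ, hdec⟩ := fd_dec2 hω δ hδ t
  obtain ⟨C, hC, hfs'⟩ := hfs (γ / 2) (by linarith)
  obtain ⟨n₀, hn₀⟩ := hdec C hC
  refine ⟨γ, hγ, max n₀ 1, ?_⟩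
  intro G _ _ hn hT f
  have hn1 : (1 : ℝ) ≤ (Fintype.card G : ℝ) := by
    exact_mod_cast (le_max_right n₀ 1).trans hn
  have h1 := hfs' (Fintype.card G) hn1 G (by rw [Nat.card_eq_fintype_card]) hT
  have h2 := h1.fd ht
  rw [Nat.card_eq_fintype_card, show 2 * (δ / 8) = δ / 4 by ring] at h2
  exact hn₀ G ((le_max_left _ _).trans hn) h2 f

end MP0775d3.Ox
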