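import Pool.Agent.Lib.MP_0775d3_lc.Ox.LMain
import Pool.Agent.Lib.MP_0775d3_lc.Ox.Up
import Pool.Agent.Lib.MP_0775d3_lc.Ox.LSplit
import Pool.Agent.Lib.MP_0775d3_lc.Ox.Mass

/-! Project OX: group matrices, without any assumption on `ω`. -/

set_option linter.unusedSectionVars false
set_option linter.unusedVariables false

namespace MP0775d3.Ox

open Matrix MP0775d3.Cf MP0775d3.Om MP0775d3.Sl2 MP0775d3.Kron

private theorem lUp_pow_le {C a b : ℝ} (hab : a < b) :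
    ∃ n₀ : ℕ, ∀ n : ℕ, n₀ ≤ n → 1 ≤ n → C * (n : ℝ) ^ a ≤ (n : ℝ) ^ b := by
  have h1 : Filter.Tendsto (fun n : ℕ => (n : ℝ) ^ (b - a)) Filter.atTop Filter.atTop :=
    (tendsto_rpow_atTop (sub_pos.2 hab)).comp tendsto_natCast_atTop_atTop
  obtain ⟨n₀, hn₀⟩ := Filter.eventually_atTop.1 (Filter.tendsto_atTop.1 h1 C)
  refine ⟨n₀, fun n hn hn1 => ?_⟩
  have h2 : (0 : ℝ) < n := by exact_mod_cast hn1
  have h3 : (n : ℝ) ^ b = (n : ℝ) ^ (b - a) * (n : ℝ) ^ a := by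
    rw [← Real.rpow_add h2, sub_add_cancel]
  rw [h3]
  exact mul_le_mul_of_nonneg_right (hn₀ n hn) (Real.rpow_nonneg h2.le a)

/-- PROOF. `tame_fl (δ / 16) l`, `fl_split` with `L = |G| ^ (δ / 16)`, `bx_dec (δ / 2) (δ / 2)` for `Q` (a matrix on `G`), the rank of a
sum. The representations of dimension more than `L` have mass less than `m` (`Sys.mass`: `L` replaced by `e = |G| ^ (δ / 16)`,
`e ≤ d` holds if `d > L`). -/
theorem up_low (δ : ℝ) (hδ : 0 < δ) (l : ℕ) : ∃ γ : ℝ, 0 < γ ∧ ∃ n₀ : ℕ,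
    ∀ (G : Type) [Group G] [Fintype G], n₀ ≤ Fintype.card G →
      Tame ((Fintype.card G : ℝ) ^ (δ / 16)) l G → ∀ m : ℝ,
      ¬ Mass G ((Fintype.card G : ℝ) ^ (δ / 16)) m → ∀ f : G → ℂ,
        Dec (groupMat f) (m + (Fintype.card G : ℝ) ^ (1 - γ)) ((Fintype.card G : ℝ) ^ δ) := by
  classical
  obtain ⟨t, ht, C, hC, hfl⟩ := tame_fl (δ / 16) (by linarith) l
  obtain ⟨γ, hγ, n₁, hdec⟩ := bx_dec (δ / 2) (δ / 2) (by linarith) (by linarith)
    (t + 1 + 1 + t + 1)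
  obtain ⟨n₂, h₂⟩ := lUp_pow_le (C := C) (a := 1) (b := 1 + γ) (by linarith)
  obtain ⟨n₃, h₃⟩ := lUp_pow_le (C := C) (a := 3 * (δ / 16)) (b := δ / 2) (by linarith)
  refine ⟨γ, hγ, n₁ + n₂ + n₃ + 1, ?_⟩
  intro G _ _ hn hT m hm f
  obtain ⟨n, hnG⟩ : ∃ n, n = Fintype.card G := ⟨_, rfl⟩
  rw [← hnG] at hn hT hm ⊢
  have hn1 : 1 ≤ n := by omega
  have hn1' : (1 : ℝ) ≤ n := by exact_mod_cast hn1
  have hn0 : (0 : ℝ) < n := by linarith
  have k₂ := h₂ n (by omega) hn1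
  have k₃ := h₃ n (by omega) hn1
  rw [Real.rpow_one] at k₂
  have hcard : (Nat.card G : ℝ) ≤ n := by rw [Nat.card_eq_fintype_card, ← hnG]
  obtain ⟨S, F, hB, hF⟩ := hfl n hn1' G hcard hT
  rw [Nat.card_eq_fintype_card, ← hnG] at hB
  obtain ⟨L, hL⟩ : ∃ L : ℝ, L = (n : ℝ) ^ (δ / 16) := ⟨_, rfl⟩
  rw [← hL] at hF hm
  have hL1 : 1 ≤ L := by
    rw [hL]
    exact Real.one_le_rpow hn1' (by linarith)
  have h3L : L ≤ (n : ℝ) ^ (3 * (δ / 16)) := by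
    rw [hL]
    exact Real.rpow_le_rpow_of_exponent_le hn1' (by linarith)
  have hLs : L ≤ C * (n : ℝ) ^ (3 * (δ / 16)) :=
    h3L.trans (le_mul_of_one_le_left (by positivity) hC)
  have hs1 : 1 ≤ C * (n : ℝ) ^ (3 * (δ / 16)) := hL1.trans hLs
  have hw : (Fintype.card G : ℝ) ≤ C * (n : ℝ) := by
    rw [← hnG]
    exact le_mul_of_one_le_left hn0.le hC
  obtain ⟨R, Q, hRQ, hR, hQ⟩ := fl_split ht hs1 hLs hw S F hB hF f
  have hQ2 : Bx ((n : ℝ) ^ (1 + γ)) ((n : ℝ) ^ (δ / 2)) (t + 1 + 1 + t + 1) Q :=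
    hQ.mono k₂ k₃ le_rfl (Real.one_le_rpow hn1' (by linarith))
  obtain ⟨R', S', h1, h2, h3⟩ := hdec G (by omega) Q (by rw [← hnG]; exact hQ2)
  rw [← hnG] at h2 h3
  rw [add_halves] at h3
  have hmass : (∑ i, if L ≤ (Fintype.card (S.D i) : ℝ) then ((Fintype.card (S.D i) : ℝ)) ^ 2
      else 0) ≤ m := by
    by_contra h
    push Not at h
    exact hm ((S.mass L).mono le_rfl h.le)
  refine ⟨R + R', S', ?_, ?_, h3⟩
  · change (Matrix.of fun x y => f (x * y⁻¹)) = R + R' + S'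
    rw [hRQ, h1, add_assoc]
  · have h4 : ((R + R').rank : ℝ) ≤ (R.rank : ℝ) + (R'.rank : ℝ) := by
      exact_mod_cast Kron.rank_add_le R R'
    have h5 : (R.rank : ℝ) ≤ m := by
      refine (hR.trans (Finset.sum_le_sum fun i _ => ?_)).trans hmass
      by_cases h6 : (Fintype.card (S.D i) : ℝ) ≤ L
      · rw [if_pos h6]
        split_ifs
        · positivity
        · exact le_rfl
      · rw [if_neg h6, if_pos (not_le.1 h6).le, sq]
    exact h4.trans (add_le_add h5 h2)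

end MP0775d3.Ox
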