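import Pool.Agent.Lib.MP_0775d3_lc.Ox.Mass
import Pool.Agent.Lib.MP_0775d3_lc.Om.GroupLow

/-! Project OX: the lower bound in terms of the mass. -/

namespace MP0775d3.Ox

open Matrix MP0775d3.Om

/-- PROOF. `group_form`, `low_mass`, as in `group_low`. -/
theorem group_low_mass (G : Type) [Group G] [Fintype G] (f : G → ℂ) (hf : AlgebraicIndependent ℚ f)
    (R S : Matrix G G ℂ) (h : (Matrix.of fun x y => f (x * y⁻¹)) = R + S) (e m : ℝ) (he : 0 ≤ e)
    (hm : Mass G e m) : e ^ (omega - 2) * (m - 4 * R.rank) / 4 ≤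
      (({p | S p.1 p.2 ≠ 0} : Set (G × G)).ncard : ℝ) := by
  classical
  obtain ⟨n, d, Φ, hm⟩ := hm
  obtain ⟨α, β, β', hab⟩ := group_form Φ
  have hL : ∑ p, f p • ((Matrix.of fun a b : G => (if a * b⁻¹ = p then 1 else 0 : ℚ)).map
      (algebraMap ℚ ℂ)) = R + S := by
    rw [← h]
    ext x y
    rw [Matrix.sum_apply, Matrix.of_apply, Finset.sum_eq_single (x * y⁻¹)]
    · rw [Matrix.smul_apply, Matrix.map_apply, Matrix.of_apply, if_pos rfl, map_one,
        smul_eq_mul, mul_one]
    · intro p _ hp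
      rw [Matrix.smul_apply, Matrix.map_apply, Matrix.of_apply, if_neg (Ne.symm hp), map_zero,
        smul_zero]
    · intro hp
      exact absurd (Finset.mem_univ _) hp
  have main := low_mass d (fun p => Matrix.of fun a b : G => (if a * b⁻¹ = p then 1 else 0 : ℚ)) f
    hf R S hL α β β' hab e he
  refine le_trans ?_ main
  have hs : m ≤ ∑ i, if e ≤ (d i : ℝ) then ((d i * d i : ℕ) : ℝ) else 0 := by
    refine hm.trans (le_of_eq (Finset.sum_congr rfl fun i _ => ?_))
    split_ifs
    · push_cast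
      ring
    · rfl
  have hp := Real.rpow_nonneg he (omega - 2)
  have h2 : m - 4 * (R.rank : ℝ) ≤
      (∑ i, if e ≤ (d i : ℝ) then ((d i * d i : ℕ) : ℝ) else 0) - 4 * R.rank := by linarith
  have h3 := mul_le_mul_of_nonneg_left h2 hp
  linarith

end MP0775d3.Ox
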