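import Pool.Agent.Lib.MP_0775d3_lc.Ox.AdaptC
import Pool.Agent.Lib.MP_0775d3_lc.Ox.Schur

/-! Project OX: automorphisms permute the representations. -/

set_option linter.unusedSectionVars false
set_option linter.unusedVariables false

namespace MP0775d3.Ox

open Matrix MP0775d3.Cf

variable {G H : Type} [Group G] [Group H]

/-- Equivalence of `S.π i` and of `S.π j` composed with `α`. -/
def Eqv (S : Sys H) (α : H → H) (i j : S.I) : Prop :=
  ∃ (V : Matrix (S.D i) (S.D j) ℂ) (V' : Matrix (S.D j) (S.D i) ℂ), V * V' = 1 ∧ V' * V = 1 ∧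
    ∀ h, S.π i h * V = V * S.π j (α h)

/-- The inverse matrix intertwines in the other direction. -/
private theorem prA_inv {D E : Type} [Fintype D] [Fintype E] [DecidableEq D] [DecidableEq E]
    {V : Matrix D E ℂ} {V' : Matrix E D ℂ} (h1 : V * V' = 1) (h2 : V' * V = 1)
    {P : Matrix D D ℂ} {Q : Matrix E E ℂ} (h : P * V = V * Q) : Q * V' = V' * P := by
  calc Q * V' = V' * V * (Q * V') := by rw [h2, Matrix.one_mul]
    _ = V' * (V * Q) * V' := by simp only [Matrix.mul_assoc]
    _ = V' * (P * V) * V' := by rw [h]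
    _ = V' * P * (V * V') := by simp only [Matrix.mul_assoc]
    _ = V' * P := by rw [h1, Matrix.mul_one]

/-- PROOF. Products of the matrices. -/
theorem Eqv.trans {S : Sys H} {α β : H → H} {i j k : S.I} (h : Eqv S α i j) (h' : Eqv S β j k) :
    Eqv S (fun x => β (α x)) i k := by
  obtain ⟨V, V', h1, h2, h3⟩ := h
  obtain ⟨W, W', h4, h5, h6⟩ := h'
  refine ⟨V * W, W' * V', ?_, ?_, fun x => ?_⟩
  · calc V * W * (W' * V') = V * (W * W') * V' := by simp only [Matrix.mul_assoc]
      _ = 1 := by rw [h4, Matrix.mul_one, h1]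
  · calc W' * V' * (V * W) = W' * (V' * V) * W := by simp only [Matrix.mul_assoc]
      _ = 1 := by rw [h2, Matrix.mul_one, h5]
  · rw [← Matrix.mul_assoc, h3, Matrix.mul_assoc, h6, ← Matrix.mul_assoc]

/-- PROOF. The inverse matrices. -/
theorem Eqv.symm {S : Sys H} {α : H ≃* H} {i j : S.I} (h : Eqv S α i j) :
    Eqv S α.symm j i := by
  obtain ⟨V, V', h1, h2, h3⟩ := h
  refine ⟨V', V, h2, h1, fun x => ?_⟩
  have h4 := h3 (α.symm x)
  rw [MulEquiv.apply_symm_apply] at h4
  exact prA_inv h1 h2 h4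

/-- PROOF. `schur_ne` for the intertwining matrix `V * V₁'`, which is invertible; `Sys.ne`. -/
theorem Eqv.unique [Finite H] {S : Sys H} {α : H → H} {i i' j : S.I} (h : Eqv S α i j)
    (h' : Eqv S α i' j) : i = i' := by
  obtain ⟨V, V', h1, h2, h3⟩ := h
  obtain ⟨W, W', h4, h5, h6⟩ := h'
  by_contra hne
  have h7 := schur_ne S hne (V * W') fun x => by
    rw [← Matrix.mul_assoc, h3, Matrix.mul_assoc, prA_inv h4 h5 (h6 x), ← Matrix.mul_assoc]
  have h8 : V * W' * (W * V') = 1 := by
    calc V * W' * (W * V') = V * (W' * W) * V' := by simp only [Matrix.mul_assoc]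
      _ = 1 := by rw [h5, Matrix.mul_one, h1]
  rw [h7, Matrix.zero_mul] at h8
  obtain ⟨a⟩ := S.ne i
  have h9 := congrFun (congrFun h8 a) a
  rw [Matrix.one_apply_eq, Matrix.zero_apply] at h9
  exact zero_ne_one h9

/-- PROOF. `card_of_inv`. -/
theorem Eqv.card {S : Sys H} {α : H → H} {i j : S.I} (h : Eqv S α i j) :
    Fintype.card (S.D i) = Fintype.card (S.D j) := by
  obtain ⟨V, V', h1, h2, -⟩ := h
  exact card_of_inv h1 h2

/-- PROOF. `exists_br` for `α.toMonoidHom : H →* H` and `T = S`: `S.π j (α h)` is `∑ k, M j k` times `S.π k`. By `Br.card`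
`∑ k, |D k| * |M j k| = |D j|` and by `Br.count` `∑ j, |D j| * |M j k| = |D k|`. There is `i` with `M j i` nonempty, so
`|D i| ≤ |D j|` and `|D j| ≤ |D i|`: equality, `|M j i| = 1`, `M j k` empty for `k ≠ i`. The matrices `B j`, `B' j`, read on
the block `i`, are the wanted ones. -/
theorem exists_eqv [Finite H] (S : Sys H) (α : H ≃* H) (j : S.I) : ∃ i, Eqv S α i j := by
  classical
  obtain ⟨b⟩ := exists_br α.toMonoidHom S S
  have hc := b.card j
  have hk : ∀ k, ∑ i, Fintype.card (S.D i) * Fintype.card (b.M i k) = Fintype.card (S.D k) := by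
    intro k
    have h1 := b.count (show Function.Injective α.toMonoidHom from α.injective) k
    rw [mul_comm] at h1
    exact Nat.eq_of_mul_eq_mul_left Nat.card_pos h1
  have hpos : ∀ k, 0 < Fintype.card (S.D k) := fun k => Fintype.card_pos
  obtain ⟨i, hi⟩ : ∃ i, 0 < Fintype.card (b.M j i) := by
    by_contra hcon
    have h1 : ∑ k, Fintype.card (S.D k) * Fintype.card (b.M j k) = 0 := by
      refine Finset.sum_eq_zero fun k _ => ?_
      have h2 : Fintype.card (b.M j k) = 0 := by
        by_contra h3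
        exact hcon ⟨k, Nat.pos_of_ne_zero h3⟩
      rw [h2, mul_zero]
    rw [h1] at hc
    exact absurd hc (hpos j).ne
  have hle1 : Fintype.card (S.D i) * Fintype.card (b.M j i) ≤ Fintype.card (S.D j) := by
    rw [← hc]
    exact Finset.single_le_sum (f := fun k => Fintype.card (S.D k) * Fintype.card (b.M j k))
      (fun _ _ => Nat.zero_le _) (Finset.mem_univ i)
  have hle2 : Fintype.card (S.D j) * Fintype.card (b.M j i) ≤ Fintype.card (S.D i) := by
    rw [← hk i]
    exact Finset.single_le_sum (f := fun j => Fintype.card (S.D j) * Fintype.card (b.M j i))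
      (fun _ _ => Nat.zero_le _) (Finset.mem_univ j)
  have hji : Fintype.card (S.D j) ≤ Fintype.card (S.D i) :=
    (Nat.le_mul_of_pos_right _ hi).trans hle2
  have hone : Fintype.card (b.M j i) = 1 := by
    refine le_antisymm ?_ hi
    refine Nat.le_of_mul_le_mul_left ?_ (hpos i)
    rw [mul_one]
    exact hle1.trans hji
  have hzero : ∀ k, k ≠ i → Fintype.card (b.M j k) = 0 := by
    intro k hki
    have h1 : Fintype.card (S.D k) * Fintype.card (b.M j k) +
        Fintype.card (S.D i) * Fintype.card (b.M j i) ≤ Fintype.card (S.D j) := by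
      rw [← hc, ← Finset.sum_pair (f := fun k => Fintype.card (S.D k) *
        Fintype.card (b.M j k)) hki]
      exact Finset.sum_le_sum_of_subset (Finset.subset_univ _)
    rw [hone, mul_one] at h1
    have h2 : Fintype.card (S.D k) * Fintype.card (b.M j k) = 0 := by omega
    exact (Nat.mul_eq_zero.1 h2).resolve_left (hpos k).ne'
  obtain ⟨μ, hμ⟩ := Fintype.card_eq_one_iff.1 hone
  obtain ⟨e, he⟩ : ∃ e : S.D i → Σ k, S.D k × b.M j k, e = fun a => ⟨i, (a, μ)⟩ := ⟨_, rfl⟩
  have hinj : Function.Injective e := by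
    intro a a' h1
    rw [he] at h1
    exact (Prod.mk.inj (eq_of_heq (Sigma.mk.inj h1).2)).1
  have hbij : Function.Bijective e := by
    refine ⟨hinj, ?_⟩
    rintro ⟨k, a, ν⟩
    rcases eq_or_ne k i with h1 | h1
    · subst h1
      refine ⟨a, ?_⟩
      rw [he, hμ ν]
    · have h2 := Fintype.card_eq_zero_iff.1 (hzero k h1)
      exact h2.elim ν
  refine ⟨i, Matrix.of fun a c => b.B' j (e a) c, Matrix.of fun c a => b.B j c (e a), ?_, ?_,
    fun h => ?_⟩
  · ext a a'
    rw [Matrix.mul_apply]
    have h1 := congrFun (congrFun (b.inv' j) (e a)) (e a')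
    rw [Matrix.mul_apply] at h1
    refine h1.trans ?_
    rw [Matrix.one_apply, Matrix.one_apply]
    exact if_congr hinj.eq_iff rfl rfl
  · ext c c'
    rw [Matrix.mul_apply]
    have h1 := congrFun (congrFun (b.inv j) c) c'
    rw [Matrix.mul_apply, ← hbij.sum_comp] at h1
    exact h1
  · ext a c
    rw [Matrix.mul_apply, Matrix.mul_apply]
    have h1 := congrFun (congrFun (b.eq' j h) (e a)) c
    rw [Matrix.mul_apply, Matrix.mul_apply, ← hbij.sum_comp] at h1
    refine Eq.trans ?_ h1.symm
    refine Finset.sum_congr rfl fun a' _ => ?_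
    have h2 : S.rep (b.M j) h (e a) (e a') = S.π i h a a' := by
      rw [he, S.rep_same, if_pos rfl]
    rw [h2]
    rfl

end MP0775d3.Ox
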