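import Pool.Agent.Lib.MP_0775d3_lc.Ox.PrA
import Pool.Agent.Lib.MP_0775d3_lc.Ox.Ts

/-! Project OX: normal subgroups of prime index. Data. -/

set_option linter.unusedSectionVars false
set_option linter.unusedVariables false

namespace MP0775d3.Ox

open Matrix MP0775d3.Cf

variable {G H : Type} [Group G] [Group H]

/-- `H` is normal of index `p`, `G` is generated by `H` and `g`. -/
structure Pd (ι : H →* G) (p : ℕ) where
  g : G
  α : H ≃* H
  hα : ∀ h, ι (α h) = g⁻¹ * ι h * g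
  c : H
  hc : ι c = g ^ p
  bij : Function.Bijective fun q : H × Fin p => ι q.1 * g ^ (q.2 : ℕ)

private theorem prB_mem (H : Subgroup G) (hN : H.Normal) (hp : H.index.Prime) (g : G)
    (hg : g ∉ H) (m : ℕ) (hm : m < H.index) (h : g ^ m ∈ H) : m = 0 := by
  by_contra h0
  have h1 : ((g : G ⧸ H)) ^ m = 1 := by
    rw [← QuotientGroup.mk_pow]
    exact (QuotientGroup.eq_one_iff _).2 h
  have h2 : ((g : G ⧸ H)) ^ H.index = 1 := by
    rw [← QuotientGroup.mk_pow]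
    exact (QuotientGroup.eq_one_iff _).2 (H.pow_index_mem g)
  have h3 : Nat.Coprime m H.index := by
    refine Nat.Coprime.symm ((Nat.Prime.coprime_iff_not_dvd hp).2 fun h4 => ?_)
    exact absurd (Nat.le_of_dvd (Nat.pos_of_ne_zero h0) h4) (not_le.2 hm)
  have h4 : orderOf (g : G ⧸ H) ∣ Nat.gcd m H.index :=
    Nat.dvd_gcd (orderOf_dvd_of_pow_eq_one h1) (orderOf_dvd_of_pow_eq_one h2)
  rw [Nat.Coprime] at h3
  rw [h3, Nat.dvd_one, orderOf_eq_one_iff, QuotientGroup.eq_one_iff] at h4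
  exact hg h4

private theorem prB_le (H : Subgroup G) (hN : H.Normal) (hp : H.index.Prime) (g : G)
    (hg : g ∉ H) (h1 h2 : H) (q1 q2 : Fin H.index) (hle : (q1 : ℕ) ≤ q2)
    (h : (h1 : G) * g ^ (q1 : ℕ) = (h2 : G) * g ^ (q2 : ℕ)) : q1 = q2 := by
  have h3 : g ^ ((q2 : ℕ) - q1) = ((h2⁻¹ * h1 : H) : G) := by
    rw [pow_sub g hle]
    have h4 : (h2 : G)⁻¹ * ((h1 : G) * g ^ (q1 : ℕ)) * (g ^ (q1 : ℕ))⁻¹ =
        (h2 : G)⁻¹ * ((h2 : G) * g ^ (q2 : ℕ)) * (g ^ (q1 : ℕ))⁻¹ := by rw [h]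
    have h5 : (h2 : G)⁻¹ * ((h1 : G) * g ^ (q1 : ℕ)) * (g ^ (q1 : ℕ))⁻¹ = (h2 : G)⁻¹ * h1 := by
      group
    have h6 : (h2 : G)⁻¹ * ((h2 : G) * g ^ (q2 : ℕ)) * (g ^ (q1 : ℕ))⁻¹ =
        g ^ (q2 : ℕ) * (g ^ (q1 : ℕ))⁻¹ := by
      group
    rw [h5, h6] at h4
    rw [← h4]
    rfl
  have h7 : g ^ ((q2 : ℕ) - q1) ∈ H := by
    rw [h3]
    exact SetLike.coe_mem _
  have h8 := prB_mem H hN hp g hg _ (lt_of_le_of_lt (Nat.sub_le _ _) q2.2) h7
  exact Fin.ext (by omega)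

private theorem prB_aux (H : Subgroup G) (hN : H.Normal) (hp : H.index.Prime) (g : G)
    (hg : g ∉ H) (h1 h2 : H) (q1 q2 : Fin H.index)
    (h : (h1 : G) * g ^ (q1 : ℕ) = (h2 : G) * g ^ (q2 : ℕ)) : q1 = q2 := by
  rcases le_total (q1 : ℕ) q2 with hle | hle
  · exact prB_le H hN hp g hg h1 h2 q1 q2 hle h
  · exact (prB_le H hN hp g hg h2 h1 q2 q1 hle h.symm).symm

/-- PROOF. `g` any element outside `H`; `α` conjugation by `g⁻¹` (`MulAut.conjNormal`); `g ^ p ∈ H` and the powers of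
`g` represent the cosets, as `G ⧸ H` has prime order. -/
theorem exists_pd [Finite G] (H : Subgroup G) (hN : H.Normal) (hp : H.index.Prime) :
    Nonempty (Pd H.subtype H.index) := by
  have hne : H ≠ ⊤ := by
    intro h
    rw [h, Subgroup.index_top] at hp
    exact Nat.not_prime_one hp
  obtain ⟨g, hg⟩ : ∃ g : G, g ∉ H := by
    by_contra hcon
    push Not at hcon
    exact hne ((Subgroup.eq_top_iff' H).2 hcon)
  have hinj : Function.Injective fun q : H × Fin H.index => H.subtype q.1 * g ^ (q.2 : ℕ) := by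
    rintro ⟨h1, q1⟩ ⟨h2, q2⟩ h12
    have h3 : (h1 : G) * g ^ (q1 : ℕ) = (h2 : G) * g ^ (q2 : ℕ) := h12
    have hq : q1 = q2 := prB_aux H hN hp g hg h1 h2 q1 q2 h3
    subst hq
    have h4 : (h1 : G) = (h2 : G) := mul_right_cancel h3
    rw [Subtype.ext h4]
  refine ⟨⟨g, MulAut.conjNormal g⁻¹, fun h => ?_, ⟨g ^ H.index, H.pow_index_mem g⟩, rfl, ?_⟩⟩
  · change ((MulAut.conjNormal g⁻¹ h : H) : G) = g⁻¹ * (h : G) * g
    rw [MulAut.conjNormal_apply, inv_inv]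
  · refine (Nat.bijective_iff_injective_and_card _).2 ⟨hinj, ?_⟩
    rw [Nat.card_prod, Nat.card_fin, H.card_mul_index]

variable {ι : H →* G} {p : ℕ} (d : Pd ι p) {S : Sys H}

/-- The cosets that join `i` and `j`. -/
abbrev PK (z : S.I × S.I) : Type :=
  {e : Fin p // Eqv S (fun h => (d.α ^ (e : ℕ)) h) z.1 z.2}

/-- PROOF. `Eqv.trans`, `exists_eqv` for `d.α ^ e`. -/
theorem pd_pow (h : H) (e : ℕ) : ι ((d.α ^ e) h) = (d.g ^ e)⁻¹ * ι h * d.g ^ e := by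
  induction e generalizing h with
  | zero =>
    rw [pow_zero, pow_zero, inv_one, one_mul, mul_one]
    rfl
  | succ e ih =>
    have h1 : (d.α ^ (e + 1)) h = (d.α ^ e) (d.α h) := by
      rw [pow_succ]
      rfl
    rw [h1, ih, d.hα, pow_succ']
    group

private theorem prB_left (T : Sys H) {M : T.I → Type} [∀ k, Fintype (M k)]
    [∀ k, DecidableEq (M k)] (V : (Σ k, T.D k × M k) → ℂ) (d : H) (j : T.I) (c : T.D j)
    (μ : M j) : ∑ w, T.rep M d ⟨j, (c, μ)⟩ w * V w = ∑ e, T.π j d c e * V ⟨j, (e, μ)⟩ := by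
  rw [Fintype.sum_sigma, Finset.sum_eq_single j, Fintype.sum_prod_type]
  · refine Finset.sum_congr rfl fun e _ => ?_
    rw [Finset.sum_eq_single μ, T.rep_same, if_pos rfl]
    · intro q _ hq
      rw [T.rep_same, if_neg (Ne.symm hq), zero_mul]
    · intro hb
      exact absurd (Finset.mem_univ μ) hb
  · intro i _ hi
    refine Finset.sum_eq_zero fun b _ => ?_
    rw [T.rep_ne M d (Ne.symm hi), zero_mul]
  · intro hb
    exact absurd (Finset.mem_univ j) hb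

private theorem prB_right (T : Sys H) {M : T.I → Type} [∀ k, Fintype (M k)]
    [∀ k, DecidableEq (M k)] (V : (Σ k, T.D k × M k) → ℂ) (d : H) (j : T.I) (c : T.D j)
    (μ : M j) : ∑ w, V w * T.rep M d w ⟨j, (c, μ)⟩ = ∑ e, V ⟨j, (e, μ)⟩ * T.π j d e c := by
  rw [Fintype.sum_sigma, Finset.sum_eq_single j, Fintype.sum_prod_type]
  · refine Finset.sum_congr rfl fun e _ => ?_
    rw [Finset.sum_eq_single μ, T.rep_same, if_pos rfl]
    · intro q _ hq
      rw [T.rep_same, if_neg hq, mul_zero]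
    · intro hb
      exact absurd (Finset.mem_univ μ) hb
  · intro i _ hi
    refine Finset.sum_eq_zero fun b _ => ?_
    rw [T.rep_ne M d hi, mul_zero]
  · intro hb
    exact absurd (Finset.mem_univ j) hb

/-- PROOF. Let `X_pq` be the matrix with the entries `A.ρ l (g ^ e) ⟨i, (a, p)⟩ ⟨j, (b, q)⟩`; by `pd_pow`, `A.mul`,
`A.res`: `S.π i h * X_pq = X_pq * S.π j (α ^ e h)`. -/
theorem pd_comm (A : Ad ι S) (e : ℕ) (l : A.I) (i j : S.I) (r : A.P l i) (q : A.P l j) (h : H) :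
    S.π i h * (Matrix.of fun (a : S.D i) (b : S.D j) => A.ρ l (d.g ^ e) ⟨i, (a, r)⟩ ⟨j, (b, q)⟩) =
      (Matrix.of fun (a : S.D i) (b : S.D j) => A.ρ l (d.g ^ e) ⟨i, (a, r)⟩ ⟨j, (b, q)⟩) *
        S.π j ((d.α ^ e) h) := by
  have h1 : A.ρ l (ι h) * A.ρ l (d.g ^ e) = A.ρ l (d.g ^ e) * A.ρ l (ι ((d.α ^ e) h)) := by
    rw [← A.mul, ← A.mul, pd_pow]
    congr 1
    group
  rw [A.res, A.res] at h1
  ext a b
  have h2 := congrFun (congrFun h1 ⟨i, (a, r)⟩) ⟨j, (b, q)⟩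
  rw [Matrix.mul_apply, Matrix.mul_apply,
    prB_left S (fun w => A.ρ l (d.g ^ e) w ⟨j, (b, q)⟩) h i a r,
    prB_right S (fun w => A.ρ l (d.g ^ e) ⟨i, (a, r)⟩ w) ((d.α ^ e) h) j b q] at h2
  rw [Matrix.mul_apply, Matrix.mul_apply]
  exact h2

/-- PROOF. `exists_eqv` gives `i'` with `Eqv S (α ^ e) i' j` with matrices `V`, `V'`; `X * V'` intertwines `S.π i` and
`S.π i'`: zero by `schur_ne` if `i ≠ i'`. -/
theorem pd_zero [Finite H] (A : Ad ι S) (e : ℕ) (l : A.I) (i j : S.I)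
    (hn : ¬ Eqv S (fun h => (d.α ^ e) h) i j) (a : S.D i) (b : S.D j) (r : A.P l i)
    (q : A.P l j) : A.ρ l (d.g ^ e) ⟨i, (a, r)⟩ ⟨j, (b, q)⟩ = 0 := by
  obtain ⟨i', hi'⟩ := exists_eqv S (d.α ^ e) j
  have hne : i ≠ i' := by
    rintro rfl
    exact hn hi'
  obtain ⟨V, V', h1, h2, hV⟩ := hi'
  obtain ⟨X, hXdef⟩ : ∃ X : Matrix (S.D i) (S.D j) ℂ, X = Matrix.of fun (a : S.D i) (b : S.D j) =>
      A.ρ l (d.g ^ e) ⟨i, (a, r)⟩ ⟨j, (b, q)⟩ := ⟨_, rfl⟩
  have hX : ∀ h, S.π i h * X = X * S.π j ((d.α ^ e) h) := by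
    intro h
    rw [hXdef]
    exact pd_comm d A e l i j r q h
  have hV' : ∀ h, V' * S.π i' h = S.π j ((d.α ^ e) h) * V' := by
    intro h
    calc V' * S.π i' h = V' * S.π i' h * (V * V') := by rw [h1, Matrix.mul_one]
      _ = V' * (S.π i' h * V) * V' := by simp only [Matrix.mul_assoc]
      _ = V' * (V * S.π j ((d.α ^ e) h)) * V' := by rw [hV]
      _ = V' * V * S.π j ((d.α ^ e) h) * V' := by simp only [Matrix.mul_assoc]
      _ = S.π j ((d.α ^ e) h) * V' := by rw [h2, Matrix.one_mul]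
  have h3 : X * V' = 0 := by
    refine schur_ne S hne (X * V') fun h => ?_
    rw [← Matrix.mul_assoc, hX, Matrix.mul_assoc, ← hV', ← Matrix.mul_assoc]
  have h4 : X = 0 := by
    calc X = X * (V' * V) := by rw [h2, Matrix.mul_one]
      _ = X * V' * V := by rw [Matrix.mul_assoc]
      _ = 0 := by rw [h3, Matrix.zero_mul]
  have h5 := congrFun (congrFun h4 a) b
  rw [hXdef] at h5
  exact h5

/-- PROOF. `V' * X` commutes with all `S.π j h` (`h` replaced by `α ^ (- e) h`): `schur_one`. -/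
theorem pd_scalar [Finite H] (A : Ad ι S) (e : ℕ) (l : A.I) (i j : S.I)
    (V : Matrix (S.D i) (S.D j) ℂ) (V' : Matrix (S.D j) (S.D i) ℂ) (h1 : V * V' = 1)
    (h2 : V' * V = 1) (hV : ∀ h, S.π i h * V = V * S.π j ((d.α ^ e) h)) (r : A.P l i)
    (q : A.P l j) : ∃ y : ℂ, ∀ a b, A.ρ l (d.g ^ e) ⟨i, (a, r)⟩ ⟨j, (b, q)⟩ = y * V a b := by
  obtain ⟨X, hXdef⟩ : ∃ X : Matrix (S.D i) (S.D j) ℂ, X = Matrix.of fun (a : S.D i) (b : S.D j) =>
      A.ρ l (d.g ^ e) ⟨i, (a, r)⟩ ⟨j, (b, q)⟩ := ⟨_, rfl⟩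
  have hX : ∀ h, S.π i h * X = X * S.π j ((d.α ^ e) h) := by
    intro h
    rw [hXdef]
    exact pd_comm d A e l i j r q h
  have hV' : ∀ h, V' * S.π i h = S.π j ((d.α ^ e) h) * V' := by
    intro h
    calc V' * S.π i h = V' * S.π i h * (V * V') := by rw [h1, Matrix.mul_one]
      _ = V' * (S.π i h * V) * V' := by simp only [Matrix.mul_assoc]
      _ = V' * (V * S.π j ((d.α ^ e) h)) * V' := by rw [hV]
      _ = V' * V * S.π j ((d.α ^ e) h) * V' := by simp only [Matrix.mul_assoc]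
      _ = S.π j ((d.α ^ e) h) * V' := by rw [h2, Matrix.one_mul]
  obtain ⟨y, hy⟩ := schur_one S j (V' * X) (fun h' => by
    obtain ⟨h, rfl⟩ := (d.α ^ e).surjective h'
    rw [← Matrix.mul_assoc, ← hV', Matrix.mul_assoc, hX, Matrix.mul_assoc])
  refine ⟨y, fun a b => ?_⟩
  have h4 : X = y • V := by
    calc X = V * V' * X := by rw [h1, Matrix.one_mul]
      _ = V * (V' * X) := by rw [Matrix.mul_assoc]
      _ = y • V := by rw [hy, Matrix.mul_smul, Matrix.mul_one]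
  have h5 := congrFun (congrFun h4 a) b
  rw [hXdef] at h5
  exact h5

end MP0775d3.Ox
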