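import Pool.Agent.Lib.MP_0775d3_lc.Ox.PrB

/-! Project OX: normal subgroups of prime index. Two-sided coordinates. -/

set_option linter.unusedSectionVars false
set_option linter.unusedVariables false

namespace MP0775d3.Ox

open Matrix MP0775d3.Cf

variable {G H : Type} [Group G] [Group H] {ι : H →* G} {p : ℕ} (d : Pd ι p) {S : Sys H}
  (V : ∀ z : S.I × S.I, PK d z → Matrix (S.D z.1) (S.D z.2) ℂ)

/-- The coordinates: on the coset `H g ^ e` the matrix coefficients of `S.π i h * V`. -/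
noncomputable def pW : Matrix (Σ z : S.I × S.I, (S.D z.1 × S.D z.2) × PK d z) G ℂ :=
  Matrix.of fun z x => if (z.2.2 : Fin p) = ((Equiv.ofBijective _ d.bij).symm x).2 then
    (S.π z.1.1 ((Equiv.ofBijective _ d.bij).symm x).1 * V z.1 z.2.2) z.2.1.1 z.2.1.2 else 0

private theorem prC_row {G H : Type} [Group G] [Group H] {ι : H →* G} {S : Sys H} (A : Ad ι S)
    (h : H) (g : G) (l : A.I) (i : S.I) (a : S.D i) (p : A.P l i) (y : Σ i, S.D i × A.P l i) :
    A.ρ l (ι h * g) ⟨i, (a, p)⟩ y = ∑ c, S.π i h a c * A.ρ l g ⟨i, (c, p)⟩ y := by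
  classical
  rw [A.mul, A.res, Matrix.mul_apply, Fintype.sum_sigma, Finset.sum_eq_single i]
  · rw [Fintype.sum_prod_type]
    refine Finset.sum_congr rfl fun c _ => ?_
    rw [Finset.sum_eq_single p]
    · rw [S.rep_same, if_pos rfl]
    · intro q _ hq
      rw [S.rep_same, if_neg hq.symm, zero_mul]
    · intro h2
      exact absurd (Finset.mem_univ _) h2
  · intro j _ hj
    refine Finset.sum_eq_zero fun x _ => ?_
    rw [S.rep_ne _ _ hj.symm, zero_mul]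
  · intro h2
    exact absurd (Finset.mem_univ _) h2

/-- PROOF. `x = ι h * g ^ e`: `A.mul`, `A.res`; `pd_zero` if no element of `PK` is `e`, else `pd_scalar`. -/
theorem pW_two [Finite H] (A : Ad ι S) [∀ z, Fintype (PK d (S := S) z)] (V' : ∀ z : S.I × S.I, PK d z → Matrix (S.D z.2) (S.D z.1) ℂ)
    (h1 : ∀ z e, V z e * V' z e = 1) (h2 : ∀ z e, V' z e * V z e = 1)
    (hV : ∀ (z : S.I × S.I) (e : PK d z) h, S.π z.1 h * V z e = V z e * S.π z.2 ((d.α ^ ((e : Fin p) : ℕ)) h)) :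
    ∃ Y : ∀ z : S.I × S.I, Matrix (Σ l, A.P l z.1 × A.P l z.2) (PK d z) ℂ, Two A (pW d V) Y ∧
      ∀ (z : S.I × S.I) (l : A.I) (r : A.P l z.1) (q : A.P l z.2) (e : PK d z) a b,
        A.ρ l (d.g ^ ((e : Fin p) : ℕ)) ⟨z.1, (a, r)⟩ ⟨z.2, (b, q)⟩ = Y z ⟨l, (r, q)⟩ e * V z e a b := by
  classical
  have hex : ∀ (z : S.I × S.I) (y : Σ l, A.P l z.1 × A.P l z.2) (e : PK d z), ∃ c : ℂ, ∀ a b,
      A.ρ y.1 (d.g ^ ((e : Fin p) : ℕ)) ⟨z.1, (a, y.2.1)⟩ ⟨z.2, (b, y.2.2)⟩ = c * V z e a b :=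
    fun z y e => pd_scalar d A _ y.1 z.1 z.2 (V z e) (V' z e) (h1 z e) (h2 z e) (hV z e)
      y.2.1 y.2.2
  choose Y hY using hex
  refine ⟨Y, ?_, fun z l r q e a b => hY z ⟨l, (r, q)⟩ e a b⟩
  intro g l i a r j b q
  obtain ⟨x, hx⟩ : ∃ x, x = (Equiv.ofBijective _ d.bij).symm g := ⟨_, rfl⟩
  have hg : ι x.1 * d.g ^ (x.2 : ℕ) = g := by
    rw [hx]
    exact (Equiv.ofBijective _ d.bij).apply_symm_apply g
  have hW : ∀ κ : PK d (i, j), pW d V ⟨(i, j), ((a, b), κ)⟩ g =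
      if (κ : Fin p) = x.2 then (S.π i x.1 * V (i, j) κ) a b else 0 := by
    intro κ
    rw [hx]
    rfl
  rw [← hg, prC_row, hg]
  by_cases hE : Eqv S (fun h => (d.α ^ (x.2 : ℕ)) h) i j
  · obtain ⟨κ, hκ⟩ : ∃ κ : PK d (i, j), (κ : Fin p) = x.2 := ⟨⟨x.2, hE⟩, rfl⟩
    rw [Finset.sum_eq_single (a := κ)]
    · rw [hW, if_pos hκ, Matrix.mul_apply, Finset.mul_sum]
      refine Finset.sum_congr rfl fun c _ => ?_
      have h3 := hY (i, j) ⟨l, (r, q)⟩ κ c b
      rw [hκ] at h3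
      rw [h3]
      ring
    · intro κ' _ hκ'
      rw [hW, if_neg (fun h => hκ' (Subtype.ext (h.trans hκ.symm))), mul_zero]
    · intro h3
      exact absurd (Finset.mem_univ _) h3
  · rw [Finset.sum_eq_zero, Finset.sum_eq_zero]
    · intro κ _
      have h3 : ¬ (κ : Fin p) = x.2 := by
        intro h4
        apply hE
        have h5 := κ.2
        rw [h4] at h5
        exact h5
      rw [hW, if_neg h3, mul_zero]
    · intro c _
      rw [pd_zero d A _ l i j hE, mul_zero]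

end MP0775d3.Ox
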