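import Pool.Agent.Lib.MP_0775d3_lc.Ox.PrC

/-! Project OX: normal subgroups of prime index. Stable representations. -/

set_option linter.unusedSectionVars false
set_option linter.unusedVariables false

namespace MP0775d3.Ox

open Matrix MP0775d3.Cf

variable {G H : Type} [Group G] [Group H] {ι : H →* G} {p : ℕ} (d : Pd ι p) {S : Sys H}

/-- PROOF. Let `σ` be the permutation `j ↦ i` of `exists_eqv` for `α` (`Eqv.unique`); `Eqv S (α ^ e) i j` holds iff
`i = σ ^ e j` (`Eqv.trans`, `Eqv.unique`). `α ^ p` is the inner automorphism `h ↦ c⁻¹ * h * c` (`hα`, `hc`, `hι`), so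
`σ ^ p j = j`. If `e ≠ e'` both belong to `PK d z`, `σ ^ (e - e') j = j`, so `σ j = j` (`p` prime), and `i = j`. -/
theorem pK_two [Finite H] (hι : Function.Injective ι) (hp : p.Prime) (z : S.I × S.I)
    (e e' : PK d z) (he : e ≠ e') : z.1 = z.2 ∧ Eqv S d.α z.2 z.2 := by
  classical
  obtain ⟨σ, hσ⟩ : ∃ σ : S.I → S.I, ∀ j, Eqv S d.α (σ j) j :=
    ⟨fun j => (exists_eqv S d.α j).choose, fun j => (exists_eqv S d.α j).choose_spec⟩
  obtain ⟨j, hj⟩ : ∃ j, j = z.2 := ⟨_, rfl⟩
  have hit : ∀ n : ℕ, Eqv S (fun h => (d.α ^ n) h) (σ^[n] j) j := by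
    intro n
    induction n with
    | zero =>
      change Eqv S (fun h => (d.α ^ 0) h) j j
      exact ⟨1, 1, one_mul 1, one_mul 1, fun h => by rw [Matrix.mul_one, Matrix.one_mul]; rfl⟩
    | succ n ih =>
      have h1 := (hσ (σ^[n] j)).trans ih
      rw [Function.iterate_succ_apply']
      exact h1
  have hc : ∀ h : H, (d.α ^ p) h = d.c⁻¹ * h * d.c := by
    intro h
    apply hι
    rw [pd_pow, map_mul, map_mul, map_inv, d.hc]
  have hper : σ^[p] j = j := by
    refine (hit p).unique ⟨S.π j d.c, S.π j d.c⁻¹, ?_, ?_, fun h => ?_⟩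
    · rw [← S.mul, mul_inv_cancel, S.one]
    · rw [← S.mul, inv_mul_cancel, S.one]
    · change S.π j h * S.π j d.c = S.π j d.c * S.π j ((d.α ^ p) h)
      rw [hc, ← S.mul, ← S.mul]
      congr 1
      group
  have hz : ∀ a : PK d z, z.1 = σ^[(a : Fin p)] j := by
    intro a
    have h1 : Eqv S (fun h => (d.α ^ ((a : Fin p) : ℕ)) h) z.1 j := by
      rw [hj]
      exact a.2
    exact h1.unique (hit _)
  have hdvd : Function.minimalPeriod σ j ∣ p := Function.IsPeriodicPt.minimalPeriod_dvd hper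
  have hfix : σ j = j := by
    rcases (Nat.dvd_prime hp).1 hdvd with h1 | h1
    · exact Function.minimalPeriod_eq_one_iff_isFixedPt.1 h1
    · exfalso
      apply he
      have h2 := Function.iterate_injOn_Iio_minimalPeriod (f := σ) (x := j)
      rw [h1] at h2
      have h3 : σ^[(e : Fin p)] j = σ^[(e' : Fin p)] j := (hz e).symm.trans (hz e')
      exact Subtype.ext (Fin.ext (h2 (Set.mem_Iio.2 (e : Fin p).2) (Set.mem_Iio.2 (e' : Fin p).2) h3))
  have h5 : z.1 = j := (hz e).trans (Function.iterate_fixed hfix _)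
  refine ⟨h5.trans hj, ?_⟩
  have h6 := hσ j
  rw [hfix, hj] at h6
  exact h6

/-- Multiplicity one. PROOF. If `P` has two elements let `w` be an eigenvector of `y` (`Module.End.exists_eigenvalue`),
`u ≠ 0` with `∑ r, u r * w r = 0`. Then `∑ r q, u r * w q * (y ^ e) r q = 0` for all `e`, and `h` gives
`u r * w q = 0` for all `r`, `q`. -/
theorem mult_one {P : Type} [Fintype P] [DecidableEq P] (y : Matrix P P ℂ)
    (h : ∀ v : P × P → ℂ, (∀ e : ℕ, ∑ x, v x * (y ^ e) x.1 x.2 = 0) → v = 0) : Subsingleton P := by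
  by_contra hP
  rw [not_subsingleton_iff_nontrivial] at hP
  obtain ⟨a, b, hab⟩ := exists_pair_ne P
  obtain ⟨μ, hμ⟩ := Module.End.exists_eigenvalue (Matrix.toLin' y)
  obtain ⟨w, hw⟩ := hμ.exists_hasEigenvector
  have hw1 : y *ᵥ w = μ • w := by
    have h1 := hw.apply_eq_smul
    rwa [Matrix.toLin'_apply] at h1
  have hw0 : w ≠ 0 := hw.2
  have hwe : ∀ e : ℕ, (y ^ e) *ᵥ w = μ ^ e • w := by
    intro e
    induction e with
    | zero => rw [pow_zero, pow_zero, Matrix.one_mulVec, one_smul]
    | succ e ih =>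
      rw [pow_succ, ← Matrix.mulVec_mulVec, hw1, Matrix.mulVec_smul, ih, smul_smul, pow_succ,
        mul_comm]
  obtain ⟨u, hu0, hu⟩ : ∃ u : P → ℂ, u ≠ 0 ∧ ∑ r, u r * w r = 0 := by
    by_cases hwa : w a = 0
    · refine ⟨Pi.single a 1, fun h0 => ?_, ?_⟩
      · have := congrFun h0 a
        rw [Pi.single_eq_same] at this
        exact one_ne_zero this
      · rw [Finset.sum_eq_single a]
        · rw [hwa, mul_zero]
        · intro r _ hr
          rw [Pi.single_eq_of_ne hr, zero_mul]
        · intro h0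
          exact absurd (Finset.mem_univ a) h0
    · refine ⟨Pi.single a (w b) - Pi.single b (w a), fun h0 => ?_, ?_⟩
      · have := congrFun h0 b
        rw [Pi.sub_apply, Pi.single_eq_same, Pi.single_eq_of_ne hab.symm, zero_sub, Pi.zero_apply,
          neg_eq_zero] at this
        exact hwa this
      · have e1 : ∀ (c : P) (x : ℂ), ∑ r, (Pi.single c x : P → ℂ) r * w r = x * w c := by
          intro c x
          rw [Finset.sum_eq_single c]
          · rw [Pi.single_eq_same]
          · intro r _ hr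
            rw [Pi.single_eq_of_ne hr, zero_mul]
          · intro h0
            exact absurd (Finset.mem_univ c) h0
        have e2 : ∑ r, (Pi.single a (w b) - Pi.single b (w a) : P → ℂ) r * w r =
            ∑ r, (Pi.single a (w b) : P → ℂ) r * w r - ∑ r, (Pi.single b (w a) : P → ℂ) r * w r := by
          rw [← Finset.sum_sub_distrib]
          refine Finset.sum_congr rfl fun r _ => ?_
          rw [Pi.sub_apply, sub_mul]
        rw [e2, e1, e1]
        ring
  have hv := h (fun x => u x.1 * w x.2) (by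
    intro e
    have e1 : ∑ x : P × P, u x.1 * w x.2 * (y ^ e) x.1 x.2 =
        ∑ r, u r * (((y ^ e) *ᵥ w) r) := by
      rw [Fintype.sum_prod_type]
      refine Finset.sum_congr rfl fun r _ => ?_
      rw [Matrix.mulVec, dotProduct, Finset.mul_sum]
      refine Finset.sum_congr rfl fun q _ => ?_
      ring
    rw [e1, hwe e]
    have e2 : ∑ r, u r * (μ ^ e • w) r = μ ^ e * ∑ r, u r * w r := by
      rw [Finset.mul_sum]
      refine Finset.sum_congr rfl fun r _ => ?_
      rw [Pi.smul_apply, smul_eq_mul]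
      ring
    rw [e2, hu, mul_zero])
  obtain ⟨r, hr⟩ := Function.ne_iff.1 hu0
  obtain ⟨q, hq⟩ := Function.ne_iff.1 hw0
  have h7 := congrFun hv (r, q)
  exact mul_ne_zero hr hq h7

end MP0775d3.Ox
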