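import Pool.Agent.Lib.MP_0775d3_lc.Ox.PrC

/-! Project OX: normal subgroups of prime index. Stable representations, powers. -/

set_option linter.unusedSectionVars false
set_option linter.unusedVariables false

namespace MP0775d3.Ox

open Matrix MP0775d3.Cf

variable {G H : Type} [Group G] [Group H] {ι : H →* G} {p : ℕ} (d : Pd ι p) {S : Sys H}

private theorem PrD2_pow (j : S.I) (U : Matrix (S.D j) (S.D j) ℂ)
    (hU : ∀ h, S.π j h * U = U * S.π j (d.α h)) (e : ℕ) :
    ∀ h, S.π j h * U ^ e = U ^ e * S.π j ((d.α ^ e) h) := by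
  induction e with
  | zero =>
    intro h
    rw [pow_zero, pow_zero, mul_one, one_mul]
    rfl
  | succ e ih =>
    intro h
    rw [pow_succ, ← mul_assoc, ih, mul_assoc, hU, ← mul_assoc, pow_succ' d.α e]
    rfl

/-- PROOF. `U₀` from `hj`; `U₀ ^ p * S.π j c⁻¹` commutes with all `S.π j h` (`α ^ p h = c⁻¹ * h * c`): a scalar
(`schur_one`), not zero; divide `U₀` by a `p`-th root. -/
theorem pd_stable [Finite H] (hι : Function.Injective ι) (hp : p.Prime) (j : S.I)
    (hj : Eqv S d.α j j) : ∃ U U' : Matrix (S.D j) (S.D j) ℂ, U * U' = 1 ∧ U' * U = 1 ∧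
      (∀ h, S.π j h * U = U * S.π j (d.α h)) ∧ U ^ p = S.π j d.c := by
  obtain ⟨U₀, U₀', h1, h2, h3⟩ := hj
  have hα : ∀ h, (d.α ^ p) h = d.c⁻¹ * h * d.c := by
    intro h
    apply hι
    rw [pd_pow, map_mul, map_mul, map_inv, d.hc]
  have hc1 : S.π j d.c⁻¹ * S.π j d.c = 1 := by
    rw [← S.mul, inv_mul_cancel, S.one]
  have hc2 : S.π j d.c * S.π j d.c⁻¹ = 1 := by
    rw [← S.mul, mul_inv_cancel, S.one]
  obtain ⟨c, hc⟩ := schur_one S j (U₀ ^ p * S.π j d.c⁻¹) (fun h => by
    have h5 : d.c⁻¹ * h * d.c * d.c⁻¹ = d.c⁻¹ * h := by group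
    rw [← mul_assoc, PrD2_pow d j U₀ h3 p h, hα, mul_assoc, ← S.mul, h5, mul_assoc, ← S.mul])
  have hpow : U₀ ^ p * U₀' ^ p = 1 := by
    rw [← (Commute.mul_pow (a := U₀) (b := U₀') (h1.trans h2.symm)), h1, one_pow]
  have hU : U₀ ^ p = c • S.π j d.c := by
    have h4 : U₀ ^ p * S.π j d.c⁻¹ * S.π j d.c = c • (1 : Matrix (S.D j) (S.D j) ℂ) * S.π j d.c := by
      rw [hc]
    rw [mul_assoc, hc1, mul_one, smul_mul_assoc, one_mul] at h4
    exact h4
  have hc0 : c ≠ 0 := by
    intro h0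
    rw [hU, h0, zero_smul, zero_mul] at hpow
    exact zero_ne_one hpow
  obtain ⟨μ, hμ⟩ := IsAlgClosed.exists_pow_nat_eq c hp.pos
  have hμ0 : μ ≠ 0 := by
    intro h0
    rw [h0, zero_pow hp.ne_zero] at hμ
    exact hc0 hμ.symm
  refine ⟨μ⁻¹ • U₀, μ • U₀', ?_, ?_, ?_, ?_⟩
  · rw [smul_mul_smul_comm, h1, inv_mul_cancel₀ hμ0, one_smul]
  · rw [smul_mul_smul_comm, h2, mul_inv_cancel₀ hμ0, one_smul]
  · intro h
    rw [mul_smul_comm, h3, smul_mul_assoc]
  · rw [smul_pow, hU, smul_smul, inv_pow, hμ, inv_mul_cancel₀ hc0, one_smul]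

/-- PROOF. `y` from `pd_scalar` for `e = 1`. For `i ≠ j` the entries of `A.ρ l g` between `i` and `j` vanish (`pd_zero`:
`Eqv S α i j` would give `i = j` by `Eqv.unique`, `Eqv S α j i` too by `Eqv.symm`). Induction on `e` with `A.mul`. For
`e = p`: `g ^ p = ι c`, `A.res`. -/
theorem pd_power [Finite H] (A : Ad ι S) (j : S.I) (U U' : Matrix (S.D j) (S.D j) ℂ)
    (h1 : U * U' = 1) (h2 : U' * U = 1) (hU : ∀ h, S.π j h * U = U * S.π j (d.α h))
    (hp : U ^ p = S.π j d.c) (l : A.I) : ∃ y : Matrix (A.P l j) (A.P l j) ℂ, y ^ p = 1 ∧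
      ∀ (e : ℕ) a b r q, A.ρ l (d.g ^ e) ⟨j, (a, r)⟩ ⟨j, (b, q)⟩ = (y ^ e) r q * (U ^ e) a b := by
  have hU1 : ∀ h, S.π j h * U = U * S.π j ((d.α ^ 1) h) := by
    intro h
    rw [pow_one]
    exact hU h
  choose y hy using fun r q => pd_scalar d A 1 l j j U U' h1 h2 hU1 r q
  have hz : ∀ (i : S.I), i ≠ j → ∀ (a : S.D i) (b : S.D j) (r : A.P l i) (q : A.P l j),
      A.ρ l (d.g ^ 1) ⟨i, (a, r)⟩ ⟨j, (b, q)⟩ = 0 := by
    intro i hi a b r q
    refine pd_zero d A 1 l i j ?_ a b r q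
    intro hE
    exact hi (Eqv.unique hE ⟨U, U', h1, h2, hU1⟩)
  have key : ∀ (e : ℕ) a b r q, A.ρ l (d.g ^ e) ⟨j, (a, r)⟩ ⟨j, (b, q)⟩ =
      ((Matrix.of y) ^ e) r q * (U ^ e) a b := by
    intro e
    induction e with
    | zero =>
      intro a b r q
      rw [pow_zero, pow_zero, pow_zero, A.one, Matrix.one_apply, Matrix.one_apply, Matrix.one_apply]
      by_cases hr : r = q
      · by_cases ha : a = b
        · subst hr
          subst ha
          simp
        · rw [if_neg, if_neg ha, mul_zero]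
          intro h
          have h3 := eq_of_heq (Sigma.mk.inj_iff.mp h).2
          exact ha (congrArg Prod.fst h3)
      · rw [if_neg, if_neg hr, zero_mul]
        intro h
        have h3 := eq_of_heq (Sigma.mk.inj_iff.mp h).2
        exact hr (congrArg Prod.snd h3)
    | succ e ih =>
      intro a b r q
      rw [pow_succ d.g e, A.mul, Matrix.mul_apply, Fintype.sum_sigma, Finset.sum_eq_single j]
      · rw [Fintype.sum_prod_type, Finset.sum_comm, pow_succ, pow_succ, Matrix.mul_apply,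
          Matrix.mul_apply, Finset.sum_mul_sum]
        refine Finset.sum_congr rfl fun x _ => Finset.sum_congr rfl fun z _ => ?_
        rw [ih]
        have h5 := hy x q z b
        rw [pow_one] at h5
        rw [h5, Matrix.of_apply]
        ring
      · rintro i _ hi
        refine Finset.sum_eq_zero ?_
        rintro ⟨x, z⟩ _
        have h5 := hz i hi x b z q
        rw [pow_one] at h5
        rw [h5, mul_zero]
      · intro hb
        exact absurd (Finset.mem_univ j) hb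
  refine ⟨Matrix.of y, ?_, key⟩
  have hc2 : S.π j d.c * S.π j d.c⁻¹ = 1 := by
    rw [← S.mul, mul_inv_cancel, S.one]
  have hne : S.π j d.c ≠ 0 := by
    intro h0
    rw [h0, zero_mul] at hc2
    exact zero_ne_one hc2
  have hex : ∃ a b, S.π j d.c a b ≠ 0 := by
    by_contra hcon
    push Not at hcon
    exact hne (by ext a b; exact hcon a b)
  obtain ⟨a, b, hab⟩ := hex
  ext r q
  have h6 := key p a b r q
  rw [← d.hc, A.res, S.rep_same, hp] at h6
  rw [Matrix.one_apply]
  by_cases hr : r = q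
  · rw [if_pos hr] at h6 ⊢
    have h7 : ((Matrix.of y) ^ p) r q * S.π j d.c a b = 1 * S.π j d.c a b := by
      rw [one_mul]
      exact h6.symm
    exact mul_right_cancel₀ hab h7
  · rw [if_neg hr] at h6 ⊢
    exact (mul_eq_zero.mp h6.symm).resolve_right hab

end MP0775d3.Ox
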