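import Pool.Agent.Lib.MP_0775d3_lc.Ox.PrD
import Pool.Agent.Lib.MP_0775d3_lc.Ox.PrD2

/-! Project OX: normal subgroups of prime index. The Fourier blocks. -/

set_option linter.unusedSectionVars false
set_option linter.unusedVariables false

namespace MP0775d3.Ox

open Matrix MP0775d3.Cf

variable {G H : Type} [Group G] [Group H] {ι : H →* G} {p : ℕ} (d : Pd ι p) {S : Sys H}

private theorem prE_pow {j : S.I} {U : Matrix (S.D j) (S.D j) ℂ}
    (hU : ∀ h, S.π j h * U = U * S.π j (d.α h)) (e : ℕ) (h : H) :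
    S.π j h * U ^ e = U ^ e * S.π j ((d.α ^ e) h) := by
  induction e with
  | zero =>
    rw [pow_zero, pow_zero, Matrix.mul_one, Matrix.one_mul]
    rfl
  | succ e ih =>
    have h1 : (d.α ^ (e + 1)) h = d.α ((d.α ^ e) h) := by
      rw [pow_succ']
      rfl
    rw [h1, pow_succ, ← Matrix.mul_assoc, ih, Matrix.mul_assoc, hU, Matrix.mul_assoc]

private theorem prE_scal [Finite H] {j : S.I} {β : H ≃* H} {V V' W W' : Matrix (S.D j) (S.D j) ℂ}
    (h1 : V * V' = 1) (h2 : V' * V = 1) (h3 : W * W' = 1)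
    (hV : ∀ h, S.π j h * V = V * S.π j (β h)) (hW : ∀ h, S.π j h * W = W * S.π j (β h)) :
    ∃ c : ℂ, c ≠ 0 ∧ W = c • V := by
  obtain ⟨c, hc⟩ := schur_one S j (V' * W) (fun h => by
    obtain ⟨k, rfl⟩ := β.surjective h
    have e1 : S.π j (β k) * V' = V' * S.π j k := by
      calc S.π j (β k) * V' = V' * V * S.π j (β k) * V' := by rw [h2, Matrix.one_mul]
        _ = V' * (S.π j k * V) * V' := by rw [hV, Matrix.mul_assoc V' V]
        _ = V' * S.π j k * (V * V') := by simp only [Matrix.mul_assoc]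
        _ = V' * S.π j k := by rw [h1, Matrix.mul_one]
    rw [← Matrix.mul_assoc, e1, Matrix.mul_assoc, hW, Matrix.mul_assoc])
  have e2 : W = c • V := by
    calc W = V * (V' * W) := by rw [← Matrix.mul_assoc, h1, Matrix.one_mul]
      _ = c • V := by rw [hc, Matrix.mul_smul, Matrix.mul_one]
  refine ⟨c, ?_, e2⟩
  rintro rfl
  rw [zero_smul] at e2
  rw [e2, Matrix.zero_mul] at h3
  exact zero_ne_one h3

private theorem prE_entry {j : S.I} {V V' : Matrix (S.D j) (S.D j) ℂ} (h1 : V * V' = 1) :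
    ∃ a b, V a b ≠ 0 := by
  by_contra hcon
  push Not at hcon
  have h2 : V = 0 := by
    ext a b
    exact hcon a b
  rw [h2, Matrix.zero_mul] at h1
  exact zero_ne_one h1

private theorem prE_one {P : Type} [Fintype P] [DecidableEq P] [Subsingleton P] (y : Matrix P P ℂ)
    (r q : P) (e : ℕ) : (y ^ e) r q = (y r r) ^ e := by
  obtain rfl : r = q := Subsingleton.elim r q
  induction e with
  | zero => rw [pow_zero, pow_zero, Matrix.one_apply_eq]
  | succ e ih =>
    rw [pow_succ, pow_succ, Matrix.mul_apply, Finset.sum_eq_single r, ih]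
    · intro x _ hx
      exact absurd (Subsingleton.elim x r) hx
    · intro hx
      exact absurd (Finset.mem_univ r) hx

private theorem prE_sum {L : Type} {T : L → Type} [Fintype L] [∀ l, Fintype (T l)] (l : L)
    (v : T l → ℂ) : ∃ u : (Σ l, T l) → ℂ, (∀ x, u ⟨l, x⟩ = v x) ∧
      ∀ g : (Σ l, T l) → ℂ, ∑ y, u y * g y = ∑ x, v x * g ⟨l, x⟩ := by
  classical
  refine ⟨fun y => ∑ x, if y = ⟨l, x⟩ then v x else 0, fun x => ?_, fun g => ?_⟩
  · dsimp only
    rw [Finset.sum_eq_single x, if_pos rfl]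
    · intro x' _ hx
      rw [if_neg]
      intro h
      exact hx (eq_of_heq (Sigma.mk.inj h).2).symm
    · intro hx
      exact absurd (Finset.mem_univ x) hx
  · simp only [Finset.sum_mul]
    rw [Finset.sum_comm]
    refine Finset.sum_congr rfl fun x _ => ?_
    rw [Finset.sum_eq_single (⟨l, x⟩ : Σ l, T l), if_pos rfl]
    · intro y _ hy
      rw [if_neg hy, zero_mul]
    · intro hx
      exact absurd (Finset.mem_univ _) hx

/-- Stable representations: the coefficients are a Fourier matrix with scaled columns. PROOF. `pd_stable`, `pd_power` for every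
`l`; `V z e` is a multiple `κ e` of `U ^ e` (`schur_one` for `V'` of `hV` times `U ^ e`, and conversely), so
`Y z ⟨l, (r, q)⟩ e * κ e = (y_l ^ e) r q`, for all `e : Fin p` (all belong to `PK d z`: `Eqv.trans`), `κ e ≠ 0`.
`Two.rows` and `mult_one` (all powers: `y_l ^ p = 1`): every `A.P l j` is a subsingleton, so `y_l` is a number `s l` with
`s l ^ p = 1` where `A.P l j` has an element. `χ ⟨l, _⟩ (ofAdd x) = s l ^ x.val` is a character of `ZMod p`; for different `l` they
are different (`Two.rows` with `v` the difference of two basis vectors). `FB` for `Multiplicative (ZMod p)`,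
`Bx.transpose`, `Bx.submatrix`, `Bx.scale`. -/
theorem pY_stable [Finite G] [Finite H] [∀ z, Fintype (PK d (S := S) z)] (hι : Function.Injective ι)
    (hp : p.Prime) (A : Ad ι S) (V : ∀ z : S.I × S.I, PK d z → Matrix (S.D z.1) (S.D z.2) ℂ)
    (V' : ∀ z : S.I × S.I, PK d z → Matrix (S.D z.2) (S.D z.1) ℂ)
    (h1 : ∀ z e, V z e * V' z e = 1) (h2 : ∀ z e, V' z e * V z e = 1)
    (hV : ∀ (z : S.I × S.I) (e : PK d z) h, S.π z.1 h * V z e = V z e * S.π z.2 ((d.α ^ ((e : Fin p) : ℕ)) h))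
    (Y : ∀ z : S.I × S.I, Matrix (Σ l, A.P l z.1 × A.P l z.2) (PK d z) ℂ) (hT : Two A (pW d V) Y)
    (hY : ∀ (z : S.I × S.I) (l : A.I) (r : A.P l z.1) (q : A.P l z.2) (e : PK d z) a b,
      A.ρ l (d.g ^ ((e : Fin p) : ℕ)) ⟨z.1, (a, r)⟩ ⟨z.2, (b, q)⟩ = Y z ⟨l, (r, q)⟩ e * V z e a b)
    {w s : ℝ} {t : ℕ} (ht : 1 ≤ t) (hFB : FB w s t (Multiplicative (ZMod p))) (j : S.I)
    (hj : Eqv S d.α j j) : Bx w s t (Y (j, j)) := by
  classical
  obtain ⟨U, U', hU1, hU2, hU, hUp⟩ := pd_stable d hι hp j hj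
  have hUe : ∀ e : ℕ, U ^ e * U' ^ e = 1 := by
    intro e
    have hc : Commute U U' := by
      rw [Commute, SemiconjBy, hU1, hU2]
    rw [← hc.mul_pow, hU1, one_pow]
  have hUe' : ∀ e : ℕ, U' ^ e * U ^ e = 1 := by
    intro e
    have hc : Commute U' U := by
      rw [Commute, SemiconjBy, hU1, hU2]
    rw [← hc.mul_pow, hU2, one_pow]
  have hfull : ∀ e : Fin p, Eqv S (fun h => (d.α ^ (e : ℕ)) h) j j := fun e =>
    ⟨U ^ (e : ℕ), U' ^ (e : ℕ), hUe e, hUe' e, prE_pow d hU e⟩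
  have hc : ∀ e : PK d (S := S) (j, j), ∃ c : ℂ, c ≠ 0 ∧ U ^ ((e : Fin p) : ℕ) = c • V (j, j) e :=
    fun e => prE_scal (h1 (j, j) e) (h2 (j, j) e) (hUe _) (hV (j, j) e) (prE_pow d hU _)
  choose c hc0 hc using hc
  have hy : ∀ l, ∃ y : Matrix (A.P l j) (A.P l j) ℂ, y ^ p = 1 ∧
      ∀ (e : ℕ) a b r q, A.ρ l (d.g ^ e) ⟨j, (a, r)⟩ ⟨j, (b, q)⟩ = (y ^ e) r q * (U ^ e) a b :=
    fun l => pd_power d A j U U' hU1 hU2 hU hUp l
  choose y hyp hy using hy
  have hYe : ∀ (l : A.I) (r q : A.P l j) (e : PK d (S := S) (j, j)),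
      Y (j, j) ⟨l, (r, q)⟩ e = (y l ^ ((e : Fin p) : ℕ)) r q * c e := by
    intro l r q e
    obtain ⟨a, b, hab⟩ := prE_entry (h1 (j, j) e)
    apply mul_right_cancel₀ hab
    have e1 := hY (j, j) l r q e a b
    rw [← e1]
    refine (hy l _ a b r q).trans ?_
    rw [hc e, Matrix.smul_apply, smul_eq_mul, mul_assoc]
  -- the rows
  have hrows : ∀ v : (Σ l, A.P l j × A.P l j) → ℂ,
      (∀ e : Fin p, ∑ x, v x * (y x.1 ^ (e : ℕ)) x.2.1 x.2.2 = 0) → v = 0 := by
    intro v hv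
    refine Two.rows A (pW d V) Y hT (j, j) v fun e => ?_
    have e1 : ∀ x : (Σ l, A.P l j × A.P l j), v x * Y (j, j) x e =
        (v x * (y x.1 ^ ((e : Fin p) : ℕ)) x.2.1 x.2.2) * c e := by
      rintro ⟨l, r, q⟩
      rw [hYe, mul_assoc]
    refine (Finset.sum_congr rfl fun x _ => e1 x).trans ?_
    rw [← Finset.sum_mul, hv, zero_mul]
  have hsub : ∀ l, Subsingleton (A.P l j) := by
    intro l
    refine mult_one (y l) fun v hv => ?_
    obtain ⟨u, hu1, hu2⟩ := prE_sum (T := fun l => A.P l j × A.P l j) l v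
    have hu0 : u = 0 := hrows u fun e => by
      rw [hu2 fun x => (y x.1 ^ (e : ℕ)) x.2.1 x.2.2]
      exact hv e
    funext x
    rw [← hu1 x, hu0]
    rfl
  have hs : ∀ x : (Σ l, A.P l j × A.P l j), ∀ e : ℕ,
      (y x.1 ^ e) x.2.1 x.2.2 = (y x.1 x.2.1 x.2.1) ^ e := by
    intro x e
    haveI := hsub x.1
    exact prE_one _ _ _ _
  obtain ⟨σ, hσ⟩ : ∃ σ : (Σ l, A.P l j × A.P l j) → ℂ, σ = fun x => y x.1 x.2.1 x.2.1 := ⟨_, rfl⟩
  have hs' : ∀ x : (Σ l, A.P l j × A.P l j), ∀ e : ℕ, (y x.1 ^ e) x.2.1 x.2.2 = σ x ^ e := by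
    intro x e
    rw [hs, hσ]
  have hσp : ∀ x, σ x ^ p = 1 := by
    intro x
    haveI := hsub x.1
    rw [← hs' x p, hyp, Subsingleton.elim x.2.2 x.2.1, Matrix.one_apply_eq]
  have hσinj : Function.Injective σ := by
    intro x x' hx
    by_contra hne
    have hv := hrows (Pi.single x 1 - Pi.single x' 1) fun e => by
      have e2 : ∀ (x₀ : Σ l, A.P l j × A.P l j), ∑ z, (Pi.single x₀ (1 : ℂ) :
          (Σ l, A.P l j × A.P l j) → ℂ) z * (y z.1 ^ (e : ℕ)) z.2.1 z.2.2 = σ x₀ ^ (e : ℕ) := by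
        intro x₀
        rw [Finset.sum_eq_single x₀, Pi.single_eq_same, one_mul, hs']
        · intro z _ hz
          rw [Pi.single_eq_of_ne hz, zero_mul]
        · intro h0
          exact absurd (Finset.mem_univ _) h0
      simp only [Pi.sub_apply, sub_mul, Finset.sum_sub_distrib]
      rw [e2, e2, hx, sub_self]
    have h3 := congrFun hv x
    rw [Pi.sub_apply, Pi.single_eq_same, Pi.single_eq_of_ne hne, sub_zero, Pi.zero_apply] at h3
    exact one_ne_zero h3
  haveI : NeZero p := ⟨hp.ne_zero⟩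
  have hpow : ∀ x (n : ℕ), σ x ^ (n % p) = σ x ^ n := fun x n => (pow_eq_pow_mod n (hσp x)).symm
  have hB := hFB (Σ l, A.P l j × A.P l j)
    (fun x m => σ x ^ (Multiplicative.toAdd m).val) (fun x => by
      rw [toAdd_one, ZMod.val_zero, pow_zero]) (fun x v w => by
      rw [toAdd_mul, ZMod.val_add, hpow, pow_add]) (fun x x' hx => by
      apply hσinj
      have h3 := congrFun hx (Multiplicative.ofAdd 1)
      dsimp only at h3
      rw [toAdd_ofAdd, ZMod.val_one'' hp.ne_one, pow_one, pow_one] at h3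
      exact h3)
  obtain ⟨g, hg⟩ : ∃ g : PK d (S := S) (j, j) → Multiplicative (ZMod p),
      g = fun e : PK d (S := S) (j, j) => Multiplicative.ofAdd ((e.1 : ℕ) : ZMod p) := ⟨_, rfl⟩
  have hval : ∀ e : PK d (S := S) (j, j), (Multiplicative.toAdd (g e)).val = (e.1 : ℕ) := by
    intro e
    rw [hg, toAdd_ofAdd, ZMod.val_natCast_of_lt e.1.2]
  have hginj : Function.Injective g := by
    intro e e' he
    apply Subtype.ext
    apply Fin.ext
    rw [← hval e, ← hval e', he]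
  have hB2 := (hB.transpose.submatrix (f := id) (g := g) Function.injective_id hginj).scale ht
    (fun _ => 1) c
  have hfin : Y (j, j) = Matrix.of fun (x : Σ l, A.P l j × A.P l j) (e : PK d (S := S) (j, j)) =>
      (1 : ℂ) * ((Matrix.of fun (v : Multiplicative (ZMod p)) (x : Σ l, A.P l j × A.P l j) =>
        σ x ^ (Multiplicative.toAdd v).val)ᵀ.submatrix id g) x e * c e := by
    ext x e
    obtain ⟨l, r, q⟩ := x
    rw [hYe, Matrix.of_apply, Matrix.submatrix_apply, Matrix.transpose_apply, Matrix.of_apply,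
      hval, one_mul]
    congr 1
    exact hs' ⟨l, (r, q)⟩ _
  rw [hfin]
  exact hB2

end MP0775d3.Ox
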