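import Pool.Agent.Lib.MP_0775d3_lc.Ox.LUp
import Pool.Agent.Lib.MP_0775d3_lc.Ox.LowA
import Pool.Agent.Lib.MP_0775d3_lc.Ox.Fin
import Pool.Agent.Lib.MP_0775d3_lc.Om.AlgInd
import Pool.Agent.Lib.MP_0775d3_lc.Om.OmegaA

/-! Project OX: the theorem for sequences of groups. -/

set_option linter.unusedSectionVars false
set_option linter.unusedVariables false

namespace MP0775d3.Ox

open Matrix MP0775d3.Cf MP0775d3.Om MP0775d3.Sl2 MP0775d3.Kron

/-- The generic matrices `(f (x * y⁻¹))` of the groups `G k` are rigid in the sense of Valiant, for all large `k`. -/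
def GenRigid (G : ℕ → Type) [∀ k, Group (G k)] [∀ k, Fintype (G k)] : Prop :=
  ∃ ε : ℝ, 0 < ε ∧ ∃ δ : ℝ, 0 < δ ∧ ∃ k₀ : ℕ, ∀ k, k₀ ≤ k → ∀ f : G k → ℂ,
    AlgebraicIndependent ℚ f → ∀ R S : Matrix (G k) (G k) ℂ,
    (Matrix.of fun x y => f (x * y⁻¹)) = R + S → (R.rank : ℝ) ≤ ε * Fintype.card (G k) →
    (Fintype.card (G k) : ℝ) ^ (1 + δ) < (({p | S p.1 p.2 ≠ 0} : Set (G k × G k)).ncard : ℝ)

/-- For every `δ` the groups are in the class with boxes `|G k| ^ δ` and a fixed level. -/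
def AllTame (G : ℕ → Type) [∀ k, Group (G k)] [∀ k, Fintype (G k)] : Prop :=
  ∀ δ : ℝ, 0 < δ → ∃ l k₀ : ℕ, ∀ k, k₀ ≤ k → Tame ((Fintype.card (G k) : ℝ) ^ δ) l (G k)

/-- PROOF. `fac_tame δ` with `η = δ / 2`. -/
theorem allTame_of_fac (G : ℕ → Type) [∀ k, Group (G k)] [∀ k, Fintype (G k)]
    (hG : Filter.Tendsto (fun k => Fintype.card (G k)) Filter.atTop Filter.atTop)
    (h : ∀ η : ℝ, 0 < η → ∃ k₀ : ℕ, ∀ k, k₀ ≤ k → Fac ((Fintype.card (G k) : ℝ) ^ η) (G k)) :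
    AllTame G := by
  intro δ hδ
  obtain ⟨L, n₀, h1⟩ := fac_tame δ hδ
  obtain ⟨k₀, h2⟩ := h (δ / 2) (by positivity)
  obtain ⟨k₁, h3⟩ := Filter.eventually_atTop.1 (Filter.tendsto_atTop.1 hG n₀)
  exact ⟨L, max k₀ k₁, fun k hk => h1 (G k) (h3 k ((le_max_right _ _).trans hk))
    (h2 k ((le_max_left _ _).trans hk))⟩

private theorem seqB_pow (C : ℝ) {a b : ℝ} (hab : a < b) :
    ∃ n₀ : ℕ, ∀ n : ℕ, n₀ ≤ n → 1 ≤ n → C * (n : ℝ) ^ a ≤ (n : ℝ) ^ b := by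
  have h1 : Filter.Tendsto (fun n : ℕ => (n : ℝ) ^ (b - a)) Filter.atTop Filter.atTop :=
    (tendsto_rpow_atTop (sub_pos.2 hab)).comp tendsto_natCast_atTop_atTop
  obtain ⟨n₀, hn₀⟩ := Filter.eventually_atTop.1 (Filter.tendsto_atTop.1 h1 C)
  refine ⟨n₀, fun n hn hn1 => ?_⟩
  have h2 : (0 : ℝ) < n := by exact_mod_cast hn1
  have h3 : (n : ℝ) ^ b = (n : ℝ) ^ (b - a) * (n : ℝ) ^ a := by
    rw [← Real.rpow_add h2, sub_add_cancel]
  rw [h3]
  exact mul_le_mul_of_nonneg_right (hn₀ n hn) (Real.rpow_nonneg h2.le a)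

/-- PROOF. `group_low_mass` with `e = n ^ ε`, `m = ε n`: if `R.rank ≤ (ε / 8) n` then `S` has at least
`n ^ (ε (ω - 2)) * (ε n / 2) / 4` nonzero entries, more than `n ^ (1 + ε (ω - 2) / 2)` for large `n`. -/
theorem genRigid_of (G : ℕ → Type) [∀ k, Group (G k)] [∀ k, Fintype (G k)]
    (hG : Filter.Tendsto (fun k => Fintype.card (G k)) Filter.atTop Filter.atTop)
    (hω : 2 < omega) (ε : ℝ) (hε : 0 < ε) (k₀ : ℕ)
    (h : ∀ k, k₀ ≤ k → Mass (G k) ((Fintype.card (G k) : ℝ) ^ ε) (ε * Fintype.card (G k))) :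
    GenRigid G := by
  have hω' : 0 < omega - 2 := by linarith
  obtain ⟨n₁, hn₁⟩ := seqB_pow (16 / ε) (show 1 + ε * (omega - 2) / 2 < 1 + ε * (omega - 2) by
    have : 0 < ε * (omega - 2) := by positivity
    linarith)
  obtain ⟨k₁, hk₁⟩ := Filter.eventually_atTop.1 (Filter.tendsto_atTop.1 hG (n₁ + 1))
  refine ⟨ε / 8, by positivity, ε * (omega - 2) / 2, by positivity, max k₀ k₁,
    fun k hk f hf R S hRS hr => ?_⟩
  have hc := hk₁ k ((le_max_right _ _).trans hk)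
  have h1 := hn₁ (Fintype.card (G k)) (by omega) (by omega)
  obtain ⟨n, hn⟩ : ∃ n : ℝ, n = (Fintype.card (G k) : ℝ) := ⟨_, rfl⟩
  have hn1 : 1 ≤ n := by
    rw [hn]
    exact_mod_cast (show 1 ≤ Fintype.card (G k) by omega)
  have hn0 : 0 < n := by linarith
  have h2 := group_low_mass (G k) f hf R S hRS ((Fintype.card (G k) : ℝ) ^ ε)
    (ε * Fintype.card (G k)) (Real.rpow_nonneg (Nat.cast_nonneg _) _)
    (h k ((le_max_left _ _).trans hk))
  rw [← hn] at h1 h2 hr ⊢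
  have h3 : (n ^ ε) ^ (omega - 2) = n ^ (ε * (omega - 2)) := by
    rw [← Real.rpow_mul hn0.le]
  have h4 : n ^ (1 + ε * (omega - 2)) = n * n ^ (ε * (omega - 2)) := by
    rw [Real.rpow_add hn0, Real.rpow_one]
  have h5 : 0 < n ^ (1 + ε * (omega - 2) / 2) := Real.rpow_pos_of_pos hn0 _
  have h6 : 0 < n ^ (ε * (omega - 2)) := Real.rpow_pos_of_pos hn0 _
  rw [h3] at h2
  rw [h4, div_mul_eq_mul_div, div_le_iff₀ hε] at h1
  have h7 : n ^ (ε * (omega - 2)) * (ε * n / 2) ≤ n ^ (ε * (omega - 2)) * (ε * n - 4 * R.rank) :=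
    mul_le_mul_of_nonneg_left (by linarith) h6.le
  nlinarith

private theorem seqB_ncard {X : Type} [Fintype X] {S : Matrix X X ℂ} {s : ℝ} (h : Sparse S s) :
    (({p | S p.1 p.2 ≠ 0} : Set (X × X)).ncard : ℝ) ≤ Fintype.card X * s := by
  classical
  have h1 : ({p | S p.1 p.2 ≠ 0} : Set (X × X)).ncard =
      ∑ x, ({y | S x y ≠ 0} : Set X).ncard := by
    have e1 : ({p | S p.1 p.2 ≠ 0} : Set (X × X)) =
        ((Finset.univ.filter fun p : X × X => S p.1 p.2 ≠ 0 : Finset (X × X)) :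
          Set (X × X)) := by
      ext p
      simp
    have e2 : ∀ x, ({y | S x y ≠ 0} : Set X) =
        ((Finset.univ.filter fun y : X => S x y ≠ 0 : Finset X) : Set X) := by
      intro x
      ext y
      simp
    rw [e1, Set.ncard_coe_finset, Finset.card_filter, Fintype.sum_prod_type]
    refine Finset.sum_congr rfl fun x _ => ?_
    rw [e2, Set.ncard_coe_finset, Finset.card_filter]
  rw [h1]
  push_cast
  calc ∑ x, (({y | S x y ≠ 0} : Set X).ncard : ℝ) ≤ ∑ _x : X, s :=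
        Finset.sum_le_sum fun x _ => h.1 x
    _ = Fintype.card X * s := by
        rw [Finset.sum_const, nsmul_eq_mul, Finset.card_univ]

/-- A decomposition of a generic matrix contradicts rigidity. -/
private theorem seqB_false {G : Type} [Group G] [Fintype G] {ε δ r : ℝ} (hδ : 0 < δ)
    (h1 : 1 ≤ Fintype.card G)
    (h : ∀ f : G → ℂ, AlgebraicIndependent ℚ f → ∀ R S : Matrix G G ℂ,
      (Matrix.of fun x y => f (x * y⁻¹)) = R + S → (R.rank : ℝ) ≤ ε * Fintype.card G →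
      (Fintype.card G : ℝ) ^ (1 + δ) < (({p | S p.1 p.2 ≠ 0} : Set (G × G)).ncard : ℝ))
    (hr : r ≤ ε * Fintype.card G)
    (hD : ∀ f : G → ℂ, Dec (groupMat f) r ((Fintype.card G : ℝ) ^ (δ / 2))) : False := by
  classical
  obtain ⟨f, hf⟩ := exists_algInd G
  obtain ⟨R, S, h3, h4, h5⟩ := hD f
  have h6 := h f hf R S h3 (h4.trans hr)
  have h7 := seqB_ncard h5
  have hn1 : (1 : ℝ) ≤ (Fintype.card G : ℝ) := by exact_mod_cast h1
  have hn0 : (0 : ℝ) < (Fintype.card G : ℝ) := by linarith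
  have h8 : (Fintype.card G : ℝ) * (Fintype.card G : ℝ) ^ (δ / 2) ≤
      (Fintype.card G : ℝ) ^ (1 + δ) := by
    calc (Fintype.card G : ℝ) * (Fintype.card G : ℝ) ^ (δ / 2)
        = (Fintype.card G : ℝ) ^ (1 + δ / 2) := by
          rw [Real.rpow_add hn0, Real.rpow_one]
      _ ≤ _ := Real.rpow_le_rpow_of_exponent_le hn1 (by linarith)
  linarith

private theorem seqB_rank {n : ℕ} {ε γ : ℝ} (hε : 0 < ε) (hn1 : 1 ≤ n)
    (h : 1 / ε * (n : ℝ) ^ (0 : ℝ) ≤ (n : ℝ) ^ γ) : (n : ℝ) ^ (1 - γ) ≤ ε * n := by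
  have hn0 : (0 : ℝ) < n := by exact_mod_cast hn1
  rw [Real.rpow_zero, mul_one, div_le_iff₀ hε] at h
  have h2 : (n : ℝ) = (n : ℝ) ^ (1 - γ) * (n : ℝ) ^ γ := by
    rw [← Real.rpow_add hn0, sub_add_cancel, Real.rpow_one]
  have h3 : 0 ≤ (n : ℝ) ^ (1 - γ) := Real.rpow_nonneg hn0.le _
  calc (n : ℝ) ^ (1 - γ) = (n : ℝ) ^ (1 - γ) * 1 := (mul_one _).symm
    _ ≤ (n : ℝ) ^ (1 - γ) * ((n : ℝ) ^ γ * ε) := mul_le_mul_of_nonneg_left h h3
    _ = ε * ((n : ℝ) ^ (1 - γ) * (n : ℝ) ^ γ) := by ring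
    _ = ε * n := by rw [← h2]

/-- PROOF. Given `ε`, `δ` of `GenRigid`; `2 ≤ omega`; if `omega = 2`, `up_tame (δ / 2)` (the sum over the rows of the sparsity is
`n * n ^ (δ / 2)`), with an algebraically independent `f` (Om/AlgInd) and large `k`. -/
theorem omega_of_genRigid (G : ℕ → Type) [∀ k, Group (G k)] [∀ k, Fintype (G k)]
    (hG : Filter.Tendsto (fun k => Fintype.card (G k)) Filter.atTop Filter.atTop)
    (hT : AllTame G) (h : GenRigid G) : 2 < omega := by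
  classical
  rcases two_le_omega.lt_or_eq with h2 | h2
  · exact h2
  exfalso
  obtain ⟨ε, hε, δ, hδ, k₀, h⟩ := h
  obtain ⟨l, k₁, hT1⟩ := hT (δ / 2 / 8) (by positivity)
  obtain ⟨γ, hγ, n₀, hu⟩ := up_tame h2.symm (δ / 2) (by positivity) l
  obtain ⟨n₁, hn₁⟩ := seqB_pow (1 / ε) hγ
  obtain ⟨k₂, hk₂⟩ := Filter.eventually_atTop.1 (Filter.tendsto_atTop.1 hG (n₀ + n₁ + 1))
  have hc := hk₂ (k₀ + k₁ + k₂) (by omega)
  exact seqB_false hδ (by omega) (h (k₀ + k₁ + k₂) (by omega))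
    (seqB_rank hε (by omega) (hn₁ _ (by omega) (by omega)))
    (hu (G (k₀ + k₁ + k₂)) (by omega) (hT1 _ (by omega)))

/-- PROOF. Given `ε`, `δ` of `GenRigid`. Otherwise, with `η` the smaller one of `ε / 2` and `δ / 32`, there are arbitrarily large `k`
with `¬ Mass (G k) (n ^ η) (η n)`, hence `¬ Mass (G k) (n ^ (δ / 2 / 16)) (η n)` (`Mass.mono`); `up_low (δ / 2)` with `m = η n`: rank at most
`η n + n ^ (1 - γ) ≤ ε n`. -/
theorem mass_of_genRigid (G : ℕ → Type) [∀ k, Group (G k)] [∀ k, Fintype (G k)]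
    (hG : Filter.Tendsto (fun k => Fintype.card (G k)) Filter.atTop Filter.atTop)
    (hT : AllTame G) (h : GenRigid G) : ∃ ε : ℝ, 0 < ε ∧ ∃ k₀ : ℕ, ∀ k, k₀ ≤ k →
      Mass (G k) ((Fintype.card (G k) : ℝ) ^ ε) (ε * Fintype.card (G k)) := by
  classical
  obtain ⟨ε, hε, δ, hδ, k₀, h⟩ := h
  by_contra hcon
  push Not at hcon
  obtain ⟨η, hη⟩ : ∃ η, η = min (ε / 2) (δ / 32) := ⟨_, rfl⟩
  have hη0 : 0 < η := hη ▸ lt_min (by positivity) (by positivity)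
  have hη1 : η ≤ ε / 2 := hη ▸ min_le_left _ _
  have hη2 : η ≤ δ / 32 := hη ▸ min_le_right _ _
  obtain ⟨l, k₁, hT1⟩ := hT (δ / 2 / 16) (by positivity)
  obtain ⟨γ, hγ, n₀, hu⟩ := up_low (δ / 2) (by positivity) l
  obtain ⟨n₁, hn₁⟩ := seqB_pow (1 / (ε / 2)) hγ
  obtain ⟨k₂, hk₂⟩ := Filter.eventually_atTop.1 (Filter.tendsto_atTop.1 hG (n₀ + n₁ + 1))
  obtain ⟨k, hk, hM⟩ := hcon η hη0 (k₀ + k₁ + k₂)
  have hc := hk₂ k (by omega)
  have hn1 : (1 : ℝ) ≤ (Fintype.card (G k) : ℝ) := by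
    exact_mod_cast (show 1 ≤ Fintype.card (G k) by omega)
  have hM' : ¬ Mass (G k) ((Fintype.card (G k) : ℝ) ^ (δ / 2 / 16))
      (η * Fintype.card (G k)) := fun hm =>
    hM (hm.mono (Real.rpow_le_rpow_of_exponent_le hn1 (by linarith)) le_rfl)
  have hr : (Fintype.card (G k) : ℝ) ^ (1 - γ) ≤ ε / 2 * Fintype.card (G k) :=
    seqB_rank (by positivity) (by omega) (hn₁ _ (by omega) (by omega))
  have hr2 : η * (Fintype.card (G k) : ℝ) + (Fintype.card (G k) : ℝ) ^ (1 - γ) ≤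
      ε * Fintype.card (G k) := by nlinarith
  exact seqB_false hδ (by omega) (h k (by omega)) hr2
    (hu (G k) (by omega) (hT1 k (by omega)) _ hM')

/-- The generic matrices of the groups `G k` are rigid if and only if `ω > 2` and the representations of dimension at least
`n ^ ε` make up a positive proportion of the regular representation. -/
theorem genRigid_iff (G : ℕ → Type) [∀ k, Group (G k)] [∀ k, Fintype (G k)]
    (hG : Filter.Tendsto (fun k => Fintype.card (G k)) Filter.atTop Filter.atTop)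
    (hT : AllTame G) : GenRigid G ↔ 2 < omega ∧ ∃ ε : ℝ, 0 < ε ∧ ∃ k₀ : ℕ, ∀ k, k₀ ≤ k →
      Mass (G k) ((Fintype.card (G k) : ℝ) ^ ε) (ε * Fintype.card (G k)) :=
  ⟨fun h => ⟨omega_of_genRigid G hG hT h, mass_of_genRigid G hG hT h⟩,
    fun ⟨h1, ε, h2, k₀, h3⟩ => genRigid_of G hG h1 ε h2 k₀ h3⟩

end MP0775d3.Ox
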