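import Pool.Agent.Lib.MP_0775d3_lc.Ox.Seq

/-! Project OX: the theorem for sequences of groups, all matrices. -/

set_option linter.unusedSectionVars false
set_option linter.unusedVariables false

namespace MP0775d3.Ox

open Matrix MP0775d3.Cf MP0775d3.Om MP0775d3.Sl2 MP0775d3.Kron

/-- There are functions `f k` on the groups `G k` whose matrices `(f (x * y⁻¹))` are rigid in the sense of Valiant. -/
def SomeRigid (G : ℕ → Type) [∀ k, Group (G k)] [∀ k, Fintype (G k)] : Prop :=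
  ∃ ε : ℝ, 0 < ε ∧ ∃ δ : ℝ, 0 < δ ∧ ∃ k₀ : ℕ, ∀ k, k₀ ≤ k → ∃ f : G k → ℂ,
    ∀ R S : Matrix (G k) (G k) ℂ,
    (Matrix.of fun x y => f (x * y⁻¹)) = R + S → (R.rank : ℝ) ≤ ε * Fintype.card (G k) →
    (Fintype.card (G k) : ℝ) ^ (1 + δ) < (({p | S p.1 p.2 ≠ 0} : Set (G k × G k)).ncard : ℝ)

theorem GenRigid.some {G : ℕ → Type} [∀ k, Group (G k)] [∀ k, Fintype (G k)] (h : GenRigid G) :
    SomeRigid G := by
  obtain ⟨ε, hε, δ, hδ, k₀, h⟩ := h
  refine ⟨ε, hε, δ, hδ, k₀, fun k hk => ?_⟩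
  obtain ⟨f, hf⟩ := exists_algInd (G k)
  exact ⟨f, h k hk f hf⟩

private theorem seqC_pow (C : ℝ) {a b : ℝ} (hab : a < b) :
    ∃ n₀ : ℕ, ∀ n : ℕ, n₀ ≤ n → 1 ≤ n → C * (n : ℝ) ^ a ≤ (n : ℝ) ^ b := by
  have h1 : Filter.Tendsto (fun n : ℕ => (n : ℝ) ^ (b - a)) Filter.atTop Filter.atTop :=
    (tendsto_rpow_atTop (sub_pos.2 hab)).comp tendsto_natCast_atTop_atTop
  obtain ⟨n₀, hn₀⟩ := Filter.eventually_atTop.1 (Filter.tendsto_atTop.1 h1 C)
  refine ⟨n₀, fun n hn hn1 => ?_⟩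
  have h2 : (0 : ℝ) < n := by exact_mod_cast hn1
  have h3 : (n : ℝ) ^ b = (n : ℝ) ^ (b - a) * (n : ℝ) ^ a := by
    rw [← Real.rpow_add h2, sub_add_cancel]
  rw [h3]
  exact mul_le_mul_of_nonneg_right (hn₀ n hn) (Real.rpow_nonneg h2.le a)

private theorem seqC_ncard {X : Type} [Fintype X] {S : Matrix X X ℂ} {s : ℝ} (h : Sparse S s) :
    (({p | S p.1 p.2 ≠ 0} : Set (X × X)).ncard : ℝ) ≤ Fintype.card X * s := by
  classical
  have h1 : ({p | S p.1 p.2 ≠ 0} : Set (X × X)).ncard =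
      ∑ x, ({y | S x y ≠ 0} : Set X).ncard := by
    have e1 : ({p | S p.1 p.2 ≠ 0} : Set (X × X)) =
        ((Finset.univ.filter fun p : X × X => S p.1 p.2 ≠ 0 : Finset (X × X)) :
          Set (X × X)) := by
      ext p
      simp
    have e2 : ∀ x, ({y | S x y ≠ 0} : Set X) =
        ((Finset.univ.filter fun y : X => S x y ≠ 0 : Finset X) : Set X) := by
      intro x
      ext y
      simp
    rw [e1, Set.ncard_coe_finset, Finset.card_filter, Fintype.sum_prod_type]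
    refine Finset.sum_congr rfl fun x _ => ?_
    rw [e2, Set.ncard_coe_finset, Finset.card_filter]
  rw [h1]
  push_cast
  calc ∑ x, (({y | S x y ≠ 0} : Set X).ncard : ℝ) ≤ ∑ _x : X, s :=
        Finset.sum_le_sum fun x _ => h.1 x
    _ = Fintype.card X * s := by
        rw [Finset.sum_const, nsmul_eq_mul, Finset.card_univ]

/-- A decomposition of all matrices contradicts rigidity. -/
private theorem seqC_false {G : Type} [Group G] [Fintype G] {ε δ r : ℝ} (hδ : 0 < δ)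
    (h1 : 1 ≤ Fintype.card G)
    (h : ∃ f : G → ℂ, ∀ R S : Matrix G G ℂ,
      (Matrix.of fun x y => f (x * y⁻¹)) = R + S → (R.rank : ℝ) ≤ ε * Fintype.card G →
      (Fintype.card G : ℝ) ^ (1 + δ) < (({p | S p.1 p.2 ≠ 0} : Set (G × G)).ncard : ℝ))
    (hr : r ≤ ε * Fintype.card G)
    (hD : ∀ f : G → ℂ, Dec (groupMat f) r ((Fintype.card G : ℝ) ^ (δ / 2))) : False := by
  classical
  obtain ⟨f, hf⟩ := h
  obtain ⟨R, S, h3, h4, h5⟩ := hD f
  have h6 := hf R S h3 (h4.trans hr)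
  have h7 := seqC_ncard h5
  have hn1 : (1 : ℝ) ≤ (Fintype.card G : ℝ) := by exact_mod_cast h1
  have hn0 : (0 : ℝ) < (Fintype.card G : ℝ) := by linarith
  have h8 : (Fintype.card G : ℝ) * (Fintype.card G : ℝ) ^ (δ / 2) ≤
      (Fintype.card G : ℝ) ^ (1 + δ) := by
    calc (Fintype.card G : ℝ) * (Fintype.card G : ℝ) ^ (δ / 2)
        = (Fintype.card G : ℝ) ^ (1 + δ / 2) := by
          rw [Real.rpow_add hn0, Real.rpow_one]
      _ ≤ _ := Real.rpow_le_rpow_of_exponent_le hn1 (by linarith)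
  linarith

private theorem seqC_rank {n : ℕ} {ε γ : ℝ} (hε : 0 < ε) (hn1 : 1 ≤ n)
    (h : 1 / ε * (n : ℝ) ^ (0 : ℝ) ≤ (n : ℝ) ^ γ) : (n : ℝ) ^ (1 - γ) ≤ ε * n := by
  have hn0 : (0 : ℝ) < n := by exact_mod_cast hn1
  rw [Real.rpow_zero, mul_one, div_le_iff₀ hε] at h
  have h2 : (n : ℝ) = (n : ℝ) ^ (1 - γ) * (n : ℝ) ^ γ := by
    rw [← Real.rpow_add hn0, sub_add_cancel, Real.rpow_one]
  have h3 : 0 ≤ (n : ℝ) ^ (1 - γ) := Real.rpow_nonneg hn0.le _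
  calc (n : ℝ) ^ (1 - γ) = (n : ℝ) ^ (1 - γ) * 1 := (mul_one _).symm
    _ ≤ (n : ℝ) ^ (1 - γ) * ((n : ℝ) ^ γ * ε) := mul_le_mul_of_nonneg_left h h3
    _ = ε * ((n : ℝ) ^ (1 - γ) * (n : ℝ) ^ γ) := by ring
    _ = ε * n := by rw [← h2]

/-- PROOF. Given `ε`, `δ` of `SomeRigid`; `2 ≤ omega`; if `omega = 2`, `up_tame (δ / 2)` (the sum over the rows of the sparsity is
`n * n ^ (δ / 2)`), with an algebraically independent `f` (Om/AlgInd) and large `k`. -/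
theorem omega_of_someRigid (G : ℕ → Type) [∀ k, Group (G k)] [∀ k, Fintype (G k)]
    (hG : Filter.Tendsto (fun k => Fintype.card (G k)) Filter.atTop Filter.atTop)
    (hT : AllTame G) (h : SomeRigid G) : 2 < omega := by
  classical
  rcases two_le_omega.lt_or_eq with h2 | h2
  · exact h2
  exfalso
  obtain ⟨ε, hε, δ, hδ, k₀, h⟩ := h
  obtain ⟨l, k₁, hT1⟩ := hT (δ / 2 / 8) (by positivity)
  obtain ⟨γ, hγ, n₀, hu⟩ := up_tame h2.symm (δ / 2) (by positivity) l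
  obtain ⟨n₁, hn₁⟩ := seqC_pow (1 / ε) hγ
  obtain ⟨k₂, hk₂⟩ := Filter.eventually_atTop.1 (Filter.tendsto_atTop.1 hG (n₀ + n₁ + 1))
  have hc := hk₂ (k₀ + k₁ + k₂) (by omega)
  exact seqC_false hδ (by omega) (h (k₀ + k₁ + k₂) (by omega))
    (seqC_rank hε (by omega) (hn₁ _ (by omega) (by omega)))
    (hu (G (k₀ + k₁ + k₂)) (by omega) (hT1 _ (by omega)))

/-- PROOF. Given `ε`, `δ` of `SomeRigid`. Otherwise, with `η` the smaller one of `ε / 2` and `δ / 32`, there are arbitrarily large `k`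
with `¬ Mass (G k) (n ^ η) (η n)`, hence `¬ Mass (G k) (n ^ (δ / 2 / 16)) (η n)` (`Mass.mono`); `up_low (δ / 2)` with `m = η n`: rank at most
`η n + n ^ (1 - γ) ≤ ε n`. -/
theorem mass_of_someRigid (G : ℕ → Type) [∀ k, Group (G k)] [∀ k, Fintype (G k)]
    (hG : Filter.Tendsto (fun k => Fintype.card (G k)) Filter.atTop Filter.atTop)
    (hT : AllTame G) (h : SomeRigid G) : ∃ ε : ℝ, 0 < ε ∧ ∃ k₀ : ℕ, ∀ k, k₀ ≤ k →
      Mass (G k) ((Fintype.card (G k) : ℝ) ^ ε) (ε * Fintype.card (G k)) := by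
  classical
  obtain ⟨ε, hε, δ, hδ, k₀, h⟩ := h
  by_contra hcon
  push Not at hcon
  obtain ⟨η, hη⟩ : ∃ η, η = min (ε / 2) (δ / 32) := ⟨_, rfl⟩
  have hη0 : 0 < η := hη ▸ lt_min (by positivity) (by positivity)
  have hη1 : η ≤ ε / 2 := hη ▸ min_le_left _ _
  have hη2 : η ≤ δ / 32 := hη ▸ min_le_right _ _
  obtain ⟨l, k₁, hT1⟩ := hT (δ / 2 / 16) (by positivity)
  obtain ⟨γ, hγ, n₀, hu⟩ := up_low (δ / 2) (by positivity) l
  obtain ⟨n₁, hn₁⟩ := seqC_pow (1 / (ε / 2)) hγ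
  obtain ⟨k₂, hk₂⟩ := Filter.eventually_atTop.1 (Filter.tendsto_atTop.1 hG (n₀ + n₁ + 1))
  obtain ⟨k, hk, hM⟩ := hcon η hη0 (k₀ + k₁ + k₂)
  have hc := hk₂ k (by omega)
  have hn1 : (1 : ℝ) ≤ (Fintype.card (G k) : ℝ) := by
    exact_mod_cast (show 1 ≤ Fintype.card (G k) by omega)
  have hM' : ¬ Mass (G k) ((Fintype.card (G k) : ℝ) ^ (δ / 2 / 16))
      (η * Fintype.card (G k)) := fun hm =>
    hM (hm.mono (Real.rpow_le_rpow_of_exponent_le hn1 (by linarith)) le_rfl)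
  have hr : (Fintype.card (G k) : ℝ) ^ (1 - γ) ≤ ε / 2 * Fintype.card (G k) :=
    seqC_rank (by positivity) (by omega) (hn₁ _ (by omega) (by omega))
  have hr2 : η * (Fintype.card (G k) : ℝ) + (Fintype.card (G k) : ℝ) ^ (1 - γ) ≤
      ε * Fintype.card (G k) := by nlinarith
  exact seqC_false hδ (by omega) (h k (by omega)) hr2
    (hu (G k) (by omega) (hT1 k (by omega)) _ hM')

/-- The condition on the representations: those of dimension at least `n ^ ε` make up a positive proportion of the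
regular representation. -/
def BigReps (G : ℕ → Type) [∀ k, Group (G k)] [∀ k, Fintype (G k)] : Prop :=
  ∃ ε : ℝ, 0 < ε ∧ ∃ k₀ : ℕ, ∀ k, k₀ ≤ k →
    Mass (G k) ((Fintype.card (G k) : ℝ) ^ ε) (ε * Fintype.card (G k))

theorem someRigid_iff (G : ℕ → Type) [∀ k, Group (G k)] [∀ k, Fintype (G k)]
    (hG : Filter.Tendsto (fun k => Fintype.card (G k)) Filter.atTop Filter.atTop)
    (hT : AllTame G) : (SomeRigid G ↔ 2 < omega ∧ BigReps G) ∧
      (GenRigid G ↔ 2 < omega ∧ BigReps G) :=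
  ⟨⟨fun h => ⟨omega_of_someRigid G hG hT h, mass_of_someRigid G hG hT h⟩,
    fun ⟨h1, ε, h2, k₀, h3⟩ => (genRigid_of G hG h1 ε h2 k₀ h3).some⟩,
  ⟨fun h => ⟨omega_of_someRigid G hG hT h.some, mass_of_someRigid G hG hT h.some⟩,
    fun ⟨h1, ε, h2, k₀, h3⟩ => genRigid_of G hG h1 ε h2 k₀ h3⟩⟩

end MP0775d3.Ox
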