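import Pool.Agent.Lib.MP_0775d3_lc.Ox.Defs
import Pool.Agent.Lib.MP_0775d3_lc.Om.FdReps

/-! Project OX: calculus of `Sys` and `FS`. -/

set_option linter.unusedSectionVars false
set_option linter.unusedVariables false

namespace MP0775d3.Ox

open Matrix MP0775d3.Cf MP0775d3.Om MP0775d3.Sl2

variable {G H : Type} [Group G] [Group H]

private theorem SysA_tr (S : Sys G) [DecidableEq G] (g : G) :
    ∑ i, (Fintype.card (S.D i) : ℂ) * (S.π i g).trace = if g = 1 then (Nat.card G : ℂ) else 0 := by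
  by_cases hg : g = 1
  · rw [if_pos hg, hg, ← S.sq]
    push_cast
    refine Finset.sum_congr rfl fun i _ => ?_
    rw [S.one i, Matrix.trace_one]
  · rw [if_neg hg]
    exact S.tr g hg

private theorem SysA_inner (S : Sys G) (g h : G) (i : S.I) :
    ∑ b : S.D i × S.D i, ((Fintype.card (S.D i) : ℂ) / Nat.card G) * S.π i g⁻¹ b.2 b.1 *
      S.π i h b.1 b.2 =
      (Nat.card G : ℂ)⁻¹ * ((Fintype.card (S.D i) : ℂ) * (S.π i (g⁻¹ * h)).trace) := by
  rw [S.mul, Matrix.trace, Fintype.sum_prod_type, Finset.sum_comm, Finset.mul_sum, Finset.mul_sum]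
  refine Finset.sum_congr rfl fun r _ => ?_
  rw [diag_apply, Matrix.mul_apply, Finset.mul_sum, Finset.mul_sum]
  refine Finset.sum_congr rfl fun k _ => ?_
  ring

/-- PROOF. The entry at `(g, h)` is `∑ i, |D i| / |G| * trace (π i (g⁻¹ * h))`; `tr`, `sq`, `one`. -/
theorem Sys.F'_mul_F [Finite G] [DecidableEq G] (S : Sys G) : S.F' * S.F = 1 := by
  have hG : (Nat.card G : ℂ) ≠ 0 := by
    exact_mod_cast Nat.card_pos.ne'
  ext g h
  rw [Matrix.mul_apply, Fintype.sum_sigma]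
  have e1 : ∀ i, ∑ b : S.D i × S.D i, S.F' g ⟨i, b⟩ * S.F ⟨i, b⟩ h =
      (Nat.card G : ℂ)⁻¹ * ((Fintype.card (S.D i) : ℂ) * (S.π i (g⁻¹ * h)).trace) :=
    fun i => SysA_inner S g h i
  rw [Finset.sum_congr rfl fun i _ => e1 i, ← Finset.mul_sum, SysA_tr, Matrix.one_apply]
  by_cases hgh : g = h
  · rw [if_pos hgh, hgh, if_pos (inv_mul_cancel h), inv_mul_cancel₀ hG]
  · have h2 : g⁻¹ * h ≠ 1 := fun h3 => hgh (inv_mul_eq_one.mp h3)
    rw [if_neg hgh, if_neg h2, mul_zero]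

/-- PROOF. Square matrices (`sq`): from `F'_mul_F` and `Matrix.mul_eq_one_comm_of_equiv` or a rank argument. -/
theorem Sys.F_mul_F' [Fintype G] (S : Sys G) : S.F * S.F' = 1 := by
  classical
  have hc : Fintype.card G = Fintype.card (Σ i, S.D i × S.D i) := by
    rw [Fintype.card_sigma, ← Nat.card_eq_fintype_card (α := G), ← S.sq]
    refine Finset.sum_congr rfl fun i _ => ?_
    rw [Fintype.card_prod]
  have e : G ≃ (Σ i, S.D i × S.D i) := Fintype.equivOfCardEq hc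
  exact (Matrix.mul_eq_one_comm_of_equiv e).mp S.F'_mul_F

/-- PROOF. `F'` is `Fᵀ`, scaled, with rows permuted by the inverse, columns by the swap. -/
theorem Sys.bx' (S : Sys G) {w s : ℝ} {t : ℕ} (ht : 1 ≤ t) (h : Bx w s t S.F) : Bx w s t S.F' := by
  have h1 := (h.transpose.submatrix (f := fun g : G => g⁻¹)
    (g := fun z : (Σ i, S.D i × S.D i) => (⟨z.1, z.2.2, z.2.1⟩ : Σ i, S.D i × S.D i))
    inv_injective (by
      rintro ⟨i, a, b⟩ ⟨j, c, d⟩ h
      simp only [Sigma.mk.injEq] at h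
      obtain ⟨rfl, h⟩ := h
      simp only [heq_eq_eq, Prod.mk.injEq] at h
      obtain ⟨rfl, rfl⟩ := h
      rfl)).scale ht (fun _ => 1) (fun z => ((Fintype.card (S.D z.1) : ℂ) / Nat.card G))
  have e : S.F' = Matrix.of fun (g : G) (z : Σ i, S.D i × S.D i) =>
      (1 : ℂ) * (S.Fᵀ.submatrix (fun g : G => g⁻¹)
        (fun z : (Σ i, S.D i × S.D i) => (⟨z.1, z.2.2, z.2.1⟩ : Σ i, S.D i × S.D i))) g z *
        ((Fintype.card (S.D z.1) : ℂ) / Nat.card G) := by
    ext g z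
    change ((Fintype.card (S.D z.1) : ℂ) / Nat.card G) * S.π z.1 g⁻¹ z.2.2 z.2.1 =
      (1 : ℂ) * S.π z.1 g⁻¹ z.2.2 z.2.1 * ((Fintype.card (S.D z.1) : ℂ) / Nat.card G)
    ring
  rw [e]
  exact h1

/-- PROOF. `fd_of_reps`. -/
theorem FS.fd [Fintype G] {w s : ℝ} {t : ℕ} (ht : 1 ≤ t) (h : FS w s t G) : FD w s t G := by
  classical
  obtain ⟨S, hS⟩ := h
  refine fd_of_reps S.D S.π S.one S.mul (fun g => ?_) ht hS.transpose
  rw [SysA_tr, Nat.card_eq_fintype_card]

theorem FS.mono {w s w' s' : ℝ} {t t' : ℕ} (h : FS w s t G) (hw : w ≤ w') (hs : s ≤ s')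
    (ht : t ≤ t') (hs' : 1 ≤ s') : FS w' s' t' G := by
  obtain ⟨S, hS⟩ := h
  exact ⟨S, hS.mono hw hs ht hs'⟩

private def SysA_cg (e : G ≃* H) (S : Sys G) : Sys H where
  I := S.I
  D := S.D
  π i x := S.π i (e.symm x)
  one i := by rw [map_one, S.one]
  mul i g h := by rw [map_mul, S.mul]
  sq := by
    rw [S.sq]
    exact Nat.card_congr e.toEquiv
  tr g hg := S.tr _ fun h1 => hg (by rw [← e.apply_symm_apply g, h1, map_one])

theorem FS.congr {w s : ℝ} {t : ℕ} (e : G ≃* H) (h : FS w s t G) : FS w s t H := by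
  obtain ⟨S, hS⟩ := h
  exact ⟨SysA_cg e S, hS.submatrix (f := id) (g := fun x : H => e.symm x) Function.injective_id
    e.symm.injective⟩

end MP0775d3.Ox
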