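import Pool.Agent.Lib.MP_0775d3_lc.Ox.SysA

/-! Project OX: representations with multiplicities, matrix units. -/

set_option linter.unusedSectionVars false
set_option linter.unusedVariables false

namespace MP0775d3.Ox

open Matrix MP0775d3.Cf MP0775d3.Om

variable {G : Type} [Group G]

/-- Entries of `rep`. -/
theorem Sys.rep_same (S : Sys G) (P : S.I → Type) [∀ i, DecidableEq (P i)] (g : G) (i : S.I)
    (a b : S.D i) (p q : P i) : S.rep P g ⟨i, (a, p)⟩ ⟨i, (b, q)⟩ = if p = q then S.π i g a b else 0 := by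
  rw [Sys.rep, blockDiagonal'_apply_eq, kroneckerMap_apply, Matrix.one_apply, mul_ite, mul_one,
    mul_zero]

theorem Sys.rep_ne (S : Sys G) (P : S.I → Type) [∀ i, DecidableEq (P i)] (g : G) {i j : S.I}
    (h : i ≠ j) (a : S.D i × P i) (b : S.D j × P j) : S.rep P g ⟨i, a⟩ ⟨j, b⟩ = 0 := by
  rw [Sys.rep, blockDiagonal'_apply_ne _ _ _ h]

theorem Sys.rep_one (S : Sys G) (P : S.I → Type) [∀ i, DecidableEq (P i)] : S.rep P 1 = 1 := by
  have h1 : (fun i => Matrix.kroneckerMap (· * ·) (S.π i 1) (1 : Matrix (P i) (P i) ℂ)) = 1 := by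
    funext i
    rw [S.one]
    exact Matrix.one_kronecker_one
  rw [Sys.rep, h1, blockDiagonal'_one]

theorem Sys.rep_mul (S : Sys G) (P : S.I → Type) [∀ i, Fintype (P i)] [∀ i, DecidableEq (P i)]
    (g h : G) : S.rep P (g * h) = S.rep P g * S.rep P h := by
  have h1 : (fun i => Matrix.kroneckerMap (· * ·) (S.π i (g * h)) (1 : Matrix (P i) (P i) ℂ)) =
      fun i => Matrix.kroneckerMap (· * ·) (S.π i g) (1 : Matrix (P i) (P i) ℂ) *
        Matrix.kroneckerMap (· * ·) (S.π i h) (1 : Matrix (P i) (P i) ℂ) := by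
    funext i
    rw [S.mul]
    have h2 := Matrix.mul_kronecker_mul (S.π i g) (S.π i h) (1 : Matrix (P i) (P i) ℂ)
      (1 : Matrix (P i) (P i) ℂ)
    rw [Matrix.one_mul] at h2
    exact h2
  rw [Sys.rep, h1, blockDiagonal'_mul]
  rfl

/-- PROOF. `∑ i, |P i| * trace (π i g)`. -/
theorem Sys.rep_trace (S : Sys G) (P : S.I → Type) [∀ i, Fintype (P i)] [∀ i, DecidableEq (P i)]
    (g : G) : (S.rep P g).trace = ∑ i, (Fintype.card (P i) : ℂ) * (S.π i g).trace := by
  rw [Sys.rep, Matrix.trace_blockDiagonal']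
  refine Finset.sum_congr rfl fun i _ => ?_
  have h1 := Matrix.trace_kronecker (S.π i g) (1 : Matrix (P i) (P i) ℂ)
  rw [Matrix.trace_one] at h1
  rw [mul_comm]
  exact h1

/-- Isotypic projections: the element `F' · ⟨i, (a, b)⟩` of the group algebra acts as a matrix unit. PROOF. `F_mul_F'`. -/
theorem Sys.unit_apply [Fintype G] (S : Sys G) (i j : S.I) (a b : S.D i) (c d : S.D j) :
    ∑ g, S.F' g ⟨i, (a, b)⟩ * S.π j g c d =
      if (⟨j, (c, d)⟩ : Σ i, S.D i × S.D i) = ⟨i, (a, b)⟩ then 1 else 0 := by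
  have h1 := congrFun (congrFun S.F_mul_F' ⟨j, (c, d)⟩) ⟨i, (a, b)⟩
  rw [Matrix.mul_apply, Matrix.one_apply] at h1
  rw [← h1]
  exact Finset.sum_congr rfl fun g _ => mul_comm _ _

/-- Square: an invertible matrix. PROOF. `Matrix.rank` or `Matrix.toLin'` and `LinearEquiv.finrank_eq`. -/
theorem card_of_inv {ι κ : Type} [Fintype ι] [Fintype κ] [DecidableEq ι] [DecidableEq κ]
    {A : Matrix ι κ ℂ} {B : Matrix κ ι ℂ} (h : A * B = 1) (h' : B * A = 1) :
    Fintype.card ι = Fintype.card κ := by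
  have h1 := Matrix.trace_mul_comm A B
  rw [h, h', Matrix.trace_one, Matrix.trace_one] at h1
  exact_mod_cast h1

end MP0775d3.Ox
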