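import Pool.Agent.Lib.MP_0775d3_lc.Ox.WDefs

/-! Project OX: one double coset. The layers are box circuits. -/

set_option linter.unusedSectionVars false
set_option linter.unusedVariables false

namespace MP0775d3.Ox

open Matrix MP0775d3.Cf

variable {H D : Type} [Group H] [Group D] {S : Sys H} {T : Sys D} {u v : D →* H}
  (bu : Br u S T) (bv : Br v S T) {R : Type} [Fintype R] [DecidableEq R] (r : R → H)
  (φ : ∀ k, (Σ i, S.D i × bu.M i k) → R × T.D k)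

private theorem wA_kron {X X' Y : Type} [DecidableEq Y] (A : Matrix X X' ℂ) :
    Matrix.kroneckerMap (· * ·) A (1 : Matrix Y Y ℂ) = Matrix.of fun (p : X × Y) (q : X' × Y) =>
      if p.2 = q.2 then A p.1 q.1 else 0 := by
  ext p q
  rw [Matrix.kroneckerMap_apply, Matrix.one_apply, Matrix.of_apply, mul_ite, mul_one, mul_zero]

private theorem wA_bx {X X' Y : Type} [Fintype Y] [DecidableEq Y] {A : Matrix X X' ℂ} {w s : ℝ}
    {t : ℕ} (h : Bx w s t A) (ht : 1 ≤ t) :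
    Bx (Fintype.card Y * w) s t (Matrix.kroneckerMap (· * ·) A (1 : Matrix Y Y ℂ)) := by
  rw [wA_kron]
  exact h.tensor_one ht

private theorem wA_base (S : Sys H) {Z : S.I → Type} [∀ i, Fintype (Z i)]
    (A : ∀ i, Matrix (Z i) (S.D i) ℂ) (hZ : ∀ i, Fintype.card (Z i) = Fintype.card (S.D i))
    (R : Type) [Fintype R] [DecidableEq R] [Nonempty R] {K b N s : ℝ} {t : ℕ} (hK : 1 ≤ K)
    (hb : 1 ≤ b) (hMM : MM K b N s t) (hN : (Nat.card H * Fintype.card R : ℝ) ≤ N) :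
    Bx (K * (Nat.card H * Fintype.card R)) s t (Matrix.blockDiagonal' fun i =>
      Matrix.kroneckerMap (· * ·) (A i) (1 : Matrix (S.D i × R) (S.D i × R) ℂ)) := by
  have hR : (1 : ℝ) ≤ Fintype.card R := by exact_mod_cast Fintype.card_pos
  have hle : ∀ i, (Fintype.card (S.D i) : ℝ) * Fintype.card (S.D i × R) ≤ N := by
    intro i
    have h1 : Fintype.card (S.D i) * Fintype.card (S.D i) ≤ Nat.card H := by
      rw [← S.sq]
      exact Finset.single_le_sum (f := fun i => Fintype.card (S.D i) * Fintype.card (S.D i))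
        (fun j _ => Nat.zero_le _) (Finset.mem_univ i)
    have h2 : (Fintype.card (S.D i) : ℝ) * Fintype.card (S.D i) ≤ Nat.card H := by
      exact_mod_cast h1
    rw [Fintype.card_prod, Nat.cast_mul, ← mul_assoc]
    exact (mul_le_mul_of_nonneg_right h2 (by linarith)).trans hN
  have hcb : ∀ i, (Fintype.card (S.D i) : ℝ) ≤ b * Fintype.card (S.D i × R) := by
    intro i
    rw [Fintype.card_prod, Nat.cast_mul]
    have h0 : (0 : ℝ) ≤ Fintype.card (S.D i) := Nat.cast_nonneg _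
    have h3 : (Fintype.card (S.D i) : ℝ) * 1 ≤ Fintype.card (S.D i) * Fintype.card R :=
      mul_le_mul_of_nonneg_left hR h0
    have h4 : (0 : ℝ) ≤ Fintype.card (S.D i) * Fintype.card R := h0.trans (by linarith)
    nlinarith [mul_le_mul_of_nonneg_right hb h4]
  have h1 := bx_sigma (B := fun i => Matrix.kroneckerMap (· * ·) (A i)
    (1 : Matrix (S.D i × R) (S.D i × R) ℂ)) (s := s) (t := t)
    (w := fun i => K * ((Fintype.card (S.D i) : ℝ) * Fintype.card (S.D i × R)))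
    (fun i => hMM (Z i) (S.D i) (S.D i × R) (Fintype.card (S.D i)) (by rw [hZ]) le_rfl (hcb i)
      (hle i) (A i))
  have h2 : ∑ i, K * ((Fintype.card (S.D i) : ℝ) * Fintype.card (S.D i × R)) =
      K * (Nat.card H * Fintype.card R) := by
    rw [← Finset.mul_sum, ← S.sq, Nat.cast_sum, Finset.sum_mul]
    refine congrArg _ (Finset.sum_congr rfl fun i _ => ?_)
    rw [Fintype.card_prod, Nat.cast_mul, Nat.cast_mul, mul_assoc]
  rw [h2] at h1
  exact h1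

/-- PROOF. `Bx.tensor_one` (the entry of the Kronecker product is `if p.2 = q.2 then S.F p.1 q.1 else 0`). -/
theorem mA_bx {w s : ℝ} {t : ℕ} (ht : 1 ≤ t) (hF : Bx w s t S.F) :
    Bx (Fintype.card R * w) s t (mA S R) :=
  wA_bx hF ht

/-- PROOF. `bx_sigma`, `Bx.submatrix` (both maps injective), `MM` for the block `i` with `c = |S.D i|`, `E = S.D i × R`
(`Br.card` in the form `card_of_inv (bu.inv i)`; `c ≤ b * |E|` as `1 ≤ b` and `R` has an element; `c * |E| ≤ |H| * |R|`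
by `S.sq`). -/
theorem mB_bx [Nonempty R] {K b N s : ℝ} {t : ℕ} (hK : 1 ≤ K) (hb : 1 ≤ b) (hMM : MM K b N s t)
    (hN : (Nat.card H * Fintype.card R : ℝ) ≤ N) :
    Bx (K * (Nat.card H * Fintype.card R)) s t (mB bu (R := R)) := by
  refine (wA_base S (fun i => (bu.B i)ᵀ)
    (fun i => (card_of_inv (bu.inv i) (bu.inv' i)).symm) R hK hb hMM hN).submatrix ?_ ?_
  · rintro ⟨i, a, x, ρ⟩ ⟨j, a', x', ρ'⟩ h
    simp only [Sigma.mk.injEq] at h
    obtain ⟨rfl, h⟩ := h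
    simp only [heq_eq_eq, Prod.mk.injEq] at h
    obtain ⟨rfl, rfl, rfl⟩ := h
    rfl
  · rintro ⟨⟨i, a, x⟩, ρ⟩ ⟨⟨j, a', x'⟩, ρ'⟩ h
    simp only [Sigma.mk.injEq] at h
    obtain ⟨rfl, h⟩ := h
    simp only [heq_eq_eq, Prod.mk.injEq] at h
    obtain ⟨rfl, rfl, rfl⟩ := h
    rfl

/-- PROOF. `Sys.bx'`, `Bx.tensor_one`, `Bx.submatrix`: the two maps are injective (`hφ`). -/
theorem mC_bx (hφ : ∀ k, Function.Injective (φ k)) {w s : ℝ} {t : ℕ} (ht : 1 ≤ t)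
    (hF : Bx w s t T.F) : Bx (Fintype.card R * Fintype.card R * w) s t (mC bu φ) := by
  have h1 := wA_bx (Y := R × R) (T.bx' ht hF) ht
  rw [Fintype.card_prod, Nat.cast_mul] at h1
  refine h1.submatrix ?_ ?_
  · rintro ⟨⟨d, ρ⟩, ρ'⟩ ⟨⟨d₁, ρ₁⟩, ρ₁'⟩ h
    simp only [Prod.mk.injEq] at h
    obtain ⟨rfl, rfl, rfl⟩ := h
    rfl
  · rintro ⟨i, a, ⟨k, c, m⟩, ρ⟩ ⟨i', a', ⟨k', c', m'⟩, ρ'⟩ h
    simp only [Prod.mk.injEq, Sigma.mk.injEq] at h
    obtain ⟨⟨rfl, h⟩, rfl, h2⟩ := h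
    simp only [heq_eq_eq, Prod.mk.injEq] at h
    obtain ⟨h1, rfl⟩ := h
    have h3 := hφ k (Prod.ext h2 h1)
    simp only [Sigma.mk.injEq] at h3
    obtain ⟨rfl, h3⟩ := h3
    simp only [heq_eq_eq, Prod.mk.injEq] at h3
    obtain ⟨rfl, rfl⟩ := h3
    rfl

/-- PROOF. `Bx.tensor_one`, `Bx.submatrix` (`hr`). -/
theorem mD_bx (hr : Function.Injective fun p : D × R => v p.1 * r p.2) {w s : ℝ} {t : ℕ}
    (ht : 1 ≤ t) (hF : Bx w s t S.F) : Bx (Fintype.card R * w) s t (mD S v r) := by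
  refine (wA_bx (Y := R) hF ht).submatrix Function.injective_id ?_
  rintro ⟨p, ρ⟩ ⟨p', ρ'⟩ h
  simp only [Prod.mk.injEq] at h
  have h1 : p = p' := hr h.1
  rw [h1, h.2]

/-- PROOF. As `mB_bx`. -/
theorem mE_bx [Nonempty R] {K b N s : ℝ} {t : ℕ} (hK : 1 ≤ K) (hb : 1 ≤ b) (hMM : MM K b N s t)
    (hN : (Nat.card H * Fintype.card R : ℝ) ≤ N) :
    Bx (K * (Nat.card H * Fintype.card R)) s t (mE bv (R := R)) := by
  refine (wA_base S (fun i => bv.B' i)
    (fun i => (card_of_inv (bv.inv i) (bv.inv' i)).symm) R hK hb hMM hN).submatrix ?_ ?_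
  · rintro ⟨i, ⟨x, a⟩, ρ⟩ ⟨j, ⟨x', a'⟩, ρ'⟩ h
    simp only [Sigma.mk.injEq] at h
    obtain ⟨rfl, h⟩ := h
    simp only [heq_eq_eq, Prod.mk.injEq] at h
    obtain ⟨rfl, rfl, rfl⟩ := h
    rfl
  · rintro ⟨⟨i, a, x⟩, ρ⟩ ⟨⟨j, a', x'⟩, ρ'⟩ h
    simp only [Sigma.mk.injEq] at h
    obtain ⟨rfl, h⟩ := h
    simp only [heq_eq_eq, Prod.mk.injEq] at h
    obtain ⟨rfl, rfl, rfl⟩ := h
    rfl

end MP0775d3.Ox
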